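import Pool.Agent.H727R4.CLT.Stmts

set_option autoImplicit false
open MeasureTheory ProbabilityTheory Filter Topology Set Polynomial
open scoped ENNReal NNReal
open Pool.Agent.Helper553.Orth

namespace Pool.Agent.H727R4.CLT

theorem dd_pos (i : ℕ) : 0 < dd i := by unfold dd; positivity

theorem dd_anti {i j : ℕ} (h : i ≤ j) : dd j ≤ dd i := by
  unfold dd
  exact pow_le_pow_of_le_one (by norm_num) (by norm_num) (by omega)

theorem dd_le (i : ℕ) : dd i ≤ 1 / 4096 := by
  have := dd_anti (Nat.zero_le i)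
  have e : dd 0 = 1 / 4096 := by unfold dd; norm_num
  rw [e] at this
  exact this

theorem away_mono {w : ℕ → ℝ} {M : ℕ} {c : ℕ → ℝ} {a a' t : ℝ} (h : a' ≤ a)
    (hA : Away w M c a t) : Away w M c a' t := by
  intro i hi
  have hd := dd_pos i
  have h1 : a' * dd i ≤ a * dd i := mul_le_mul_of_nonneg_right h hd.le
  rcases hA i hi with h2 | h2
  · left; linarith
  · right; linarith

theorem away_near {w : ℕ → ℝ} {M : ℕ} {c : ℕ → ℝ} {a a' t u δ : ℝ}
    (hA : Away w M c a t) (htu : |u - t| ≤ δ) (hδ : δ ≤ (a - a') * dd M) (haa : a' ≤ a) :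
    Away w M c a' u := by
  intro i hi
  have hd := dd_pos i
  have h1 : (a - a') * dd M ≤ (a - a') * dd i :=
    mul_le_mul_of_nonneg_left (dd_anti hi.le) (by linarith)
  rw [abs_le] at htu
  rcases hA i hi with h2 | h2
  · left; linarith [htu.2]
  · right; linarith [htu.1]

theorem natDegree_qq (x d : ℝ) : (qq x d).natDegree ≤ 2 := by
  unfold qq
  apply natDegree_mul_le.trans
  rw [natDegree_X_sub_C, natDegree_X_sub_C]

theorem natDegree_WW {m : ℕ} (x : Fin m → ℝ) (d : ℝ) : (WW x d).natDegree ≤ 2 * m := by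
  unfold WW
  apply (natDegree_prod_le _ _).trans
  calc ∑ i : Fin m, (qq (x i) d).natDegree ≤ ∑ _i : Fin m, 2 :=
        Finset.sum_le_sum (fun i _ => natDegree_qq _ _)
    _ = 2 * m := by rw [Finset.sum_const, Finset.card_univ, Fintype.card_fin, smul_eq_mul]; ring

theorem natDegree_Wr {m : ℕ} (x : Fin m → ℝ) (d : ℝ) (k : Fin m) :
    (Wr x d k).natDegree ≤ 2 * (m - 1) := by
  unfold Wr
  apply (natDegree_prod_le _ _).trans
  calc ∑ i ∈ Finset.univ.erase k, (qq (x i) d).natDegree ≤ ∑ _i ∈ Finset.univ.erase k, 2 :=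
        Finset.sum_le_sum (fun i _ => natDegree_qq _ _)
    _ = 2 * (m - 1) := by
        rw [Finset.sum_const, Finset.card_erase_of_mem (Finset.mem_univ k), Finset.card_univ,
          Fintype.card_fin, smul_eq_mul]; ring

theorem natDegree_fr {m : ℕ} (x : Fin m → ℝ) (d : ℝ) (s : ℕ) (q : ℕ → ℝ[X]) (τ : ℝ)
    (hq : ∀ j ≤ s, (q j).natDegree ≤ s) (i : Unit ⊕ (Fin s ⊕ (Fin m ⊕ Fin m))) :
    (fr x d s q τ i).natDegree ≤ s + 2 * m := by
  have hW := natDegree_WW x d
  have loc : ∀ (k : Fin m) (c : ℝ), (C τ * (q s * (Wr x d k * (X - C c)))).natDegree ≤ s + 2 * m := by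
    intro k c
    have hm : 1 ≤ m := by have := k.2; omega
    have h1 := natDegree_Wr x d k
    have h2 : (Wr x d k * (X - C c)).natDegree ≤ 2 * (m - 1) + 1 := by
      refine natDegree_mul_le.trans ?_
      rw [natDegree_X_sub_C]; omega
    have h3 : (q s * (Wr x d k * (X - C c))).natDegree ≤ s + (2 * (m - 1) + 1) :=
      natDegree_mul_le.trans (by have := hq s le_rfl; omega)
    have h4 := natDegree_C_mul_le τ (q s * (Wr x d k * (X - C c)))
    omega
  rcases i with u | (j | (k | k))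
  · show (WW x d * q s).natDegree ≤ _
    refine natDegree_mul_le.trans ?_
    have := hq s le_rfl
    omega
  · show (WW x d * q j).natDegree ≤ _
    refine natDegree_mul_le.trans ?_
    have := hq j j.2.le
    omega
  · exact loc k _
  · exact loc k _

theorem WW_ne {m : ℕ} (x : Fin m → ℝ) (d : ℝ) : WW x d ≠ 0 := by
  unfold WW qq
  rw [Finset.prod_ne_zero_iff]
  intro k _
  exact mul_ne_zero (X_sub_C_ne_zero _) (X_sub_C_ne_zero _)

theorem WW_bound {m : ℕ} (x : Fin m → ℝ) (d : ℝ) (hx : ∀ k, x k ∈ Icc (0 : ℝ) 1)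
    (hxd : ∀ k, x k + d ∈ Icc (0 : ℝ) 1) (t : ℝ) (ht : t ∈ Icc (0 : ℝ) 1) :
    |(WW x d).eval t| ≤ 1 := by
  unfold WW
  rw [eval_prod, Finset.abs_prod]
  apply Finset.prod_le_one
  · intro k _; exact abs_nonneg _
  · intro k _
    unfold qq
    rw [eval_mul, abs_mul]
    simp only [eval_sub, eval_X, eval_C]
    have h1 : |t - x k| ≤ 1 := by
      rw [abs_le]; constructor <;> linarith [ht.1, ht.2, (hx k).1, (hx k).2]
    have h2 : |t - (x k + d)| ≤ 1 := by
      rw [abs_le]; constructor <;> linarith [ht.1, ht.2, (hxd k).1, (hxd k).2]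
    exact mul_le_one₀ h1 (abs_nonneg _) h2

theorem Wr_lower {m : ℕ} (x : Fin m → ℝ) (d : ℝ) (hd : 0 < d)
    (hsep : ∀ k l, k ≠ l → 2 * d ≤ |x k - x l|) (k : Fin m) (hm : 1 ≤ m)
    (hprod : (1 / 100 : ℝ) ^ m ≤ ∏ l ∈ Finset.univ.erase k, |x k - x l|) (t : ℝ)
    (ht : t = x k ∨ t = x k + d) :
    (1 / 20000 : ℝ) ^ m ≤ |(Wr x d k).eval t| := by
  unfold Wr
  rw [eval_prod, Finset.abs_prod]
  have h1 : ∀ l ∈ Finset.univ.erase k, (1 / 2) * (|x k - x l| * |x k - x l|) ≤ |(qq (x l) d).eval t| := by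
    intro l hl
    have hkl : k ≠ l := (Finset.mem_erase.mp hl).1.symm
    have hs := hsep k l hkl
    have ha : 0 ≤ |x k - x l| := abs_nonneg _
    have e : |(qq (x l) d).eval t| = |t - x l| * |t - (x l + d)| := by
      unfold qq
      rw [eval_mul, abs_mul]
      simp only [eval_sub, eval_X, eval_C]
    rw [e]
    rcases ht with rfl | rfl
    · have h2 : (1 / 2) * |x k - x l| ≤ |x k - (x l + d)| := by
        have h3 := abs_sub_abs_le_abs_sub (x k - x l) d
        have e2 : x k - x l - d = x k - (x l + d) := by ring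
        rw [e2, abs_of_pos hd] at h3
        linarith
      calc (1 / 2) * (|x k - x l| * |x k - x l|) = |x k - x l| * ((1 / 2) * |x k - x l|) := by ring
        _ ≤ |x k - x l| * |x k - (x l + d)| := mul_le_mul_of_nonneg_left h2 ha
    · have e3 : x k + d - (x l + d) = x k - x l := by ring
      rw [e3]
      have h2 : (1 / 2) * |x k - x l| ≤ |x k + d - x l| := by
        have h3 := abs_sub_abs_le_abs_sub (x k - x l) (-d)
        have e2 : x k - x l - -d = x k + d - x l := by ring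
        rw [e2, abs_neg, abs_of_pos hd] at h3
        linarith
      calc (1 / 2) * (|x k - x l| * |x k - x l|) = ((1 / 2) * |x k - x l|) * |x k - x l| := by ring
        _ ≤ |x k + d - x l| * |x k - x l| := mul_le_mul_of_nonneg_right h2 ha
  refine le_trans ?_ (Finset.prod_le_prod (fun l _ => by positivity) h1)
  rw [Finset.prod_mul_distrib, Finset.prod_mul_distrib, Finset.prod_const,
    Finset.card_erase_of_mem (Finset.mem_univ k), Finset.card_univ, Fintype.card_fin]
  have h2 : (1 / 2 : ℝ) ^ m ≤ (1 / 2 : ℝ) ^ (m - 1) :=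
    pow_le_pow_of_le_one (by norm_num) (by norm_num) (by omega)
  have h3 : (0 : ℝ) < (1 / 100 : ℝ) ^ m := by positivity
  calc (1 / 20000 : ℝ) ^ m = (1 / 2 : ℝ) ^ m * ((1 / 100 : ℝ) ^ m * (1 / 100 : ℝ) ^ m) := by
        rw [← mul_pow, ← mul_pow]; norm_num
    _ ≤ _ := mul_le_mul h2 (mul_le_mul hprod hprod h3.le (h3.le.trans hprod)) (by positivity)
        (by positivity)

end Pool.Agent.H727R4.CLT
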