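import Pool.Agent.H727R4.CLT.Asm1

set_option autoImplicit false
open MeasureTheory ProbabilityTheory Filter Topology Set Polynomial
open scoped ENNReal NNReal
open Pool.Agent.Helper553.Orth

namespace Pool.Agent.H727R4.CLT

/-- Numerical choice of m. -/
theorem exists_m (C0 A1 cf ε0 δ : ℝ) (hC0 : 1000 ≤ C0) (hcf : 0 < cf) (hε0 : 0 < ε0) (hδ : 0 < δ)
    (K : ℕ) : ∃ m : ℕ, K ≤ m ∧ 1 ≤ m ∧ A1 ≤ C0 * (82 * m) ∧ ((C0 * (82 * m)) ^ 8)⁻¹ ≤ δ ∧
      2 * m * ((C0 * (82 * m)) ^ 180 * (69 / cf) * (1 / 2048) ^ m) < ε0 := by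
  have h1 : Tendsto (fun m : ℕ => C0 * (82 * (m : ℝ))) atTop atTop := by
    apply Tendsto.const_mul_atTop (by linarith)
    exact Tendsto.const_mul_atTop (by norm_num) tendsto_natCast_atTop_atTop
  have h2 : Tendsto (fun m : ℕ => ((C0 * (82 * (m : ℝ))) ^ 8)⁻¹) atTop (𝓝 0) :=
    ((tendsto_pow_atTop (by norm_num)).comp h1).inv_tendsto_atTop
  have h3 : Tendsto (fun m : ℕ => 2 * (m : ℝ) * ((C0 * (82 * m)) ^ 180 * (69 / cf) *
      (1 / 2048) ^ m)) atTop (𝓝 0) := by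
    have h4 := tendsto_pow_const_div_const_pow_of_one_lt 181 (by norm_num : (1 : ℝ) < 2048)
    have h5 := h4.const_mul (2 * (C0 * 82) ^ 180 * (69 / cf))
    rw [mul_zero] at h5
    refine h5.congr (fun m => ?_)
    rw [one_div, inv_pow, div_eq_mul_inv]
    ring
  have e1 := h1.eventually (eventually_ge_atTop A1)
  have e2 := h2.eventually (ge_mem_nhds hδ)
  have e3 := h3.eventually (gt_mem_nhds hε0)
  obtain ⟨m, hm⟩ := (((e1.and e2).and e3).and ((eventually_ge_atTop K).and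
    (eventually_ge_atTop 1))).exists
  exact ⟨m, hm.2.1, hm.2.2, hm.1.1.1, hm.1.1.2, hm.1.2⟩

theorem bump_zero {a h t : ℝ} (ht : t ∉ Icc a (a + h)) : bump a h t = 0 := indicator_of_notMem ht _

/-- Adding bumps to a thin density. -/
theorem thin_add {w : ℕ → ℝ} (hw : ∀ i, 0 < w i) {M : ℕ} {b : ℕ → ℝ} {η : ℝ} {f : ℝ → ℝ}
    (hT : Thin w M b η f) {m : ℕ} (x : Fin m → ℝ) (d : ℝ) (u : Fin m ⊕ Fin m → ℝ)
    (hu : ∀ a, 0 ≤ u a) (hx : ∀ a, nodeX x d a ∈ Icc (1 / 4 : ℝ) 1) {h : ℝ} (hh : 0 < h)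
    (hh' : ∀ i ∈ Finset.range (M + (m + m)), h ≤ w i)
    (hgi : Integrable (fun t => f t + ∑ a, u a * bump (nodeX x d a) h t) m01) :
    ∃ b' : ℕ → ℝ, Thin w (M + (m + m)) b' η (fun t => f t + ∑ a, u a * bump (nodeX x d a) h t) := by
  classical
  let e : Fin m ⊕ Fin m ≃ Fin (m + m) := finSumFinEquiv
  let b' : ℕ → ℝ := fun i => if i < M then b i else
    if hi : i - M < m + m then nodeX x d (e.symm ⟨i - M, hi⟩) else 1
  have hnn : ∀ t, 0 ≤ ∑ a, u a * bump (nodeX x d a) h t := fun t =>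
    Finset.sum_nonneg (fun a _ => mul_nonneg (hu a) (bump_nonneg hh t))
  refine ⟨b', ⟨hgi, ?_, hT.hη, ?_, ?_, ?_⟩⟩
  · filter_upwards [hT.hf0] with t ht
    exact add_nonneg ht (hnn t)
  · filter_upwards [hT.hlow] with t ht ht'
    have := ht ht'
    have := hnn t
    linarith
  · intro i hi
    simp only [b']
    split_ifs with h1 h2
    · exact hT.hc i h1
    · exact hx _
    · constructor <;> norm_num
  · filter_upwards [hT.hsupp] with t ht ht1 ht2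
    have h1 : f t = 0 := by
      apply ht ht1
      intro i hi
      have := ht2 i (by omega)
      simp only [b', if_pos hi] at this
      exact this
    rw [h1, zero_add]
    apply Finset.sum_eq_zero
    intro a _
    have h2 : (M + (e a : ℕ)) < M + (m + m) := by
      have := (e a).2
      omega
    have h3 := ht2 _ h2
    have h4 : b' (M + (e a : ℕ)) = nodeX x d a := by
      simp only [b']
      rw [if_neg (by omega), dif_pos (by rw [Nat.add_sub_cancel_left]; exact (e a).2)]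
      congr 1
      rw [Equiv.symm_apply_eq]
      apply Fin.ext
      simp
    rw [h4] at h3
    rw [bump_zero, mul_zero]
    intro h5
    apply h3
    exact ⟨h5.1, h5.2.trans (by
      have := hh' (M + (e a : ℕ)) (Finset.mem_range.mpr h2)
      linarith)⟩

theorem VarGe.mono' {ι : Type} [Fintype ι] {φ : ι → ℝ[X]} {v w : ℝ} (h : VarGe φ v) (hw : w ≤ v) :
    VarGe φ w := fun c => (ENNReal.ofReal_le_ofReal hw).trans (h c)

/-- The main step, from the tasks. -/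
theorem step (hVar : TaskVar) (hDeg : TaskDeg) (hDom : TaskDom) (hC2 : TaskC2) (hGrow : TaskGrow)
    (hPos : TaskPos) (hON : TaskON) (hGram : TaskGram) (hSmear : TaskSmear) :
    ∃ (c : ℝ) (w : ℕ → ℝ), 0 < c ∧ (∀ i, 0 < w i) ∧ Step c w := by
  classical
  obtain ⟨c1, C0, hc1, hC0, hvar⟩ := hVar
  obtain ⟨w1, hw1, hdeg⟩ := hDeg
  obtain ⟨w2, hw2, hgrow⟩ := hGrow
  let w : ℕ → ℝ := fun i => min (min (w1 i) (w2 i)) (dd i)
  have hw : ∀ i, 0 < w i := fun i => lt_min (lt_min (hw1 i) (hw2 i)) (dd_pos i)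
  have hw1' : ∀ i, 0 < w i ∧ w i ≤ w1 i := fun i =>
    ⟨hw i, (min_le_left _ _).trans (min_le_left _ _)⟩
  have hw2' : ∀ i, 0 < w i ∧ w i ≤ w2 i := fun i =>
    ⟨hw i, (min_le_left _ _).trans (min_le_right _ _)⟩
  have hw3' : ∀ i, 0 < w i ∧ w i ≤ dd i := fun i => ⟨hw i, min_le_right _ _⟩
  refine ⟨c1 / 6724, w, by positivity, hw, ?_⟩
  intro M b η f hT ε0 hε0 K
  obtain ⟨S0, hS0⟩ := hdeg w hw1' M b η f hT
  obtain ⟨A1, hA1, hC2'⟩ := hC2 w M hw
  obtain ⟨cf, hcf, hgrow'⟩ := hgrow w hw2' M b η f hT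
  obtain ⟨m0, hm0⟩ := hPos w hw3' M b
  obtain ⟨m, hmK, hm1, hΛ1, hΛδ, hmass⟩ := exists_m C0 A1 cf ε0 (dd M / 1000) hC0 hcf hε0
    (by have := dd_pos M; positivity) (max (max m0 S0) K)
  have hmm0 : m0 ≤ m := (le_max_left _ _).trans ((le_max_left _ _).trans hmK)
  have hmS0 : S0 ≤ 40 * m := by
    have : S0 ≤ m := (le_max_right _ _).trans ((le_max_left _ _).trans hmK)
    omega
  have hKm : K ≤ m := (le_max_right _ _).trans hmK
  obtain ⟨x, hx1, hx2, hx3, hx4⟩ := hm0 m hmm0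
  have hmR : (1 : ℝ) ≤ m := by exact_mod_cast hm1
  obtain ⟨Λ, hΛ⟩ : ∃ Λ : ℝ, Λ = C0 * (82 * m) := ⟨_, rfl⟩
  rw [← hΛ] at hΛ1 hΛδ hmass
  have hΛm : 82000 * (m : ℝ) ≤ Λ := by rw [hΛ]; nlinarith
  have hΛ0 : 0 < Λ := by linarith
  have hΛ1' : (1 : ℝ) ≤ Λ := by linarith
  obtain ⟨d, hd⟩ : ∃ d : ℝ, d = (Λ ^ 40)⁻¹ := ⟨_, rfl⟩
  obtain ⟨ℓ, hℓ⟩ : ∃ ℓ : ℝ, ℓ = (Λ ^ 8)⁻¹ := ⟨_, rfl⟩
  rw [← hℓ] at hΛδ
  have hd0 : 0 < d := by rw [hd]; positivity
  have hℓ0 : 0 < ℓ := by rw [hℓ]; positivity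
  have hdℓ : d ≤ ℓ := by
    rw [hd, hℓ]
    exact inv_anti₀ (by positivity) (pow_le_pow_right₀ hΛ1' (by norm_num))
  have hddM := dd_le M
  have hddM0 := dd_pos M
  have hℓs : ℓ ≤ 1 / 1000 := by linarith
  -- powers of Λ
  have hℓm : 32 * m * ℓ ≤ 1 := by
    rw [hℓ, ← div_eq_mul_inv, div_le_one (by positivity)]
    calc 32 * (m : ℝ) ≤ Λ := by linarith
      _ ≤ Λ ^ 8 := le_self_pow₀ hΛ1' (by norm_num)
  have hsepℓ : ∀ k l, k ≠ l → 4 * ℓ ≤ |x k - x l| := by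
    intro k l hkl
    refine le_trans ?_ (hx3 k l hkl)
    rw [le_div_iff₀ (by positivity)]
    linarith
  have hsepd : ∀ k l, k ≠ l → 2 * d ≤ |x k - x l| := by
    intro k l hkl
    have := hsepℓ k l hkl
    linarith
  -- the polynomial W and the orthonormal family
  obtain ⟨W, hW⟩ : ∃ W : ℝ[X], W = WW x d := ⟨_, rfl⟩
  have hWn : W ≠ 0 := by rw [hW]; exact WW_ne x d
  have hWd : W.natDegree ≤ 2 * m := by rw [hW]; exact natDegree_WW x d
  obtain ⟨q, hq1, hq2⟩ := hON w M b η f hT W hWn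
  have hONall : ∀ T, ON f W T q := fun T => ⟨fun j _ => hq1 j, fun i _ j _ => hq2 i j⟩
  obtain ⟨s, hs1, hs2, hsmall⟩ := hS0 (40 * m) hmS0 W q (by omega) (hONall _)
  have hs : 1 ≤ s := by omega
  have hqd : ∀ j ≤ s, (q j).natDegree ≤ s := fun j hj => by rw [hq1]; exact hj
  -- nearby points
  have hnear : ∀ k, ∀ t ∈ Icc (x k - ℓ) (x k + ℓ), t ∈ Icc (9 / 16 : ℝ) (15 / 16) ∧
      Away w M b (3 / 2) t := by
    intro k t ht
    constructor
    · constructor <;> linarith [ht.1, ht.2, (hx1 k).1, (hx1 k).2]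
    · apply away_near (hx2 k) (δ := ℓ) _ _ (by norm_num)
      · rw [abs_le]; constructor <;> linarith [ht.1, ht.2]
      · linarith
  have hnode : ∀ a, nodeX x d a ∈ Icc (9 / 16 : ℝ) (15 / 16) ∧ Away w M b (3 / 2) (nodeX x d a) := by
    intro a
    rcases a with k | k
    · exact hnear k _ ⟨by simp only [nodeX]; linarith, by simp only [nodeX]; linarith⟩
    · exact hnear k _ ⟨by simp only [nodeX]; linarith, by simp only [nodeX]; linarith⟩
  have hnode' : ∀ a, nodeX x d a ∈ Icc (1 / 2 : ℝ) 1 ∧ Away w M b 1 (nodeX x d a) := by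
    intro a
    obtain ⟨h1, h2⟩ := hnode a
    exact ⟨⟨by linarith [h1.1], by linarith [h1.2]⟩, away_mono (by norm_num) h2⟩
  have hFX : FX m x s (Λ ^ 8)⁻¹ Λ q := by
    rw [← hℓ]
    refine ⟨hqd, hsepℓ, ?_, ?_, ?_⟩
    · intro k t ht
      obtain ⟨h1, h2⟩ := hnear k t ht
      exact (hDom w M b η f hw hT W s q hs (hONall s) hsmall t
        ⟨by linarith [h1.1], by linarith [h1.2]⟩ (away_mono (by norm_num) h2)).1
    · intro k
      have hk : x k ∈ Icc (x k - ℓ) (x k + ℓ) := ⟨by linarith, by linarith⟩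
      obtain ⟨h1, h2⟩ := hnear k _ hk
      exact (hDom w M b η f hw hT W s q hs (hONall s) hsmall _
        ⟨by linarith [h1.1], by linarith [h1.2]⟩ (away_mono (by norm_num) h2)).2.1
    · intro y
      obtain ⟨ζ, ζ1, ζ2, hζ⟩ := hC2' b η f hT W s q hs (hONall s) hsmall y
      refine ⟨ζ, ζ1, ζ2, ?_⟩
      intro k t ht
      obtain ⟨h1, h2⟩ := hnear k t ht
      obtain ⟨a1, a2, a3, a4, a5⟩ := hζ t h1 h2
      have hsq : 0 ≤ √(∑ j, y j ^ 2) := Real.sqrt_nonneg _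
      exact ⟨a1, a2, a3, a4.trans (mul_le_mul_of_nonneg_right hΛ1 hsq),
        a5.trans (mul_le_mul_of_nonneg_right hΛ1 hsq)⟩
  have hsR : (s : ℝ) + 2 * m ≤ 82 * m := by
    have : s + 2 * m ≤ 82 * m := by omega
    exact_mod_cast this
  obtain ⟨τ, hτ, hV⟩ := hvar m s x q Λ hm1 hs (by
    rw [hΛ]; exact mul_le_mul_of_nonneg_left hsR (by linarith)) hFX
  rw [← hd] at hV
  have hτ0 : 0 < τ := by rcases hτ with h | h <;> rw [h] <;> positivity
  have hτd : τ ≤ d := by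
    rcases hτ with h | h
    · rw [h, hd]
    · rw [h, hd]
      exact inv_anti₀ (by positivity) (pow_le_pow_right₀ hΛ1' (by norm_num))
  have hτlow : (Λ ^ 50)⁻¹ ≤ τ := by
    rcases hτ with h | h
    · rw [h]
      exact inv_anti₀ (by positivity) (pow_le_pow_right₀ hΛ1' (by norm_num))
    · rw [h]
  rw [hW] at hsmall
  have hONW : ON f (WW x d) s q := by rw [← hW]; exact hONall s
  obtain ⟨hG1, hG2⟩ := hGram w M b η f hw hT m x d τ s q hs hd0 (by linarith) hτ0 (by linarith)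
    hsepd hnode' hONW hsmall
  -- masses
  let u : Fin m ⊕ Fin m → ℝ := fun a =>
    (((fr x d s q τ (Sum.inr (Sum.inr a))).eval (nodeX x d a)) ^ 2)⁻¹
  have hu : ∀ a, 0 ≤ u a := fun a => by simp only [u]; positivity
  have hx01 : ∀ k, x k ∈ Icc (0 : ℝ) 1 := fun k => ⟨by linarith [(hx1 k).1], by linarith [(hx1 k).2]⟩
  have hxd01 : ∀ k, x k + d ∈ Icc (0 : ℝ) 1 := fun k =>
    ⟨by linarith [(hx1 k).1], by linarith [(hx1 k).2]⟩
  have hlow : ∀ a, (Λ ^ 180)⁻¹ * (cf / 69) * 2048 ^ m ≤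
      ((fr x d s q τ (Sum.inr (Sum.inr a))).eval (nodeX x d a)) ^ 2 := by
    intro a
    obtain ⟨h1, h2⟩ := hnode a
    obtain ⟨h3, h4⟩ := hnode' a
    have hg := hgrow' (WW x d) s q (fun t ht => WW_bound x d hx01 hxd01 t ht) hONW (nodeX x d a)
      ⟨h1.1, h3.2⟩ h4
    have hdm := (hDom w M b η f hw hT (WW x d) s q hs hONW hsmall (nodeX x d a) h3 h4).2.1
    rw [Finset.sum_range_succ, Finset.sum_range] at hg
    have hqs : (cf / 69) * 2 ^ s ≤ ((q s).eval (nodeX x d a)) ^ 2 := by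
      rw [div_mul_eq_mul_div, div_le_iff₀ (by norm_num)]
      linarith
    have hgen : ∀ (k : Fin m) (v : ℝ), (v = d ∨ v = -d) → (nodeX x d a = x k ∨ nodeX x d a = x k + d) →
        (fr x d s q τ (Sum.inr (Sum.inr a))).eval (nodeX x d a) =
          τ * ((q s).eval (nodeX x d a) * ((Wr x d k).eval (nodeX x d a) * v)) →
        (Λ ^ 180)⁻¹ * (cf / 69) * 2048 ^ m ≤
          ((fr x d s q τ (Sum.inr (Sum.inr a))).eval (nodeX x d a)) ^ 2 := by
      intro k v hv hk he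
      have hWr := Wr_lower x d hd0 hsepd k hm1 (hx4 k) (nodeX x d a) hk
      have hv2 : v ^ 2 = d ^ 2 := by rcases hv with h | h <;> rw [h]; ring
      rw [he]
      have e1 : (τ * ((q s).eval (nodeX x d a) * ((Wr x d k).eval (nodeX x d a) * v))) ^ 2 =
          (τ ^ 2 * d ^ 2) * (((q s).eval (nodeX x d a)) ^ 2 *
            |(Wr x d k).eval (nodeX x d a)| ^ 2) := by
        rw [sq_abs, ← hv2]; ring
      rw [e1]
      have e2 : (Λ ^ 180)⁻¹ ≤ τ ^ 2 * d ^ 2 := by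
        have e3 : (Λ ^ 180)⁻¹ = ((Λ ^ 50)⁻¹) ^ 2 * ((Λ ^ 40)⁻¹) ^ 2 := by
          rw [← inv_pow, ← inv_pow, ← inv_pow, ← pow_mul, ← pow_mul, ← pow_add]
        rw [e3, hd]
        exact mul_le_mul_of_nonneg_right (pow_le_pow_left₀ (by positivity) hτlow 2) (by positivity)
      have e4 : (cf / 69) * 2048 ^ m ≤ ((q s).eval (nodeX x d a)) ^ 2 *
            |(Wr x d k).eval (nodeX x d a)| ^ 2 := by
        have e5 : ((1 / 20000 : ℝ) ^ m) ^ 2 ≤ |(Wr x d k).eval (nodeX x d a)| ^ 2 :=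
          pow_le_pow_left₀ (by positivity) hWr 2
        have e6 : (cf / 69) * 2 ^ (40 * m) ≤ ((q s).eval (nodeX x d a)) ^ 2 := by
          refine le_trans ?_ hqs
          apply mul_le_mul_of_nonneg_left _ (by positivity)
          exact pow_le_pow_right₀ (by norm_num) hs1
        have e7 : (2048 : ℝ) ^ m ≤ 2 ^ (40 * m) * ((1 / 20000 : ℝ) ^ m) ^ 2 := by
          rw [← pow_mul, mul_comm m 2, pow_mul, pow_mul, ← mul_pow]
          apply pow_le_pow_left₀ (by norm_num)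
          norm_num
        calc (cf / 69) * 2048 ^ m ≤ (cf / 69) * (2 ^ (40 * m) * ((1 / 20000 : ℝ) ^ m) ^ 2) :=
              mul_le_mul_of_nonneg_left e7 (by positivity)
          _ = ((cf / 69) * 2 ^ (40 * m)) * ((1 / 20000 : ℝ) ^ m) ^ 2 := by ring
          _ ≤ _ := mul_le_mul e6 e5 (by positivity) (by positivity)
      calc (Λ ^ 180)⁻¹ * (cf / 69) * 2048 ^ m = (Λ ^ 180)⁻¹ * ((cf / 69) * 2048 ^ m) := by ring
        _ ≤ _ := mul_le_mul e2 e4 (by positivity) (by positivity)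
    rcases a with k | k
    · apply hgen k (-d) (Or.inr rfl) (Or.inl rfl)
      simp only [fr, nodeX, eval_mul, eval_C, eval_sub, eval_X]
      ring
    · apply hgen k d (Or.inl rfl) (Or.inr rfl)
      simp only [fr, nodeX, eval_mul, eval_C, eval_sub, eval_X]
      ring
  have husum : ∑ a, u a < ε0 := by
    have h1 : ∀ a, u a ≤ Λ ^ 180 * (69 / cf) * (1 / 2048) ^ m := by
      intro a
      have h2 : 0 < (Λ ^ 180)⁻¹ * (cf / 69) * 2048 ^ m := by positivity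
      have h3 := inv_anti₀ h2 (hlow a)
      refine h3.trans (le_of_eq ?_)
      rw [mul_inv, mul_inv, inv_inv, one_div, inv_pow, inv_div]
    calc ∑ a, u a ≤ ∑ _a : Fin m ⊕ Fin m, Λ ^ 180 * (69 / cf) * (1 / 2048) ^ m :=
          Finset.sum_le_sum (fun a _ => h1 a)
      _ = 2 * m * (Λ ^ 180 * (69 / cf) * (1 / 2048) ^ m) := by
          rw [Finset.sum_const, Finset.card_univ, Fintype.card_sum, Fintype.card_fin, nsmul_eq_mul]
          push_cast
          ring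
      _ < ε0 := hmass
  obtain ⟨h0, hh0, hh0'⟩ := exists_pos_lb (Finset.range (M + (m + m))) w (fun a _ => hw a)
  have hβ : 17 * τ < 1 / (8 * ((s : ℝ) + 2 * m + 1) ^ 2) := by
    rw [lt_div_iff₀ (by positivity)]
    have e1 : (s : ℝ) + 2 * m + 1 ≤ Λ := by linarith
    have e2 : ((s : ℝ) + 2 * m + 1) ^ 2 ≤ Λ ^ 2 := pow_le_pow_left₀ (by positivity) e1 2
    have e3 : 17 * τ * (8 * ((s : ℝ) + 2 * m + 1) ^ 2) ≤ 17 * (Λ ^ 40)⁻¹ * (8 * Λ ^ 2) := by
      have hτd' : τ ≤ (Λ ^ 40)⁻¹ := hτd.trans (le_of_eq hd)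
      gcongr
    refine lt_of_le_of_lt e3 ?_
    have e4 : 17 * (Λ ^ 40)⁻¹ * (8 * Λ ^ 2) = 136 * (Λ ^ 38)⁻¹ := by
      have : Λ ^ 40 = Λ ^ 38 * Λ ^ 2 := by rw [← pow_add]
      rw [this]
      field_simp
      ring
    rw [e4, ← div_eq_mul_inv, div_lt_one (by positivity)]
    calc (136 : ℝ) < Λ := by linarith
      _ ≤ Λ ^ 38 := le_self_pow₀ hΛ1' (by norm_num)
  obtain ⟨h, hh1, hh2, hh3, hgi, hg0, hg1, hg2⟩ := hSmear f hT.hf hT.hf0 (Fin m ⊕ Fin m)
    (Unit ⊕ (Fin s ⊕ (Fin m ⊕ Fin m))) (nodeX x d)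
    (fun a => ⟨by linarith [(hnode a).1.1], by linarith [(hnode a).1.2]⟩) u hu
    (fun i j => fr x d s q τ i * fr x d s q τ j) (fun i j => if i = j then 1 else 0)
    (1 / (8 * ((s : ℝ) + 2 * m + 1) ^ 2))
    (fun i j => lt_of_le_of_lt (hG2 i j) hβ) h0 hh0
  obtain ⟨b', hb'⟩ := thin_add hw hT x d u hu
    (fun a => ⟨by linarith [(hnode a).1.1], by linarith [(hnode a).1.2]⟩) hh1
    (fun i hi => hh2.le.trans (hh0' i hi)) hgi
  refine ⟨M + (m + m), b', _, hb', lt_of_le_of_lt hg1 husum, s, m, fr x d s q τ, by omega,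
    natDegree_fr x d s q τ hqd, VarGe.mono' hV ?_, hg2⟩
  have e1 : ((s : ℝ) + 2 * m) ^ 2 ≤ (82 * (m : ℝ)) ^ 2 := pow_le_pow_left₀ (by positivity) hsR 2
  calc c1 / 6724 * ((s : ℝ) + 2 * m) ^ 2 ≤ c1 / 6724 * (82 * (m : ℝ)) ^ 2 :=
        mul_le_mul_of_nonneg_left e1 (by positivity)
    _ = c1 * (m : ℝ) ^ 2 := by ring

/-- Assembly. -/
theorem final (hLe : TaskLe2) (hGe : TaskGe2) (hZero : TaskZero) (hSplit : TaskSplit)
    (hBand : TaskBand) (hOut : TaskBand → TaskOut)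
    (hCmp : TaskLe2 → TaskGe2 → TaskZero → TaskSplit → TaskCmp)
    (hVar : TaskOut → TaskCmp → TaskVar) (hR : TaskRemez) (hTr : TaskTrace)
    (hBl : TaskTrace → TaskBlob) (hDeg : TaskRemez → TaskBlob → TaskDeg) (hDom : TaskDom)
    (hC2 : TaskC2) (hGrow : TaskGrow) (hPos : TaskPos) (hON : TaskON)
    (hGram : TaskDom → TaskGram) (hSmear : TaskSmear) (hBaire : TaskBaire) (hEnd : TaskEnd) :
    Final := by
  obtain ⟨c, w, hc, hw, hS⟩ := step (hVar (hOut hBand) (hCmp hLe hGe hZero hSplit))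
    (hDeg hR (hBl hTr)) hDom hC2 hGrow hPos hON (hGram hDom) hSmear
  exact hEnd c hc (hBaire c w hc hw hS)

end Pool.Agent.H727R4.CLT
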