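import Pool.Agent.H727R4.CLT.Stmts

/-!
# Project H727-CLT, task Cmp: comparison of the two polynomials
-/

set_option autoImplicit false
open MeasureTheory ProbabilityTheory Filter Topology Set Polynomial
open scoped ENNReal NNReal
open Pool.Agent.Helper553.Orth

namespace Pool.Agent.H727R4.CLT

theorem taskCmp (h1 : TaskLe2) (h2 : TaskGe2) (h3 : TaskZero) (h4 : TaskSplit) : TaskCmp := by
  classical
  intro m x d ℓ G A ε s Q R g g' ζ ζ1 ζ2 h b τ2 hτ0 hτd hτG hε hout
  have hd0 := h.hd0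
  refine ⟨fun T hT => ?_, fun T hT => ?_⟩
  · rw [h4 m x ℓ h.hℓ h.hsep (Px x d Q R g g' b d), h4 m x ℓ h.hℓ h.hsep (Px x d Q R g g' b τ2),
      hout, add_assoc]
    apply Nat.add_le_add_left
    have hge : ∀ k : Fin m, 2 ≤ zx (x k) ℓ (Px x d Q R g g' b τ2) := by
      intro k
      have hbd : ε * d / 20 ≤ |b + ζ (x k)| * d / 20 := by
        have := mul_le_mul_of_nonneg_right (hε k) hd0.le
        linarith
      apply h2 m x d ℓ G A ε s Q R g g' ζ ζ1 ζ2 h b τ2 k hτ0.le hτd (hε k)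
      · exact ((mul_le_mul_of_nonneg_left (h.hg k) hτ0.le).trans hτG).trans hbd
      · exact ((mul_le_mul_of_nonneg_left (h.hg' k) hτ0.le).trans hτG).trans hbd
    have hle : ∀ k : Fin m, zx (x k) ℓ (Px x d Q R g g' b d) +
        2 * (if k ∈ T then 1 else 0) ≤ 2 := by
      intro k
      split_ifs with hk
      · obtain ⟨a1, a2, a3, a4⟩ := hT k hk
        rw [h3 m x d ℓ G A ε s Q R g g' ζ ζ1 ζ2 h b k a1 a2 a3 a4]
      · have := h1 m x d ℓ G A ε s Q R g g' ζ ζ1 ζ2 h b d k hd0.le le_rfl (hε k)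
        omega
    have hcard : T.card = ∑ k : Fin m, (if k ∈ T then 1 else 0) := by
      rw [Finset.sum_boole]
      simp
    rw [hcard, Finset.mul_sum, ← Finset.sum_add_distrib]
    apply Finset.sum_le_sum
    intro k _
    exact (hle k).trans (hge k)
  · rw [h4 m x ℓ h.hℓ h.hsep (Px x d Q R g g' b d), h4 m x ℓ h.hℓ h.hsep (Px x d Q R g g' b τ2),
      hout, add_assoc]
    apply Nat.add_le_add_left
    have hle : ∀ k : Fin m, zx (x k) ℓ (Px x d Q R g g' b τ2) ≤ 2 := fun k =>
      h1 m x d ℓ G A ε s Q R g g' ζ ζ1 ζ2 h b τ2 k hτ0.le hτd (hε k)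
    have hge : ∀ k : Fin m, 2 ≤ zx (x k) ℓ (Px x d Q R g g' b d) +
        2 * (if k ∈ T then 1 else 0) := by
      intro k
      by_cases hk : k ∈ T
      · rw [if_pos hk]; omega
      · rw [if_neg hk]
        obtain ⟨a1, a2⟩ := hT k hk
        have e1 : d * (|b + ζ (x k)| / 20) ≤ |b + ζ (x k)| * d / 20 := by
          apply le_of_eq; ring
        have := h2 m x d ℓ G A ε s Q R g g' ζ ζ1 ζ2 h b d k hd0.le le_rfl (hε k)
          ((mul_le_mul_of_nonneg_left a1 hd0.le).trans e1)
          ((mul_le_mul_of_nonneg_left a2 hd0.le).trans e1)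
        omega
    have hcard : T.card = ∑ k : Fin m, (if k ∈ T then 1 else 0) := by
      rw [Finset.sum_boole]
      simp
    rw [hcard, Finset.mul_sum, ← Finset.sum_add_distrib]
    apply Finset.sum_le_sum
    intro k _
    exact (hle k).trans (hge k)

end Pool.Agent.H727R4.CLT
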