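import Pool.Agent.H727R4.CLT.Stmts

set_option autoImplicit false
open MeasureTheory ProbabilityTheory Filter Topology Set Polynomial
open scoped ENNReal NNReal
open Pool.Agent.Helper553.Orth

namespace Pool.Agent.H727R4.CLT

theorem gpi_charFun {κ : Type} [Fintype κ] (c : κ → ℝ) (t : ℝ) :
    charFun ((gpi κ).map (fun y => ∑ i, c i * y i)) t =
      charFun ((gaussianReal 0 1).map (fun x => √(∑ i, c i ^ 2) * x)) t := by
  have hm : Measurable (fun y : κ → ℝ => ∑ i, c i * y i) := by fun_prop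
  rw [charFun_map_mul, charFun_gaussianReal, charFun_apply_real, integral_map hm.aemeasurable
    (by fun_prop)]
  have e1 : ∀ y : κ → ℝ, Complex.exp ((t : ℂ) * ((∑ i, c i * y i : ℝ) : ℂ) * Complex.I) =
      ∏ i, Complex.exp (((t * c i : ℝ) : ℂ) * (y i : ℂ) * Complex.I) := by
    intro y
    rw [← Complex.exp_sum]
    congr 1
    push_cast
    rw [Finset.mul_sum, Finset.sum_mul]
    apply Finset.sum_congr rfl
    intro i _
    ring
  simp_rw [e1]
  unfold gpi
  rw [integral_fintype_prod_eq_prod (fun i (u : ℝ) =>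
    Complex.exp (((t * c i : ℝ) : ℂ) * (u : ℂ) * Complex.I))]
  have e2 : ∀ i, ∫ u : ℝ, Complex.exp (((t * c i : ℝ) : ℂ) * (u : ℂ) * Complex.I) ∂(gaussianReal 0 1) =
      Complex.exp (-(((t * c i : ℝ) : ℂ)) ^ 2 / 2) := by
    intro i
    rw [← charFun_apply_real, charFun_gaussianReal]
    congr 1
    push_cast
    ring
  simp_rw [e2]
  rw [← Complex.exp_sum]
  congr 1
  have e3 : ((√(∑ i, c i ^ 2) : ℝ) : ℂ) ^ 2 = ((∑ i, c i ^ 2 : ℝ) : ℂ) := by
    rw [← Complex.ofReal_pow, Real.sq_sqrt (Finset.sum_nonneg (fun i _ => sq_nonneg _))]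
  push_cast
  push_cast at e3
  rw [mul_pow, e3]
  simp only [mul_pow, zero_mul, mul_zero, zero_sub, one_mul]
  rw [← Finset.sum_div, Finset.sum_mul]
  simp
  rw [neg_div]
  congr 2
  apply Finset.sum_congr rfl
  intro i _
  ring

theorem gpi_lin {κ : Type} [Fintype κ] (c : κ → ℝ) :
    (gpi κ).map (fun y => ∑ i, c i * y i) =
      (gaussianReal 0 1).map (fun x => √(∑ i, c i ^ 2) * x) := by
  have hm : Measurable (fun y : κ → ℝ => ∑ i, c i * y i) := by fun_prop
  have : IsProbabilityMeasure ((gpi κ).map (fun y : κ → ℝ => ∑ i, c i * y i)) :=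
    Measure.isProbabilityMeasure_map hm.aemeasurable
  have : IsProbabilityMeasure ((gaussianReal 0 1).map (fun x => √(∑ i, c i ^ 2) * x)) :=
    Measure.isProbabilityMeasure_map (by fun_prop)
  apply Measure.ext_of_charFun
  funext t
  exact gpi_charFun c t

theorem gpi_lin_small {κ : Type} [Fintype κ] (c : κ → ℝ) (hc : ∑ i, c i ^ 2 ≤ 68) :
    gaussianReal 0 1 {x : ℝ | |x| ≤ 1 / 200} ≤ gpi κ {y | |∑ i, c i * y i| ≤ 1 / 20} := by
  have hS : MeasurableSet {u : ℝ | |u| ≤ 1 / 20} := measurableSet_le (by fun_prop) measurable_const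
  have h1 : (gpi κ).map (fun y => ∑ i, c i * y i) {u : ℝ | |u| ≤ 1 / 20} =
      (gaussianReal 0 1).map (fun x => √(∑ i, c i ^ 2) * x) {u : ℝ | |u| ≤ 1 / 20} := by rw [gpi_lin]
  rw [Measure.map_apply (by fun_prop) hS, Measure.map_apply (by fun_prop) hS] at h1
  have h2 : gpi κ {y | |∑ i, c i * y i| ≤ 1 / 20} =
      gpi κ ((fun y => ∑ i, c i * y i) ⁻¹' {u : ℝ | |u| ≤ 1 / 20}) := rfl
  rw [h2, h1]
  apply measure_mono
  intro x hx
  rw [mem_ofPred_eq] at hx
  rw [mem_preimage, mem_ofPred_eq, abs_mul, abs_of_nonneg (Real.sqrt_nonneg _)]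
  have h3 : √(∑ i, c i ^ 2) ≤ 10 := by
    rw [Real.sqrt_le_left (by norm_num)]; linarith
  calc √(∑ i, c i ^ 2) * |x| ≤ 10 * (1 / 200) := mul_le_mul h3 hx (abs_nonneg _) (by norm_num)
    _ = 1 / 20 := by norm_num

theorem gpi_lin_tail {κ : Type} [Fintype κ] (c : κ → ℝ) (hc : ∑ i, c i ^ 2 ≤ 68) {N : ℝ}
    (hN : 0 < N) : gpi κ {y | 10 * N < |∑ i, c i * y i|} ≤ ENNReal.ofReal (1 / N ^ 2) := by
  have hS : MeasurableSet {u : ℝ | 10 * N < |u|} := measurableSet_lt measurable_const (by fun_prop)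
  have h1 : (gpi κ).map (fun y => ∑ i, c i * y i) {u : ℝ | 10 * N < |u|} =
      (gaussianReal 0 1).map (fun x => √(∑ i, c i ^ 2) * x) {u : ℝ | 10 * N < |u|} := by rw [gpi_lin]
  rw [Measure.map_apply (by fun_prop) hS, Measure.map_apply (by fun_prop) hS] at h1
  have h2 : gpi κ {y | 10 * N < |∑ i, c i * y i|} =
      gpi κ ((fun y => ∑ i, c i * y i) ⁻¹' {u : ℝ | 10 * N < |u|}) := rfl
  rw [h2, h1]
  refine (measure_mono ?_).trans (gam_tail hN)
  intro x hx
  rw [mem_preimage, mem_ofPred_eq, abs_mul, abs_of_nonneg (Real.sqrt_nonneg _)] at hx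
  rw [mem_ofPred_eq]
  have h3 : √(∑ i, c i ^ 2) ≤ 10 := by
    rw [Real.sqrt_le_left (by norm_num)]; linarith
  have h4 : √(∑ i, c i ^ 2) * |x| ≤ 10 * |x| := mul_le_mul_of_nonneg_right h3 (abs_nonneg _)
  linarith

/-- Independence of the two blocks. -/
theorem gpi_prod {κ κ' : Type} [Fintype κ] [Fintype κ'] (S : Set (κ → ℝ)) (T : Set (κ' → ℝ))
    (hS : MeasurableSet S) (hT : MeasurableSet T) :
    gpi (κ ⊕ κ') {y | (fun i => y (Sum.inl i)) ∈ S ∧ (fun i => y (Sum.inr i)) ∈ T} =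
      gpi κ S * gpi κ' T := by
  have h := measurePreserving_sumPiEquivProdPi (X := fun _ : κ ⊕ κ' => ℝ)
    (fun _ : κ ⊕ κ' => gaussianReal 0 1)
  have h1 := h.measure_preimage (hS.prod hT).nullMeasurableSet
  rw [Measure.prod_prod] at h1
  exact h1

end Pool.Agent.H727R4.CLT
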