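import Pool.Agent.Helper553.Orth.Final

/-!
# Project H727-CLT: random orthogonal polynomials without a CLT (MP_f6b137_pr, Q2)

A density on `[0,1]` for which `Var N_n ≥ c n²` for infinitely many `n`.
-/

set_option autoImplicit false
open MeasureTheory ProbabilityTheory Filter Topology Set Polynomial
open scoped ENNReal NNReal
open Pool.Agent.Helper553.Orth

namespace Pool.Agent.H727R4.CLT

/-! ### Dipoles at general positions -/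

/-- The quadratic factor of the dipole at `x`. -/
noncomputable def qq (x d : ℝ) : ℝ[X] := (X - C x) * (X - C (x + d))

noncomputable def WW {m : ℕ} (x : Fin m → ℝ) (d : ℝ) : ℝ[X] := ∏ k, qq (x k) d

noncomputable def Wr {m : ℕ} (x : Fin m → ℝ) (d : ℝ) (k : Fin m) : ℝ[X] :=
  ∏ l ∈ Finset.univ.erase k, qq (x l) d

/-- The frame. -/
noncomputable def fr {m : ℕ} (x : Fin m → ℝ) (d : ℝ) (s : ℕ) (q : ℕ → ℝ[X]) (τ : ℝ) :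
    Unit ⊕ (Fin s ⊕ (Fin m ⊕ Fin m)) → ℝ[X]
  | Sum.inl _ => WW x d * q s
  | Sum.inr (Sum.inl j) => WW x d * q j
  | Sum.inr (Sum.inr (Sum.inl k)) => C τ * (q s * (Wr x d k * (X - C (x k + d))))
  | Sum.inr (Sum.inr (Sum.inr k)) => C τ * (q s * (Wr x d k * (X - C (x k))))

/-- The nodes. -/
noncomputable def nodeX {m : ℕ} (x : Fin m → ℝ) (d : ℝ) : Fin m ⊕ Fin m → ℝ
  | Sum.inl k => x k
  | Sum.inr k => x k + d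

/-- The part of the random polynomial without the switch. -/
noncomputable def Zx {m : ℕ} (x : Fin m → ℝ) (d : ℝ) (Q R : ℝ[X]) (g g' : Fin m → ℝ) (τ : ℝ) :
    ℝ[X] :=
  WW x d * R + C τ * (Q * ∑ k, Wr x d k *
    (C (g k) * (X - C (x k + d)) + C (g' k) * (X - C (x k))))

noncomputable def Px {m : ℕ} (x : Fin m → ℝ) (d : ℝ) (Q R : ℝ[X]) (g g' : Fin m → ℝ) (b τ : ℝ) :
    ℝ[X] := C b * (WW x d * Q) + Zx x d Q R g g' τ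

/-- Number of distinct real roots near the dipole. -/
noncomputable def zx (a ℓ : ℝ) (P : ℝ[X]) : ℕ :=
  (P.roots.toFinset.filter (fun t => t ∈ Icc (a - ℓ) (a + ℓ))).card

/-- Number of distinct real roots away from all dipoles. -/
noncomputable def nrx {m : ℕ} (x : Fin m → ℝ) (ℓ : ℝ) (P : ℝ[X]) : ℕ :=
  (P.roots.toFinset.filter (fun t => ∀ k, t ∉ Icc (x k - ℓ) (x k + ℓ))).card

/-- Hypotheses on the deterministic data. `ζ` is the quotient `R / Q` near the dipoles. -/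
structure HX (m : ℕ) (x : Fin m → ℝ) (d ℓ G A ε : ℝ) (s : ℕ) (Q R : ℝ[X]) (g g' : Fin m → ℝ)
    (ζ ζ1 ζ2 : ℝ → ℝ) : Prop where
  hm : 1 ≤ m
  hℓ : 0 < ℓ
  hℓ1 : ℓ ≤ 1 / 1000
  hd0 : 0 < d
  hd : d ≤ ℓ / 4
  hsep : ∀ k l, k ≠ l → 4 * ℓ ≤ |x k - x l|
  hQ : Q.natDegree ≤ s
  hR : R.natDegree ≤ s
  hQ0 : ∀ k, ∀ t ∈ Icc (x k - ℓ) (x k + ℓ), Q.eval t ≠ 0
  hRζ : ∀ k, ∀ t ∈ Icc (x k - ℓ) (x k + ℓ), R.eval t = Q.eval t * ζ t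
  hζ : ∀ k, ∀ t ∈ Icc (x k - ℓ) (x k + ℓ), HasDerivAt ζ (ζ1 t) t ∧ HasDerivAt ζ1 (ζ2 t) t ∧
    |ζ1 t| ≤ A ∧ |ζ2 t| ≤ A
  hg : ∀ k, |g k| ≤ G
  hg' : ∀ k, |g' k| ≤ G
  hG : 1 ≤ G
  hA : 1 ≤ A
  hε : 0 < ε
  hε1 : ε ≤ 1 / 1000
  hℓA : ℓ * A ≤ ε / 100
  hdG : d * (m * G) ≤ ε * ℓ ^ 3 / 100

/-- At most two roots near a dipole. -/
def TaskLe2 : Prop := ∀ (m : ℕ) (x : Fin m → ℝ) (d ℓ G A ε : ℝ) (s : ℕ) (Q R : ℝ[X])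
    (g g' : Fin m → ℝ) (ζ ζ1 ζ2 : ℝ → ℝ), HX m x d ℓ G A ε s Q R g g' ζ ζ1 ζ2 →
    ∀ (b τ : ℝ) (k : Fin m), 0 ≤ τ → τ ≤ d → ε ≤ |b + ζ (x k)| →
      zx (x k) ℓ (Px x d Q R g g' b τ) ≤ 2

/-- At least two roots near a dipole whose noise is small. -/
def TaskGe2 : Prop := ∀ (m : ℕ) (x : Fin m → ℝ) (d ℓ G A ε : ℝ) (s : ℕ) (Q R : ℝ[X])
    (g g' : Fin m → ℝ) (ζ ζ1 ζ2 : ℝ → ℝ), HX m x d ℓ G A ε s Q R g g' ζ ζ1 ζ2 →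
    ∀ (b τ : ℝ) (k : Fin m), 0 ≤ τ → τ ≤ d → ε ≤ |b + ζ (x k)| →
      τ * |g k| ≤ |b + ζ (x k)| * d / 20 → τ * |g' k| ≤ |b + ζ (x k)| * d / 20 →
      2 ≤ zx (x k) ℓ (Px x d Q R g g' b τ)

/-- No root near a dipole in the switched-off state. -/
def TaskZero : Prop := ∀ (m : ℕ) (x : Fin m → ℝ) (d ℓ G A ε : ℝ) (s : ℕ) (Q R : ℝ[X])
    (g g' : Fin m → ℝ) (ζ ζ1 ζ2 : ℝ → ℝ), HX m x d ℓ G A ε s Q R g g' ζ ζ1 ζ2 →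
    ∀ (b : ℝ) (k : Fin m), 19 / 20 ≤ b + ζ (x k) → b + ζ (x k) ≤ 23 / 20 →
      |g k + 1| ≤ 1 / 10 → |g' k - 2| ≤ 1 / 10 →
      zx (x k) ℓ (Px x d Q R g g' b d) = 0

/-- Splitting the count. -/
def TaskSplit : Prop := ∀ (m : ℕ) (x : Fin m → ℝ) (ℓ : ℝ), 0 < ℓ →
    (∀ k l, k ≠ l → 4 * ℓ ≤ |x k - x l|) → ∀ P : ℝ[X],
      nr P = nrx x ℓ P + ∑ k, zx (x k) ℓ P

/-- Generalisation of `Helper553.Orth.band` to the complement of several intervals. -/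
def TaskBand : Prop := ∀ (m n : ℕ) (x : Fin m → ℝ) (ℓ δ : ℝ) (Y Z1 Z2 : ℝ[X]), 0 < ℓ → 0 ≤ δ →
    (∀ t, (∀ k, t ∉ Icc (x k - ℓ) (x k + ℓ)) → |Z1.eval t - Z2.eval t| ≤ δ * |Y.eval t|) →
    Y ≠ 0 → Y.natDegree ≤ n → Z1.natDegree ≤ n →
    derivative Z1 * Y - Z1 * derivative Y ≠ 0 → derivative Z2 * Y - Z2 * derivative Y ≠ 0 →
    ∃ F : Finset ℝ, F.card ≤ 9 * n + 6 * m + 8 ∧ ∀ b : ℝ, (∀ f ∈ F, δ < |b - f|) →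
      nrx x ℓ (C b * Y + Z1) ≤ nrx x ℓ (C b * Y + Z2)

/-- The count away from the dipoles does not depend on the noise strength, for most `b`. -/
def TaskOut : Prop := ∀ (m : ℕ) (x : Fin m → ℝ) (d ℓ G A ε : ℝ) (s : ℕ) (Q R : ℝ[X])
    (g g' : Fin m → ℝ) (ζ ζ1 ζ2 : ℝ → ℝ), HX m x d ℓ G A ε s Q R g g' ζ ζ1 ζ2 →
    ∀ (k0 : Fin m), g k0 ≠ 0 → ∀ τ1 τ2 : ℝ, 0 < τ1 → τ1 ≤ d → 0 < τ2 → τ2 ≤ d →
    ∃ F : Finset ℝ, F.card ≤ 18 * (s + 2 * m) + 12 * m + 16 ∧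
      ∀ b : ℝ, (∀ f ∈ F, d * (m * (3 * G / ℓ)) < |b - f|) →
        nrx x ℓ (Px x d Q R g g' b τ1) = nrx x ℓ (Px x d Q R g g' b τ2)

/-- Comparison of the two polynomials. -/
def TaskCmp : Prop := ∀ (m : ℕ) (x : Fin m → ℝ) (d ℓ G A ε : ℝ) (s : ℕ) (Q R : ℝ[X])
    (g g' : Fin m → ℝ) (ζ ζ1 ζ2 : ℝ → ℝ), HX m x d ℓ G A ε s Q R g g' ζ ζ1 ζ2 →
    ∀ (b τ2 : ℝ), 0 < τ2 → τ2 ≤ d → τ2 * G ≤ ε * d / 20 → (∀ k, ε ≤ |b + ζ (x k)|) →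
    nrx x ℓ (Px x d Q R g g' b d) = nrx x ℓ (Px x d Q R g g' b τ2) →
    (∀ T : Finset (Fin m), (∀ k ∈ T, 19 / 20 ≤ b + ζ (x k) ∧ b + ζ (x k) ≤ 23 / 20 ∧
        |g k + 1| ≤ 1 / 10 ∧ |g' k - 2| ≤ 1 / 10) →
      nr (Px x d Q R g g' b d) + 2 * T.card ≤ nr (Px x d Q R g g' b τ2)) ∧
    (∀ T : Finset (Fin m), (∀ k, k ∉ T → |g k| ≤ |b + ζ (x k)| / 20 ∧
        |g' k| ≤ |b + ζ (x k)| / 20) →
      nr (Px x d Q R g g' b τ2) ≤ nr (Px x d Q R g g' b d) + 2 * T.card)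

/-! ### Variance of the frame -/

/-- The family of orthonormal polynomials, near the dipoles. -/
structure FX (m : ℕ) (x : Fin m → ℝ) (s : ℕ) (ℓ A1 : ℝ) (q : ℕ → ℝ[X]) : Prop where
  hdeg : ∀ j ≤ s, (q j).natDegree ≤ s
  hsep : ∀ k l, k ≠ l → 4 * ℓ ≤ |x k - x l|
  hQ0 : ∀ k, ∀ t ∈ Icc (x k - ℓ) (x k + ℓ), (q s).eval t ≠ 0
  hV : ∀ k, ∑ j : Fin s, ((q j).eval (x k)) ^ 2 ≤ 68 * ((q s).eval (x k)) ^ 2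
  hC2 : ∀ y : Fin s → ℝ, ∃ ζ ζ1 ζ2 : ℝ → ℝ, ∀ k, ∀ t ∈ Icc (x k - ℓ) (x k + ℓ),
    (∑ j : Fin s, y j * (q j).eval t) = (q s).eval t * ζ t ∧
    HasDerivAt ζ (ζ1 t) t ∧ HasDerivAt ζ1 (ζ2 t) t ∧
    |ζ1 t| ≤ A1 * √(∑ j, y j ^ 2) ∧ |ζ2 t| ≤ A1 * √(∑ j, y j ^ 2)

/-- One of the two frames has variance at least `c m²`. -/
def TaskVar : Prop := ∃ c C0 : ℝ, 0 < c ∧ 1000 ≤ C0 ∧ ∀ (m s : ℕ) (x : Fin m → ℝ) (q : ℕ → ℝ[X])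
    (Λ : ℝ), 1 ≤ m → 1 ≤ s → C0 * (s + 2 * m) ≤ Λ →
    FX m x s (Λ ^ 8)⁻¹ Λ q →
    ∃ τ : ℝ, (τ = (Λ ^ 40)⁻¹ ∨ τ = (Λ ^ 50)⁻¹) ∧ VarGe (fr x (Λ ^ 40)⁻¹ s q τ) (c * (m : ℝ) ^ 2)

/-! ### Analysis -/

/-- Exclusion radius of the blob with index `i`. -/
noncomputable def dd (i : ℕ) : ℝ := (1 / 2) ^ (i + 12)

/-- Densities living on `[0,1/4]` and finitely many very thin blobs. -/
structure Thin (w : ℕ → ℝ) (M : ℕ) (c : ℕ → ℝ) (η : ℝ) (f : ℝ → ℝ) : Prop where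
  hf : Integrable f m01
  hf0 : 0 ≤ᵐ[m01] f
  hη : 0 < η
  hlow : ∀ᵐ t ∂m01, t ∈ Icc (0 : ℝ) (1 / 4) → η ≤ f t
  hc : ∀ i < M, c i ∈ Icc (1 / 4 : ℝ) 1
  hsupp : ∀ᵐ t ∂m01, t ∉ Icc (0 : ℝ) (1 / 4) → (∀ i < M, t ∉ Icc (c i) (c i + w i)) → f t = 0

/-- Distance of `t` to the first `M` blobs. -/
def Away (w : ℕ → ℝ) (M : ℕ) (c : ℕ → ℝ) (a t : ℝ) : Prop :=
  ∀ i < M, t ≤ c i - a * dd i ∨ c i + w i + a * dd i ≤ t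

/-- The polynomials `q j`, `j ≤ s`, are orthonormal for the weight `W² f`. -/
structure ON (f : ℝ → ℝ) (W : ℝ[X]) (s : ℕ) (q : ℕ → ℝ[X]) : Prop where
  deg : ∀ j ≤ s, (q j).natDegree = j
  on : ∀ i ≤ s, ∀ j ≤ s, ∫ t, f t * (W * q i * (W * q j)).eval t ∂m01 = if i = j then 1 else 0

/-- Little mass of `q s` on the blobs. -/
def Small (w : ℕ → ℝ) (M : ℕ) (c : ℕ → ℝ) (f : ℝ → ℝ) (W : ℝ[X]) (s : ℕ) (q : ℕ → ℝ[X]) : Prop :=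
  ∑ i ∈ Finset.range M, (dd i ^ 2)⁻¹ *
    ∫ t, f t * (W * q s * (W * q s)).eval t * (Icc (c i) (c i + w i)).indicator (fun _ => (1 : ℝ)) t
      ∂m01 ≤ 1 / 4

/-- Remez type inequality with constant `K`. -/
def RemezK (K : ℝ) : Prop := 1 ≤ K ∧ ∀ (N : ℕ) (R : ℝ[X]), R.natDegree ≤ N → ∀ t ∈ Icc (0 : ℝ) 1,
    (R.eval t) ^ 2 ≤ K ^ (N + 1) * ∫ u in Icc (0 : ℝ) (1 / 8), (R.eval u) ^ 2

def TaskRemez : Prop := ∃ K : ℝ, RemezK K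

/-- Trace lemma. -/
def TaskTrace : Prop := ∀ (T l : ℕ) (A : Matrix (Fin T) (Fin T) ℝ) (L : (Fin T → ℝ) →ₗ[ℝ] (Fin l → ℝ))
    (ε : ℝ), 0 ≤ ε → A.IsSymm →
    (∀ v : Fin T → ℝ, 0 ≤ ∑ i, ∑ j, v i * v j * A i j) →
    (∀ v : Fin T → ℝ, ∑ i, ∑ j, v i * v j * A i j ≤ ∑ i, v i ^ 2) →
    (∀ v : Fin T → ℝ, L v = 0 → ∑ i, ∑ j, v i * v j * A i j ≤ ε * ∑ i, v i ^ 2) →
    ∑ i, A i i ≤ l + ε * T

/-- Mass of the orthonormal polynomials on one blob. -/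
def TaskBlob : Prop := ∀ K : ℝ, RemezK K → ∀ (w : ℕ → ℝ) (M : ℕ) (c : ℕ → ℝ) (η : ℝ) (f : ℝ → ℝ),
    (∀ i, 0 < w i) → Thin w M c η f → ∀ (W : ℝ[X]) (T N : ℕ) (q : ℕ → ℝ[X]), 1 ≤ T → ON f W (T - 1) q →
    T + W.natDegree ≤ N → ∀ i < M, ∀ l : ℕ, l ≤ T →
    ∑ j ∈ Finset.range T,
      ∫ t, f t * (W * q j * (W * q j)).eval t *
        (Icc (c i) (c i + w i)).indicator (fun _ => (1 : ℝ)) t ∂m01 ≤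
      l + T * ((∫ t, f t ∂m01) / η * (64 * w i ^ 2) ^ l * K ^ (N + 1))

/-- Choice of the degree. -/
def TaskDeg : Prop := ∃ w0 : ℕ → ℝ, (∀ i, 0 < w0 i) ∧ ∀ w : ℕ → ℝ, (∀ i, 0 < w i ∧ w i ≤ w0 i) →
    ∀ (M : ℕ) (c : ℕ → ℝ) (η : ℝ) (f : ℝ → ℝ), Thin w M c η f → ∃ S0 : ℕ, ∀ S ≥ S0, ∀ (W : ℝ[X])
      (q : ℕ → ℝ[X]), W.natDegree ≤ S → ON f W (2 * S) q →
      ∃ s, S ≤ s ∧ s < 2 * S ∧ Small w M c f W s q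

/-- Domination by the last polynomial. -/
def TaskDom : Prop := ∀ (w : ℕ → ℝ) (M : ℕ) (c : ℕ → ℝ) (η : ℝ) (f : ℝ → ℝ), (∀ i, 0 < w i) →
    Thin w M c η f → ∀ (W : ℝ[X]) (s : ℕ) (q : ℕ → ℝ[X]), 1 ≤ s → ON f W s q → Small w M c f W s q →
    ∀ x ∈ Icc (1 / 2 : ℝ) 1, Away w M c 1 x →
      (q s).eval x ≠ 0 ∧ ∑ j : Fin s, ((q j).eval x) ^ 2 ≤ 68 * ((q s).eval x) ^ 2 ∧
      ∫ t, f t * (W * q s * (W * q s)).eval t / (x - t) ^ 2 ∂m01 ≤ 17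

/-- Smoothness of the quotients; the bound depends on `w`, `M` only. -/
def TaskC2 : Prop := ∀ (w : ℕ → ℝ) (M : ℕ), (∀ i, 0 < w i) → ∃ A1 : ℝ, 1 ≤ A1 ∧
    ∀ (c : ℕ → ℝ) (η : ℝ) (f : ℝ → ℝ),
    Thin w M c η f → ∀ (W : ℝ[X]) (s : ℕ) (q : ℕ → ℝ[X]), 1 ≤ s → ON f W s q → Small w M c f W s q →
    ∀ y : Fin s → ℝ, ∃ ζ ζ1 ζ2 : ℝ → ℝ, ∀ x ∈ Icc (9 / 16 : ℝ) (15 / 16), Away w M c (3 / 2) x →
      (∑ j : Fin s, y j * (q j).eval x) = (q s).eval x * ζ x ∧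
      HasDerivAt ζ (ζ1 x) x ∧ HasDerivAt ζ1 (ζ2 x) x ∧
      |ζ1 x| ≤ A1 * √(∑ j, y j ^ 2) ∧ |ζ2 x| ≤ A1 * √(∑ j, y j ^ 2)

/-- Growth. -/
def TaskGrow : Prop := ∃ w0 : ℕ → ℝ, (∀ i, 0 < w0 i) ∧ ∀ w : ℕ → ℝ, (∀ i, 0 < w i ∧ w i ≤ w0 i) →
    ∀ (M : ℕ) (c : ℕ → ℝ) (η : ℝ) (f : ℝ → ℝ), Thin w M c η f → ∃ cf : ℝ, 0 < cf ∧ ∀ (W : ℝ[X])
      (s : ℕ) (q : ℕ → ℝ[X]), (∀ t ∈ Icc (0 : ℝ) 1, |W.eval t| ≤ 1) → ON f W s q →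
      ∀ x ∈ Icc (9 / 16 : ℝ) 1, Away w M c 1 x →
        cf * 2 ^ s ≤ ∑ j ∈ Finset.range (s + 1), ((q j).eval x) ^ 2

/-- Positions of the dipoles. -/
def TaskPos : Prop := ∀ w : ℕ → ℝ, (∀ i, 0 < w i ∧ w i ≤ dd i) → ∀ (M : ℕ) (c : ℕ → ℝ),
    ∃ m0 : ℕ, ∀ m ≥ m0, ∃ x : Fin m → ℝ, (∀ k, x k ∈ Icc (5 / 8 : ℝ) (7 / 8)) ∧
      (∀ k, Away w M c 2 (x k)) ∧ (∀ k l, k ≠ l → 1 / (8 * (m : ℝ)) ≤ |x k - x l|) ∧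
      ∀ k, (1 / 100 : ℝ) ^ m ≤ ∏ l ∈ Finset.univ.erase k, |x k - x l|

/-- Existence of the orthonormal polynomials. -/
def TaskON : Prop := ∀ (w : ℕ → ℝ) (M : ℕ) (c : ℕ → ℝ) (η : ℝ) (f : ℝ → ℝ), Thin w M c η f →
    ∀ W : ℝ[X], W ≠ 0 → ∃ q : ℕ → ℝ[X], (∀ k, (q k).natDegree = k) ∧
      ∀ i j, ∫ t, f t * (W * q i * (W * q j)).eval t ∂m01 = if i = j then 1 else 0

/-- Gram matrix of the frame, with point masses at the nodes. -/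
def TaskGram : Prop := ∀ (w : ℕ → ℝ) (M : ℕ) (c : ℕ → ℝ) (η : ℝ) (f : ℝ → ℝ), (∀ i, 0 < w i) →
    Thin w M c η f → ∀ (m : ℕ) (x : Fin m → ℝ) (d τ : ℝ) (s : ℕ) (q : ℕ → ℝ[X]), 1 ≤ s →
    0 < d → d ≤ 1 / 100 → 0 < τ → τ ≤ 1 → (∀ k l, k ≠ l → 2 * d ≤ |x k - x l|) →
    (∀ a, nodeX x d a ∈ Icc (1 / 2 : ℝ) 1 ∧ Away w M c 1 (nodeX x d a)) →
    ON f (WW x d) s q → Small w M c f (WW x d) s q →
    (∀ a, (fr x d s q τ (Sum.inr (Sum.inr a))).eval (nodeX x d a) ≠ 0) ∧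
    ∀ i j, |∫ t, f t * (fr x d s q τ i * fr x d s q τ j).eval t ∂m01 +
        ∑ a, (((fr x d s q τ (Sum.inr (Sum.inr a))).eval (nodeX x d a)) ^ 2)⁻¹ *
          (fr x d s q τ i * fr x d s q τ j).eval (nodeX x d a) - (if i = j then 1 else 0)| ≤ 17 * τ

/-- Smearing with arbitrarily thin bumps. -/
def TaskSmear : Prop := ∀ (f : ℝ → ℝ), Integrable f m01 → 0 ≤ᵐ[m01] f → ∀ (κ ι : Type) [Fintype κ]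
    [Fintype ι] (a : κ → ℝ), (∀ i, 0 ≤ a i ∧ a i < 1) → ∀ (u : κ → ℝ), (∀ i, 0 ≤ u i) →
    ∀ (P : ι → ι → ℝ[X]) (T : ι → ι → ℝ) (β : ℝ),
    (∀ i j, |∫ x, f x * (P i j).eval x ∂m01 + ∑ k, u k * (P i j).eval (a k) - T i j| < β) →
    ∀ h0 > 0, ∃ h : ℝ, 0 < h ∧ h < h0 ∧ (∀ k, a k + h ≤ 1) ∧
      Integrable (fun x => f x + ∑ k, u k * bump (a k) h x) m01 ∧
      0 ≤ᵐ[m01] (fun x => f x + ∑ k, u k * bump (a k) h x) ∧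
      ∫ x, |(f x + ∑ k, u k * bump (a k) h x) - f x| ∂m01 ≤ ∑ k, u k ∧
      ∀ i j, |∫ x, (f x + ∑ k, u k * bump (a k) h x) * (P i j).eval x ∂m01 - T i j| < β

/-! ### Category argument and conclusion -/

/-- The robust variance property. -/
def GoodC (c : ℝ) (K : ℕ) (f : ℝ → ℝ) : Prop :=
  ∃ (s m : ℕ) (φ : Unit ⊕ (Fin s ⊕ (Fin m ⊕ Fin m)) → ℝ[X]), K ≤ s + 2 * m ∧
    (∀ i, (φ i).natDegree ≤ s + 2 * m) ∧ VarGe φ (c * ((s : ℝ) + 2 * m) ^ 2) ∧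
    ∀ i j, |∫ x, f x * (φ i * φ j).eval x ∂m01 - (if i = j then 1 else 0)| <
      1 / (8 * ((s : ℝ) + 2 * m + 1) ^ 2)

/-- The main step: density of the property among thin densities. -/
def Step (c : ℝ) (w : ℕ → ℝ) : Prop := ∀ (M : ℕ) (b : ℕ → ℝ) (η : ℝ) (f : ℝ → ℝ),
    Thin w M b η f → ∀ ε0 > 0, ∀ K : ℕ, ∃ (M' : ℕ) (b' : ℕ → ℝ) (g : ℝ → ℝ), Thin w M' b' η g ∧
      ∫ x, |g x - f x| ∂m01 < ε0 ∧ GoodC c K g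

/-- Category argument. -/
def TaskBaire : Prop := ∀ (c : ℝ) (w : ℕ → ℝ), 0 < c → (∀ i, 0 < w i) → Step c w →
    ∃ f : ℝ → ℝ, Integrable f m01 ∧ 0 ≤ᵐ[m01] f ∧ (∀ K : ℕ, GoodC c K f) ∧
      ∀ a b : ℚ, 0 ≤ a → a < b → b ≤ 1 → 0 < mJ a b f

/-- `p` is the sequence of orthonormal polynomials of `ν`. -/
def IsOrthonormalSeq (ν : Measure ℝ) (p : ℕ → ℝ[X]) : Prop :=
  (∀ k, (p k).natDegree = k ∧ 0 < (p k).leadingCoeff) ∧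
    ∀ j k, ∫ x, (p j).eval x * (p k).eval x ∂ν = if j = k then 1 else 0

/-- The number of (distinct) real zeros of `P_n = ∑ k ≤ n, a k * p k`. -/
noncomputable def realZeroCount {Ω : Type} (p : ℕ → ℝ[X]) (a : ℕ → Ω → ℝ) (n : ℕ) (ω : Ω) : ℝ :=
  ((∑ k ∈ Finset.range (n + 1), C (a k ω) * p k).roots.toFinset.card : ℝ)

/-- The final theorem. -/
def Final : Prop := ∃ ν : Measure ℝ, IsFiniteMeasure ν ∧ ν ≪ volume ∧ ν.support = Icc 0 1 ∧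
    (∃ p : ℕ → ℝ[X], IsOrthonormalSeq ν p) ∧
    ∃ c : ℝ, 0 < c ∧ ∀ p : ℕ → ℝ[X], IsOrthonormalSeq ν p →
      ∀ (Ω : Type) (_ : MeasurableSpace Ω) (μ : Measure Ω) (_ : IsProbabilityMeasure μ)
        (a : ℕ → Ω → ℝ), (∀ k, HasLaw (a k) (gaussianReal 0 1) μ) → iIndepFun a μ →
        (∀ n0 : ℕ, ∃ n : ℕ, n0 ≤ n ∧ c * (n : ℝ) ^ 2 ≤ Var[realZeroCount p a n; μ]) ∧
        ¬ ∀ t : ℝ, Tendsto (fun n : ℕ => μ.real {ω | (realZeroCount p a n ω -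
            μ[realZeroCount p a n]) / √(Var[realZeroCount p a n; μ]) ≤ t}) atTop
          (𝓝 ((gaussianReal 0 1).real (Iic t)))

/-- Conclusion from a generic density. -/
def TaskEnd : Prop := ∀ (c : ℝ), 0 < c → (∃ f : ℝ → ℝ, Integrable f m01 ∧ 0 ≤ᵐ[m01] f ∧
      (∀ K : ℕ, GoodC c K f) ∧ ∀ a b : ℚ, 0 ≤ a → a < b → b ≤ 1 → 0 < mJ a b f) → Final

end Pool.Agent.H727R4.CLT
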