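import Pool.Agent.H727R4.CLT.Stmts

/-! Task Baire of project H727-CLT (helper744). -/

set_option autoImplicit false
open MeasureTheory ProbabilityTheory Filter Topology Set Polynomial
open scoped ENNReal NNReal
open Pool.Agent.Helper553.Orth

namespace Pool.Agent.H727R4.CLT.Baire

theorem Thin.congr {w : ℕ → ℝ} {M : ℕ} {c : ℕ → ℝ} {η : ℝ} {f g : ℝ → ℝ} (h : Thin w M c η f)
    (e : f =ᵐ[m01] g) : Thin w M c η g where
  hf := h.hf.congr e
  hf0 := by filter_upwards [h.hf0, e] with x hx hx'; rw [← hx']; exact hx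
  hη := h.hη
  hlow := by filter_upwards [h.hlow, e] with x hx hx'; rw [← hx']; exact hx
  hc := h.hc
  hsupp := by filter_upwards [h.hsupp, e] with x hx hx'; rw [← hx']; exact hx

/-- the thin densities -/
def TT (w : ℕ → ℝ) : Set (Lp ℝ 1 m01) :=
  {f | ∃ (M : ℕ) (b : ℕ → ℝ) (η : ℝ), Thin w M b η (f : ℝ → ℝ)}

/-- the closure of the thin densities -/
def YY (w : ℕ → ℝ) : Set (Lp ℝ 1 m01) := closure (TT w)

instance (w : ℕ → ℝ) : CompleteSpace (YY w) := isClosed_closure.completeSpace_coe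

theorem TT_sub (w : ℕ → ℝ) : TT w ⊆ XX := by
  rintro f ⟨M, b, η, h⟩
  exact (Lp.coeFn_nonneg f).mp h.hf0

theorem YY_sub (w : ℕ → ℝ) : YY w ⊆ XX := closure_minimal (TT_sub w) XX_closed

theorem YY_nonneg {w : ℕ → ℝ} (f : YY w) : 0 ≤ᵐ[m01] ((f : Lp ℝ 1 m01) : ℝ → ℝ) :=
  (Lp.coeFn_nonneg _).mpr (YY_sub w f.2)

theorem toYY {w : ℕ → ℝ} {M : ℕ} {b : ℕ → ℝ} {η : ℝ} {g : ℝ → ℝ} (h : Thin w M b η g) :
    ∃ f : YY w, ((f : Lp ℝ 1 m01) : ℝ → ℝ) =ᵐ[m01] g :=
  ⟨⟨h.hf.toL1 g, subset_closure ⟨M, b, η, Thin.congr h h.hf.coeFn_toL1.symm⟩⟩, h.hf.coeFn_toL1⟩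

/-- approximation by thin densities -/
theorem near {w : ℕ → ℝ} (f : YY w) {ε : ℝ} (hε : 0 < ε) :
    ∃ (M : ℕ) (b : ℕ → ℝ) (η : ℝ) (g : ℝ → ℝ), Thin w M b η g ∧
      ∫ x, |g x - (f : Lp ℝ 1 m01) x| ∂m01 < ε := by
  obtain ⟨g, ⟨M, b, η, h⟩, hd⟩ := Metric.mem_closure_iff.1 f.2 ε hε
  refine ⟨M, b, η, g, h, ?_⟩
  rw [dist_comm, l1_dist] at hd
  exact hd

/-- density criterion -/
theorem dense_of {w : ℕ → ℝ} {P : (ℝ → ℝ) → Prop}
    (hP : ∀ f g : ℝ → ℝ, f =ᵐ[m01] g → P f → P g)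
    (h : ∀ (M : ℕ) (b : ℕ → ℝ) (η : ℝ) (f : ℝ → ℝ), Thin w M b η f → ∀ ε > 0,
      ∃ (M' : ℕ) (b' : ℕ → ℝ) (η' : ℝ) (g : ℝ → ℝ), Thin w M' b' η' g ∧
        ∫ x, |g x - f x| ∂m01 < ε ∧ P g) :
    Dense {f : YY w | P (f : Lp ℝ 1 m01)} := by
  rw [Metric.dense_iff]
  intro f ε hε
  obtain ⟨M, b, η, f', hf', hd⟩ := near f (half_pos hε)
  obtain ⟨M', b', η', g, hg, hd', hPg⟩ := h M b η f' hf' (ε / 2) (half_pos hε)
  obtain ⟨g', hg'⟩ := toYY hg
  refine ⟨g', ?_, hP _ _ hg'.symm hPg⟩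
  rw [Metric.mem_ball, Subtype.dist_eq, l1_dist]
  have hf := l1_integrable (f : Lp ℝ 1 m01)
  have e : ∫ x, |(g' : Lp ℝ 1 m01) x - (f : Lp ℝ 1 m01) x| ∂m01 ≤
      ∫ x, (|g x - f' x| + |f' x - (f : Lp ℝ 1 m01) x|) ∂m01 := by
    apply integral_mono_ae
    · exact ((l1_integrable _).sub hf).abs
    · exact ((hg.hf.sub hf'.hf).abs).add ((hf'.hf.sub hf).abs)
    · filter_upwards [hg'] with x hx
      rw [hx]
      exact abs_sub_le _ _ _
  have i1 : Integrable (fun x => |g x - f' x|) m01 := (hg.hf.sub hf'.hf).abs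
  have i2 : Integrable (fun x => |f' x - (f : Lp ℝ 1 m01) x|) m01 := (hf'.hf.sub hf).abs
  rw [integral_add i1 i2] at e
  linarith

theorem good_congr {c : ℝ} {K : ℕ} {f g : ℝ → ℝ} (e : f =ᵐ[m01] g) (h : GoodC c K f) :
    GoodC c K g := by
  obtain ⟨s, m, φ, h1, h2, h3, h4⟩ := h
  refine ⟨s, m, φ, h1, h2, h3, fun i j => ?_⟩
  have e' : ∫ x, g x * (φ i * φ j).eval x ∂m01 = ∫ x, f x * (φ i * φ j).eval x ∂m01 := by
    apply integral_congr_ae
    filter_upwards [e] with x hx
    rw [hx]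
  rw [e']
  exact h4 i j

theorem good_open (w : ℕ → ℝ) (c : ℝ) (K : ℕ) :
    IsOpen {f : YY w | GoodC c K (f : Lp ℝ 1 m01)} := by
  rw [isOpen_iff_mem_nhds]
  rintro f ⟨s, m, φ, h1, h2, h3, h4⟩
  have key : ∀ i j, ∀ᶠ g : YY w in 𝓝 f,
      |∫ x, (g : Lp ℝ 1 m01) x * (φ i * φ j).eval x ∂m01 - (if i = j then 1 else 0)| <
      1 / (8 * ((s : ℝ) + 2 * m + 1) ^ 2) := by
    intro i j
    obtain ⟨M, hM0, hM⟩ := poly_bdd (φ i * φ j)
    have hc := cont_functional (u := fun x => (φ i * φ j).eval x)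
      (φ i * φ j).continuous.measurable hM0 (m01_ae.mono (fun x hx => hM x hx))
    have hc' : Continuous (fun g : YY w =>
        |∫ x, (g : Lp ℝ 1 m01) x * (φ i * φ j).eval x ∂m01 - (if i = j then 1 else 0)|) :=
      ((hc.comp continuous_subtype_val).sub continuous_const).abs
    exact hc'.continuousAt.eventually (gt_mem_nhds (h4 i j))
  have key' : ∀ᶠ g : YY w in 𝓝 f, ∀ i j,
      |∫ x, (g : Lp ℝ 1 m01) x * (φ i * φ j).eval x ∂m01 - (if i = j then 1 else 0)| <
      1 / (8 * ((s : ℝ) + 2 * m + 1) ^ 2) := by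
    rw [eventually_all]; intro i
    rw [eventually_all]; intro j
    exact key i j
  filter_upwards [key'] with g hg
  exact ⟨s, m, φ, h1, h2, h3, hg⟩

theorem mJ_openY (w : ℕ → ℝ) (a b : ℝ) : IsOpen {f : YY w | 0 < mJ a b (f : Lp ℝ 1 m01)} := by
  have hc := cont_functional (u := (Ioo a b).indicator (fun _ => (1 : ℝ)))
    (measurable_const.indicator measurableSet_Ioo) zero_le_one
    (Eventually.of_forall (ind_bdd a b))
  have hc' : Continuous (fun g : YY w => mJ a b (g : Lp ℝ 1 m01)) :=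
    hc.comp continuous_subtype_val
  exact isOpen_Ioi.preimage hc'

theorem mJ_congr {a b : ℝ} {f g : ℝ → ℝ} (e : f =ᵐ[m01] g) : mJ a b f = mJ a b g := by
  unfold mJ
  apply integral_congr_ae
  filter_upwards [e] with x hx
  rw [hx]

theorem mJ_pos {a b a' b' δ : ℝ} {g : ℝ → ℝ} (hg : Integrable g m01) (hg0 : 0 ≤ᵐ[m01] g)
    (haa : a ≤ a') (hbb : b' ≤ b) (ha' : 0 ≤ a') (hab : a' < b') (hb' : b' ≤ 1) (hδ : 0 < δ)
    (h : ∀ᵐ x ∂m01, x ∈ Ioo a' b' → δ ≤ g x) : 0 < mJ a b g := by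
  have hi1 : Integrable (fun x => g x * (Ioo a b).indicator (fun _ => (1 : ℝ)) x) m01 := by
    apply hg.mul_bdd (c := 1) (measurable_const.indicator measurableSet_Ioo).aestronglyMeasurable
    exact Eventually.of_forall (ind_bdd a b)
  have hi2 : Integrable (fun x => δ * (1 * (Ioo a' b').indicator (fun _ => (1 : ℝ)) x)) m01 := by
    apply Integrable.const_mul
    simp_rw [one_mul]
    exact (integrable_const _).indicator measurableSet_Ioo
  have h1 : δ * mJ a' b' (fun _ => 1) ≤ mJ a b g := by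
    unfold mJ
    rw [← integral_const_mul]
    apply integral_mono_ae hi2 hi1
    filter_upwards [hg0, h] with x hx0 hx
    by_cases hxm : x ∈ Ioo a' b'
    · have hxm' : x ∈ Ioo a b := ⟨lt_of_le_of_lt haa hxm.1, lt_of_lt_of_le hxm.2 hbb⟩
      simp only [indicator_of_mem hxm, indicator_of_mem hxm', mul_one]
      exact hx hxm
    · simp only [indicator_of_notMem hxm, mul_zero]
      exact mul_nonneg hx0 (ind_nonneg a b x)
  rw [mJ_one ha' hab hb'] at h1
  have : 0 < δ * (b' - a') := mul_pos hδ (by linarith)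
  linarith

theorem mJ_denseY {w : ℕ → ℝ} (hw : ∀ i, 0 < w i) {a b : ℝ} (ha : 0 ≤ a) (hab : a < b)
    (hb : b ≤ 1) : Dense {f : YY w | 0 < mJ a b (f : Lp ℝ 1 m01)} := by
  apply dense_of (P := fun f => 0 < mJ a b f) (fun f g e h => by rwa [← mJ_congr e])
  intro M c η f hf ε hε
  rcases lt_or_ge a (1 / 4) with h4 | h4
  · refine ⟨M, c, η, f, hf, by simpa using hε, ?_⟩
    refine mJ_pos (a' := a) (b' := min b (1 / 4)) hf.hf hf.hf0 le_rfl (min_le_left _ _) ha
      (lt_min hab h4) ((min_le_left _ _).trans hb) hf.hη ?_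
    filter_upwards [hf.hlow] with x hx hxm
    exact hx ⟨ha.trans hxm.1.le, hxm.2.le.trans (min_le_right _ _)⟩
  · set h := min (w M) (b - a) with hh
    have hh0 : 0 < h := lt_min (hw M) (by linarith)
    have hhw : h ≤ w M := min_le_left _ _
    have hhb : a + h ≤ b := by have := min_le_right (w M) (b - a); linarith
    have hδ : 0 < ε / 2 := half_pos hε
    set u : ℝ → ℝ := (Icc a (a + h)).indicator (fun _ => ε / 2) with hu
    have hu0 : ∀ x, 0 ≤ u x := fun x => indicator_nonneg (fun _ _ => hδ.le) x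
    have hui : Integrable u m01 := (integrable_const _).indicator measurableSet_Icc
    have hg0 : 0 ≤ᵐ[m01] (fun x => f x + u x) := by
      filter_upwards [hf.hf0] with x hx
      exact add_nonneg hx (hu0 x)
    refine ⟨M + 1, Function.update c M a, η, fun x => f x + u x, ?_, ?_, ?_⟩
    · refine ⟨hf.hf.add hui, hg0, hf.hη, ?_, ?_, ?_⟩
      · filter_upwards [hf.hlow] with x hx hxm
        have := hx hxm
        have := hu0 x
        linarith
      · intro i hi
        rcases eq_or_ne i M with rfl | hne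
        · rw [Function.update_self]; exact ⟨h4, by linarith⟩
        · rw [Function.update_of_ne hne]; exact hf.hc i (by omega)
      · filter_upwards [hf.hsupp] with x hx hx1 hx2
        have e1 : f x = 0 := by
          refine hx hx1 (fun i hi => ?_)
          have := hx2 i (by omega)
          rwa [Function.update_of_ne (by omega)] at this
        have e2 : u x = 0 := by
          rw [hu]
          apply indicator_of_notMem
          intro hm
          have := hx2 M (by omega)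
          rw [Function.update_self] at this
          exact this ⟨hm.1, hm.2.trans (by linarith)⟩
        rw [e1, e2, add_zero]
    · have e : ∫ x, |f x + u x - f x| ∂m01 ≤ ∫ _x, ε / 2 ∂m01 := by
        apply integral_mono_ae
        · have : (fun x => |f x + u x - f x|) = fun x => u x := by
            funext x
            rw [add_sub_cancel_left, abs_of_nonneg (hu0 x)]
          rw [this]; exact hui
        · exact integrable_const _
        · refine Eventually.of_forall fun x => ?_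
          show |f x + u x - f x| ≤ ε / 2
          rw [add_sub_cancel_left, abs_of_nonneg (hu0 x), hu]
          exact indicator_le_self' (fun _ _ => hδ.le) x
      have e1 : ∫ _x, ε / 2 ∂m01 = ε / 2 := by
        unfold m01
        rw [setIntegral_const, measureReal_def, Real.volume_Icc]
        simp
      rw [e1] at e
      linarith
    · refine mJ_pos (a' := a) (b' := a + h) (hf.hf.add hui) hg0 le_rfl hhb ha (by linarith)
        (hhb.trans hb) hδ ?_
      filter_upwards [hf.hf0] with x hx hxm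
      have : u x = ε / 2 := by
        rw [hu]; exact indicator_of_mem (Ioo_subset_Icc_self hxm) _
      show ε / 2 ≤ f x + u x
      rw [this]
      have hx' : 0 ≤ f x := hx
      linarith

theorem taskBaire : TaskBaire := by
  intro c w hc hw hstep
  have hne : Nonempty (YY w) := by
    have h : Thin w 0 (fun _ => 0) 1 ((Icc (0 : ℝ) (1 / 4)).indicator (fun _ => (1 : ℝ))) := by
      refine ⟨(integrable_const _).indicator measurableSet_Icc,
        Eventually.of_forall fun x => indicator_nonneg (fun _ _ => zero_le_one) x, one_pos,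
        Eventually.of_forall fun x hx => by rw [indicator_of_mem hx],
        fun i hi => absurd hi (Nat.not_lt_zero i),
        Eventually.of_forall fun x hx _ => indicator_of_notMem hx _⟩
    obtain ⟨f, -⟩ := toYY h
    exact ⟨f⟩
  let S : ℕ ⊕ {p : ℚ × ℚ // 0 ≤ p.1 ∧ p.1 < p.2 ∧ p.2 ≤ 1} → Set (YY w) := fun i =>
    Sum.elim (fun K : ℕ => {f : YY w | GoodC c K (f : Lp ℝ 1 m01)})
      (fun p => {f : YY w | 0 < mJ (p.1.1 : ℝ) (p.1.2 : ℝ) (f : Lp ℝ 1 m01)}) i
  have ho : ∀ i, IsOpen (S i) := by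
    rintro (K | p)
    · exact good_open w c K
    · exact mJ_openY w _ _
  have hd : ∀ i, Dense (S i) := by
    rintro (K | p)
    · apply dense_of (P := fun f => GoodC c K f) (fun f g e h => good_congr e h)
      intro M b η f hf ε hε
      obtain ⟨M', b', g, hg, h1, h2⟩ := hstep M b η f hf ε hε K
      exact ⟨M', b', η, g, hg, h1, h2⟩
    · apply mJ_denseY hw
      · exact_mod_cast p.2.1
      · exact_mod_cast p.2.2.1
      · exact_mod_cast p.2.2.2
  obtain ⟨f, hf⟩ := (dense_iInter_of_isOpen ho hd).nonempty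
  rw [mem_iInter] at hf
  refine ⟨(f : Lp ℝ 1 m01), l1_integrable _, YY_nonneg f, ?_, ?_⟩
  · intro K
    exact hf (Sum.inl K)
  · intro a b ha hab hb
    exact hf (Sum.inr ⟨(a, b), ha, hab, hb⟩)

end Pool.Agent.H727R4.CLT.Baire
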