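import Pool.Agent.H727R4.CLT.Stmts

/-!
# Project H727-CLT, task Blob: mass of the orthonormal polynomials on one blob
-/

set_option autoImplicit false
open MeasureTheory ProbabilityTheory Filter Topology Set Polynomial
open scoped ENNReal NNReal
open Pool.Agent.Helper553.Orth

namespace Pool.Agent.H727R4.CLT.Blob

/-- the functional with an indicator -/
noncomputable def JJ (f : ℝ → ℝ) (hf : Integrable f m01) (B : Set ℝ) (hB : MeasurableSet B) :
    ℝ[X] →ₗ[ℝ] ℝ where
  toFun p := ∫ t, f t * p.eval t * B.indicator (fun _ => (1 : ℝ)) t ∂m01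
  map_add' p q := by
    have h : ∀ r : ℝ[X], Integrable (fun t => f t * r.eval t * B.indicator (fun _ => (1 : ℝ)) t)
        m01 := fun r => by
      have := (integrable_mul_poly hf r).indicator hB
      refine this.congr (Eventually.of_forall fun t => ?_)
      by_cases ht : t ∈ B
      · simp [Set.indicator_of_mem ht]
      · simp [Set.indicator_of_notMem ht]
    rw [← integral_add (h p) (h q)]
    congr 1
    ext t
    rw [eval_add]
    ring
  map_smul' a p := by
    rw [RingHom.id_apply, smul_eq_mul, ← integral_const_mul]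
    congr 1
    ext t
    rw [eval_smul, smul_eq_mul]
    ring

/-- the functional without an indicator -/
noncomputable def II (f : ℝ → ℝ) (hf : Integrable f m01) : ℝ[X] →ₗ[ℝ] ℝ where
  toFun p := ∫ t, f t * p.eval t ∂m01
  map_add' p q := by
    rw [← integral_add (integrable_mul_poly hf p) (integrable_mul_poly hf q)]
    congr 1
    ext t
    rw [eval_add]
    ring
  map_smul' a p := by
    rw [RingHom.id_apply, smul_eq_mul, ← integral_const_mul]
    congr 1
    ext t
    rw [eval_smul, smul_eq_mul]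
    ring

lemma quad (L : ℝ[X] →ₗ[ℝ] ℝ) (W : ℝ[X]) {T : ℕ} (q : ℕ → ℝ[X]) (v : Fin T → ℝ) :
    ∑ i, ∑ j, v i * v j * L (W * q i * (W * q j)) =
      L (W * (∑ i, v i • q i) * (W * (∑ i, v i • q i))) := by
  have h : W * (∑ i : Fin T, v i • q i) = ∑ i : Fin T, v i • (W * q i) := by
    rw [Finset.mul_sum]
    refine Finset.sum_congr rfl fun i _ => ?_
    rw [mul_smul_comm]
  rw [h, Finset.sum_mul_sum, map_sum]
  refine Finset.sum_congr rfl fun i _ => ?_
  rw [map_sum]
  refine Finset.sum_congr rfl fun j _ => ?_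
  rw [smul_mul_smul_comm, map_smul, smul_eq_mul]

lemma factor (p : ℝ[X]) (c : ℝ) (l : ℕ) (h : ∀ d < l, (taylor c p).coeff d = 0) :
    ∃ g : ℝ[X], p = (X - C c) ^ l * g ∧ g.natDegree ≤ p.natDegree := by
  obtain ⟨g', hg'⟩ := X_pow_dvd_iff.2 h
  have h1 : p = (taylor c p).comp (X - C c) := by
    rw [taylor_apply, comp_assoc]
    simp
  have h2 : p = (X - C c) ^ l * g'.comp (X - C c) := by
    rw [h1, hg', mul_comp, X_pow_comp]
  refine ⟨g'.comp (X - C c), h2, ?_⟩
  by_cases hg : g'.comp (X - C c) = 0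
  · rw [hg]; simp
  · have h3 : p.natDegree = l + (g'.comp (X - C c)).natDegree := by
      conv_lhs => rw [h2]
      rw [Monic.natDegree_mul' ((monic_X_sub_C c).pow l) hg, natDegree_pow, natDegree_X_sub_C,
        mul_one]
    omega

lemma JJ_nonneg (f : ℝ → ℝ) (hf : Integrable f m01) (hf0 : 0 ≤ᵐ[m01] f) (B : Set ℝ)
    (hB : MeasurableSet B) (s : ℝ[X]) : 0 ≤ JJ f hf B hB (s * s) := by
  show 0 ≤ ∫ t, f t * (s * s).eval t * B.indicator (fun _ => (1 : ℝ)) t ∂m01
  apply integral_nonneg_of_ae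
  filter_upwards [hf0] with t ht
  have ht' : 0 ≤ f t := ht
  show 0 ≤ f t * (s * s).eval t * B.indicator (fun _ => (1 : ℝ)) t
  rw [eval_mul]
  have h1 : 0 ≤ B.indicator (fun _ => (1 : ℝ)) t :=
    Set.indicator_nonneg (fun _ _ => zero_le_one) t
  exact mul_nonneg (mul_nonneg ht' (mul_self_nonneg _)) h1

lemma JJ_le (f : ℝ → ℝ) (hf : Integrable f m01) (hf0 : 0 ≤ᵐ[m01] f) (B : Set ℝ)
    (hB : MeasurableSet B) (s : ℝ[X]) : JJ f hf B hB (s * s) ≤ II f hf (s * s) := by
  show ∫ t, f t * (s * s).eval t * B.indicator (fun _ => (1 : ℝ)) t ∂m01 ≤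
    ∫ t, f t * (s * s).eval t ∂m01
  apply integral_mono_of_nonneg
  · filter_upwards [hf0] with t ht
    have ht' : 0 ≤ f t := ht
    show 0 ≤ f t * (s * s).eval t * B.indicator (fun _ => (1 : ℝ)) t
    rw [eval_mul]
    have h1 : 0 ≤ B.indicator (fun _ => (1 : ℝ)) t :=
      Set.indicator_nonneg (fun _ _ => zero_le_one) t
    exact mul_nonneg (mul_nonneg ht' (mul_self_nonneg _)) h1
  · exact integrable_mul_poly hf _
  · filter_upwards [hf0] with t ht
    have ht' : 0 ≤ f t := ht
    show f t * (s * s).eval t * B.indicator (fun _ => (1 : ℝ)) t ≤ f t * (s * s).eval t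
    have h2 : 0 ≤ f t * (s * s).eval t := by
      rw [eval_mul]
      exact mul_nonneg ht' (mul_self_nonneg _)
    have h1 : B.indicator (fun _ => (1 : ℝ)) t ≤ 1 := by
      by_cases hb : t ∈ B
      · rw [Set.indicator_of_mem hb]
      · rw [Set.indicator_of_notMem hb]; exact zero_le_one
    calc f t * (s * s).eval t * B.indicator (fun _ => (1 : ℝ)) t ≤ f t * (s * s).eval t * 1 := by
          gcongr
      _ = _ := mul_one _

lemma ker_est (K : ℝ) (hK : RemezK K) (f : ℝ → ℝ) (hf : Integrable f m01) (hf0 : 0 ≤ᵐ[m01] f)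
    (η : ℝ) (hη : 0 < η) (hlow : ∀ᵐ t ∂m01, t ∈ Icc (0 : ℝ) (1 / 4) → η ≤ f t)
    (c w : ℝ) (hc : 1 / 4 ≤ c) (hw : 0 < w) (l N : ℕ) (g W : ℝ[X]) (hdeg : (g * W).natDegree ≤ N)
    (S : ℝ) (hS : II f hf (W * ((X - C c) ^ l * g) * (W * ((X - C c) ^ l * g))) ≤ S) :
    JJ f hf (Icc c (c + w)) measurableSet_Icc
      (W * ((X - C c) ^ l * g) * (W * ((X - C c) ^ l * g))) ≤
      (∫ t, f t ∂m01) / η * (64 * w ^ 2) ^ l * K ^ (N + 1) * S := by
  set s : ℝ[X] := W * ((X - C c) ^ l * g) with hs
  have hev : ∀ t, s.eval t = (t - c) ^ l * (g * W).eval t := by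
    intro t
    rw [hs]
    simp only [eval_mul, eval_pow, eval_sub, eval_X, eval_C]
    ring
  have hsq : ∀ t, (s * s).eval t = ((t - c) ^ 2) ^ l * ((g * W).eval t) ^ 2 := by
    intro t
    rw [eval_mul, hev, ← pow_mul, mul_comm 2 l, pow_mul]
    ring
  have hint := integrable_mul_poly hf (s * s)
  -- (a)
  have ha : ∫ u in Icc (0 : ℝ) (1 / 8), ((g * W).eval u) ^ 2 ≤ 64 ^ l / η * S := by
    have hrr : (volume : Measure ℝ).restrict (Icc (0 : ℝ) (1 / 8)) =
        m01.restrict (Icc (0 : ℝ) (1 / 8)) := by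
      unfold m01
      rw [Measure.restrict_restrict measurableSet_Icc]
      congr 1
      rw [eq_comm, Set.inter_eq_left]
      intro u hu
      exact ⟨hu.1, hu.2.trans (by norm_num)⟩
    rw [hrr]
    have h1 : ∫ u in Icc (0 : ℝ) (1 / 8), ((g * W).eval u) ^ 2 ∂m01 ≤
        ∫ u in Icc (0 : ℝ) (1 / 8), 64 ^ l / η * (f u * (s * s).eval u) ∂m01 := by
      apply integral_mono_of_nonneg
      · exact Eventually.of_forall fun u => sq_nonneg _
      · exact (hint.const_mul _).restrict
      · have h2 := ae_restrict_of_ae (s := Icc (0 : ℝ) (1 / 8)) hlow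
        filter_upwards [h2, ae_restrict_mem measurableSet_Icc] with u hu hu2
        have hfu : η ≤ f u := hu ⟨hu2.1, hu2.2.trans (by norm_num)⟩
        show ((g * W).eval u) ^ 2 ≤ 64 ^ l / η * (f u * (s * s).eval u)
        rw [hsq]
        have h3 : (1 / 64 : ℝ) ≤ (u - c) ^ 2 := by nlinarith [hu2.2, hc]
        have h4 : (1 / 64 : ℝ) ^ l ≤ ((u - c) ^ 2) ^ l := pow_le_pow_left₀ (by norm_num) h3 l
        have h5 : (1 : ℝ) ≤ 64 ^ l * ((u - c) ^ 2) ^ l := by
          have : (64 : ℝ) ^ l * (1 / 64) ^ l = 1 := by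
            rw [← mul_pow]; norm_num
          calc (1 : ℝ) = 64 ^ l * (1 / 64) ^ l := this.symm
            _ ≤ _ := by gcongr
        have h6 : (1 : ℝ) ≤ f u / η := by
          rw [le_div_iff₀ hη, one_mul]; exact hfu
        have h7 : 64 ^ l / η * (f u * (((u - c) ^ 2) ^ l * ((g * W).eval u) ^ 2)) =
            (64 ^ l * ((u - c) ^ 2) ^ l) * (f u / η) * ((g * W).eval u) ^ 2 := by
          field_simp
        rw [h7]
        have h8 : (1 : ℝ) ≤ (64 ^ l * ((u - c) ^ 2) ^ l) * (f u / η) := one_le_mul_of_one_le_of_one_le h5 h6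
        calc ((g * W).eval u) ^ 2 = 1 * ((g * W).eval u) ^ 2 := (one_mul _).symm
          _ ≤ _ := by gcongr
    have h9 : ∫ u in Icc (0 : ℝ) (1 / 8), 64 ^ l / η * (f u * (s * s).eval u) ∂m01 ≤
        ∫ u, 64 ^ l / η * (f u * (s * s).eval u) ∂m01 := by
      apply setIntegral_le_integral (hint.const_mul _)
      filter_upwards [hf0] with t ht
      have ht' : 0 ≤ f t := ht
      show 0 ≤ 64 ^ l / η * (f t * (s * s).eval t)
      rw [eval_mul]
      have := mul_self_nonneg (s.eval t)
      positivity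
    refine h1.trans (h9.trans ?_)
    rw [integral_const_mul]
    have : 0 ≤ (64 : ℝ) ^ l / η := by positivity
    exact mul_le_mul_of_nonneg_left hS this
  -- (b)
  obtain ⟨hK1, hKR⟩ := hK
  have hb : ∀ t ∈ Icc (0 : ℝ) 1, ((g * W).eval t) ^ 2 ≤ K ^ (N + 1) * (64 ^ l / η * S) := by
    intro t ht
    refine (hKR N (g * W) hdeg t ht).trans ?_
    have : 0 ≤ K ^ (N + 1) := by positivity
    exact mul_le_mul_of_nonneg_left ha this
  -- (c)
  have hM0 : 0 ≤ K ^ (N + 1) * (64 ^ l / η * S) :=
    (sq_nonneg _).trans (hb 0 ⟨le_rfl, zero_le_one⟩)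
  show ∫ t, f t * (s * s).eval t * (Icc c (c + w)).indicator (fun _ => (1 : ℝ)) t ∂m01 ≤ _
  have h10 : ∫ t, f t * (s * s).eval t * (Icc c (c + w)).indicator (fun _ => (1 : ℝ)) t ∂m01 ≤
      ∫ t, f t * ((w ^ 2) ^ l * (K ^ (N + 1) * (64 ^ l / η * S))) ∂m01 := by
    apply integral_mono_of_nonneg
    · filter_upwards [hf0] with t ht
      have ht' : 0 ≤ f t := ht
      show 0 ≤ f t * (s * s).eval t * (Icc c (c + w)).indicator (fun _ => (1 : ℝ)) t
      rw [eval_mul]
      have h1 : 0 ≤ (Icc c (c + w)).indicator (fun _ => (1 : ℝ)) t :=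
        Set.indicator_nonneg (fun _ _ => zero_le_one) t
      exact mul_nonneg (mul_nonneg ht' (mul_self_nonneg _)) h1
    · exact hf.mul_const _
    · filter_upwards [hf0, m01_ae] with t ht ht1
      have ht' : 0 ≤ f t := ht
      show f t * (s * s).eval t * (Icc c (c + w)).indicator (fun _ => (1 : ℝ)) t ≤
        f t * ((w ^ 2) ^ l * (K ^ (N + 1) * (64 ^ l / η * S)))
      by_cases hbt : t ∈ Icc c (c + w)
      · rw [Set.indicator_of_mem hbt, mul_one, hsq]
        have h1 : (t - c) ^ 2 ≤ w ^ 2 := by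
          have h2 : 0 ≤ t - c := by linarith [hbt.1]
          have h3 : t - c ≤ w := by linarith [hbt.2]
          exact pow_le_pow_left₀ h2 h3 2
        have h2 := hb t ht1
        gcongr
      · rw [Set.indicator_of_notMem hbt, mul_zero]
        positivity
  refine h10.trans (le_of_eq ?_)
  rw [integral_mul_const, mul_pow]
  ring

theorem taskBlob (hT : TaskTrace) : TaskBlob := by
  intro K hK w M c η f hw hThin W T N q hT1 hON hN i hi l hlT
  obtain ⟨hf, hf0, hη, hlow, hc, -⟩ := hThin
  have hci := hc i hi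
  have hwi := hw i
  set B := Icc (c i) (c i + w i) with hB
  set ε := (∫ t, f t ∂m01) / η * (64 * w i ^ 2) ^ l * K ^ (N + 1) with hε
  have hK1 := hK.1
  have hI0 : 0 ≤ ∫ t, f t ∂m01 := integral_nonneg_of_ae hf0
  have hε0 : 0 ≤ ε := by
    rw [hε]
    positivity
  have hII : ∀ v : Fin T → ℝ, II f hf (W * (∑ i, v i • q i) * (W * (∑ i, v i • q i))) =
      ∑ i, v i ^ 2 := by
    intro v
    rw [← quad]
    refine Finset.sum_congr rfl fun a _ => ?_
    have h1 : ∀ b : Fin T, v a * v b * II f hf (W * q a * (W * q b)) =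
        if a = b then v a ^ 2 else 0 := by
      intro b
      have h2 : II f hf (W * q a * (W * q b)) = if (a : ℕ) = b then 1 else 0 :=
        hON.on a (by have := a.2; omega) b (by have := b.2; omega)
      rw [h2]
      by_cases hab : a = b
      · subst hab; simp [sq]
      · have : (a : ℕ) ≠ b := fun h => hab (Fin.ext h)
        simp [hab, this]
    rw [Finset.sum_congr rfl fun b _ => h1 b]
    simp
  have key := hT T l (Matrix.of fun a b => JJ f hf B measurableSet_Icc (W * q a * (W * q b)))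
    (LinearMap.pi fun d : Fin l => (lcoeff ℝ (d : ℕ)).comp
      ((taylor (c i)).comp (Fintype.linearCombination ℝ (fun a : Fin T => q a)))) ε hε0
    (by
      ext a b
      simp only [Matrix.transpose_apply, Matrix.of_apply]
      rw [mul_comm])
    (fun v => by
      simp only [Matrix.of_apply]
      rw [quad]
      exact JJ_nonneg f hf hf0 B measurableSet_Icc _)
    (fun v => by
      simp only [Matrix.of_apply]
      rw [quad]
      refine (JJ_le f hf hf0 B measurableSet_Icc _).trans (le_of_eq ?_)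
      exact hII v)
    (fun v hv => by
      simp only [Matrix.of_apply]
      rw [quad]
      have h1 : ∀ d < l, (taylor (c i) (∑ a : Fin T, v a • q a)).coeff d = 0 := by
        intro d hd
        have := congrFun hv ⟨d, hd⟩
        simpa [Fintype.linearCombination_apply] using this
      obtain ⟨g, hg, hgd⟩ := factor _ (c i) l h1
      have hpd : (∑ a : Fin T, v a • q a).natDegree ≤ T - 1 := by
        refine natDegree_sum_le_of_forall_le _ _ fun a _ => ?_
        refine (natDegree_smul_le _ _).trans ?_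
        rw [hON.deg a (by have := a.2; omega)]
        have := a.2
        omega
      have hdeg : (g * W).natDegree ≤ N := by
        refine natDegree_mul_le.trans ?_
        omega
      have h2 := ker_est K hK f hf hf0 η hη hlow (c i) (w i) hci.1 hwi l N g W hdeg
        (∑ a, v a ^ 2) (by rw [← hg]; exact (hII v).le)
      rw [← hg] at h2
      exact h2)
  have h3 : (l : ℝ) + ε * T = l + T * ε := by ring
  rw [h3] at key
  refine le_trans (le_of_eq ?_) key
  rw [Finset.sum_range]
  rfl

end Pool.Agent.H727R4.CLT.Blob
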