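import Pool.Agent.H727R4.CLT.Stmts

set_option autoImplicit false
open MeasureTheory ProbabilityTheory Filter Topology Set Polynomial
open scoped ENNReal NNReal
open Pool.Agent.Helper553.Orth

namespace Pool.Agent.H727R4.CLT.C2

/-- Integration against the density, as a linear functional. -/
noncomputable def LJ {f : ℝ → ℝ} (hf : Integrable f m01) : ℝ[X] →ₗ[ℝ] ℝ where
  toFun p := ∫ t, f t * p.eval t ∂m01
  map_add' p q := by
    rw [← integral_add (integrable_mul_poly hf p) (integrable_mul_poly hf q)]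
    apply integral_congr_ae
    filter_upwards with t
    rw [eval_add]; ring
  map_smul' r p := by
    rw [RingHom.id_apply, smul_eq_mul, ← integral_const_mul]
    apply integral_congr_ae
    filter_upwards with t
    rw [eval_smul, smul_eq_mul]; ring

theorem LJ_apply {f : ℝ → ℝ} (hf : Integrable f m01) (p : ℝ[X]) :
    LJ hf p = ∫ t, f t * p.eval t ∂m01 := rfl

theorem LJ_C_mul {f : ℝ → ℝ} (hf : Integrable f m01) (a : ℝ) (p : ℝ[X]) :
    LJ hf (C a * p) = a * LJ hf p := by
  rw [← smul_eq_C_mul, map_smul, smul_eq_mul]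

variable {f : ℝ → ℝ} {W : ℝ[X]} {s : ℕ} {q : ℕ → ℝ[X]}

theorem norm_exp (hf : Integrable f m01) (hON : ON f W s q) (a : Fin s → ℝ) (e : ℝ) :
    LJ hf ((W * (∑ j : Fin s, C (a j) * q j - C e * q s)) *
      (W * (∑ j : Fin s, C (a j) * q j - C e * q s))) = ∑ j, a j ^ 2 + e ^ 2 := by
  have hon : ∀ i ≤ s, ∀ j ≤ s, LJ hf (W * q i * (W * q j)) = if i = j then 1 else 0 := hON.on
  set P : ℝ[X] := ∑ j : Fin s, C (a j) * q j with hP
  have h1 : LJ hf ((W * P) * (W * P)) = ∑ j, a j ^ 2 := by
    have e1 : (W * P) * (W * P) = ∑ i : Fin s, C (a i) * ∑ j : Fin s, C (a j) *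
        (W * q i * (W * q j)) := by
      rw [hP, Finset.mul_sum, Finset.sum_mul]
      apply Finset.sum_congr rfl
      intro i _
      rw [Finset.mul_sum, Finset.mul_sum]
      apply Finset.sum_congr rfl
      intro j _
      ring
    rw [e1, map_sum]
    apply Finset.sum_congr rfl
    intro i _
    rw [LJ_C_mul, map_sum, Finset.sum_eq_single i]
    · rw [LJ_C_mul, hon i i.2.le i i.2.le, if_pos rfl]; ring
    · intro j _ hj
      rw [LJ_C_mul, hon i i.2.le j j.2.le, if_neg (fun h => hj (Fin.ext h.symm)), mul_zero]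
    · intro h; exact absurd (Finset.mem_univ _) h
  have h2 : LJ hf ((W * P) * (W * q s)) = 0 := by
    have e1 : (W * P) * (W * q s) = ∑ i : Fin s, C (a i) * (W * q i * (W * q s)) := by
      rw [hP, Finset.mul_sum, Finset.sum_mul]
      apply Finset.sum_congr rfl
      intro i _
      ring
    rw [e1, map_sum]
    apply Finset.sum_eq_zero
    intro i _
    rw [LJ_C_mul, hon i i.2.le s le_rfl, if_neg (Nat.ne_of_lt i.2), mul_zero]
  have h3 : LJ hf ((W * q s) * (W * q s)) = 1 := by
    rw [hon s le_rfl s le_rfl, if_pos rfl]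
  have e2 : (W * (P - C e * q s)) * (W * (P - C e * q s)) =
      (W * P) * (W * P) - C (2 * e) * ((W * P) * (W * q s)) +
        C (e ^ 2) * ((W * q s) * (W * q s)) := by
    simp only [C_mul, C_pow, map_ofNat]
    ring
  rw [e2, map_add, map_sub, LJ_C_mul, LJ_C_mul, h1, h2, h3]
  ring

theorem q_ne (hf : Integrable f m01) (hON : ON f W s q) (j : ℕ) (hj : j ≤ s) : q j ≠ 0 := by
  intro h
  have h1 : LJ hf (W * q j * (W * q j)) = if j = j then 1 else 0 := hON.on j hj j hj
  rw [h, if_pos rfl, mul_zero, zero_mul, map_zero] at h1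
  exact zero_ne_one h1

theorem expand (hf : Integrable f m01) (hON : ON f W s q) (hs : 1 ≤ s) (T : ℝ[X])
    (hT : T.natDegree ≤ s - 1) : ∃ b : Fin s → ℝ, T = ∑ j : Fin s, C (b j) * q j := by
  obtain ⟨c, hc⟩ := exists_coeffs (fun k => if k ≤ s then q k else X ^ k)
    (fun k => by
      split_ifs with h
      · exact q_ne hf hON k h
      · exact pow_ne_zero _ X_ne_zero)
    (fun k => by
      split_ifs with h
      · exact hON.deg k h
      · exact natDegree_X_pow k) (s - 1) T hT
  refine ⟨fun j => c j, ?_⟩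
  rw [hc, Nat.sub_add_cancel hs, Finset.sum_range]
  apply Finset.sum_congr rfl
  intro i _
  rw [if_pos i.2.le]

theorem dd_pos (i : ℕ) : 0 < dd i := by unfold dd; positivity

theorem dd_anti {i j : ℕ} (h : i ≤ j) : dd j ≤ dd i := by
  unfold dd
  exact pow_le_pow_of_le_one (by norm_num) (by norm_num) (by omega)

theorem dd_small (i : ℕ) : dd i ≤ 1 / 4 := by
  unfold dd
  calc ((1 : ℝ) / 2) ^ (i + 12) ≤ (1 / 2) ^ 2 :=
        pow_le_pow_of_le_one (by norm_num) (by norm_num) (by omega)
    _ = 1 / 4 := by norm_num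

theorem supp_far {w : ℕ → ℝ} {M : ℕ} {c : ℕ → ℝ} {η : ℝ} (hT : Thin w M c η f) {z : ℝ}
    (hz : z ∈ Icc (9 / 16 : ℝ) (15 / 16)) (hA : Away w M c (3 / 2) z) :
    ∀ᵐ t ∂m01, f t = 0 ∨ (dd M) ^ 2 ≤ (t - z) ^ 2 := by
  filter_upwards [hT.hsupp] with t ht
  have hd := dd_pos M
  by_cases h1 : t ∈ Icc (0 : ℝ) (1 / 4)
  · right
    have h2 : dd M ≤ z - t := by
      have := dd_small M
      have := h1.2
      have := hz.1
      linarith
    nlinarith
  · by_cases h2 : ∀ i < M, t ∉ Icc (c i) (c i + w i)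
    · left; exact ht h1 h2
    · right
      push Not at h2
      obtain ⟨i, hi, hti⟩ := h2
      have h3 := dd_anti (Nat.le_of_lt hi)
      have h4 := dd_pos i
      rcases hA i hi with h | h
      · have : dd M ≤ t - z := by linarith [hti.1]
        nlinarith
      · have : dd M ≤ z - t := by linarith [hti.2]
        nlinarith

theorem key {w : ℕ → ℝ} {M : ℕ} {c : ℕ → ℝ} {η : ℝ} (hT : Thin w M c η f) {z : ℝ}
    (hz : z ∈ Icc (9 / 16 : ℝ) (15 / 16)) (hA : Away w M c (3 / 2) z)
    (hON : ON f W s q) (hs : 1 ≤ s) (a : Fin s → ℝ) (e : ℝ)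
    (h0 : (∑ j : Fin s, C (a j) * q j - C e * q s).eval z = 0) :
    ∃ b : Fin s → ℝ, ∑ j : Fin s, C (a j) * q j - C e * q s =
      (X - C z) * ∑ j : Fin s, C (b j) * q j ∧
      (dd M) ^ 2 * ∑ j, b j ^ 2 ≤ ∑ j, a j ^ 2 + e ^ 2 := by
  set U : ℝ[X] := ∑ j : Fin s, C (a j) * q j - C e * q s with hU
  obtain ⟨T, hTU⟩ := dvd_iff_isRoot.mpr (show IsRoot U z from h0)
  have hUdeg : U.natDegree ≤ s := by
    rw [hU]
    refine (natDegree_sub_le_of_le (m := s) (n := s) ?_ ?_).trans (max_self s).le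
    · apply natDegree_sum_le_of_forall_le
      intro j _
      exact (natDegree_C_mul_le _ _).trans ((hON.deg j j.2.le).le.trans j.2.le)
    · exact (natDegree_C_mul_le _ _).trans (hON.deg s le_rfl).le
  have hTdeg : T.natDegree ≤ s - 1 := by
    by_cases h : T = 0
    · rw [h, natDegree_zero]; exact Nat.zero_le _
    · have h1 := natDegree_mul (X_sub_C_ne_zero z) h
      rw [← hTU, natDegree_X_sub_C] at h1
      omega
  obtain ⟨b, hb⟩ := expand hT.hf hON hs T hTdeg
  refine ⟨b, by rw [hTU, hb], ?_⟩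
  have e1 := norm_exp hT.hf hON a e
  have e2 := norm_exp hT.hf hON b 0
  rw [C_0, zero_mul, sub_zero, ← hb] at e2
  have e3 : ∑ j, b j ^ 2 = LJ hT.hf (W * T * (W * T)) := by rw [e2]; ring
  rw [← hU, hTU] at e1
  rw [e3, ← e1, LJ_apply, LJ_apply, ← integral_const_mul]
  apply integral_mono_ae
  · exact (integrable_mul_poly hT.hf _).const_mul _
  · exact integrable_mul_poly hT.hf _
  · filter_upwards [supp_far hT hz hA, hT.hf0] with t ht hft
    simp only [eval_mul, eval_sub, eval_X, eval_C]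
    have hft' : 0 ≤ f t := hft
    rcases ht with h | h
    · rw [h]; simp
    · have h5 : 0 ≤ f t * (W.eval t * T.eval t) ^ 2 := by positivity
      nlinarith [mul_le_mul_of_nonneg_left h h5]

theorem cs (b : Fin s → ℝ) (z : ℝ) (hD : ∑ j : Fin s, ((q j).eval z) ^ 2 ≤ 68 * ((q s).eval z) ^ 2) :
    ((∑ j : Fin s, C (b j) * q j).eval z) ^ 2 ≤ 68 * (∑ j, b j ^ 2) * ((q s).eval z) ^ 2 := by
  have h1 : (∑ j : Fin s, C (b j) * q j).eval z = ∑ j : Fin s, b j * (q j).eval z := by
    rw [eval_finsetSum]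
    simp only [eval_mul, eval_C]
  rw [h1]
  have h2 := Finset.sum_mul_sq_le_sq_mul_sq Finset.univ b (fun j : Fin s => (q j).eval z)
  have h3 : 0 ≤ ∑ j, b j ^ 2 := Finset.sum_nonneg (fun j _ => sq_nonneg _)
  nlinarith [mul_le_mul_of_nonneg_left hD h3]

theorem taskC2 (hDom : TaskDom) : TaskC2 := by
  intro w M hw
  set r : ℝ := dd M with hr
  have hr0 : 0 < r := dd_pos M
  have hr1 : r ≤ 1 / 4 := dd_small M
  have hr2 : r ^ 2 ≤ 1 := by nlinarith
  refine ⟨1200 / r ^ 2, ?_, ?_⟩
  · rw [le_div_iff₀ (by positivity)]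
    linarith
  intro c η f hT W s q hs hON hSm y
  set R : ℝ[X] := ∑ j : Fin s, C (y j) * q j with hR
  set Q : ℝ[X] := q s with hQ
  have hRe : ∀ x, R.eval x = ∑ j : Fin s, y j * (q j).eval x := by
    intro x
    rw [hR, eval_finsetSum]
    simp only [eval_mul, eval_C]
  refine ⟨fun x => R.eval x / Q.eval x,
    fun x => ((derivative R).eval x - R.eval x / Q.eval x * (derivative Q).eval x) / Q.eval x,
    fun x => ((derivative (derivative R)).eval x -
      R.eval x / Q.eval x * (derivative (derivative Q)).eval x -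
      2 * (((derivative R).eval x - R.eval x / Q.eval x * (derivative Q).eval x) / Q.eval x) *
        (derivative Q).eval x) / Q.eval x, ?_⟩
  intro z hz hA
  have hA1 : Away w M c 1 z := by
    intro i hi
    have := dd_pos i
    rcases hA i hi with h | h
    · left; linarith
    · right; linarith
  obtain ⟨hQ0, hD, -⟩ := hDom w M c η f hw hT W s q hs hON hSm z
    ⟨by linarith [hz.1], by linarith [hz.2]⟩ hA1
  rw [← hQ] at hQ0 hD
  have hdR : HasDerivAt (fun x => R.eval x) ((derivative R).eval z) z := R.hasDerivAt z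
  have hdQ : HasDerivAt (fun x => Q.eval x) ((derivative Q).eval z) z := Q.hasDerivAt z
  have hdR' : HasDerivAt (fun x => (derivative R).eval x) ((derivative (derivative R)).eval z) z :=
    (derivative R).hasDerivAt z
  have hdQ' : HasDerivAt (fun x => (derivative Q).eval x) ((derivative (derivative Q)).eval z) z :=
    (derivative Q).hasDerivAt z
  have hζ : HasDerivAt (fun x => R.eval x / Q.eval x)
      (((derivative R).eval z - R.eval z / Q.eval z * (derivative Q).eval z) / Q.eval z) z := by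
    refine (hdR.div hdQ hQ0).congr_deriv ?_
    field_simp
  have hζ1 : HasDerivAt (fun x => ((derivative R).eval x -
      R.eval x / Q.eval x * (derivative Q).eval x) / Q.eval x)
      (((derivative (derivative R)).eval z -
      R.eval z / Q.eval z * (derivative (derivative Q)).eval z -
      2 * (((derivative R).eval z - R.eval z / Q.eval z * (derivative Q).eval z) / Q.eval z) *
        (derivative Q).eval z) / Q.eval z) z := by
    refine ((hdR'.sub (hζ.mul hdQ')).div hdQ hQ0).congr_deriv ?_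
    simp only [Pi.sub_apply, Pi.mul_apply]
    field_simp
    ring
  set Z : ℝ := R.eval z / Q.eval z with hZ
  set Z1 : ℝ := ((derivative R).eval z - Z * (derivative Q).eval z) / Q.eval z with hZ1
  set Z2 : ℝ := ((derivative (derivative R)).eval z - Z * (derivative (derivative Q)).eval z -
      2 * Z1 * (derivative Q).eval z) / Q.eval z with hZ2
  have hRZ : R.eval z = Z * Q.eval z := by rw [hZ]; field_simp
  have hR0 : (∑ j : Fin s, C (y j) * q j - C Z * q s).eval z = 0 := by
    rw [← hR, ← hQ, eval_sub, eval_mul, eval_C, hRZ, sub_self]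
  obtain ⟨b, hb1, hb2⟩ := key hT hz hA hON hs y Z hR0
  set T : ℝ[X] := ∑ j : Fin s, C (b j) * q j with hTdef
  rw [← hR, ← hQ] at hb1
  have hd1 : derivative R - C Z * derivative Q = T + (X - C z) * derivative T := by
    have := congrArg derivative hb1
    simpa [derivative_mul, derivative_sub] using this
  have hd2 : derivative (derivative R) - C Z * derivative (derivative Q) =
      2 * derivative T + (X - C z) * derivative (derivative T) := by
    have := congrArg derivative hd1
    simp only [derivative_mul, derivative_sub, derivative_add, derivative_C, derivative_X, zero_mul,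
      zero_add, sub_zero, one_mul] at this
    rw [this]; ring
  have hTz : T.eval z = Z1 * Q.eval z := by
    have := congrArg (fun p => eval z p) hd1
    simp only [eval_sub, eval_mul, eval_add, eval_C, eval_X, sub_self, zero_mul, add_zero] at this
    rw [hZ1, div_mul_cancel₀ _ hQ0, this]
  have hT0 : (∑ j : Fin s, C (b j) * q j - C Z1 * q s).eval z = 0 := by
    rw [← hTdef, ← hQ, eval_sub, eval_mul, eval_C, hTz, sub_self]
  obtain ⟨b', hb1', hb2'⟩ := key hT hz hA hON hs b Z1 hT0
  set S : ℝ[X] := ∑ j : Fin s, C (b' j) * q j with hSdef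
  rw [← hTdef, ← hQ] at hb1'
  have hd3 : derivative T - C Z1 * derivative Q = S + (X - C z) * derivative S := by
    have := congrArg derivative hb1'
    simpa [derivative_mul, derivative_sub] using this
  have hSz : 2 * S.eval z = Z2 * Q.eval z := by
    have h1 := congrArg (fun p => eval z p) hd3
    have h2 := congrArg (fun p => eval z p) hd2
    simp only [eval_sub, eval_mul, eval_add, eval_C, eval_X, sub_self, zero_mul, add_zero,
      eval_ofNat] at h1 h2
    rw [hZ2, div_mul_cancel₀ _ hQ0, h2, ← h1]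
    ring
  have cR := cs y z hD
  have cT := cs b z hD
  have cS := cs b' z hD
  rw [← hR, ← hQ, hRZ] at cR
  rw [← hTdef, ← hQ, hTz] at cT
  rw [← hSdef, ← hQ] at cS
  have hQ2 : 0 < Q.eval z ^ 2 := by positivity
  set n := ∑ j, y j ^ 2 with hn
  set B := ∑ j, b j ^ 2 with hB
  set B' := ∑ j, b' j ^ 2 with hB'
  have hn0 : 0 ≤ n := Finset.sum_nonneg (fun j _ => sq_nonneg _)
  have hB0 : 0 ≤ B := Finset.sum_nonneg (fun j _ => sq_nonneg _)
  have hB'0 : 0 ≤ B' := Finset.sum_nonneg (fun j _ => sq_nonneg _)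
  have k1 : Z ^ 2 ≤ 68 * n := by
    rw [mul_pow] at cR
    exact le_of_mul_le_mul_right cR hQ2
  have k2 : Z1 ^ 2 ≤ 68 * B := by
    rw [mul_pow] at cT
    exact le_of_mul_le_mul_right cT hQ2
  have k3 : Z2 ^ 2 ≤ 272 * B' := by
    have : (Z2 * Q.eval z) ^ 2 ≤ 272 * B' * Q.eval z ^ 2 := by
      rw [← hSz]; nlinarith
    rw [mul_pow] at this
    exact le_of_mul_le_mul_right this hQ2
  have k4 : r ^ 2 * B ≤ 69 * n := by linarith
  have k5 : r ^ 2 * B' ≤ 69 * B := by linarith
  have hsq : √n ^ 2 = n := Real.sq_sqrt hn0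
  refine ⟨?_, hζ, hζ1, ?_, ?_⟩
  · rw [← hRe, hRZ]; beta_reduce; ring
  · apply abs_le_of_sq_le_sq _ (by positivity)
    have h1 : (1200 / r ^ 2 * √n) ^ 2 = 1440000 * n / (r ^ 2) ^ 2 := by
      rw [mul_pow, hsq]; ring
    rw [h1, le_div_iff₀ (by positivity)]
    have h2 : Z1 ^ 2 * r ^ 2 ≤ 68 * 69 * n := by nlinarith
    calc Z1 ^ 2 * (r ^ 2) ^ 2 = (Z1 ^ 2 * r ^ 2) * r ^ 2 := by ring
      _ ≤ (68 * 69 * n) * 1 := mul_le_mul h2 hr2 (by positivity) (by positivity)
      _ ≤ 1440000 * n := by linarith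
  · apply abs_le_of_sq_le_sq _ (by positivity)
    have h1 : (1200 / r ^ 2 * √n) ^ 2 = 1440000 * n / (r ^ 2) ^ 2 := by
      rw [mul_pow, hsq]; ring
    rw [h1, le_div_iff₀ (by positivity)]
    calc Z2 ^ 2 * (r ^ 2) ^ 2 ≤ 272 * B' * (r ^ 2) ^ 2 :=
          mul_le_mul_of_nonneg_right k3 (by positivity)
      _ = 272 * r ^ 2 * (r ^ 2 * B') := by ring
      _ ≤ 272 * r ^ 2 * (69 * B) := mul_le_mul_of_nonneg_left k5 (by positivity)
      _ = 272 * 69 * (r ^ 2 * B) := by ring
      _ ≤ 272 * 69 * (69 * n) := mul_le_mul_of_nonneg_left k4 (by positivity)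
      _ ≤ 1440000 * n := by linarith

end Pool.Agent.H727R4.CLT.C2
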