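import Pool.Agent.H727R4.CLT.Stmts

set_option autoImplicit false
open MeasureTheory ProbabilityTheory Filter Topology Set Polynomial
open scoped ENNReal NNReal
open Pool.Agent.Helper553.Orth

namespace Pool.Agent.H727R4.CLT.Deg

/-- exponents -/
def EE (i : ℕ) : ℕ := 2 ^ (3 * i + 32)

/-- inverse squares of the radii -/
def aa (i : ℕ) : ℕ := 4 ^ (i + 12)

theorem dd_inv (i : ℕ) : (dd i ^ 2)⁻¹ = (aa i : ℝ) := by
  unfold dd aa
  push_cast
  rw [← pow_mul, mul_comm, pow_mul, ← inv_pow]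
  norm_num

theorem EE_eq (i : ℕ) : EE i = aa i * 2 ^ (i + 8) := by
  unfold EE aa
  rw [show (4 : ℕ) = 2 ^ 2 by norm_num, ← pow_mul, ← pow_add]
  congr 1
  ring

theorem aa_div (i : ℕ) (S : ℝ) : (aa i : ℝ) * (S / (EE i : ℝ)) = S * (1 / 2) ^ (i + 8) := by
  have ha : (0 : ℝ) < aa i := by
    have : 0 < aa i := by unfold aa; positivity
    exact_mod_cast this
  rw [EE_eq]
  push_cast
  rw [one_div, inv_pow]
  field_simp

theorem geo (M : ℕ) : ∑ i ∈ Finset.range M, (1 / 2 : ℝ) ^ (i + 8) ≤ 1 / 128 := by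
  have h : ∀ M : ℕ, ∑ i ∈ Finset.range M, (1 / 2 : ℝ) ^ (i + 8) = 1 / 128 - (1 / 2) ^ (M + 7) := by
    intro M
    induction M with
    | zero => norm_num
    | succ n ih => rw [Finset.sum_range_succ, ih]; ring
  rw [h M]
  have : (0 : ℝ) < (1 / 2) ^ (M + 7) := by positivity
  linarith

theorem num {K : ℝ} (hK : 1 ≤ K) {E S l : ℕ} (hS : 1 ≤ S) (hl : S ≤ E * l) {w : ℝ} (hw0 : 0 < w)
    (hw1 : w ≤ 1 / 64) (hw2 : w ≤ ((2 * K) ^ (4 * E))⁻¹) {R : ℝ} (_hR0 : 0 ≤ R) (hRS : R ≤ S) :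
    ((2 * S : ℕ) : ℝ) * (R * (64 * w ^ 2) ^ l * K ^ (3 * S + 1)) ≤ 1 := by
  have h1 : 64 * w ^ 2 ≤ w := by nlinarith
  have h2 : (64 * w ^ 2) ^ l ≤ ((2 * K) ^ (4 * S))⁻¹ := by
    calc (64 * w ^ 2) ^ l ≤ w ^ l := pow_le_pow_left₀ (by positivity) h1 l
      _ ≤ (((2 * K) ^ (4 * E))⁻¹) ^ l := pow_le_pow_left₀ hw0.le hw2 l
      _ = ((2 * K) ^ (4 * E * l))⁻¹ := by rw [inv_pow, ← pow_mul]
      _ ≤ ((2 * K) ^ (4 * S))⁻¹ := by
        apply inv_anti₀ (by positivity)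
        apply pow_le_pow_right₀ (by linarith)
        rw [mul_assoc]
        exact Nat.mul_le_mul_left 4 hl
  have h3 : (S : ℝ) ≤ 2 ^ S := by
    exact_mod_cast Nat.lt_two_pow_self.le
  have h4 : (2 : ℝ) ≤ 2 ^ S := by
    calc (2 : ℝ) = 2 ^ 1 := by norm_num
      _ ≤ 2 ^ S := pow_le_pow_right₀ (by norm_num) hS
  have h5 : (1 : ℝ) ≤ 2 ^ S := by linarith
  have h6 : (2 : ℝ) * S * S ≤ 2 ^ (4 * S) := by
    have e : (2 : ℝ) ^ (4 * S) = 2 ^ S * 2 ^ S * 2 ^ S * 2 ^ S := by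
      rw [mul_comm, pow_mul]; ring
    rw [e]
    have hS0 : (0 : ℝ) ≤ S := by positivity
    calc (2 : ℝ) * S * S ≤ 2 ^ S * 2 ^ S * 2 ^ S := by gcongr
      _ ≤ 2 ^ S * 2 ^ S * 2 ^ S * 2 ^ S := le_mul_of_one_le_right (by positivity) h5
  have h7 : K ^ (3 * S + 1) ≤ K ^ (4 * S) := pow_le_pow_right₀ hK (by omega)
  have hKp : (0 : ℝ) < (2 * K) ^ (4 * S) := by positivity
  have hS0 : (0 : ℝ) ≤ S := by positivity
  calc ((2 * S : ℕ) : ℝ) * (R * (64 * w ^ 2) ^ l * K ^ (3 * S + 1))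
      ≤ ((2 * S : ℕ) : ℝ) * (S * ((2 * K) ^ (4 * S))⁻¹ * K ^ (4 * S)) := by
        gcongr
    _ = (2 * S * S) * K ^ (4 * S) * ((2 * K) ^ (4 * S))⁻¹ := by push_cast; ring
    _ ≤ 2 ^ (4 * S) * K ^ (4 * S) * ((2 * K) ^ (4 * S))⁻¹ := by gcongr
    _ = 1 := by rw [← mul_pow, mul_inv_cancel₀ hKp.ne']

theorem taskDeg (hR : TaskRemez) (hB : TaskBlob) : TaskDeg := by
  obtain ⟨K, hK⟩ := hR
  have hK1 : 1 ≤ K := hK.1
  refine ⟨fun i => min (1 / 64) ((2 * K) ^ (4 * EE i))⁻¹, fun i => ?_, ?_⟩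
  · exact lt_min (by norm_num) (by positivity)
  intro w hw M c η f hf
  have hη := hf.hη
  have hmass : 0 ≤ ∫ t, f t ∂m01 := integral_nonneg_of_ae hf.hf0
  obtain ⟨n1, hn1⟩ := exists_nat_ge ((∫ t, f t ∂m01) / η)
  refine ⟨max 1 (max n1 (16 * ∑ i ∈ Finset.range M, aa i)), ?_⟩
  intro S hS W q hW hON
  have hS1 : 1 ≤ S := le_trans (le_max_left _ _) hS
  have hS2 : n1 ≤ S := le_trans (le_trans (le_max_left _ _) (le_max_right _ _)) hS
  have hS3 : 16 * ∑ i ∈ Finset.range M, aa i ≤ S :=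
    le_trans (le_trans (le_max_right _ _) (le_max_right _ _)) hS
  set I : ℕ → ℕ → ℝ := fun i j => ∫ t, f t * (W * q j * (W * q j)).eval t *
    (Icc (c i) (c i + w i)).indicator (fun _ => (1 : ℝ)) t ∂m01 with hI
  have hI0 : ∀ i j, 0 ≤ I i j := by
    intro i j
    apply integral_nonneg_of_ae
    filter_upwards [hf.hf0] with t ht
    apply mul_nonneg (mul_nonneg ht ?_) (indicator_nonneg (fun _ _ => zero_le_one) t)
    rw [eval_mul]
    exact mul_self_nonneg _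
  have hblob : ∀ i ∈ Finset.range M, ∑ j ∈ Finset.range (2 * S), I i j ≤ (S : ℝ) / EE i + 2 := by
    intro i hi
    have hi' : i < M := Finset.mem_range.1 hi
    have hE : 0 < EE i := by unfold EE; positivity
    have hl : S ≤ EE i * (S / EE i + 1) := (Nat.lt_mul_div_succ S hE).le
    have hl2 : S / EE i + 1 ≤ 2 * S := by
      have := Nat.div_le_self S (EE i)
      omega
    have hON' : ON f W (2 * S - 1) q :=
      ⟨fun j hj => hON.deg j (by omega), fun a ha b hb => hON.on a (by omega) b (by omega)⟩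
    have h := hB K hK w M c η f (fun i => (hw i).1) hf W (2 * S) (3 * S) q (by omega) hON'
      (by omega) i hi' (S / EE i + 1) hl2
    have h2 := num hK1 hS1 hl (hw i).1 ((hw i).2.trans (min_le_left _ _))
      ((hw i).2.trans (min_le_right _ _)) (R := (∫ t, f t ∂m01) / η) (by positivity)
      (hn1.trans (by exact_mod_cast hS2))
    have h3 : ((S / EE i + 1 : ℕ) : ℝ) ≤ (S : ℝ) / EE i + 1 := by
      push_cast
      have := Nat.cast_div_le (α := ℝ) (m := S) (n := EE i)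
      linarith
    calc ∑ j ∈ Finset.range (2 * S), I i j ≤ _ := h
      _ ≤ (S : ℝ) / EE i + 1 + 1 := add_le_add h3 h2
      _ = _ := by ring
  by_contra hcon
  have hcon' : ∀ s ∈ Finset.Ico S (2 * S), (1 / 4 : ℝ) <
      ∑ i ∈ Finset.range M, (aa i : ℝ) * I i s := by
    intro s hs
    rw [Finset.mem_Ico] at hs
    by_contra hc
    apply hcon
    refine ⟨s, hs.1, hs.2, ?_⟩
    unfold Small
    simp only [dd_inv]
    exact not_lt.1 hc
  have hlt : ∑ s ∈ Finset.Ico S (2 * S), (1 / 4 : ℝ) <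
      ∑ s ∈ Finset.Ico S (2 * S), ∑ i ∈ Finset.range M, (aa i : ℝ) * I i s := by
    apply Finset.sum_lt_sum_of_nonempty
    · rw [Finset.nonempty_Ico]; omega
    · exact hcon'
  rw [Finset.sum_const, Nat.card_Ico, nsmul_eq_mul, show 2 * S - S = S by omega] at hlt
  have hle : ∑ s ∈ Finset.Ico S (2 * S), ∑ i ∈ Finset.range M, (aa i : ℝ) * I i s ≤
      ∑ i ∈ Finset.range M, (aa i : ℝ) * ((S : ℝ) / EE i + 2) := by
    rw [Finset.sum_comm]
    apply Finset.sum_le_sum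
    intro i hi
    rw [← Finset.mul_sum]
    apply mul_le_mul_of_nonneg_left _ (Nat.cast_nonneg _)
    refine le_trans ?_ (hblob i hi)
    apply Finset.sum_le_sum_of_subset_of_nonneg
    · intro s hs
      rw [Finset.mem_Ico] at hs
      exact Finset.mem_range.2 hs.2
    · intro s _ _
      exact hI0 i s
  have hsum : ∑ i ∈ Finset.range M, (aa i : ℝ) * ((S : ℝ) / EE i + 2) ≤
      (S : ℝ) / 128 + 2 * ∑ i ∈ Finset.range M, (aa i : ℝ) := by
    have e : ∀ i, (aa i : ℝ) * ((S : ℝ) / EE i + 2) = S * (1 / 2) ^ (i + 8) + 2 * aa i := by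
      intro i
      rw [mul_add, aa_div]; ring
    simp only [e]
    rw [Finset.sum_add_distrib, ← Finset.mul_sum, ← Finset.mul_sum]
    have := mul_le_mul_of_nonneg_left (geo M) (Nat.cast_nonneg (α := ℝ) S)
    linarith
  have hS3' : (16 : ℝ) * ∑ i ∈ Finset.range M, (aa i : ℝ) ≤ S := by
    exact_mod_cast hS3
  have hSp : (1 : ℝ) ≤ S := by exact_mod_cast hS1
  linarith

end Pool.Agent.H727R4.CLT.Deg
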