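import Pool.Agent.H727R4.CLT.Stmts

set_option autoImplicit false
open MeasureTheory ProbabilityTheory Filter Topology Set Polynomial
open scoped ENNReal NNReal
open Pool.Agent.Helper553.Orth

namespace Pool.Agent.H727R4.CLT.Dom

theorem int_div {f : ℝ → ℝ} (hf : Integrable f m01) (x δ : ℝ) (hδ : 0 < δ)
    (h : ∀ᵐ t ∂m01, f t ≠ 0 → δ ≤ |x - t|) (P : ℝ[X]) (k : ℕ) :
    Integrable (fun t => f t * P.eval t / (x - t) ^ k) m01 := by
  obtain ⟨B, hB0, hB⟩ := poly_bdd P
  refine Integrable.mono' (g := fun t => B / δ ^ k * |f t|) (hf.abs.const_mul _) ?_ ?_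
  · apply AEMeasurable.aestronglyMeasurable
    refine (hf.1.aemeasurable.mul P.continuous.measurable.aemeasurable).div ?_
    exact ((measurable_const.sub measurable_id).pow_const k).aemeasurable
  · filter_upwards [h, m01_ae] with t h1 h2
    by_cases h0 : f t = 0
    · simp [h0]
    · have h3 := h1 h0
      have h4 := hB t h2
      rw [Real.norm_eq_abs, abs_div, abs_mul, abs_pow]
      have h5 : δ ^ k ≤ |x - t| ^ k := pow_le_pow_left₀ hδ.le h3 k
      have h6 : 0 < δ ^ k := pow_pos hδ k
      calc |f t| * |P.eval t| / |x - t| ^ k ≤ |f t| * B / δ ^ k := by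
            gcongr
        _ = B / δ ^ k * |f t| := by ring

theorem orth {f : ℝ → ℝ} (hf : Integrable f m01) (W : ℝ[X]) (s : ℕ) (q : ℕ → ℝ[X]) (hs : 1 ≤ s)
    (hq : ON f W s q) (H : ℝ[X]) (hH : H.natDegree < s) :
    ∫ t, f t * (W * q s * (W * H)).eval t ∂m01 = 0 := by
  have hne : ∀ j ≤ s, q j ≠ 0 := by
    intro j hj h0
    have := hq.on j hj j hj
    rw [h0] at this
    simp at this
  obtain ⟨c, hc⟩ := exists_coeffs (fun j => if j ≤ s then q j else X ^ j)
    (fun j => by
      by_cases h : j ≤ s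
      · simp only [h, if_true]; exact hne j h
      · simp only [h, if_false]; exact pow_ne_zero _ X_ne_zero)
    (fun j => by
      by_cases h : j ≤ s
      · simp only [h, if_true]; exact hq.deg j h
      · simp only [h, if_false]; exact natDegree_X_pow j) (s - 1) H (by omega)
  have hs1 : s - 1 + 1 = s := by omega
  rw [hs1] at hc
  have hc' : H = ∑ k ∈ Finset.range s, C (c k) * q k := by
    rw [hc]
    apply Finset.sum_congr rfl
    intro k hk
    have := Finset.mem_range.mp hk
    rw [if_pos (by omega)]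
  have e1 : ∀ t, f t * (W * q s * (W * H)).eval t =
      ∑ k ∈ Finset.range s, c k * (f t * (W * q s * (W * q k)).eval t) := by
    intro t
    rw [hc']
    simp only [eval_mul, eval_finsetSum, eval_C, Finset.mul_sum]
    apply Finset.sum_congr rfl
    intro k _
    ring
  rw [integral_congr_ae (Eventually.of_forall e1), integral_finsetSum]
  · apply Finset.sum_eq_zero
    intro k hk
    have := Finset.mem_range.mp hk
    rw [integral_const_mul, hq.on s le_rfl k (by omega), if_neg (by omega), mul_zero]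
  · intro k _
    exact (integrable_mul_poly hf _).const_mul _

theorem normsq {f : ℝ → ℝ} (hf : Integrable f m01) (W : ℝ[X]) (s : ℕ) (q : ℕ → ℝ[X])
    (hq : ON f W s q) (y : ℕ → ℝ) (R : ℝ[X]) (hR : R = ∑ j ∈ Finset.range s, C (y j) * q j) :
    ∫ t, f t * (W * R * (W * R)).eval t ∂m01 = ∑ j ∈ Finset.range s, y j ^ 2 := by
  have e1 : ∀ t, f t * (W * R * (W * R)).eval t =
      ∑ i ∈ Finset.range s, ∑ j ∈ Finset.range s,
        (y i * y j) * (f t * (W * q i * (W * q j)).eval t) := by
    intro t
    have hRe : R.eval t = ∑ j ∈ Finset.range s, y j * (q j).eval t := by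
      rw [hR]
      simp only [eval_mul, eval_finsetSum, eval_C]
    have e2 : f t * (W * R * (W * R)).eval t = (f t * W.eval t * W.eval t) *
        ((∑ j ∈ Finset.range s, y j * (q j).eval t) *
          (∑ j ∈ Finset.range s, y j * (q j).eval t)) := by
      simp only [eval_mul]
      rw [hRe]
      ring
    rw [e2, Finset.sum_mul_sum, Finset.mul_sum]
    apply Finset.sum_congr rfl
    intro i _
    rw [Finset.mul_sum]
    apply Finset.sum_congr rfl
    intro j _
    simp only [eval_mul]
    ring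
  rw [integral_congr_ae (Eventually.of_forall e1), integral_finsetSum]
  · apply Finset.sum_congr rfl
    intro i hi
    have hi' := Finset.mem_range.mp hi
    rw [integral_finsetSum]
    · rw [Finset.sum_eq_single i]
      · rw [integral_const_mul, hq.on i hi'.le i hi'.le, if_pos rfl]
        ring
      · intro j hj hji
        have hj' := Finset.mem_range.mp hj
        rw [integral_const_mul, hq.on i hi'.le j hj'.le, if_neg (fun h => hji h.symm), mul_zero]
      · intro h
        exact absurd hi h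
    · intro j _
      exact (integrable_mul_poly hf _).const_mul _
  · intro i _
    apply integrable_finsetSum
    intro j _
    exact (integrable_mul_poly hf _).const_mul _

/-- The fundamental identity. -/
theorem ident {f : ℝ → ℝ} (hf : Integrable f m01) (x δ : ℝ) (hδ : 0 < δ)
    (h : ∀ᵐ t ∂m01, f t ≠ 0 → δ ≤ |x - t|) (W : ℝ[X]) (s : ℕ) (q : ℕ → ℝ[X]) (hs : 1 ≤ s)
    (hq : ON f W s q) (R : ℝ[X]) (hR : R.natDegree < s) :
    R.eval x * ∫ t, f t * (W * q s * (W * q s)).eval t / (x - t) ^ 1 ∂m01 =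
      (q s).eval x * ∫ t, f t * (W * q s * (W * R)).eval t / (x - t) ^ 1 ∂m01 := by
  set N : ℝ[X] := C (R.eval x) * q s - C ((q s).eval x) * R with hN
  have hroot : N.IsRoot x := by
    rw [IsRoot, hN]
    simp only [eval_sub, eval_mul, eval_C]
    ring
  set H : ℝ[X] := N /ₘ (X - C x) with hHdef
  have hNH : (X - C x) * H = N := mul_divByMonic_eq_iff_isRoot.mpr hroot
  have hNdeg : N.natDegree ≤ s := by
    rw [hN]
    refine (natDegree_sub_le _ _).trans (max_le ?_ ?_)
    · exact (natDegree_C_mul_le _ _).trans (hq.deg s le_rfl).le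
    · exact (natDegree_C_mul_le _ _).trans hR.le
  have hHdeg : H.natDegree < s := by
    rw [hHdef, natDegree_divByMonic _ (monic_X_sub_C x), natDegree_X_sub_C]
    omega
  have e0 := orth hf W s q hs hq H hHdeg
  have e1 : ∫ t, f t * (W * q s * (W * N)).eval t / (x - t) ^ 1 ∂m01 = 0 := by
    have : ∫ t, f t * (W * q s * (W * N)).eval t / (x - t) ^ 1 ∂m01 =
        ∫ t, -(f t * (W * q s * (W * H)).eval t) ∂m01 := by
      apply integral_congr_ae
      filter_upwards [h] with t ht
      by_cases h0 : f t = 0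
      · simp [h0]
      · have h3 := ht h0
        have h4 : x - t ≠ 0 := by
          intro h5
          rw [h5, abs_zero] at h3
          linarith
        rw [← hNH]
        simp only [eval_mul, eval_sub, eval_X, eval_C]
        field_simp
        ring
    rw [this, integral_neg, e0, neg_zero]
  have e2 : ∀ t, f t * (W * q s * (W * N)).eval t / (x - t) ^ 1 =
      R.eval x * (f t * (W * q s * (W * q s)).eval t / (x - t) ^ 1) -
        (q s).eval x * (f t * (W * q s * (W * R)).eval t / (x - t) ^ 1) := by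
    intro t
    rw [hN]
    simp only [eval_mul, eval_sub, eval_C]
    ring
  rw [integral_congr_ae (Eventually.of_forall e2), integral_sub, integral_const_mul,
    integral_const_mul] at e1
  · linarith
  · exact (int_div hf x δ hδ h _ 1).const_mul _
  · exact (int_div hf x δ hδ h _ 1).const_mul _

/-- Cauchy-Schwarz. -/
theorem cs {f : ℝ → ℝ} (hf : Integrable f m01) (hf0 : 0 ≤ᵐ[m01] f) (x δ : ℝ) (hδ : 0 < δ)
    (h : ∀ᵐ t ∂m01, f t ≠ 0 → δ ≤ |x - t|) (W Q R : ℝ[X]) (lam : ℝ) :
    0 ≤ (∫ t, f t * (W * R * (W * R)).eval t ∂m01) -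
      2 * lam * (∫ t, f t * (W * Q * (W * R)).eval t / (x - t) ^ 1 ∂m01) +
      lam ^ 2 * ∫ t, f t * (W * Q * (W * Q)).eval t / (x - t) ^ 2 ∂m01 := by
  have i1 : Integrable (fun t => f t * (W * R * (W * R)).eval t) m01 := integrable_mul_poly hf _
  have i2 : Integrable (fun t => 2 * lam * (f t * (W * Q * (W * R)).eval t / (x - t) ^ 1)) m01 :=
    (int_div hf x δ hδ h _ 1).const_mul _
  have i3 : Integrable (fun t => lam ^ 2 * (f t * (W * Q * (W * Q)).eval t / (x - t) ^ 2)) m01 :=
    (int_div hf x δ hδ h _ 2).const_mul _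
  have i12 : Integrable (fun t => f t * (W * R * (W * R)).eval t -
      2 * lam * (f t * (W * Q * (W * R)).eval t / (x - t) ^ 1)) m01 := i1.sub i2
  rw [← integral_const_mul, ← integral_const_mul, ← integral_sub i1 i2,
    ← integral_add i12 i3]
  apply integral_nonneg_of_ae
  filter_upwards [hf0] with t ht
  simp only [Pi.zero_apply]
  have ht' : 0 ≤ f t := ht
  have e : f t * (W * R * (W * R)).eval t -
      2 * lam * (f t * (W * Q * (W * R)).eval t / (x - t) ^ 1) +
      lam ^ 2 * (f t * (W * Q * (W * Q)).eval t / (x - t) ^ 2) =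
      f t * (W.eval t * R.eval t - lam * (W.eval t * Q.eval t * (x - t)⁻¹)) ^ 2 := by
    simp only [eval_mul, div_eq_mul_inv, inv_pow, pow_one]
    rw [← inv_pow]
    ring
  rw [e]
  positivity

theorem taskDom : TaskDom := by
  intro w M c η f hw hT W s q hs hq hsm x hx haw
  have hf := hT.hf
  set P : ℝ[X] := W * q s * (W * q s) with hP
  have hPn : ∀ t, 0 ≤ P.eval t := by
    intro t
    rw [hP, eval_mul]
    exact mul_self_nonneg _
  have hddpos : ∀ i, 0 < dd i := by
    intro i
    unfold dd
    positivity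
  have hddle : ∀ i, dd i ≤ 1 / 4096 := by
    intro i
    unfold dd
    rw [pow_add]
    have h1 : (1 / 2 : ℝ) ^ i ≤ 1 := pow_le_one₀ (by norm_num) (by norm_num)
    have h2 : ((1 : ℝ) / 2) ^ 12 = 1 / 4096 := by norm_num
    rw [h2]
    linarith
  have hddmono : ∀ i < M, dd M ≤ dd i := by
    intro i hi
    unfold dd
    exact pow_le_pow_of_le_one (by norm_num) (by norm_num) (by omega)
  have hloc : ∀ᵐ t ∂m01, f t ≠ 0 →
      (t ∈ Icc (0 : ℝ) (1 / 4) ∨ ∃ i < M, t ∈ Icc (c i) (c i + w i)) := by
    filter_upwards [hT.hsupp] with t ht h0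
    by_contra hcon
    push Not at hcon
    exact h0 (ht hcon.1 hcon.2)
  have hblob : ∀ t, ∀ i < M, t ∈ Icc (c i) (c i + w i) → dd i ≤ |x - t| := by
    intro t i hi ht
    rcases haw i hi with h | h
    · rw [abs_sub_comm]
      exact le_trans (by linarith [ht.1]) (le_abs_self _)
    · exact le_trans (by linarith [ht.2]) (le_abs_self _)
  have hδ : ∀ᵐ t ∂m01, f t ≠ 0 → dd M ≤ |x - t| := by
    filter_upwards [hloc] with t ht h0
    rcases ht h0 with h | ⟨i, hi, h⟩
    · have h1 : (1 / 4 : ℝ) ≤ x - t := by linarith [h.2, hx.1]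
      exact le_trans (by linarith [hddle M]) (le_abs_self _)
    · exact (hddmono i hi).trans (hblob t i hi h)
  set ind : ℕ → ℝ → ℝ := fun i => (Icc (c i) (c i + w i)).indicator (fun _ => (1 : ℝ)) with hind
  have hind0 : ∀ i t, 0 ≤ ind i t := fun i t => indicator_nonneg (fun _ _ => zero_le_one) _
  have hind1 : ∀ i t, |ind i t| ≤ 1 := by
    intro i t
    rw [abs_of_nonneg (hind0 i t)]
    exact indicator_le_self' (fun _ _ => zero_le_one) _ |>.trans le_rfl
  have hindm : ∀ i t, t ∈ Icc (c i) (c i + w i) → ind i t = 1 := by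
    intro i t ht
    simp only [hind]
    rw [indicator_of_mem ht]
  have iP : Integrable (fun t => f t * P.eval t) m01 := integrable_mul_poly hf _
  have hindI : ∀ i, Integrable (fun t => f t * P.eval t * ind i t) m01 := by
    intro i
    apply iP.mul_bdd (c := 1)
    · exact (measurable_const.indicator measurableSet_Icc).aestronglyMeasurable
    · exact Eventually.of_forall (fun t => hind1 i t)
  have iS : Integrable (fun t => ∑ i ∈ Finset.range M,
      (dd i ^ 2)⁻¹ * (f t * P.eval t * ind i t)) m01 :=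
    integrable_finsetSum _ (fun i _ => (hindI i).const_mul _)
  have hS : ∫ t, ∑ i ∈ Finset.range M, (dd i ^ 2)⁻¹ * (f t * P.eval t * ind i t) ∂m01 ≤ 1 / 4 := by
    rw [integral_finsetSum _ (fun i _ => (hindI i).const_mul _)]
    simp_rw [integral_const_mul]
    exact hsm
  have hmass : ∫ t, f t * P.eval t ∂m01 = 1 := by
    have := hq.on s le_rfl s le_rfl
    rwa [if_pos rfl] at this
  -- upper bound
  have hU : ∀ᵐ t ∂m01, f t * P.eval t / (x - t) ^ 2 ≤ 16 * (f t * P.eval t) +
      ∑ i ∈ Finset.range M, (dd i ^ 2)⁻¹ * (f t * P.eval t * ind i t) := by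
    filter_upwards [hloc, hT.hf0] with t h1 h2
    have ha : 0 ≤ f t * P.eval t := mul_nonneg h2 (hPn t)
    have hsn : ∀ i ∈ Finset.range M, 0 ≤ (dd i ^ 2)⁻¹ * (f t * P.eval t * ind i t) := by
      intro i _
      have := hind0 i t
      have := hddpos i
      positivity
    by_cases h0 : f t = 0
    · simp [h0]
    · rcases h1 h0 with h | ⟨i, hi, h⟩
      · have h3 : (1 / 4 : ℝ) ≤ x - t := by linarith [h.2, hx.1]
        have h4 : f t * P.eval t / (x - t) ^ 2 ≤ 16 * (f t * P.eval t) := by
          rw [div_le_iff₀ (by positivity)]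
          have h5 : (1 : ℝ) ≤ 16 * (x - t) ^ 2 := by nlinarith
          nlinarith
        linarith [Finset.sum_nonneg hsn]
      · have h3 := hblob t i hi h
        have h4 : f t * P.eval t / (x - t) ^ 2 ≤ (dd i ^ 2)⁻¹ * (f t * P.eval t * ind i t) := by
          rw [hindm i t h, mul_one, div_eq_inv_mul]
          apply mul_le_mul_of_nonneg_right _ ha
          have hd := hddpos i
          have h5 : dd i ^ 2 ≤ (x - t) ^ 2 := by
            rw [← sq_abs (x - t)]
            exact pow_le_pow_left₀ hd.le h3 2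
          exact inv_anti₀ (by positivity) h5
        have h5 := Finset.single_le_sum hsn (Finset.mem_range.mpr hi)
        linarith
  -- lower bound
  have hL : ∀ᵐ t ∂m01, f t * P.eval t -
      ∑ i ∈ Finset.range M, (dd i ^ 2)⁻¹ * (f t * P.eval t * ind i t) ≤
        f t * P.eval t / (x - t) ^ 1 := by
    filter_upwards [hloc, hT.hf0] with t h1 h2
    have ha : 0 ≤ f t * P.eval t := mul_nonneg h2 (hPn t)
    have hsn : ∀ i ∈ Finset.range M, 0 ≤ (dd i ^ 2)⁻¹ * (f t * P.eval t * ind i t) := by
      intro i _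
      have := hind0 i t
      have := hddpos i
      positivity
    by_cases h0 : f t = 0
    · simp [h0]
    · rcases h1 h0 with h | ⟨i, hi, h⟩
      · have h3 : (1 / 4 : ℝ) ≤ x - t := by linarith [h.2, hx.1]
        have h3' : x - t ≤ 1 := by linarith [h.1, hx.2]
        have h4 : f t * P.eval t ≤ f t * P.eval t / (x - t) ^ 1 := by
          rw [pow_one, le_div_iff₀ (by linarith)]
          nlinarith
        linarith [Finset.sum_nonneg hsn]
      · have h3 := hblob t i hi h
        have hd := hddpos i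
        have hd2 := hddle i
        have h4 : f t * P.eval t - (dd i ^ 2)⁻¹ * (f t * P.eval t * ind i t) ≤
            f t * P.eval t / (x - t) ^ 1 := by
          rw [hindm i t h, mul_one, pow_one]
          have h6 : -(dd i)⁻¹ ≤ (x - t)⁻¹ := by
            have h7 : |(x - t)⁻¹| ≤ (dd i)⁻¹ := by
              rw [abs_inv]
              exact inv_anti₀ hd h3
            linarith [neg_abs_le (x - t)⁻¹]
          have h8 : (4096 : ℝ) ≤ (dd i)⁻¹ := by
            rw [le_inv_comm₀ (by norm_num) hd]
            linarith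
          have h9 : 1 + (dd i)⁻¹ ≤ (dd i ^ 2)⁻¹ := by
            rw [← inv_pow]
            nlinarith
          rw [div_eq_mul_inv]
          nlinarith
        have h5 := Finset.single_le_sum hsn (Finset.mem_range.mpr hi)
        linarith
  set A := ∫ t, f t * P.eval t / (x - t) ^ 1 ∂m01 with hA
  set S := ∫ t, f t * P.eval t / (x - t) ^ 2 ∂m01 with hSdef
  have hS17 : S ≤ 17 := by
    have h1 := integral_mono_ae (int_div hf x (dd M) (hddpos M) hδ P 2)
      ((iP.const_mul 16).add iS) hU
    have h2 : ∫ t, (16 * (f t * P.eval t) + ∑ i ∈ Finset.range M,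
        (dd i ^ 2)⁻¹ * (f t * P.eval t * ind i t)) ∂m01 = 16 * 1 +
        ∫ t, ∑ i ∈ Finset.range M, (dd i ^ 2)⁻¹ * (f t * P.eval t * ind i t) ∂m01 := by
      rw [integral_add (iP.const_mul 16) iS, integral_const_mul, hmass]
    have h3 : S ≤ 16 * 1 +
        ∫ t, ∑ i ∈ Finset.range M, (dd i ^ 2)⁻¹ * (f t * P.eval t * ind i t) ∂m01 := by
      rw [← h2]
      exact h1
    linarith
  have hA34 : 3 / 4 ≤ A := by
    have h1 := integral_mono_ae (iP.sub iS) (int_div hf x (dd M) (hddpos M) hδ P 1) hL
    have h2 : ∫ t, (f t * P.eval t - ∑ i ∈ Finset.range M,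
        (dd i ^ 2)⁻¹ * (f t * P.eval t * ind i t)) ∂m01 = 1 -
        ∫ t, ∑ i ∈ Finset.range M, (dd i ^ 2)⁻¹ * (f t * P.eval t * ind i t) ∂m01 := by
      rw [integral_sub iP iS, hmass]
    have h3 : 1 - ∫ t, ∑ i ∈ Finset.range M,
        (dd i ^ 2)⁻¹ * (f t * P.eval t * ind i t) ∂m01 ≤ A := by
      rw [← h2]
      exact h1
    linarith
  -- the kernel
  set K : ℝ := ∑ j ∈ Finset.range s, ((q j).eval x) ^ 2 with hK
  set R : ℝ[X] := ∑ j ∈ Finset.range s, C ((q j).eval x) * q j with hRdef
  have hRx : R.eval x = K := by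
    rw [hRdef, hK]
    simp only [eval_mul, eval_finsetSum, eval_C]
    apply Finset.sum_congr rfl
    intro j _
    ring
  have hRdeg : R.natDegree < s := by
    have : R.natDegree ≤ s - 1 := by
      rw [hRdef]
      apply natDegree_sum_le_of_forall_le
      intro j hj
      have hj' := Finset.mem_range.mp hj
      refine (natDegree_C_mul_le _ _).trans ?_
      rw [hq.deg j hj'.le]
      omega
    omega
  have hKn := normsq hf W s q hq (fun j => (q j).eval x) R hRdef
  have hid := ident hf x (dd M) (hddpos M) hδ W s q hs hq R hRdeg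
  set B := ∫ t, f t * (W * q s * (W * R)).eval t / (x - t) ^ 1 ∂m01 with hB
  have hcs := cs hf hT.hf0 x (dd M) (hddpos M) hδ W (q s) R (B / 17)
  rw [hKn, ← hB] at hcs
  have hB2 : B ^ 2 ≤ 17 * K := by
    have h1 : (B / 17) ^ 2 * S ≤ (B / 17) ^ 2 * 17 :=
      mul_le_mul_of_nonneg_left hS17 (sq_nonneg _)
    have h2 : 0 ≤ K - 2 * (B / 17) * B + (B / 17) ^ 2 * S := hcs
    nlinarith
  rw [hRx] at hid
  have hid' : K * A = (q s).eval x * B := hid
  have hq0 : (q 0).eval x ≠ 0 := by
    obtain ⟨a, ha⟩ := natDegree_eq_zero.mp (hq.deg 0 (Nat.zero_le _))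
    rw [← ha, eval_C]
    intro ha0
    have := hq.on 0 (Nat.zero_le _) 0 (Nat.zero_le _)
    rw [← ha, ha0] at this
    simp at this
  have hKpos : 0 < K := by
    have h1 : ((q 0).eval x) ^ 2 ≤ K :=
      Finset.single_le_sum (f := fun j => ((q j).eval x) ^ 2) (fun _ _ => sq_nonneg _)
        (Finset.mem_range.mpr (by omega))
    have h2 : 0 < ((q 0).eval x) ^ 2 := by positivity
    linarith
  have hmain : K ≤ 68 * ((q s).eval x) ^ 2 := by
    have h1 : (K * A) ^ 2 ≤ ((q s).eval x) ^ 2 * (17 * K) := by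
      rw [hid', mul_pow]
      exact mul_le_mul_of_nonneg_left hB2 (sq_nonneg _)
    have h2 : K * A ^ 2 ≤ 17 * ((q s).eval x) ^ 2 := by
      have h3 : K * (K * A ^ 2) ≤ K * (17 * ((q s).eval x) ^ 2) := by nlinarith
      exact le_of_mul_le_mul_left h3 hKpos
    have h4 : (9 / 16 : ℝ) ≤ A ^ 2 := by nlinarith
    nlinarith
  refine ⟨?_, ?_, hS17⟩
  · intro h0
    rw [h0] at hmain
    nlinarith
  · rw [Fin.sum_univ_eq_sum_range (fun j => ((q j).eval x) ^ 2) s]
    exact hmain

end Pool.Agent.H727R4.CLT.Dom
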