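import Pool.Agent.H727R4.CLT.Stmts

set_option autoImplicit false
open MeasureTheory ProbabilityTheory Filter Topology Set Polynomial
open scoped ENNReal NNReal
open Pool.Agent.Helper553.Orth

namespace Pool.Agent.H727R4.CLT.End

/-- Large variance at infinitely many degrees. -/
theorem large_var {c : ℝ} {f : ℝ → ℝ} (hf : Integrable f m01) (hf0 : 0 ≤ᵐ[m01] f)
    (hgood : ∀ K : ℕ, GoodC c K f) {p : ℕ → ℝ[X]}
    (hdeg : ∀ k, (p k).natDegree = k ∧ 0 < (p k).leadingCoeff)
    (horth : ∀ j k, ip (dens f) (p j) (p k) = if j = k then 1 else 0)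
    {Ω : Type} [MeasurableSpace Ω] (μ : Measure Ω) [IsProbabilityMeasure μ] (a : ℕ → Ω → ℝ)
    (hlaw : ∀ k, HasLaw (a k) (gaussianReal 0 1) μ) (hind : iIndepFun a μ) (n0 : ℕ) :
    ∃ n : ℕ, n0 ≤ n ∧ c / 2 * (n : ℝ) ^ 2 ≤ Var[fun ω => (nr (PP p a n ω) : ℝ); μ] := by
  classical
  obtain ⟨s, m, φ, hs, hφ, hv, hG⟩ := hgood n0
  have hcard : Fintype.card (Unit ⊕ (Fin s ⊕ (Fin m ⊕ Fin m))) = (s + 2 * m) + 1 := by
    simp only [Fintype.card_sum, Fintype.card_unit, Fintype.card_fin]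
    ring
  obtain ⟨h1, -⟩ := variance_large (dens_UMeas hf) hdeg horth hcard φ hφ hv (fun i j => by
    rw [dens_ip hf hf0]
    have := (hG i j).le
    push_cast
    exact this) μ a hlaw hind
  refine ⟨s + 2 * m, hs, ?_⟩
  refine le_trans (le_of_eq ?_) h1
  push_cast
  ring

theorem gauss_pos (t : ℝ) : 0 < (gaussianReal 0 1).real (Iic t) := by
  refine ENNReal.toReal_pos ?_ (measure_ne_top _ _)
  intro h0
  have h1 := gaussianReal_absolutelyContinuous' (0 : ℝ) (v := 1) one_ne_zero h0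
  rw [Real.volume_Iic] at h1
  exact ENNReal.top_ne_zero h1

theorem taskEnd : TaskEnd := by
  intro c hc hex
  obtain ⟨f, hf, hf0, hgood, hJ⟩ := hex
  have hU := dens_UMeas hf
  have hJ01 : 0 < mJ 0 1 f := by
    have h := hJ 0 1 le_rfl one_pos le_rfl
    push_cast at h
    exact h
  have hc2 : 0 < c / 2 := by positivity
  refine ⟨dens f, hU.fin, dens_ac f, dens_support hf hf0 hJ, ?_, c / 2, hc2, ?_⟩
  · obtain ⟨p, hp1, hp2⟩ := exists_orthonormal hU (dens_posF hf hf0 hJ01)
    exact ⟨p, hp1, hp2⟩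
  · intro p hp Ω _ μ _ a hlaw hind
    have key : ∀ n0 : ℕ, ∃ n : ℕ, n0 ≤ n ∧
        c / 2 * (n : ℝ) ^ 2 ≤ Var[realZeroCount p a n; μ] := fun n0 =>
      large_var hf hf0 hgood hp.1 hp.2 μ a hlaw hind n0
    refine ⟨key, ?_⟩
    intro hT
    have hs0 : 0 < √(c / 2) := Real.sqrt_pos.mpr hc2
    have h := hT (-(1 / √(c / 2)) - 1)
    have hpos := gauss_pos (-(1 / √(c / 2)) - 1)
    obtain ⟨n1, hn1⟩ := eventually_atTop.mp (h.eventually (lt_mem_nhds hpos))
    obtain ⟨n, hn, hvar⟩ := key (max n1 1)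
    have hlt := hn1 n ((le_max_left _ _).trans hn)
    have hn1' : 1 ≤ n := (le_max_right _ _).trans hn
    have hnR : (1 : ℝ) ≤ n := by exact_mod_cast hn1'
    have hbd : ∀ ω, realZeroCount p a n ω ∈ Icc (0 : ℝ) n := by
      intro ω
      refine ⟨Nat.cast_nonneg _, ?_⟩
      have h1 : nr (PP p a n ω) ≤ n := nr_le (PP_natDegree (fun k => (hp.1 k).1) a n ω)
      have h2 : realZeroCount p a n ω = (nr (PP p a n ω) : ℝ) := rfl
      rw [h2]
      exact_mod_cast h1
    have hE : ∫ ω, realZeroCount p a n ω ∂μ ≤ (n : ℝ) := by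
      have h1 := norm_integral_le_of_norm_le_const (μ := μ) (f := realZeroCount p a n)
        (C := (n : ℝ)) (Eventually.of_forall fun ω => by
          rw [Real.norm_of_nonneg (hbd ω).1]
          exact (hbd ω).2)
      rw [probReal_univ, mul_one] at h1
      exact (le_abs_self _).trans h1
    have hsq : √(c / 2) * n ≤ √(Var[realZeroCount p a n; μ]) := by
      apply Real.le_sqrt_of_sq_le
      rw [mul_pow, Real.sq_sqrt hc2.le]
      exact hvar
    have hsv : 0 < √(Var[realZeroCount p a n; μ]) :=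
      lt_of_lt_of_le (by positivity) hsq
    have hempty : {ω | (realZeroCount p a n ω - μ[realZeroCount p a n]) /
        √(Var[realZeroCount p a n; μ]) ≤ -(1 / √(c / 2)) - 1} = ∅ := by
      rw [Set.eq_empty_iff_forall_notMem]
      intro ω hω
      have hω' : (realZeroCount p a n ω - μ[realZeroCount p a n]) /
        √(Var[realZeroCount p a n; μ]) ≤ -(1 / √(c / 2)) - 1 := hω
      rw [div_le_iff₀ hsv] at hω'
      have h3 := (hbd ω).1
      have h4 : (1 / √(c / 2) + 1) * (√(c / 2) * n) ≤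
          (1 / √(c / 2) + 1) * √(Var[realZeroCount p a n; μ]) :=
        mul_le_mul_of_nonneg_left hsq (by positivity)
      have h5 : (1 / √(c / 2) + 1) * (√(c / 2) * n) = n + √(c / 2) * n := by
        field_simp
      have h6 : 0 < √(c / 2) * n := by positivity
      nlinarith
    rw [hempty, measureReal_empty] at hlt
    exact lt_irrefl _ hlt

end Pool.Agent.H727R4.CLT.End
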