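import Pool.Agent.H727R4.CLT.Stmts

set_option autoImplicit false
open MeasureTheory ProbabilityTheory Filter Topology Set Polynomial
open scoped ENNReal NNReal
open Pool.Agent.Helper553.Orth

namespace Pool.Agent.H727R4.CLT.Ge2

/-- A polynomial without zeros on an interval has constant sign there. -/
theorem same_sign (H : ℝ[X]) {a b : ℝ} (h0 : ∀ t ∈ Icc a b, H.eval t ≠ 0) {s t : ℝ}
    (hs : s ∈ Icc a b) (ht : t ∈ Icc a b) : 0 < H.eval s * H.eval t := by
  by_contra hcon
  have hle : H.eval s * H.eval t ≤ 0 := not_lt.mp hcon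
  have h1 : (0 : ℝ) ∈ uIcc (H.eval s) (H.eval t) := by
    rcases mul_nonpos_iff.mp hle with h | h
    · exact mem_uIcc.mpr (Or.inr ⟨h.2, h.1⟩)
    · exact mem_uIcc.mpr (Or.inl ⟨h.1, h.2⟩)
  have hc : ContinuousOn (fun t => H.eval t) (uIcc s t) := H.continuous.continuousOn
  obtain ⟨z, hz, hz0⟩ := intermediate_value_uIcc hc h1
  have hz2 : z ∈ Icc a b := by
    rcases mem_uIcc.mp hz with h | h
    · exact ⟨hs.1.trans h.1, h.2.trans ht.2⟩
    · exact ⟨ht.1.trans h.1, h.2.trans hs.2⟩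
  exact h0 z hz2 hz0

/-- A root strictly between two points with values of opposite sign. -/
theorem root_between (P : ℝ[X]) {s t : ℝ} (hst : s ≤ t) (h : P.eval s * P.eval t < 0) :
    ∃ z ∈ Ioo s t, P.eval z = 0 := by
  have h1 : (0 : ℝ) ∈ uIcc (P.eval s) (P.eval t) := by
    rcases mul_neg_iff.mp h with h | h
    · exact mem_uIcc.mpr (Or.inr ⟨h.2.le, h.1.le⟩)
    · exact mem_uIcc.mpr (Or.inl ⟨h.1.le, h.2.le⟩)
  have hc : ContinuousOn (fun t => P.eval t) (uIcc s t) := P.continuous.continuousOn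
  obtain ⟨z, hz, hz0⟩ := intermediate_value_uIcc hc h1
  rw [uIcc_of_le hst] at hz
  have hz0' : P.eval z = 0 := hz0
  refine ⟨z, ⟨lt_of_le_of_ne hz.1 ?_, lt_of_le_of_ne hz.2 ?_⟩, hz0'⟩
  · rintro rfl
    rw [hz0', zero_mul] at h
    exact lt_irrefl _ h
  · rintro rfl
    rw [hz0', mul_zero] at h
    exact lt_irrefl _ h

/-- Contribution of the other dipoles. -/
noncomputable def SS {m : ℕ} (x : Fin m → ℝ) (d : ℝ) (g g' : Fin m → ℝ) (k : Fin m) (t : ℝ) : ℝ :=
  ∑ l ∈ Finset.univ.erase k, (g l * (t - (x l + d)) + g' l * (t - x l)) /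
    ((t - x l) * (t - (x l + d)))

/-- The local form. -/
noncomputable def TT {m : ℕ} (x : Fin m → ℝ) (d : ℝ) (g g' : Fin m → ℝ) (ζ : ℝ → ℝ) (b τ : ℝ)
    (k : Fin m) (t : ℝ) : ℝ :=
  (t - x k) * (t - (x k + d)) * (b + ζ t + τ * SS x d g g' k t) +
    τ * (g k * (t - (x k + d)) + g' k * (t - x k))

theorem eval_qq (a d t : ℝ) : (qq a d).eval t = (t - a) * (t - (a + d)) := by
  unfold qq
  simp only [eval_mul, eval_sub, eval_X, eval_C]

theorem eval_local {m : ℕ} (x : Fin m → ℝ) (d : ℝ) (Q R : ℝ[X]) (g g' : Fin m → ℝ) (ζ : ℝ → ℝ)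
    (b τ : ℝ) (k : Fin m) (t : ℝ) (hR : R.eval t = Q.eval t * ζ t)
    (hne : ∀ l, l ≠ k → (t - x l) * (t - (x l + d)) ≠ 0) :
    (Px x d Q R g g' b τ).eval t = (Wr x d k * Q).eval t * TT x d g g' ζ b τ k t := by
  have hW : ∀ l, (WW x d).eval t = ((t - x l) * (t - (x l + d))) * (Wr x d l).eval t := by
    intro l
    have h1 : WW x d = qq (x l) d * Wr x d l := by
      unfold WW Wr
      exact (Finset.mul_prod_erase Finset.univ (fun k => qq (x k) d) (Finset.mem_univ l)).symm
    rw [h1, eval_mul, eval_qq]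
  have hWl : ∀ l, l ≠ k → (Wr x d l).eval t =
      ((t - x k) * (t - (x k + d))) * (Wr x d k).eval t / ((t - x l) * (t - (x l + d))) := by
    intro l hl
    rw [eq_div_iff (hne l hl), ← hW k, hW l]
    ring
  have hsum : ∑ l, (Wr x d l).eval t * (g l * (t - (x l + d)) + g' l * (t - x l)) =
      (Wr x d k).eval t * (g k * (t - (x k + d)) + g' k * (t - x k)) +
        ((t - x k) * (t - (x k + d))) * (Wr x d k).eval t * SS x d g g' k t := by
    rw [← Finset.add_sum_erase Finset.univ _ (Finset.mem_univ k)]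
    congr 1
    unfold SS
    rw [Finset.mul_sum]
    apply Finset.sum_congr rfl
    intro l hl
    rw [hWl l (Finset.ne_of_mem_erase hl)]
    ring
  have hP : (Px x d Q R g g' b τ).eval t = b * ((WW x d).eval t * Q.eval t) +
      ((WW x d).eval t * R.eval t + τ * (Q.eval t *
        ∑ l, (Wr x d l).eval t * (g l * (t - (x l + d)) + g' l * (t - x l)))) := by
    unfold Px Zx
    simp only [eval_add, eval_mul, eval_C, eval_finsetSum, eval_sub, eval_X]
  rw [hP, hsum, hR, hW k, eval_mul]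
  unfold TT
  ring

theorem taskGe2 : TaskGe2 := by
  intro m x d ℓ G A ε s Q R g g' ζ ζ1 ζ2 h b τ k hτ0 hτd hφ hg1 hg2
  have hℓ := h.hℓ
  have hd0 := h.hd0
  have hd := h.hd
  have hG := h.hG
  have hε := h.hε
  -- distances
  have hdist : ∀ t ∈ Icc (x k - ℓ) (x k + ℓ), ∀ l, l ≠ k →
      2 * ℓ ≤ |t - x l| ∧ 2 * ℓ ≤ |t - (x l + d)| := by
    intro t ht l hl
    have h1 := h.hsep k l (Ne.symm hl)
    have h2 : |t - x k| ≤ ℓ := by
      rw [abs_le]; constructor <;> linarith [ht.1, ht.2]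
    have h3 : |x k - x l| ≤ |t - x l| + |t - x k| := by
      have : x k - x l = (t - x l) - (t - x k) := by ring
      rw [this]
      exact abs_sub _ _
    have h4 : |t - x l| ≤ |t - (x l + d)| + |d| := by
      have : t - x l = (t - (x l + d)) + d := by ring
      conv_lhs => rw [this]
      exact abs_add_le _ _
    rw [abs_of_pos hd0] at h4
    constructor <;> linarith
  have hne : ∀ t ∈ Icc (x k - ℓ) (x k + ℓ), ∀ l, l ≠ k → (t - x l) * (t - (x l + d)) ≠ 0 := by
    intro t ht l hl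
    obtain ⟨h1, h2⟩ := hdist t ht l hl
    apply mul_ne_zero
    · intro h0; rw [h0, abs_zero] at h1; linarith
    · intro h0; rw [h0, abs_zero] at h2; linarith
  -- bound of the sum
  have hS : ∀ t ∈ Icc (x k - ℓ) (x k + ℓ), |τ * SS x d g g' k t| ≤ ε / 100 := by
    intro t ht
    have h1 : |SS x d g g' k t| ≤ m * (G / ℓ) := by
      unfold SS
      calc |∑ l ∈ Finset.univ.erase k, (g l * (t - (x l + d)) + g' l * (t - x l)) /
              ((t - x l) * (t - (x l + d)))|
          ≤ ∑ l ∈ Finset.univ.erase k, |(g l * (t - (x l + d)) + g' l * (t - x l)) /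
              ((t - x l) * (t - (x l + d)))| := Finset.abs_sum_le_sum_abs _ _
        _ ≤ ∑ l ∈ Finset.univ.erase k, G / ℓ := by
            apply Finset.sum_le_sum
            intro l hl
            have hl' := Finset.ne_of_mem_erase hl
            obtain ⟨d1, d2⟩ := hdist t ht l hl'
            have hnn := hne t ht l hl'
            have n1 : t - x l ≠ 0 := left_ne_zero_of_mul hnn
            have n2 : t - (x l + d) ≠ 0 := right_ne_zero_of_mul hnn
            have e : (g l * (t - (x l + d)) + g' l * (t - x l)) / ((t - x l) * (t - (x l + d))) =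
                g l / (t - x l) + g' l / (t - (x l + d)) := by
              field_simp
            rw [e]
            have b1 : |g l / (t - x l)| ≤ G / (2 * ℓ) := by
              rw [abs_div]
              exact div_le_div₀ (by linarith) (h.hg l) (by positivity) d1
            have b2 : |g' l / (t - (x l + d))| ≤ G / (2 * ℓ) := by
              rw [abs_div]
              exact div_le_div₀ (by linarith) (h.hg' l) (by positivity) d2
            have e2 : G / (2 * ℓ) + G / (2 * ℓ) = G / ℓ := by field_simp; ring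
            calc _ ≤ |g l / (t - x l)| + |g' l / (t - (x l + d))| := abs_add_le _ _
              _ ≤ G / (2 * ℓ) + G / (2 * ℓ) := add_le_add b1 b2
              _ = G / ℓ := e2
        _ = ((Finset.univ.erase k).card : ℝ) * (G / ℓ) := by
            rw [Finset.sum_const, nsmul_eq_mul]
        _ ≤ m * (G / ℓ) := by
            apply mul_le_mul_of_nonneg_right _ (by positivity)
            have : (Finset.univ.erase k).card ≤ m := by
              calc (Finset.univ.erase k).card ≤ (Finset.univ : Finset (Fin m)).card :=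
                    Finset.card_le_card (Finset.erase_subset _ _)
                _ = m := by rw [Finset.card_univ, Fintype.card_fin]
            exact_mod_cast this
    rw [abs_mul, abs_of_nonneg hτ0]
    have h2 : τ * |SS x d g g' k t| ≤ d * (m * (G / ℓ)) :=
      mul_le_mul hτd h1 (abs_nonneg _) hd0.le
    have h3 : d * (m * (G / ℓ)) = d * (m * G) / ℓ := by ring
    have h4 : d * (m * G) / ℓ ≤ ε * ℓ ^ 3 / 100 / ℓ := div_le_div_of_nonneg_right h.hdG hℓ.le
    have h5 : ε * ℓ ^ 3 / 100 / ℓ = ε / 100 * ℓ ^ 2 := by field_simp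
    have h6 : ℓ ^ 2 ≤ 1 := by
      have := h.hℓ1
      nlinarith
    have h7 : ε / 100 * ℓ ^ 2 ≤ ε / 100 * 1 := mul_le_mul_of_nonneg_left h6 (by positivity)
    linarith
  -- variation of ζ
  have hxk : x k ∈ Icc (x k - ℓ) (x k + ℓ) := ⟨by linarith, by linarith⟩
  have hZ : ∀ t ∈ Icc (x k - ℓ) (x k + ℓ), |ζ t - ζ (x k)| ≤ ε / 100 := by
    intro t ht
    have h1 := (convex_Icc (x k - ℓ) (x k + ℓ)).norm_image_sub_le_of_norm_hasDerivWithin_le
      (f := ζ) (f' := ζ1) (C := A)
      (fun y hy => ((h.hζ k y hy).1).hasDerivWithinAt)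
      (fun y hy => by rw [Real.norm_eq_abs]; exact (h.hζ k y hy).2.2.1) hxk ht
    rw [Real.norm_eq_abs, Real.norm_eq_abs] at h1
    have h2 : |t - x k| ≤ ℓ := by
      rw [abs_le]; constructor <;> linarith [ht.1, ht.2]
    have h3 : A * |t - x k| ≤ A * ℓ := mul_le_mul_of_nonneg_left h2 (by linarith [h.hA])
    have h4 := h.hℓA
    nlinarith
  set φ := b + ζ (x k) with hφd
  have hφ0 : 0 < |φ| := lt_of_lt_of_le hε hφ
  have hV : ∀ t ∈ Icc (x k - ℓ) (x k + ℓ),
      49 / 50 * φ ^ 2 ≤ φ * (b + ζ t + τ * SS x d g g' k t) := by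
    intro t ht
    have h1 := hS t ht
    have h2 := hZ t ht
    have h3 : |b + ζ t + τ * SS x d g g' k t - φ| ≤ |φ| / 50 := by
      have e : b + ζ t + τ * SS x d g g' k t - φ = (ζ t - ζ (x k)) + τ * SS x d g g' k t := by
        rw [hφd]; ring
      rw [e]
      refine (abs_add_le _ _).trans ?_
      linarith
    have h4 : |φ * (b + ζ t + τ * SS x d g g' k t - φ)| ≤ φ ^ 2 / 50 := by
      rw [abs_mul]
      calc |φ| * |b + ζ t + τ * SS x d g g' k t - φ| ≤ |φ| * (|φ| / 50) :=
            mul_le_mul_of_nonneg_left h3 hφ0.le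
        _ = φ ^ 2 / 50 := by rw [← sq_abs φ]; ring
    have h5 := (abs_le.mp h4).1
    nlinarith
  have hn1 : |φ * (τ * g k)| ≤ φ ^ 2 * d / 20 := by
    rw [abs_mul, abs_mul, abs_of_nonneg hτ0]
    calc |φ| * (τ * |g k|) ≤ |φ| * (|φ| * d / 20) := mul_le_mul_of_nonneg_left hg1 hφ0.le
      _ = φ ^ 2 * d / 20 := by rw [← sq_abs φ]; ring
  have hn2 : |φ * (τ * g' k)| ≤ φ ^ 2 * d / 20 := by
    rw [abs_mul, abs_mul, abs_of_nonneg hτ0]
    calc |φ| * (τ * |g' k|) ≤ |φ| * (|φ| * d / 20) := mul_le_mul_of_nonneg_left hg2 hφ0.le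
      _ = φ ^ 2 * d / 20 := by rw [← sq_abs φ]; ring
  rw [abs_le] at hn1 hn2
  have m1 : x k - d ∈ Icc (x k - ℓ) (x k + ℓ) := ⟨by linarith, by linarith⟩
  have m2 : x k + d / 2 ∈ Icc (x k - ℓ) (x k + ℓ) := ⟨by linarith, by linarith⟩
  have m3 : x k + 2 * d ∈ Icc (x k - ℓ) (x k + ℓ) := ⟨by linarith, by linarith⟩
  have hφ2 : 0 < φ ^ 2 := by
    rw [← sq_abs]; positivity
  have hpos : 0 < φ ^ 2 * d ^ 2 := by positivity
  have w1 : d * (φ * (τ * g k)) ≤ d * (φ ^ 2 * d / 20) := mul_le_mul_of_nonneg_left hn1.2 hd0.le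
  have w2 : d * (-(φ ^ 2 * d / 20)) ≤ d * (φ * (τ * g k)) :=
    mul_le_mul_of_nonneg_left hn1.1 hd0.le
  have w3 : d * (φ * (τ * g' k)) ≤ d * (φ ^ 2 * d / 20) := mul_le_mul_of_nonneg_left hn2.2 hd0.le
  have w4 : d * (-(φ ^ 2 * d / 20)) ≤ d * (φ * (τ * g' k)) :=
    mul_le_mul_of_nonneg_left hn2.1 hd0.le
  have t1 : 0 < φ * TT x d g g' ζ b τ k (x k - d) := by
    have hv := hV _ m1
    unfold TT
    set V := b + ζ (x k - d) + τ * SS x d g g' k (x k - d)
    have e : φ * ((x k - d - x k) * (x k - d - (x k + d)) * V +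
        τ * (g k * (x k - d - (x k + d)) + g' k * (x k - d - x k))) =
        2 * (d ^ 2 * (φ * V)) - 2 * (d * (φ * (τ * g k))) - d * (φ * (τ * g' k)) := by ring
    rw [e]
    have e1 : d ^ 2 * (49 / 50 * φ ^ 2) ≤ d ^ 2 * (φ * V) :=
      mul_le_mul_of_nonneg_left hv (by positivity)
    nlinarith
  have t2 : φ * TT x d g g' ζ b τ k (x k + d / 2) < 0 := by
    have hv := hV _ m2
    unfold TT
    set V := b + ζ (x k + d / 2) + τ * SS x d g g' k (x k + d / 2)
    have e : φ * ((x k + d / 2 - x k) * (x k + d / 2 - (x k + d)) * V +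
        τ * (g k * (x k + d / 2 - (x k + d)) + g' k * (x k + d / 2 - x k))) =
        -(1 / 4) * (d ^ 2 * (φ * V)) - 1 / 2 * (d * (φ * (τ * g k))) +
          1 / 2 * (d * (φ * (τ * g' k))) := by ring
    rw [e]
    have e1 : d ^ 2 * (49 / 50 * φ ^ 2) ≤ d ^ 2 * (φ * V) :=
      mul_le_mul_of_nonneg_left hv (by positivity)
    nlinarith
  have t3 : 0 < φ * TT x d g g' ζ b τ k (x k + 2 * d) := by
    have hv := hV _ m3
    unfold TT
    set V := b + ζ (x k + 2 * d) + τ * SS x d g g' k (x k + 2 * d)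
    have e : φ * ((x k + 2 * d - x k) * (x k + 2 * d - (x k + d)) * V +
        τ * (g k * (x k + 2 * d - (x k + d)) + g' k * (x k + 2 * d - x k))) =
        2 * (d ^ 2 * (φ * V)) + d * (φ * (τ * g k)) + 2 * (d * (φ * (τ * g' k))) := by ring
    rw [e]
    have e1 : d ^ 2 * (49 / 50 * φ ^ 2) ≤ d ^ 2 * (φ * V) :=
      mul_le_mul_of_nonneg_left hv (by positivity)
    nlinarith
  -- the common factor
  have hH0 : ∀ t ∈ Icc (x k - ℓ) (x k + ℓ), (Wr x d k * Q).eval t ≠ 0 := by
    intro t ht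
    rw [eval_mul]
    apply mul_ne_zero _ (h.hQ0 k t ht)
    unfold Wr
    rw [eval_prod, Finset.prod_ne_zero_iff]
    intro l hl
    rw [eval_qq]
    exact hne t ht l (Finset.ne_of_mem_erase hl)
  set P := Px x d Q R g g' b τ with hPd
  have hPe : ∀ t ∈ Icc (x k - ℓ) (x k + ℓ), P.eval t =
      (Wr x d k * Q).eval t * TT x d g g' ζ b τ k t := by
    intro t ht
    exact eval_local x d Q R g g' ζ b τ k t (h.hRζ k t ht) (hne t ht)
  have key : ∀ s ∈ Icc (x k - ℓ) (x k + ℓ), ∀ t ∈ Icc (x k - ℓ) (x k + ℓ),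
      (φ * TT x d g g' ζ b τ k s) * (φ * TT x d g g' ζ b τ k t) < 0 →
      P.eval s * P.eval t < 0 := by
    intro s hs t ht hst
    rw [hPe s hs, hPe t ht]
    have h1 := same_sign (Wr x d k * Q) hH0 hs ht
    have h2 : φ ^ 2 * (TT x d g g' ζ b τ k s * TT x d g g' ζ b τ k t) < 0 := by
      have : φ ^ 2 * (TT x d g g' ζ b τ k s * TT x d g g' ζ b τ k t) =
        (φ * TT x d g g' ζ b τ k s) * (φ * TT x d g g' ζ b τ k t) := by ring
      rw [this]; exact hst
    have h3 : TT x d g g' ζ b τ k s * TT x d g g' ζ b τ k t < 0 := by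
      by_contra hc
      have := mul_nonneg hφ2.le (not_lt.mp hc)
      linarith
    have := mul_neg_of_pos_of_neg h1 h3
    calc _ = (Wr x d k * Q).eval s * (Wr x d k * Q).eval t *
          (TT x d g g' ζ b τ k s * TT x d g g' ζ b τ k t) := by ring
      _ < 0 := this
  have k1 := key _ m1 _ m2 (mul_neg_of_pos_of_neg t1 t2)
  have k2 := key _ m2 _ m3 (mul_neg_of_neg_of_pos t2 t3)
  obtain ⟨z1, hz1, hz1'⟩ := root_between P (by linarith) k1
  obtain ⟨z2, hz2, hz2'⟩ := root_between P (by linarith) k2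
  have hP0 : P ≠ 0 := by
    intro h0
    rw [h0] at k1
    simp at k1
  unfold zx
  have hsub : ({z1, z2} : Finset ℝ) ⊆ P.roots.toFinset.filter
      (fun t => t ∈ Icc (x k - ℓ) (x k + ℓ)) := by
    intro z hz
    rw [Finset.mem_insert, Finset.mem_singleton] at hz
    rw [Finset.mem_filter, Multiset.mem_toFinset, mem_roots hP0, IsRoot]
    rcases hz with rfl | rfl
    · exact ⟨hz1', m1.1.trans hz1.1.le, hz1.2.le.trans m2.2⟩
    · exact ⟨hz2', m2.1.trans hz2.1.le, hz2.2.le.trans m3.2⟩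
  have hlt : z1 < z2 := hz1.2.trans hz2.1
  have := Finset.card_le_card hsub
  rw [Finset.card_pair hlt.ne] at this
  exact this

end Pool.Agent.H727R4.CLT.Ge2
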