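import Pool.Agent.H727R4.CLT.Stmts

set_option autoImplicit false
open MeasureTheory ProbabilityTheory Filter Topology Set Polynomial
open scoped ENNReal NNReal
open Pool.Agent.Helper553.Orth

namespace Pool.Agent.H727R4.CLT.Gram

variable {m : ℕ} (x : Fin m → ℝ) (d : ℝ)

theorem WW_eq (k : Fin m) : WW x d = qq (x k) d * Wr x d k := by
  unfold WW Wr
  exact (Finset.mul_prod_erase _ _ (Finset.mem_univ k)).symm

theorem qq_eval (a t : ℝ) : (qq a d).eval t = (t - a) * (t - (a + d)) := by
  simp [qq]

theorem WW_node (a : Fin m ⊕ Fin m) : (WW x d).eval (nodeX x d a) = 0 := by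
  rcases a with k | k
  · rw [WW_eq x d k, eval_mul, qq_eval]
    simp only [nodeX, sub_self, zero_mul]
  · rw [WW_eq x d k, eval_mul, qq_eval]
    simp only [nodeX, sub_self, mul_zero, zero_mul]

theorem Wr_zero (k l : Fin m) (hkl : l ≠ k) (t : ℝ) (ht : (qq (x l) d).eval t = 0) :
    (Wr x d k).eval t = 0 := by
  unfold Wr
  rw [eval_prod]
  exact Finset.prod_eq_zero (Finset.mem_erase.mpr ⟨hkl, Finset.mem_univ l⟩) ht

theorem fr_node {s : ℕ} {q : ℕ → ℝ[X]} {τ : ℝ}
    (i : Unit ⊕ (Fin s ⊕ (Fin m ⊕ Fin m))) (a : Fin m ⊕ Fin m) (h : i ≠ Sum.inr (Sum.inr a)) :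
    (fr x d s q τ i).eval (nodeX x d a) = 0 := by
  rcases i with u | (j | (k | k))
  · simp only [fr, eval_mul, WW_node, zero_mul]
  · simp only [fr, eval_mul, WW_node, zero_mul]
  · simp only [fr, eval_mul, eval_C, eval_sub, eval_X]
    rcases a with l | l
    · have hlk : l ≠ k := by rintro rfl; exact h rfl
      rw [Wr_zero x d k l hlk _ (by rw [qq_eval]; simp only [nodeX, sub_self, zero_mul])]
      ring
    · by_cases hlk : l = k
      · simp only [nodeX, hlk, sub_self, mul_zero]
      · rw [Wr_zero x d k l hlk _ (by rw [qq_eval]; simp only [nodeX, sub_self, mul_zero])]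
        ring
  · simp only [fr, eval_mul, eval_C, eval_sub, eval_X]
    rcases a with l | l
    · by_cases hlk : l = k
      · simp only [nodeX, hlk, sub_self, mul_zero]
      · rw [Wr_zero x d k l hlk _ (by rw [qq_eval]; simp only [nodeX, sub_self, zero_mul])]
        ring
    · have hlk : l ≠ k := by rintro rfl; exact h rfl
      rw [Wr_zero x d k l hlk _ (by rw [qq_eval]; simp only [nodeX, sub_self, mul_zero])]
      ring

theorem fr_eval {s : ℕ} {q : ℕ → ℝ[X]} {τ : ℝ} (a : Fin m ⊕ Fin m) (t : ℝ) :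
    (t - nodeX x d a) * (fr x d s q τ (Sum.inr (Sum.inr a))).eval t =
      τ * (WW x d * q s).eval t := by
  rcases a with k | k
  · rw [WW_eq x d k]
    simp only [fr, nodeX, eval_mul, eval_C, eval_sub, eval_X, qq_eval]
    ring
  · rw [WW_eq x d k]
    simp only [fr, nodeX, eval_mul, eval_C, eval_sub, eval_X, qq_eval]
    ring

theorem Wr_ne (hd0 : 0 < d) (hsep : ∀ k l, k ≠ l → 2 * d ≤ |x k - x l|) (k : Fin m) (t : ℝ)
    (ht : t = x k ∨ t = x k + d) : (Wr x d k).eval t ≠ 0 := by
  unfold Wr
  rw [eval_prod, Finset.prod_ne_zero_iff]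
  intro l hl
  have hlk := (Finset.mem_erase.mp hl).1
  have h1 := hsep k l (Ne.symm hlk)
  rw [qq_eval]
  intro h
  rcases mul_eq_zero.1 h with h2 | h2
  · rcases ht with rfl | rfl
    · rw [h2, abs_zero] at h1
      linarith
    · have : x k - x l = -d := by linarith
      rw [this, abs_neg, abs_of_pos hd0] at h1
      linarith
  · rcases ht with rfl | rfl
    · have : x k - x l = d := by linarith
      rw [this, abs_of_pos hd0] at h1
      linarith
    · have : x k - x l = 0 := by linarith
      rw [this, abs_zero] at h1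
      linarith

theorem fr_self {s : ℕ} {q : ℕ → ℝ[X]} {τ : ℝ} (hd0 : 0 < d)
    (hsep : ∀ k l, k ≠ l → 2 * d ≤ |x k - x l|) (hτ : 0 < τ) (a : Fin m ⊕ Fin m)
    (hq : (q s).eval (nodeX x d a) ≠ 0) :
    (fr x d s q τ (Sum.inr (Sum.inr a))).eval (nodeX x d a) ≠ 0 := by
  rcases a with k | k
  · simp only [fr, eval_mul, eval_C, eval_sub, eval_X, nodeX] at hq ⊢
    refine mul_ne_zero hτ.ne' (mul_ne_zero hq (mul_ne_zero (Wr_ne x d hd0 hsep k _ (Or.inl rfl)) ?_))
    intro h
    linarith
  · simp only [fr, eval_mul, eval_C, eval_sub, eval_X, nodeX] at hq ⊢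
    refine mul_ne_zero hτ.ne' (mul_ne_zero hq (mul_ne_zero (Wr_ne x d hd0 hsep k _ (Or.inr rfl)) ?_))
    intro h
    linarith

/-- Cauchy-Schwarz in additive form. -/
theorem cs {f : ℝ → ℝ} (hf : Integrable f m01) (hf0 : 0 ≤ᵐ[m01] f) (p r : ℝ[X]) {lam : ℝ}
    (hlam : 0 < lam) : |∫ t, f t * (p * r).eval t ∂m01| ≤
      (lam * ∫ t, f t * (p * p).eval t ∂m01 + lam⁻¹ * ∫ t, f t * (r * r).eval t ∂m01) / 2 := by
  have h1 : |∫ t, f t * (p * r).eval t ∂m01| ≤ ∫ t, |f t * (p * r).eval t| ∂m01 :=
    abs_integral_le_integral_abs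
  have h2 : ∫ t, |f t * (p * r).eval t| ∂m01 ≤
      ∫ t, (lam / 2 * (f t * (p * p).eval t) + lam⁻¹ / 2 * (f t * (r * r).eval t)) ∂m01 := by
    apply integral_mono_ae
    · exact (integrable_mul_poly hf (p * r)).abs
    · exact ((integrable_mul_poly hf (p * p)).const_mul _).add
        ((integrable_mul_poly hf (r * r)).const_mul _)
    · filter_upwards [hf0] with t ht
      simp only [Pi.zero_apply] at ht
      simp only [eval_mul]
      rw [abs_mul, abs_of_nonneg ht, abs_mul]
      have h3 : 0 ≤ (lam * |p.eval t| - |r.eval t|) ^ 2 * lam⁻¹ := by positivity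
      have h4 : (lam * |p.eval t| - |r.eval t|) ^ 2 * lam⁻¹ =
          lam * (|p.eval t| * |p.eval t|) + lam⁻¹ * (|r.eval t| * |r.eval t|) -
            2 * (|p.eval t| * |r.eval t|) := by
        field_simp
        ring
      rw [h4, abs_mul_abs_self, abs_mul_abs_self] at h3
      have h5 : |p.eval t| * |r.eval t| ≤
          lam / 2 * (p.eval t * p.eval t) + lam⁻¹ / 2 * (r.eval t * r.eval t) := by linarith
      calc f t * (|p.eval t| * |r.eval t|) ≤ f t *
            (lam / 2 * (p.eval t * p.eval t) + lam⁻¹ / 2 * (r.eval t * r.eval t)) :=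
            mul_le_mul_of_nonneg_left h5 ht
        _ = _ := by ring
  rw [integral_add ((integrable_mul_poly hf (p * p)).const_mul _)
    ((integrable_mul_poly hf (r * r)).const_mul _), integral_const_mul, integral_const_mul] at h2
  linarith

theorem fr_norm {f : ℝ → ℝ} {s : ℕ} {q : ℕ → ℝ[X]} {τ : ℝ} (a : Fin m ⊕ Fin m)
    (h17 : ∫ t, f t * (WW x d * q s * (WW x d * q s)).eval t / (nodeX x d a - t) ^ 2 ∂m01 ≤ 17) :
    ∫ t, f t * (fr x d s q τ (Sum.inr (Sum.inr a)) * fr x d s q τ (Sum.inr (Sum.inr a))).eval t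
      ∂m01 ≤ τ ^ 2 * 17 := by
  have h1 : ∫ t, f t * (fr x d s q τ (Sum.inr (Sum.inr a)) *
      fr x d s q τ (Sum.inr (Sum.inr a))).eval t ∂m01 =
      ∫ t, τ ^ 2 * (f t * (WW x d * q s * (WW x d * q s)).eval t / (nodeX x d a - t) ^ 2) ∂m01 := by
    apply integral_congr_ae
    have hne : ∀ᵐ t ∂m01, t ∉ ({nodeX x d a} : Set ℝ) := by
      unfold m01
      exact ae_restrict_of_ae ((Set.countable_singleton _).ae_notMem volume)
    filter_upwards [hne] with t ht
    have ht' : nodeX x d a - t ≠ 0 := by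
      intro h
      apply ht
      rw [Set.mem_singleton_iff]
      linarith
    have h2 := fr_eval x d (s := s) (q := q) (τ := τ) a t
    have h3 : (fr x d s q τ (Sum.inr (Sum.inr a))).eval t =
        -(τ * (WW x d * q s).eval t) / (nodeX x d a - t) := by
      rw [eq_div_iff ht']
      linarith
    rw [eval_mul, h3, eval_mul (p := WW x d * q s)]
    field_simp
  rw [h1, integral_const_mul]
  exact mul_le_mul_of_nonneg_left h17 (sq_nonneg τ)

theorem taskGram (hD : TaskDom) : TaskGram := by
  classical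
  intro w M c η f hw hT m x d τ s q hs hd0 hd hτ hτ1 hsep hnode hON hSm
  have hdom : ∀ a, (q s).eval (nodeX x d a) ≠ 0 ∧
      ∫ t, f t * (WW x d * q s * (WW x d * q s)).eval t / (nodeX x d a - t) ^ 2 ∂m01 ≤ 17 :=
    fun a => by
      obtain ⟨h1, _, h3⟩ := hD w M c η f hw hT (WW x d) s q hs hON hSm (nodeX x d a)
        (hnode a).1 (hnode a).2
      exact ⟨h1, h3⟩
  have hself := fun a => fr_self x d (s := s) (q := q) (τ := τ) hd0 hsep hτ a (hdom a).1
  refine ⟨hself, ?_⟩
  -- norms
  have hN : ∀ i, ∫ t, f t * (fr x d s q τ i * fr x d s q τ i).eval t ∂m01 ≤ 17 := by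
    intro i
    rcases i with u | (j | a)
    · have := hON.on s le_rfl s le_rfl
      rw [if_pos rfl] at this
      show ∫ t, f t * (WW x d * q s * (WW x d * q s)).eval t ∂m01 ≤ 17
      rw [this]
      norm_num
    · have := hON.on j j.2.le j j.2.le
      rw [if_pos rfl] at this
      show ∫ t, f t * (WW x d * q j * (WW x d * q j)).eval t ∂m01 ≤ 17
      rw [this]
      norm_num
    · refine (fr_norm x d (τ := τ) a (hdom a).2).trans ?_
      nlinarith
  have hcross : ∀ (a : Fin m ⊕ Fin m) (i : Unit ⊕ (Fin s ⊕ (Fin m ⊕ Fin m))),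
      |∫ t, f t * (fr x d s q τ (Sum.inr (Sum.inr a)) * fr x d s q τ i).eval t ∂m01| ≤ 17 * τ := by
    intro a i
    refine (cs hT.hf hT.hf0 _ _ (lam := τ⁻¹) (by positivity)).trans ?_
    rw [inv_inv]
    have h1 := fr_norm x d (τ := τ) a (hdom a).2
    have h2 := hN i
    have e1 : τ⁻¹ * ∫ t, f t * (fr x d s q τ (Sum.inr (Sum.inr a)) *
        fr x d s q τ (Sum.inr (Sum.inr a))).eval t ∂m01 ≤ τ⁻¹ * (τ ^ 2 * 17) :=
      mul_le_mul_of_nonneg_left h1 (by positivity)
    have e2 : τ⁻¹ * (τ ^ 2 * 17) = 17 * τ := by field_simp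
    have e3 : τ * ∫ t, f t * (fr x d s q τ i * fr x d s q τ i).eval t ∂m01 ≤ τ * 17 :=
      mul_le_mul_of_nonneg_left h2 hτ.le
    linarith
  intro i j
  by_cases hloc : ∃ a, i = Sum.inr (Sum.inr a) ∨ j = Sum.inr (Sum.inr a)
  · have hcr : |∫ t, f t * (fr x d s q τ i * fr x d s q τ j).eval t ∂m01| ≤ 17 * τ := by
      obtain ⟨a, ha | ha⟩ := hloc
      · rw [ha]; exact hcross a j
      · rw [ha, mul_comm (fr x d s q τ i)]; exact hcross a i
    have hsum : ∑ a, (((fr x d s q τ (Sum.inr (Sum.inr a))).eval (nodeX x d a)) ^ 2)⁻¹ *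
        (fr x d s q τ i * fr x d s q τ j).eval (nodeX x d a) = if i = j then 1 else 0 := by
      by_cases hij : i = j
      · obtain ⟨a, ha⟩ : ∃ a, i = Sum.inr (Sum.inr a) := by
          obtain ⟨a, ha | ha⟩ := hloc
          · exact ⟨a, ha⟩
          · exact ⟨a, by rw [hij, ha]⟩
        rw [if_pos hij, ← hij, ha, Finset.sum_eq_single a]
        · rw [eval_mul]
          have := hself a
          field_simp
        · intro l _ hl
          rw [eval_mul, fr_node x d (Sum.inr (Sum.inr a)) l (by
            intro h; apply hl; exact (Sum.inr_injective (Sum.inr_injective h)).symm)]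
          ring
        · intro h; exact absurd (Finset.mem_univ _) h
      · rw [if_neg hij]
        apply Finset.sum_eq_zero
        intro a _
        rw [eval_mul]
        by_cases ha : i = Sum.inr (Sum.inr a)
        · have hb : j ≠ Sum.inr (Sum.inr a) := fun hb => hij (ha.trans hb.symm)
          rw [fr_node x d j a hb]; ring
        · rw [fr_node x d i a ha]; ring
    rw [hsum]
    have e : ∀ x y : ℝ, x + y - y = x := fun x y => by ring
    rw [e]
    exact hcr
  · push Not at hloc
    have hsum : ∑ a, (((fr x d s q τ (Sum.inr (Sum.inr a))).eval (nodeX x d a)) ^ 2)⁻¹ *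
        (fr x d s q τ i * fr x d s q τ j).eval (nodeX x d a) = 0 := by
      apply Finset.sum_eq_zero
      intro a _
      rw [eval_mul, fr_node x d i a (hloc a).1]
      ring
    rw [hsum, add_zero]
    have hval : ∫ t, f t * (fr x d s q τ i * fr x d s q τ j).eval t ∂m01 =
        if i = j then 1 else 0 := by
      rcases i with u | (i | a)
      · rcases j with u' | (j | b)
        · rw [if_pos rfl]
          have := hON.on s le_rfl s le_rfl
          rw [if_pos rfl] at this
          exact this
        · rw [if_neg (by simp)]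
          have := hON.on s le_rfl j j.2.le
          rw [if_neg (by have := j.2; omega)] at this
          exact this
        · exact absurd rfl (hloc b).2
      · rcases j with u' | (j | b)
        · rw [if_neg (by simp)]
          have := hON.on i i.2.le s le_rfl
          rw [if_neg (by have := i.2; omega)] at this
          exact this
        · have h := hON.on i i.2.le j j.2.le
          show ∫ t, f t * (WW x d * q i * (WW x d * q j)).eval t ∂m01 = _
          rw [h]
          by_cases hjj : (i : ℕ) = (j : ℕ)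
          · rw [if_pos hjj, if_pos (by rw [Fin.ext hjj])]
          · rw [if_neg hjj, if_neg]
            intro h'
            apply hjj
            have := Sum.inl_injective (Sum.inr_injective h')
            rw [this]
        · exact absurd rfl (hloc b).2
      · exact absurd rfl (hloc a).1
    rw [hval, sub_self, abs_zero]
    positivity

end Pool.Agent.H727R4.CLT.Gram
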