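import Pool.Agent.H727R4.CLT.Stmts

/-! Task Le2 of project H727-CLT (helper71). -/

set_option autoImplicit false
open MeasureTheory ProbabilityTheory Filter Topology Set Polynomial
open scoped ENNReal NNReal
open Pool.Agent.Helper553.Orth

namespace Pool.Agent.H727R4.CLT.Le2

variable {m : ℕ} {x : Fin m → ℝ} {d ℓ G A ε : ℝ} {s : ℕ} {Q R : ℝ[X]} {g g' : Fin m → ℝ}
  {ζ ζ1 ζ2 : ℝ → ℝ} {b τ : ℝ}

/-- Far field and its derivatives. -/
noncomputable def far (x : Fin m → ℝ) (d : ℝ) (g g' : Fin m → ℝ) (k : Fin m) (t : ℝ) : ℝ :=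
  ∑ l ∈ Finset.univ.erase k, (g l / (t - x l) + g' l / (t - (x l + d)))
noncomputable def far1 (x : Fin m → ℝ) (d : ℝ) (g g' : Fin m → ℝ) (k : Fin m) (t : ℝ) : ℝ :=
  ∑ l ∈ Finset.univ.erase k, (-(g l) / (t - x l) ^ 2 + -(g' l) / (t - (x l + d)) ^ 2)
noncomputable def far2 (x : Fin m → ℝ) (d : ℝ) (g g' : Fin m → ℝ) (k : Fin m) (t : ℝ) : ℝ :=
  ∑ l ∈ Finset.univ.erase k, (2 * g l / (t - x l) ^ 3 + 2 * g' l / (t - (x l + d)) ^ 3)

theorem far_hasDeriv (k : Fin m) {t : ℝ}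
    (h : ∀ l : Fin m, l ≠ k → t - x l ≠ 0 ∧ t - (x l + d) ≠ 0) :
    HasDerivAt (far x d g g' k) (far1 x d g g' k t) t ∧
    HasDerivAt (far1 x d g g' k) (far2 x d g g' k t) t := by
  constructor
  · unfold far far1
    apply HasDerivAt.fun_sum
    intro l hl
    have := h l (Finset.mem_erase.mp hl).1
    exact (hasDerivAt_inv1 _ _ _ this.1).add (hasDerivAt_inv1 _ _ _ this.2)
  · unfold far1 far2
    apply HasDerivAt.fun_sum
    intro l hl
    have := h l (Finset.mem_erase.mp hl).1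
    exact (hasDerivAt_inv2 _ _ _ this.1).add (hasDerivAt_inv2 _ _ _ this.2)

theorem dist_bd (h : HX m x d ℓ G A ε s Q R g g' ζ ζ1 ζ2) (k : Fin m) {t : ℝ}
    (ht : t ∈ Icc (x k - ℓ) (x k + ℓ)) (l : Fin m) (hl : l ≠ k) :
    2 * ℓ ≤ |t - x l| ∧ 2 * ℓ ≤ |t - (x l + d)| := by
  have h1 := h.hsep k l hl.symm
  have h2 : |t - x k| ≤ ℓ := abs_le.mpr ⟨by linarith [ht.1], by linarith [ht.2]⟩
  have hd := h.hd
  have hd0 := h.hd0
  have hℓ := h.hℓ
  have h3 : |x k - x l| ≤ |t - x k| + |t - x l| := by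
    calc |x k - x l| = |(t - x l) - (t - x k)| := by ring_nf
      _ ≤ |t - x l| + |t - x k| := abs_sub _ _
      _ = _ := add_comm _ _
  have h4 : |t - x l| ≤ |t - (x l + d)| + d := by
    calc |t - x l| = |(t - (x l + d)) + d| := by ring_nf
      _ ≤ |t - (x l + d)| + |d| := abs_add_le _ _
      _ = _ := by rw [abs_of_pos hd0]
  constructor <;> linarith

theorem far_bounds (h : HX m x d ℓ G A ε s Q R g g' ζ ζ1 ζ2) (k : Fin m) {t : ℝ}
    (ht : t ∈ Icc (x k - ℓ) (x k + ℓ)) (hτ0 : 0 ≤ τ) (hτ : τ ≤ d) :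
    |τ * far x d g g' k t| ≤ ε / 100 ∧ |τ * far1 x d g g' k t| ≤ ε / 100 ∧
    |τ * far2 x d g g' k t| ≤ ε / 100 := by
  have hℓ := h.hℓ
  have hℓ1 := h.hℓ1
  have hG : 0 ≤ G := by linarith [h.hG]
  have hd0 := h.hd0
  have hε := h.hε
  have hmG : 0 ≤ (m : ℝ) * G := by positivity
  have key : ∀ (y c : ℝ), 0 ≤ c → |y| ≤ m * c → c ≤ G / ℓ ^ 3 → |τ * y| ≤ ε / 100 := by
    intro y c hc hy hcG
    rw [abs_mul, abs_of_nonneg hτ0]
    have h1 : |y| ≤ (m * G) / ℓ ^ 3 := by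
      refine hy.trans ?_
      rw [mul_div_assoc]
      gcongr
    calc τ * |y| ≤ d * ((m * G) / ℓ ^ 3) := by gcongr
      _ = (d * (m * G)) / ℓ ^ 3 := by ring
      _ ≤ (ε * ℓ ^ 3 / 100) / ℓ ^ 3 := by gcongr; exact h.hdG
      _ = ε / 100 := by field_simp
  have hℓ3 : 0 < ℓ ^ 3 := by positivity
  refine ⟨key _ (G / ℓ) (by positivity) ?_ ?_, key _ (G / ℓ ^ 2) (by positivity) ?_ ?_,
    key _ (G / ℓ ^ 3) (by positivity) ?_ le_rfl⟩
  · refine sum_bd k _ _ (by positivity) fun l hl => ?_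
    obtain ⟨h1, h2⟩ := dist_bd h k ht l hl
    have b1 := (div_bd hG (h.hg l) (by positivity : 0 < 2 * ℓ) h1).1
    have b2 := (div_bd hG (h.hg' l) (by positivity : 0 < 2 * ℓ) h2).1
    refine (abs_add_le _ _).trans ((add_le_add b1 b2).trans (le_of_eq ?_))
    field_simp; ring
  · rw [div_le_div_iff₀ hℓ hℓ3]
    have : ℓ ^ 3 ≤ ℓ := by nlinarith [mul_pos hℓ hℓ]
    nlinarith
  · refine sum_bd k _ _ (by positivity) fun l hl => ?_
    obtain ⟨h1, h2⟩ := dist_bd h k ht l hl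
    have b1 := (div_bd hG (h.hg l) (by positivity : 0 < 2 * ℓ) h1).2.1
    have b2 := (div_bd hG (h.hg' l) (by positivity : 0 < 2 * ℓ) h2).2.1
    refine (abs_add_le _ _).trans ((add_le_add b1 b2).trans ?_)
    have e : G / (2 * ℓ) ^ 2 + G / (2 * ℓ) ^ 2 = (G / ℓ ^ 2) / 2 := by field_simp; ring
    rw [e]
    have : 0 ≤ G / ℓ ^ 2 := by positivity
    linarith
  · rw [div_le_div_iff₀ (by positivity) hℓ3]
    have : ℓ ^ 3 ≤ ℓ ^ 2 := by nlinarith [mul_pos hℓ hℓ]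
    nlinarith
  · refine sum_bd k _ _ (by positivity) fun l hl => ?_
    obtain ⟨h1, h2⟩ := dist_bd h k ht l hl
    have b1 := (div_bd hG (h.hg l) (by positivity : 0 < 2 * ℓ) h1).2.2
    have b2 := (div_bd hG (h.hg' l) (by positivity : 0 < 2 * ℓ) h2).2.2
    refine (abs_add_le _ _).trans ((add_le_add b1 b2).trans ?_)
    have e : 2 * G / (2 * ℓ) ^ 3 + 2 * G / (2 * ℓ) ^ 3 = (G / ℓ ^ 3) / 2 := by field_simp; ring
    rw [e]
    have : 0 ≤ G / ℓ ^ 3 := by positivity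
    linarith

theorem eval_WW (l : Fin m) (t : ℝ) :
    (WW x d).eval t = (t - x l) * (t - (x l + d)) * (Wr x d l).eval t := by
  unfold WW Wr
  rw [← Finset.mul_prod_erase Finset.univ _ (Finset.mem_univ l), eval_mul]
  simp [qq]

theorem eval_Wr_ne (k : Fin m) {t : ℝ}
    (h : ∀ l : Fin m, l ≠ k → t - x l ≠ 0 ∧ t - (x l + d) ≠ 0) : (Wr x d k).eval t ≠ 0 := by
  unfold Wr
  rw [eval_prod]
  refine Finset.prod_ne_zero_iff.mpr fun l hl => ?_
  have := h l (Finset.mem_erase.mp hl).1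
  simp only [qq, eval_mul, eval_sub, eval_X, eval_C]
  exact mul_ne_zero this.1 this.2

theorem eval_Px (k : Fin m) {t : ℝ}
    (h : ∀ l : Fin m, l ≠ k → t - x l ≠ 0 ∧ t - (x l + d) ≠ 0) :
    (Px x d Q R g g' b τ).eval t = (Wr x d k).eval t *
      ((t - x k) * (t - (x k + d)) * (b * Q.eval t + R.eval t + τ * Q.eval t * far x d g g' k t) +
        τ * Q.eval t * (g k * (t - (x k + d)) + g' k * (t - x k))) := by
  have hW := eval_WW (x := x) (d := d) k t
  have h1 : ∑ l ∈ Finset.univ.erase k, (Wr x d l).eval t *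
      (g l * (t - (x l + d)) + g' l * (t - x l)) =
      (Wr x d k).eval t * ((t - x k) * (t - (x k + d))) * far x d g g' k t := by
    unfold far
    rw [Finset.mul_sum]
    refine Finset.sum_congr rfl fun l hl => ?_
    have hl' := h l (Finset.mem_erase.mp hl).1
    have hWl := eval_WW (x := x) (d := d) l t
    have e : (Wr x d k).eval t * ((t - x k) * (t - (x k + d))) =
        (t - x l) * (t - (x l + d)) * (Wr x d l).eval t := by
      rw [← hWl, hW]; ring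
    rw [e]
    have h1 := hl'.1
    have h2 := hl'.2
    field_simp
  unfold Px Zx
  simp only [eval_add, eval_mul, eval_C, eval_sub, eval_X, eval_finsetSum]
  rw [← Finset.add_sum_erase _ _ (Finset.mem_univ k), h1, hW]
  ring

theorem taskLe2 : TaskLe2 := by
  intro m x d ℓ G A ε s Q R g g' ζ ζ1 ζ2 h b τ k hτ0 hτ hφ
  have hℓ := h.hℓ
  have hℓ1 := h.hℓ1
  have hd0 := h.hd0
  have hd := h.hd
  have hε := h.hε
  have hA := h.hA
  set J := Icc (x k - ℓ) (x k + ℓ) with hJ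
  have hne : ∀ t ∈ J, ∀ l : Fin m, l ≠ k → t - x l ≠ 0 ∧ t - (x l + d) ≠ 0 := by
    intro t ht l hl
    obtain ⟨h1, h2⟩ := dist_bd h k ht l hl
    constructor
    · intro h0; rw [h0, abs_zero] at h1; linarith
    · intro h0; rw [h0, abs_zero] at h2; linarith
  let q : ℝ → ℝ := fun t => (t - x k) * (t - (x k + d))
  let q1 : ℝ → ℝ := fun t => (t - x k) + (t - (x k + d))
  let Φ : ℝ → ℝ := fun t => b + ζ t + τ * far x d g g' k t
  let Φ1 : ℝ → ℝ := fun t => ζ1 t + τ * far1 x d g g' k t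
  let Φ2 : ℝ → ℝ := fun t => ζ2 t + τ * far2 x d g g' k t
  let T : ℝ → ℝ := fun t => q t * Φ t + τ * (g k * (t - (x k + d)) + g' k * (t - x k))
  let T1 : ℝ → ℝ := fun t => q1 t * Φ t + q t * Φ1 t + τ * (g k + g' k)
  let T2 : ℝ → ℝ := fun t => 2 * Φ t + 2 * q1 t * Φ1 t + q t * Φ2 t
  have hq : ∀ t, HasDerivAt q (q1 t) t := by
    intro t
    have h1 := ((hasDerivAt_id t).sub_const (x k)).mul ((hasDerivAt_id t).sub_const (x k + d))
    exact h1.congr_deriv (by simp only [q1, id_eq]; ring)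
  have hq1 : ∀ t, HasDerivAt q1 2 t := by
    intro t
    have h1 := ((hasDerivAt_id t).sub_const (x k)).add ((hasDerivAt_id t).sub_const (x k + d))
    exact h1.congr_deriv (by norm_num)
  have hlin : ∀ t, HasDerivAt (fun t => g k * (t - (x k + d)) + g' k * (t - x k)) (g k + g' k) t := by
    intro t
    have h1 := (((hasDerivAt_id t).sub_const (x k + d)).const_mul (g k)).add
      (((hasDerivAt_id t).sub_const (x k)).const_mul (g' k))
    exact h1.congr_deriv (by ring)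
  have hΦ : ∀ t ∈ J, HasDerivAt Φ (Φ1 t) t := by
    intro t ht
    have h1 := ((h.hζ k t ht).1.const_add b).add
      ((far_hasDeriv (g := g) (g' := g') k (hne t ht)).1.const_mul τ)
    exact h1
  have hΦ1 : ∀ t ∈ J, HasDerivAt Φ1 (Φ2 t) t := by
    intro t ht
    have h1 := (h.hζ k t ht).2.1.add
      ((far_hasDeriv (g := g) (g' := g') k (hne t ht)).2.const_mul τ)
    exact h1
  have hT : ∀ t ∈ J, HasDerivAt T (T1 t) t := by
    intro t ht
    have h1 := ((hq t).mul (hΦ t ht)).add ((hlin t).const_mul τ)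
    exact h1
  have hT1 : ∀ t ∈ J, HasDerivAt T1 (T2 t) t := by
    intro t ht
    have h1 := (((hq1 t).mul (hΦ t ht)).add ((hq t).mul (hΦ1 t ht))).add_const (τ * (g k + g' k))
    exact h1.congr_deriv (by simp only [T2]; ring)
  -- estimates
  have hmid : x k ∈ J := ⟨by linarith, by linarith⟩
  have hζd : ∀ t ∈ J, |ζ t - ζ (x k)| ≤ A * ℓ := by
    intro t ht
    have h1 := (convex_Icc (x k - ℓ) (x k + ℓ)).norm_image_sub_le_of_norm_hasDerivWithin_le
      (f := ζ) (f' := ζ1) (C := A) (fun u hu => (h.hζ k u hu).1.hasDerivWithinAt)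
      (fun u hu => (h.hζ k u hu).2.2.1) hmid ht
    rw [Real.norm_eq_abs, Real.norm_eq_abs] at h1
    have h2 : |t - x k| ≤ ℓ := abs_le.mpr ⟨by linarith [ht.1], by linarith [ht.2]⟩
    exact h1.trans (by gcongr)
  have hAℓ : A * ℓ ≤ ε / 100 := by linarith [h.hℓA, mul_comm ℓ A]
  have hest : ∀ t ∈ J, |Φ t - (b + ζ (x k))| ≤ ε / 50 ∧ |2 * q1 t * Φ1 t| ≤ ε / 10 ∧
      |q t * Φ2 t| ≤ ε / 10 := by
    intro t ht
    obtain ⟨f0, f1, f2⟩ := far_bounds h k ht hτ0 hτ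
    obtain ⟨-, -, z1, z2⟩ := h.hζ k t ht
    have hz := hζd t ht
    have h2 : |t - x k| ≤ ℓ := abs_le.mpr ⟨by linarith [ht.1], by linarith [ht.2]⟩
    have h3 : |t - (x k + d)| ≤ 2 * ℓ :=
      abs_le.mpr ⟨by linarith [ht.1], by linarith [ht.2]⟩
    refine ⟨?_, ?_, ?_⟩
    · have e : Φ t - (b + ζ (x k)) = (ζ t - ζ (x k)) + τ * far x d g g' k t := by
        simp only [Φ]; ring
      rw [e]
      refine (abs_add_le _ _).trans ?_
      linarith
    · have hq1b : |q1 t| ≤ 3 * ℓ := (abs_add_le _ _).trans (by linarith)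
      have hΦ1b : |Φ1 t| ≤ A + ε / 100 := (abs_add_le _ _).trans (by linarith)
      rw [abs_mul, abs_mul, abs_two]
      calc 2 * |q1 t| * |Φ1 t| ≤ 2 * (3 * ℓ) * (A + ε / 100) := by gcongr
        _ = 6 * (A * ℓ) + 6 / 100 * (ℓ * ε) := by ring
        _ ≤ 6 * (ε / 100) + 6 / 100 * (1 / 1000 * ε) := by gcongr
        _ ≤ ε / 10 := by linarith
    · have hqb : |q t| ≤ ℓ * (2 * ℓ) := by
        simp only [q]
        rw [abs_mul]
        gcongr
      have hΦ2b : |Φ2 t| ≤ A + ε / 100 := (abs_add_le _ _).trans (by linarith)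
      rw [abs_mul]
      calc |q t| * |Φ2 t| ≤ (ℓ * (2 * ℓ)) * (A + ε / 100) := by gcongr
        _ = 2 * ℓ * (A * ℓ) + 2 / 100 * (ℓ * ℓ * ε) := by ring
        _ ≤ 2 * (1 / 1000) * (ε / 100) + 2 / 100 * (1 / 1000 * (1 / 1000) * ε) := by gcongr
        _ ≤ ε / 10 := by linarith
  -- roots
  unfold zx
  have hroot : ∀ t ∈ (Px x d Q R g g' b τ).roots.toFinset.filter
      (fun t => t ∈ Icc (x k - ℓ) (x k + ℓ)), t ∈ J ∧ T t = 0 := by
    intro t ht
    obtain ⟨h1, h2⟩ := Finset.mem_filter.mp ht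
    refine ⟨h2, ?_⟩
    have h3 : (Px x d Q R g g' b τ).eval t = 0 :=
      (Polynomial.mem_roots'.mp (Multiset.mem_toFinset.mp h1)).2
    have h4 := eval_Px (Q := Q) (R := R) (g := g) (g' := g') (b := b) (τ := τ) k (hne t h2)
    rw [h3, h.hRζ k t h2] at h4
    have hQ := h.hQ0 k t h2
    have hW := eval_Wr_ne (x := x) (d := d) k (hne t h2)
    have h5 : (Wr x d k).eval t * (Q.eval t * T t) = 0 := by
      rw [h4]; simp only [T, q, Φ]; ring
    rcases mul_eq_zero.mp h5 with h6 | h6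
    · exact absurd h6 hW
    · rcases mul_eq_zero.mp h6 with h7 | h7
      · exact absurd h7 hQ
      · exact h7
  rcases le_total 0 (b + ζ (x k)) with hs | hs
  · rw [abs_of_nonneg hs] at hφ
    refine card_le_two ordConnected_Icc T T1 T2 hT hT1 ?_ _ hroot
    intro t ht
    obtain ⟨e1, e2, e3⟩ := hest t ht
    have e1' := (abs_le.mp e1).1
    have e2' := (abs_le.mp e2).1
    have e3' := (abs_le.mp e3).1
    show 0 < 2 * Φ t + 2 * q1 t * Φ1 t + q t * Φ2 t
    linarith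
  · rw [abs_of_nonpos hs] at hφ
    refine card_le_two ordConnected_Icc (fun t => -T t) (fun t => -T1 t) (fun t => -T2 t)
      (fun t ht => (hT t ht).neg) (fun t ht => (hT1 t ht).neg) ?_ _
      (fun t ht => ⟨(hroot t ht).1, by rw [(hroot t ht).2, neg_zero]⟩)
    intro t ht
    obtain ⟨e1, e2, e3⟩ := hest t ht
    have e1' := (abs_le.mp e1).2
    have e2' := (abs_le.mp e2).2
    have e3' := (abs_le.mp e3).2
    show 0 < -(2 * Φ t + 2 * q1 t * Φ1 t + q t * Φ2 t)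
    linarith

end Pool.Agent.H727R4.CLT.Le2
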