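import Pool.Agent.H727R4.CLT.Stmts

set_option autoImplicit false
open MeasureTheory ProbabilityTheory Filter Topology Set Polynomial
open scoped ENNReal NNReal
open Pool.Agent.Helper553.Orth

namespace Pool.Agent.H727R4.CLT.ON

/-- The functional `p ↦ ∫ f W² p`. -/
noncomputable def LW (f : ℝ → ℝ) (hf : Integrable f m01) (W : ℝ[X]) : ℝ[X] →ₗ[ℝ] ℝ where
  toFun p := ∫ t, f t * (W * W * p).eval t ∂m01
  map_add' p q := by
    rw [← integral_add (integrable_mul_poly hf _) (integrable_mul_poly hf _)]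
    congr 1
    funext t
    rw [mul_add, eval_add, mul_add]
  map_smul' a p := by
    rw [RingHom.id_apply, smul_eq_mul, ← integral_const_mul]
    congr 1
    funext t
    rw [mul_smul_comm, eval_smul, smul_eq_mul]
    ring

theorem LW_apply (f : ℝ → ℝ) (hf : Integrable f m01) (W p q : ℝ[X]) :
    LW f hf W (p * q) = ∫ t, f t * (W * p * (W * q)).eval t ∂m01 := by
  have e : W * W * (p * q) = W * p * (W * q) := by ring
  show ∫ t, f t * (W * W * (p * q)).eval t ∂m01 = _
  rw [e]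

theorem posF {w : ℕ → ℝ} {M : ℕ} {c : ℕ → ℝ} {η : ℝ} {f : ℝ → ℝ} (h : Thin w M c η f)
    {W : ℝ[X]} (hW : W ≠ 0) : PosF (LW f h.hf W) := by
  intro p hp
  rw [LW_apply]
  have hWp : W * p ≠ 0 := mul_ne_zero hW hp
  have hint := integrable_mul_poly h.hf (W * p * (W * p))
  have hnn : 0 ≤ᵐ[m01] fun x => f x * (W * p * (W * p)).eval x := by
    filter_upwards [h.hf0] with x hx
    apply mul_nonneg hx
    rw [eval_mul]
    exact mul_self_nonneg _
  apply lt_of_le_of_ne (integral_nonneg_of_ae hnn)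
  intro h0
  have h1 := (integral_eq_zero_iff_of_nonneg_ae hnn hint).mp h0.symm
  have hfin : {x : ℝ | (W * p).eval x = 0}.Finite := by
    have : {x : ℝ | (W * p).eval x = 0} = {x | (W * p).IsRoot x} := rfl
    rw [this]
    exact (W * p).finite_setOfPred_isRoot hWp
  have hnull : ∀ᵐ x ∂m01, x ∉ {x : ℝ | (W * p).eval x = 0} := by
    have h2 : volume {x : ℝ | (W * p).eval x = 0} = 0 := hfin.measure_zero _
    exact ae_restrict_of_ae (measure_eq_zero_iff_ae_notMem.mp h2)
  have h2 : ∀ᵐ t ∂m01, t ∉ Icc (0 : ℝ) (1 / 4) := by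
    filter_upwards [h1, hnull, h.hlow] with x hx hx' hl hm
    have h3 : (W * p).eval x ≠ 0 := hx'
    have h4 : f x * (W * p * (W * p)).eval x = 0 := hx
    rw [eval_mul] at h4
    have h5 : η ≤ f x := hl hm
    have h6 : 0 < f x := lt_of_lt_of_le h.hη h5
    rcases mul_eq_zero.mp h4 with h7 | h7
    · exact h6.ne' h7
    · exact mul_self_ne_zero.mpr h3 h7
  have h3 : m01 (Icc (0 : ℝ) (1 / 4)) = 0 := measure_eq_zero_iff_ae_notMem.mpr h2
  have h4 : Icc (0 : ℝ) (1 / 4) ∩ Icc (0 : ℝ) 1 = Icc (0 : ℝ) (1 / 4) :=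
    inter_eq_left.mpr (Icc_subset_Icc le_rfl (by norm_num))
  unfold m01 at h3
  rw [Measure.restrict_apply measurableSet_Icc, h4, Real.volume_Icc,
    ENNReal.ofReal_eq_zero] at h3
  norm_num at h3

theorem taskON : TaskON := by
  intro w M c η f h W hW
  set L := LW f h.hf W with hL
  have hp : PosF L := posF h hW
  have hpos : ∀ k, 0 < L (oq L k * oq L k) := fun k => hp _ (oq_monic L k).1.ne_zero
  refine ⟨fun k => C (√(L (oq L k * oq L k)))⁻¹ * oq L k, ?_, ?_⟩
  · intro k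
    have h0 : 0 < (√(L (oq L k * oq L k)))⁻¹ := inv_pos.mpr (Real.sqrt_pos.mpr (hpos k))
    rw [natDegree_C_mul h0.ne']
    exact (oq_monic L k).2
  · intro j k
    rw [← LW_apply f h.hf W, ← hL]
    have e : C (√(L (oq L j * oq L j)))⁻¹ * oq L j * (C (√(L (oq L k * oq L k)))⁻¹ * oq L k) =
        ((√(L (oq L j * oq L j)))⁻¹ * (√(L (oq L k * oq L k)))⁻¹) • (oq L j * oq L k) := by
      rw [smul_eq_C_mul, C_mul]
      ring
    rw [e, map_smul, smul_eq_mul]
    by_cases hjk : j = k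
    · rw [if_pos hjk, hjk, ← mul_inv, Real.mul_self_sqrt (hpos k).le, inv_mul_cancel₀ (hpos k).ne']
    · rw [if_neg hjk]
      rcases lt_or_gt_of_ne hjk with hlt | hlt
      · rw [mul_comm (oq L j) (oq L k), oq_orth L hp k j hlt, mul_zero]
      · rw [oq_orth L hp j k hlt, mul_zero]

end Pool.Agent.H727R4.CLT.ON

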