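import Pool.Agent.H727R4.CLT.Stmts

/-!
Task Pos of project H727-CLT (helper811): positions of the dipoles.
-/

set_option autoImplicit false

namespace Pool.Agent.H727R4.CLT.Pos

open Finset
open Pool.Agent.H727R4.CLT

theorem prod_ge (n : ℕ) : ∀ T : Finset ℤ, T.card = n → (0 : ℤ) ∉ T →
    (n.factorial : ℝ) ≤ 2 ^ n * ∏ t ∈ T, |(t : ℝ)| := by
  induction n with
  | zero =>
    intro T hT _
    rw [card_eq_zero] at hT
    subst hT
    simp
  | succ n ih =>
    intro T hT h0
    have hne : T.Nonempty := by rw [← card_pos]; omega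
    obtain ⟨a, haT, ha⟩ := exists_max_image T (fun t => |t|) hne
    have hcard : ((n : ℤ) + 1) ≤ 2 * |a| := by
      have hsub : T ⊆ (Icc (-|a|) |a|).erase 0 := by
        intro t ht
        rw [mem_erase, Finset.mem_Icc]
        refine ⟨fun h => h0 (h ▸ ht), ?_⟩
        exact abs_le.mp (ha t ht)
      have h1 := card_le_card hsub
      have ha0 := abs_nonneg a
      rw [card_erase_of_mem (by rw [Finset.mem_Icc]; constructor <;> linarith), Int.card_Icc, hT] at h1
      omega
    have h2 := ih (T.erase a) (by rw [card_erase_of_mem haT, hT]; rfl) (fun h => h0 (mem_of_mem_erase h))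
    rw [← mul_prod_erase T _ haT, Nat.factorial_succ]
    push_cast
    have h3 : ((n : ℝ) + 1) ≤ 2 * |(a : ℝ)| := by exact_mod_cast hcard
    calc ((n : ℝ) + 1) * n.factorial ≤ (2 * |(a : ℝ)|) * (2 ^ n * ∏ t ∈ T.erase a, |(t : ℝ)|) := by gcongr
      _ = _ := by ring

theorem num (n : ℕ) : (1 / 100 : ℝ) ^ (n + 1) * (16 * ((n : ℝ) + 1)) ^ n ≤ n.factorial := by
  have h1 := Real.pow_div_factorial_le_exp ((n : ℝ) + 1) (by positivity) (n + 1)
  have h2 : Real.exp ((n : ℝ) + 1) ≤ 3 ^ (n + 1) := by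
    have : Real.exp ((n : ℝ) + 1) = (Real.exp 1) ^ (n + 1) := by
      rw [← Real.exp_nat_mul]; push_cast; rw [mul_one]
    rw [this]
    apply pow_le_pow_left₀ (Real.exp_pos _).le
    have := Real.exp_one_lt_d9
    linarith
  have hf : (0 : ℝ) < (n + 1).factorial := by positivity
  have h3 : ((n : ℝ) + 1) ^ (n + 1) ≤ 3 ^ (n + 1) * (n + 1).factorial := by
    rw [div_le_iff₀ hf] at h1
    exact h1.trans (mul_le_mul_of_nonneg_right h2 hf.le)
  have h4 : ((n : ℝ) + 1) ^ n ≤ 3 ^ (n + 1) * n.factorial := by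
    rw [Nat.factorial_succ] at h3
    push_cast at h3
    have h5 : (0 : ℝ) < (n : ℝ) + 1 := by positivity
    have h6 : ((n : ℝ) + 1) ^ n * ((n : ℝ) + 1) ≤ (3 ^ (n + 1) * n.factorial) * ((n : ℝ) + 1) := by
      calc _ = ((n : ℝ) + 1) ^ (n + 1) := by ring
        _ ≤ _ := h3
        _ = _ := by ring
    exact le_of_mul_le_mul_right h6 h5
  have h7 : (1 / 100 : ℝ) ^ (n + 1) * 16 ^ n * 3 ^ (n + 1) ≤ 1 := by
    have e : (1 / 100 : ℝ) ^ (n + 1) * 16 ^ n * 3 ^ (n + 1) = (3 / 100) * (48 / 100) ^ n := by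
      rw [pow_succ, pow_succ]
      have : (48 / 100 : ℝ) = (1 / 100) * 16 * 3 := by norm_num
      rw [this, mul_pow, mul_pow]
      ring
    rw [e]
    have : (48 / 100 : ℝ) ^ n ≤ 1 := pow_le_one₀ (by norm_num) (by norm_num)
    nlinarith
  calc (1 / 100 : ℝ) ^ (n + 1) * (16 * ((n : ℝ) + 1)) ^ n
      = (1 / 100 : ℝ) ^ (n + 1) * 16 ^ n * ((n : ℝ) + 1) ^ n := by rw [mul_pow]; ring
    _ ≤ (1 / 100 : ℝ) ^ (n + 1) * 16 ^ n * (3 ^ (n + 1) * n.factorial) := by gcongr
    _ = ((1 / 100 : ℝ) ^ (n + 1) * 16 ^ n * 3 ^ (n + 1)) * n.factorial := by ring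
    _ ≤ 1 * n.factorial := by gcongr
    _ = _ := one_mul _

/-- number of grid points in an interval -/
theorem count_le (B : Finset ℕ) (h a b : ℝ) (hh : 0 < h) (hab : a ≤ b)
    (hB : ∀ j ∈ B, a < h * j ∧ h * j < b) : (B.card : ℝ) ≤ (b - a) / h + 1 := by
  rcases B.eq_empty_or_nonempty with rfl | hne
  · simp only [card_empty, Nat.cast_zero]
    have : 0 ≤ (b - a) / h := div_nonneg (by linarith) hh.le
    linarith
  · have hsub : B ⊆ Icc (B.min' hne) (B.max' hne) := by
      intro j hj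
      rw [Finset.mem_Icc]
      exact ⟨min'_le _ _ hj, le_max' _ _ hj⟩
    have h1 := card_le_card hsub
    rw [Nat.card_Icc] at h1
    have h2 : B.min' hne ≤ B.max' hne := min'_le _ _ (max'_mem _ _)
    have h3 : (B.card : ℝ) ≤ (B.max' hne : ℝ) - (B.min' hne : ℝ) + 1 := by
      have : B.card + B.min' hne ≤ B.max' hne + 1 := by omega
      have : ((B.card + B.min' hne : ℕ) : ℝ) ≤ ((B.max' hne + 1 : ℕ) : ℝ) := by exact_mod_cast this
      push_cast at this
      linarith
    have h4 := (hB _ (min'_mem B hne)).1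
    have h5 := (hB _ (max'_mem B hne)).2
    have h6 : ((B.max' hne : ℝ) - (B.min' hne : ℝ)) ≤ (b - a) / h := by
      rw [le_div_iff₀ hh]
      nlinarith
    linarith

theorem taskPos : TaskPos := by
  classical
  intro w hw M c
  refine ⟨2 * M + 1, ?_⟩
  intro m hm
  have hm1 : 1 ≤ m := by omega
  have hmR : (0 : ℝ) < m := by exact_mod_cast hm1
  obtain ⟨g, hg⟩ : ∃ g : ℕ → ℝ, ∀ j, g j = 5 / 8 + j / (8 * m) := ⟨fun j => 5 / 8 + j / (8 * m), fun _ => rfl⟩
  -- bad sets
  obtain ⟨B, hBdef⟩ : ∃ B : ℕ → Finset ℕ, ∀ i, B i = (range (2 * m + 1)).filter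
      (fun j => c i - 2 * dd i < g j ∧ g j < c i + w i + 2 * dd i) := ⟨_, fun _ => rfl⟩
  have hdd : ∀ i, 0 < dd i := fun i => by unfold dd; positivity
  have hBcard : ∀ i, ((B i).card : ℝ) ≤ 40 * m * dd i + 1 := by
    intro i
    have h1 := count_le (B i) (1 / (8 * m)) (c i - 2 * dd i - 5 / 8) (c i + w i + 2 * dd i - 5 / 8)
      (by positivity) (by have := hdd i; have := (hw i).1; linarith) (by
        intro j hj
        rw [hBdef, mem_filter, hg] at hj
        have e : 1 / (8 * (m : ℝ)) * j = j / (8 * m) := by ring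
        rw [e]
        constructor
        · linarith [hj.2.1]
        · linarith [hj.2.2])
    have h2 : (c i + w i + 2 * dd i - 5 / 8 - (c i - 2 * dd i - 5 / 8)) / (1 / (8 * (m : ℝ))) =
        8 * m * (w i + 4 * dd i) := by
      field_simp; ring
    rw [h2] at h1
    have h3 : 8 * (m : ℝ) * (w i + 4 * dd i) ≤ 8 * m * (5 * dd i) := by
      apply mul_le_mul_of_nonneg_left _ (by positivity)
      linarith [(hw i).2]
    linarith
  obtain ⟨G, hGdef⟩ : ∃ G : Finset ℕ, G = (range (2 * m + 1)) \ (range M).biUnion B := ⟨_, rfl⟩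
  have hbad : (((range M).biUnion B).card : ℝ) < m := by
    have h1 : (((range M).biUnion B).card : ℝ) ≤ ∑ i ∈ range M, ((B i).card : ℝ) := by
      exact_mod_cast card_biUnion_le
    have h2 : ∑ i ∈ range M, ((B i).card : ℝ) ≤ ∑ i ∈ range M, (40 * m * dd i + 1) :=
      sum_le_sum fun i _ => hBcard i
    have h3 : ∑ i ∈ range M, (40 * (m : ℝ) * dd i + 1) = 40 * m * ((1 / 2) ^ 12 * ∑ i ∈ range M, (1 / 2 : ℝ) ^ i) + M := by
      rw [sum_add_distrib, ← mul_sum, sum_const, card_range, nsmul_eq_mul, mul_one]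
      congr 2
      rw [mul_sum]
      apply sum_congr rfl
      intro i _
      unfold dd
      rw [pow_add]; ring
    have h4 := sum_geometric_two_le M
    have h5 : (M : ℝ) ≤ m / 2 := by
      have : ((2 * M + 1 : ℕ) : ℝ) ≤ m := by exact_mod_cast hm
      push_cast at this
      linarith
    have h6 : 40 * (m : ℝ) * ((1 / 2) ^ 12 * ∑ i ∈ range M, (1 / 2 : ℝ) ^ i) ≤ 40 * m * ((1 / 2) ^ 12 * 2) := by
      gcongr
    have h7 : 40 * (m : ℝ) * ((1 / 2) ^ 12 * 2) = m * (80 / 4096) := by norm_num; ring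
    rw [h7] at h6
    linarith
  have hGcard : m ≤ G.card := by
    have h1 : (range (2 * m + 1)).card - ((range M).biUnion B).card ≤ G.card := by
      rw [hGdef]; exact le_card_sdiff _ _
    rw [card_range] at h1
    have h2 : ((range M).biUnion B).card < m := by exact_mod_cast hbad
    omega
  obtain ⟨G', hG'G, hG'card⟩ := exists_subset_card_eq hGcard
  let e : Fin m ≃ G' := (G'.equivFinOfCardEq hG'card).symm
  have hinj : ∀ k l : Fin m, k ≠ l → ((e k : ℕ) : ℤ) - ((e l : ℕ) : ℤ) ≠ 0 := by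
    intro k l hkl h
    apply hkl
    apply e.injective
    apply Subtype.ext
    omega
  have hxx : ∀ k l : Fin m, g (e k) - g (e l) = ((((e k : ℕ) : ℤ) - ((e l : ℕ) : ℤ) : ℤ) : ℝ) / (8 * m) := by
    intro k l
    rw [hg, hg]
    push_cast
    ring
  refine ⟨fun k => g (e k), ?_, ?_, ?_, ?_⟩
  · intro k
    have hk : (e k : ℕ) ∈ G := hG'G (e k).2
    rw [hGdef, mem_sdiff, mem_range] at hk
    have h1 : ((e k : ℕ) : ℝ) ≤ 2 * m := by
      have : (e k : ℕ) ≤ 2 * m := by omega
      exact_mod_cast this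
    have h2 : ((e k : ℕ) : ℝ) / (8 * m) ≤ 1 / 4 := by
      rw [div_le_iff₀ (by positivity)]; linarith
    have h3 : 0 ≤ ((e k : ℕ) : ℝ) / (8 * m) := by positivity
    simp only [hg, Set.mem_Icc]
    constructor <;> linarith
  · intro k i hi
    have hk : (e k : ℕ) ∈ G := hG'G (e k).2
    rw [hGdef, mem_sdiff] at hk
    have h1 : (e k : ℕ) ∉ B i := fun h => hk.2 (mem_biUnion.mpr ⟨i, mem_range.mpr hi, h⟩)
    rw [hBdef, mem_filter] at h1
    push Not at h1
    have h2 := h1 hk.1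
    by_cases h3 : c i - 2 * dd i < g (e k)
    · exact Or.inr (h2 h3)
    · exact Or.inl (not_lt.mp h3)
  · intro k l hkl
    beta_reduce
    rw [hxx, abs_div, abs_of_pos (show (0 : ℝ) < 8 * m by positivity)]
    apply div_le_div_of_nonneg_right _ (by positivity)
    have := Int.one_le_abs (hinj k l hkl)
    exact_mod_cast this
  · intro k
    beta_reduce
    obtain ⟨n, rfl⟩ : ∃ n, m = n + 1 := ⟨m - 1, by omega⟩
    have h1 : ∏ l ∈ univ.erase k, |g (e k) - g (e l)| =
        (∏ l ∈ univ.erase k, |((((e k : ℕ) : ℤ) - ((e l : ℕ) : ℤ) : ℤ) : ℝ)|) / (8 * ((n + 1 : ℕ) : ℝ)) ^ n := by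
      have : (8 * ((n + 1 : ℕ) : ℝ)) ^ n = ∏ l ∈ (univ : Finset (Fin (n + 1))).erase k, (8 * ((n + 1 : ℕ) : ℝ)) := by
        rw [prod_const, card_erase_of_mem (mem_univ _), card_univ, Fintype.card_fin]
        rfl
      rw [this, ← prod_div_distrib]
      apply prod_congr rfl
      intro l _
      rw [hxx, abs_div, abs_of_pos (show (0 : ℝ) < 8 * ((n + 1 : ℕ) : ℝ) by positivity)]
    rw [h1, le_div_iff₀ (by positivity)]
    have h2 := prod_ge n ((univ.erase k).image (fun l => ((e k : ℕ) : ℤ) - ((e l : ℕ) : ℤ))) (by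
      rw [card_image_of_injOn, card_erase_of_mem (mem_univ _), card_univ, Fintype.card_fin]
      · rfl
      · intro l _ l' _ h
        apply e.injective
        apply Subtype.ext
        simp only at h
        omega) (by
      intro h
      obtain ⟨l, hl, h0⟩ := mem_image.mp h
      exact hinj k l (fun h => (mem_erase.mp hl).1 h.symm) h0)
    rw [prod_image (by
        intro l _ l' _ h
        apply e.injective
        apply Subtype.ext
        simp only at h
        omega)] at h2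
    have h3 := num n
    have h4 : (1 / 100 : ℝ) ^ (n + 1) * (8 * ((n + 1 : ℕ) : ℝ)) ^ n * 2 ^ n ≤ n.factorial := by
      calc _ = (1 / 100 : ℝ) ^ (n + 1) * (16 * ((n : ℝ) + 1)) ^ n := by
            have : (16 * ((n : ℝ) + 1)) = (8 * ((n + 1 : ℕ) : ℝ)) * 2 := by push_cast; ring
            rw [this, mul_pow _ 2]; ring
        _ ≤ _ := h3
    have h5 : (0 : ℝ) < 2 ^ n := by positivity
    have h6 := h4.trans h2
    rw [mul_comm ((2 : ℝ) ^ n)] at h6
    exact le_of_mul_le_mul_right h6 h5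

end Pool.Agent.H727R4.CLT.Pos
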