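import Pool.Agent.H727R4.CLT.Stmts
set_option autoImplicit false
open MeasureTheory Filter Topology Set Polynomial

namespace Pool.Agent.H727R4.CLT.Remez

theorem prod_dist (N j : ℕ) (hj : j ≤ N) :
    ∏ i ∈ (Finset.range (N + 1)).erase j, |(j : ℝ) - i| = (j.factorial : ℝ) * (N - j).factorial := by
  have h1 : ∏ i ∈ (Finset.range (N + 1)).erase j, |(j : ℝ) - i| =
      ∏ i ∈ Finset.range (N + 1), (if i = j then (1 : ℝ) else |(j : ℝ) - i|) := by
    rw [← Finset.mul_prod_erase (Finset.range (N + 1))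
      (fun i : ℕ => if i = j then (1 : ℝ) else |(j : ℝ) - i|) (Finset.mem_range.2 (by omega : j < N + 1))]
    simp only [if_true, one_mul]
    refine Finset.prod_congr rfl fun i hi => ?_
    rw [if_neg (Finset.ne_of_mem_erase hi)]
  rw [h1]
  obtain ⟨k, rfl⟩ : ∃ k, N = j + k := ⟨N - j, by omega⟩
  rw [show j + k + 1 = j + (k + 1) by ring, Finset.prod_range_add, Finset.prod_range_succ']
  have h2 : ∏ i ∈ Finset.range j, (if i = j then (1 : ℝ) else |(j : ℝ) - i|) = j.factorial := by
    rw [← Finset.prod_range_reflect, ← Finset.prod_range_add_one_eq_factorial]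
    push_cast
    refine Finset.prod_congr rfl fun i hi => ?_
    rw [Finset.mem_range] at hi
    rw [if_neg (by omega)]
    have h3 : ((j - 1 - i : ℕ) : ℝ) = j - 1 - i := by
      rw [Nat.cast_sub (by omega), Nat.cast_sub (by omega)]
      simp
    rw [h3]
    rw [show (j : ℝ) - (j - 1 - i) = i + 1 by ring]
    exact abs_of_nonneg (by positivity)
  have h4 : ∏ i ∈ Finset.range k, (if j + (i + 1) = j then (1 : ℝ) else
      |(j : ℝ) - ((j + (i + 1) : ℕ) : ℝ)|) = k.factorial := by
    rw [← Finset.prod_range_add_one_eq_factorial]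
    push_cast
    refine Finset.prod_congr rfl fun i hi => ?_
    rw [if_neg (by omega)]
    rw [show (j : ℝ) - (j + (i + 1)) = -(i + 1) by ring, abs_neg]
    exact abs_of_nonneg (by positivity)
  rw [h2, h4]
  simp

theorem basis_bound (N j : ℕ) (hj : j ≤ N) (u x : ℝ) (hu : u ∈ Icc (0 : ℝ) 1)
    (hx : x ∈ Icc (0 : ℝ) 1) :
    |(Lagrange.basis (Finset.range (N + 1)) (fun i : ℕ => ((i : ℝ) + u) / (8 * (N + 1))) j).eval x| ≤
      48 ^ (N + 1) := by
  have hM : (0 : ℝ) < 8 * (N + 1) := by positivity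
  rw [Lagrange.basis, eval_prod, Finset.abs_prod]
  have h1 : ∀ i ∈ (Finset.range (N + 1)).erase j,
      |eval x (Lagrange.basisDivisor (((j : ℝ) + u) / (8 * (N + 1)))
        (((i : ℝ) + u) / (8 * (N + 1))))| ≤ 8 * (N + 1) * |(j : ℝ) - i|⁻¹ := by
    intro i hi
    have hi' := Finset.mem_erase.1 hi
    have hiN : i < N + 1 := Finset.mem_range.1 hi'.2
    rw [Lagrange.basisDivisor, eval_mul, eval_C, eval_sub, eval_X, eval_C, abs_mul, abs_inv]
    have e1 : ((j : ℝ) + u) / (8 * (N + 1)) - ((i : ℝ) + u) / (8 * (N + 1)) =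
        ((j : ℝ) - i) / (8 * (N + 1)) := by ring
    rw [e1, abs_div, abs_of_pos hM, inv_div]
    have h2 : 0 ≤ ((i : ℝ) + u) / (8 * (N + 1)) := by
      have := hu.1
      positivity
    have h3 : ((i : ℝ) + u) / (8 * (N + 1)) ≤ 1 := by
      rw [div_le_one hM]
      have h4 : (i : ℝ) + 1 ≤ N + 1 := by exact_mod_cast hiN
      have := hu.2
      linarith
    have h5 : |x - ((i : ℝ) + u) / (8 * (N + 1))| ≤ 1 := by
      rw [abs_le]
      constructor <;> linarith [hx.1, hx.2]
    calc 8 * (N + 1) / |(j : ℝ) - i| * |x - ((i : ℝ) + u) / (8 * (N + 1))|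
        ≤ 8 * (N + 1) / |(j : ℝ) - i| * 1 := by
          refine mul_le_mul_of_nonneg_left h5 (by positivity)
      _ = _ := by rw [mul_one, div_eq_mul_inv]
  refine (Finset.prod_le_prod (fun i _ => abs_nonneg _) h1).trans ?_
  rw [Finset.prod_mul_distrib, Finset.prod_const, Finset.card_erase_of_mem
    (Finset.mem_range.2 (by omega)), Finset.card_range, Finset.prod_inv_distrib, prod_dist N j hj]
  simp only [Nat.add_sub_cancel]
  -- (8 (N+1))^N / (j! (N-j)!) ≤ 48^(N+1)
  have hch : (N.choose j : ℝ) * (j.factorial * (N - j).factorial) = N.factorial := by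
    have := Nat.choose_mul_factorial_mul_factorial hj
    rw [← mul_assoc]
    exact_mod_cast this
  have hch2 : (N.choose j : ℝ) ≤ 2 ^ N := by
    exact_mod_cast Nat.choose_le_two_pow N j
  have hfpos : (0 : ℝ) < (j.factorial : ℝ) * (N - j).factorial := by positivity
  have hNf : (0 : ℝ) < N.factorial := by positivity
  have h6 : ((j.factorial : ℝ) * (N - j).factorial)⁻¹ ≤ 2 ^ N / N.factorial := by
    rw [inv_eq_one_div, div_le_div_iff₀ hfpos hNf, one_mul, ← hch]
    exact mul_le_mul_of_nonneg_right hch2 hfpos.le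
  have h7 : ((N : ℝ) + 1) ^ (N + 1) / ((N + 1).factorial : ℝ) ≤ Real.exp (N + 1) :=
    Real.pow_div_factorial_le_exp _ (by positivity) _
  have h8 : ((N : ℝ) + 1) ^ (N + 1) / ((N + 1).factorial : ℝ) = ((N : ℝ) + 1) ^ N / N.factorial := by
    rw [Nat.factorial_succ]
    push_cast
    rw [pow_succ]
    field_simp
  have h9 : Real.exp (N + 1) ≤ 3 ^ (N + 1) := by
    have : Real.exp ((N : ℝ) + 1) = Real.exp 1 ^ (N + 1) := by
      rw [← Real.exp_nat_mul]
      push_cast
      ring_nf
    rw [this]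
    exact pow_le_pow_left₀ (Real.exp_pos 1).le (Real.exp_one_lt_d9.le.trans (by norm_num)) _
  calc (8 * ((N : ℝ) + 1)) ^ N * ((j.factorial : ℝ) * (N - j).factorial)⁻¹
      ≤ (8 * ((N : ℝ) + 1)) ^ N * (2 ^ N / N.factorial) :=
        mul_le_mul_of_nonneg_left h6 (by positivity)
    _ = 16 ^ N * (((N : ℝ) + 1) ^ N / N.factorial) := by
        rw [mul_pow, show (16 : ℝ) = 8 * 2 by norm_num, mul_pow 8 2 N]
        ring
    _ ≤ 16 ^ N * 3 ^ (N + 1) := by
        refine mul_le_mul_of_nonneg_left ?_ (by positivity)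
        rw [← h8]
        exact h7.trans h9
    _ ≤ 16 ^ (N + 1) * 3 ^ (N + 1) := by
        refine mul_le_mul_of_nonneg_right ?_ (by positivity)
        exact pow_le_pow_right₀ (by norm_num) (by omega)
    _ = 48 ^ (N + 1) := by
        rw [← mul_pow]
        norm_num

theorem remez_core : RemezK 73728 := by
  refine ⟨by norm_num, fun N R hR x hx => ?_⟩
  set M : ℝ := 8 * (N + 1) with hMdef
  have hM : 0 < M := by positivity
  -- pointwise inequality
  have hpt : ∀ u ∈ Icc (0 : ℝ) 1, (R.eval x) ^ 2 ≤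
      ((N : ℝ) + 1) * (48 ^ (N + 1)) ^ 2 *
        ∑ j ∈ Finset.range (N + 1), (R.eval (u / M + j / M)) ^ 2 := by
    intro u hu
    have hinj : Set.InjOn (fun i : ℕ => ((i : ℝ) + u) / (8 * (N + 1)))
        (Finset.range (N + 1) : Finset ℕ) := by
      intro a _ b _ hab
      simp only at hab
      have h1 := (div_left_inj' hM.ne').1 hab
      have h2 : (a : ℝ) = b := by linarith
      exact_mod_cast h2
    have hdeg : R.degree < (Finset.range (N + 1)).card := by
      rw [Finset.card_range]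
      refine (Polynomial.degree_le_natDegree).trans_lt ?_
      exact_mod_cast Nat.lt_succ_of_le hR
    have hint := Lagrange.eq_interpolate hinj hdeg
    have hev : R.eval x = ∑ j ∈ Finset.range (N + 1), R.eval (((j : ℝ) + u) / (8 * (N + 1))) *
        (Lagrange.basis (Finset.range (N + 1))
          (fun i : ℕ => ((i : ℝ) + u) / (8 * (N + 1))) j).eval x := by
      conv_lhs => rw [hint, Lagrange.interpolate_apply, eval_finsetSum]
      refine Finset.sum_congr rfl fun j _ => ?_
      rw [eval_mul, eval_C]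
    rw [hev]
    refine (Finset.sum_mul_sq_le_sq_mul_sq _ _ _).trans ?_
    have h1 : ∑ j ∈ Finset.range (N + 1), ((Lagrange.basis (Finset.range (N + 1))
          (fun i : ℕ => ((i : ℝ) + u) / (8 * (N + 1))) j).eval x) ^ 2 ≤
          ((N : ℝ) + 1) * (48 ^ (N + 1)) ^ 2 := by
      calc _ ≤ ∑ j ∈ Finset.range (N + 1), ((48 : ℝ) ^ (N + 1)) ^ 2 := by
            refine Finset.sum_le_sum fun j hj => ?_
            have hj' : j ≤ N := by
              have := Finset.mem_range.1 hj
              omega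
            rw [← sq_abs]
            exact pow_le_pow_left₀ (abs_nonneg _) (basis_bound N j hj' u x hu hx) 2
        _ = _ := by
            rw [Finset.sum_const, Finset.card_range, nsmul_eq_mul]
            push_cast
            ring
    have h2 : ∑ j ∈ Finset.range (N + 1), (R.eval (((j : ℝ) + u) / (8 * (N + 1)))) ^ 2 =
        ∑ j ∈ Finset.range (N + 1), (R.eval (u / M + j / M)) ^ 2 := by
      refine Finset.sum_congr rfl fun j _ => ?_
      rw [← hMdef, add_div, add_comm]
    rw [h2, mul_comm]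
    refine mul_le_mul_of_nonneg_right h1 (Finset.sum_nonneg fun _ _ => sq_nonneg _)
  -- integrate
  have hcont : Continuous (fun u : ℝ => (R.eval u) ^ 2) := R.continuous.pow 2
  have hcj : ∀ j : ℕ, Continuous (fun u : ℝ => (R.eval (u / M + j / M)) ^ 2) := fun j =>
    hcont.comp (by fun_prop)
  have hI : (R.eval x) ^ 2 ≤ ((N : ℝ) + 1) * (48 ^ (N + 1)) ^ 2 *
      ∑ j ∈ Finset.range (N + 1), ∫ u in (0 : ℝ)..1, (R.eval (u / M + j / M)) ^ 2 := by
    have h1 : ∫ u in (0 : ℝ)..1, (R.eval x) ^ 2 ≤ ∫ u in (0 : ℝ)..1,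
        ((N : ℝ) + 1) * (48 ^ (N + 1)) ^ 2 *
        ∑ j ∈ Finset.range (N + 1), (R.eval (u / M + j / M)) ^ 2 := by
      refine intervalIntegral.integral_mono_on (by norm_num) ?_ ?_ hpt
      · exact intervalIntegrable_const
      · refine Continuous.intervalIntegrable ?_ _ _
        exact continuous_const.mul (continuous_finsetSum _ fun j _ => hcj j)
    rw [intervalIntegral.integral_const, intervalIntegral.integral_const_mul,
      intervalIntegral.integral_finsetSum
        (fun j _ => (hcj j).intervalIntegrable _ _)] at h1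
    simpa using h1
  have hJ : ∀ j : ℕ, ∫ u in (0 : ℝ)..1, (R.eval (u / M + j / M)) ^ 2 =
      M * ∫ u in ((j : ℝ) / M)..(((j + 1 : ℕ) : ℝ) / M), (R.eval u) ^ 2 := by
    intro j
    rw [intervalIntegral.integral_comp_div_add (fun u => (R.eval u) ^ 2) hM.ne', smul_eq_mul]
    congr 2
    · ring
    · push_cast
      ring
  simp_rw [hJ] at hI
  rw [← Finset.mul_sum, intervalIntegral.sum_integral_adjacent_intervals
    (a := fun k : ℕ => (k : ℝ) / M) (fun k _ => hcont.intervalIntegrable _ _)] at hI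
  have e0 : ((0 : ℕ) : ℝ) / M = 0 := by simp
  have e1 : ((N + 1 : ℕ) : ℝ) / M = 1 / 8 := by
    rw [hMdef]
    push_cast
    field_simp
  rw [e0, e1] at hI
  have e2 : ∫ u in Icc (0 : ℝ) (1 / 8), (R.eval u) ^ 2 = ∫ u in (0 : ℝ)..(1 / 8), (R.eval u) ^ 2 := by
    rw [intervalIntegral.integral_of_le (by norm_num), integral_Icc_eq_integral_Ioc]
  rw [e2]
  set I : ℝ := ∫ u in (0 : ℝ)..(1 / 8), (R.eval u) ^ 2 with hIdef
  have hI0 : 0 ≤ I := intervalIntegral.integral_nonneg (by norm_num) fun u _ => sq_nonneg _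
  refine hI.trans ?_
  have h2 : ((N : ℝ) + 1) ≤ 2 ^ (N + 1) := by
    have := (Nat.lt_two_pow_self (n := N + 1)).le
    exact_mod_cast this
  have h8 : (8 : ℝ) ≤ 8 ^ (N + 1) := by
    calc (8 : ℝ) = 8 ^ 1 := by norm_num
      _ ≤ 8 ^ (N + 1) := pow_le_pow_right₀ (by norm_num) (by omega)
  calc ((N : ℝ) + 1) * (48 ^ (N + 1)) ^ 2 * (M * I)
      = (((N : ℝ) + 1) * ((N : ℝ) + 1) * 8 * (48 ^ (N + 1)) ^ 2) * I := by rw [hMdef]; ring
    _ ≤ (2 ^ (N + 1) * 2 ^ (N + 1) * 8 ^ (N + 1) * (48 ^ (N + 1)) ^ 2) * I := by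
        refine mul_le_mul_of_nonneg_right ?_ hI0
        gcongr
    _ = 73728 ^ (N + 1) * I := by
        congr 1
        rw [← pow_mul, mul_comm (N + 1) 2, pow_mul, ← mul_pow, ← mul_pow, ← mul_pow]
        norm_num

theorem taskRemez : TaskRemez := ⟨73728, remez_core⟩

end Pool.Agent.H727R4.CLT.Remez
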