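import Pool.Agent.H727R4.CLT.Stmts

/-!
# Project H727-CLT, task Trace
-/

set_option autoImplicit false
open Finset Module

namespace Pool.Agent.H727R4.CLT.Trace

theorem real_inner_eq_mul_aux (a b : ℝ) : inner ℝ a b = a * b := by
  simp [mul_comm]

theorem trace_aux (T l : ℕ) (A : Matrix (Fin T) (Fin T) ℝ) (L : (Fin T → ℝ) →ₗ[ℝ] (Fin l → ℝ))
    (ε : ℝ) (hε : 0 ≤ ε)
    (h1 : ∀ v : Fin T → ℝ, ∑ i, ∑ j, v i * v j * A i j ≤ ∑ i, v i ^ 2)
    (h2 : ∀ v : Fin T → ℝ, L v = 0 → ∑ i, ∑ j, v i * v j * A i j ≤ ε * ∑ i, v i ^ 2) :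
    ∑ i, A i i ≤ l + ε * T := by
  classical
  let E := EuclideanSpace ℝ (Fin T)
  let L' : E →ₗ[ℝ] (Fin l → ℝ) := L ∘ₗ (WithLp.linearEquiv 2 ℝ (Fin T → ℝ)).toLinearMap
  let V : Submodule ℝ E := LinearMap.ker L'
  have hr : finrank ℝ Vᗮ ≤ l := by
    have h3 := Submodule.finrank_add_finrank_orthogonal V
    have h4 := LinearMap.finrank_range_add_finrank_ker L'
    have h5 : finrank ℝ (LinearMap.range L') ≤ l := by
      have := Submodule.finrank_le (LinearMap.range L')
      simpa using this
    have h6 : finrank ℝ (LinearMap.ker L') = finrank ℝ V := rfl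
    omega
  have hrT : finrank ℝ Vᗮ ≤ T := by
    have h3 := Submodule.finrank_le Vᗮ
    simpa [E] using h3
  obtain ⟨r, hrdef⟩ : ∃ r, r = finrank ℝ Vᗮ := ⟨_, rfl⟩
  let c : OrthonormalBasis (Fin r) ℝ Vᗮ := (stdOrthonormalBasis ℝ Vᗮ).reindex (finCongr hrdef.symm)
  let v : Fin T → E := fun i => if h : (i : ℕ) < r then (c ⟨i, h⟩ : E) else 0
  let s : Set (Fin T) := {i | (i : ℕ) < r}
  have hv : Orthonormal ℝ (s.domRestrict v) := by
    have hc : Orthonormal ℝ (fun k : Fin r => (c k : E)) := by
      have := c.orthonormal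
      exact this.comp_linearIsometry Vᗮ.subtypeₗᵢ
    have hinj : Function.Injective (fun i : s => (⟨(i : Fin T), i.2⟩ : Fin r)) := by
      intro i j hij
      have := congrArg Fin.val hij
      exact Subtype.ext (Fin.ext this)
    have := hc.comp _ hinj
    convert this using 1
    funext i
    simp only [Set.domRestrict_apply, v, Function.comp]
    rw [dif_pos (show ((i : Fin T) : ℕ) < r from i.2)]
  obtain ⟨b, hb⟩ := hv.exists_orthonormalBasis_extension_of_card_eq (by simp [E])
  let q : E → ℝ := fun x => ∑ i, ∑ j, x i * x j * A i j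
  have hq : ∀ x : E, inner ℝ x (Matrix.toEuclideanLin A x) = q x := by
    intro x
    rw [PiLp.inner_apply]
    refine Finset.sum_congr rfl fun i _ => ?_
    have e : (Matrix.toEuclideanLin A x) i = ∑ j, A i j * x j := rfl
    rw [e, real_inner_eq_mul_aux, Finset.mul_sum]
    exact Finset.sum_congr rfl fun j _ => by ring
  have htr : ∑ i, A i i = ∑ i, q (b i) := by
    have e1 := LinearMap.trace_eq_sum_inner (Matrix.toEuclideanLin A) b
    have e2 := LinearMap.trace_eq_sum_inner (Matrix.toEuclideanLin A) (EuclideanSpace.basisFun (Fin T) ℝ)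
    rw [e1] at e2
    simp only [hq] at e2
    rw [e2]
    refine Finset.sum_congr rfl fun i _ => ?_
    simp [q, EuclideanSpace.basisFun_apply]
  have hnorm : ∀ x : E, ∑ i, x i ^ 2 = ‖x‖ ^ 2 := by
    intro x
    rw [EuclideanSpace.norm_sq_eq]
    simp
  have hb1 : ∀ i, (∑ k, (b i) k ^ 2) = 1 := by
    intro i
    rw [hnorm, b.orthonormal.1 i]; norm_num
  have hbig : ∀ i : Fin T, q (b i) ≤ (if (i : ℕ) < r then 1 else 0) + ε := by
    intro i
    by_cases hi : (i : ℕ) < r
    · rw [if_pos hi]
      have := h1 (b i)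
      rw [hb1] at this
      have h3 : q (b i) ≤ 1 := this
      linarith
    · rw [if_neg hi]
      have hmem : b i ∈ Vᗮᗮ := by
        rw [Submodule.mem_orthogonal]
        intro u hu
        have hu' : (⟨u, hu⟩ : Vᗮ) = ∑ k, c.repr ⟨u, hu⟩ k • c k := (c.sum_repr ⟨u, hu⟩).symm
        have hu2 : u = ∑ k, c.repr ⟨u, hu⟩ k • (c k : E) := by
          have := congrArg (Submodule.subtype Vᗮ) hu'
          simpa using this
        rw [hu2, sum_inner]
        refine Finset.sum_eq_zero fun k _ => ?_
        rw [inner_smul_left]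
        have hk : (k : ℕ) < T := by have := k.2; omega
        have hbk : b ⟨k, hk⟩ = (c k : E) := by
          have := hb ⟨k, hk⟩ (show (k : ℕ) < r from k.2)
          rw [this]
          simp only [v]
          rw [dif_pos k.2]
        rw [← hbk, b.orthonormal.2 (by intro h; apply hi; rw [← h]; exact k.2), mul_zero]
      rw [Submodule.orthogonal_orthogonal] at hmem
      have hL : L (b i) = 0 := hmem
      have := h2 (b i) hL
      rw [hb1] at this
      have h3 : q (b i) ≤ ε * 1 := this
      linarith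
  rw [htr]
  calc ∑ i, q (b i) ≤ ∑ i : Fin T, ((if (i : ℕ) < r then 1 else 0) + ε) := Finset.sum_le_sum fun i _ => hbig i
    _ = ((univ.filter (fun i : Fin T => (i : ℕ) < r)).card : ℝ) + T * ε := by
      rw [Finset.sum_add_distrib, Finset.sum_const, Finset.card_univ, Fintype.card_fin, nsmul_eq_mul,
        Finset.sum_boole]
    _ ≤ l + ε * T := by
      have h3 : (univ.filter (fun i : Fin T => (i : ℕ) < r)).card ≤ r := by
        have : (univ.filter (fun i : Fin T => (i : ℕ) < r)).card ≤ (range r).card := by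
          apply Finset.card_le_card_of_injOn (fun i : Fin T => (i : ℕ))
          · intro i hi
            simpa using hi
          · intro i _ j _ h
            exact Fin.ext h
        simpa using this
      have h4 : ((univ.filter (fun i : Fin T => (i : ℕ) < r)).card : ℝ) ≤ l := by
        exact_mod_cast h3.trans (hrdef ▸ hr)
      linarith

theorem taskTrace : TaskTrace := by
  intro T l A L ε hε _ _ h1 h2
  exact trace_aux T l A L ε hε h1 h2

end Pool.Agent.H727R4.CLT.Trace
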