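import Pool.Agent.H727R4.CLT.VarT

set_option autoImplicit false
open MeasureTheory ProbabilityTheory Filter Topology Set Polynomial
open scoped ENNReal NNReal
open Pool.Agent.Helper553.Orth

namespace Pool.Agent.H727R4.CLT.Var

/-- The polynomial part. -/
noncomputable def Ry {s m : ℕ} (q : ℕ → ℝ[X]) (y : Fin s ⊕ (Fin m ⊕ Fin m) → ℝ) : ℝ[X] :=
  ∑ j : Fin s, C (y (Sum.inl j)) * q j

theorem rp_fr {m : ℕ} (x : Fin m → ℝ) (d : ℝ) (s : ℕ) (q : ℕ → ℝ[X]) (τ b : ℝ)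
    (y : Fin s ⊕ (Fin m ⊕ Fin m) → ℝ) :
    rp (fr x d s q τ) (Sum.elim (fun _ : Unit => b) y) =
      Px x d (q s) (Ry q y) (fun k => y (Sum.inr (Sum.inl k))) (fun k => y (Sum.inr (Sum.inr k)))
        b τ := by
  have e1 : rp (fr x d s q τ) (Sum.elim (fun _ : Unit => b) y) =
      C b * (WW x d * q s) + (∑ j : Fin s, C (y (Sum.inl j)) * (WW x d * q j) +
        (∑ k : Fin m, C (y (Sum.inr (Sum.inl k))) *
            (C τ * (q s * (Wr x d k * (X - C (x k + d))))) +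
          ∑ k : Fin m, C (y (Sum.inr (Sum.inr k))) *
            (C τ * (q s * (Wr x d k * (X - C (x k))))))) := by
    unfold rp
    rw [Fintype.sum_sum_type, Fintype.sum_sum_type, Fintype.sum_sum_type, Fintype.sum_unique]
    rfl
  have e2 : WW x d * Ry q y =
      ∑ j : Fin s, C (y (Sum.inl j)) * (WW x d * q j) := by
    unfold Ry
    rw [Finset.mul_sum]
    apply Finset.sum_congr rfl
    intro j _
    ring
  have e3 : C τ * (q s * ∑ k : Fin m, Wr x d k * (C (y (Sum.inr (Sum.inl k))) * (X - C (x k + d)) +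
      C (y (Sum.inr (Sum.inr k))) * (X - C (x k)))) =
      ∑ k : Fin m, C (y (Sum.inr (Sum.inl k))) *
            (C τ * (q s * (Wr x d k * (X - C (x k + d))))) +
          ∑ k : Fin m, C (y (Sum.inr (Sum.inr k))) *
            (C τ * (q s * (Wr x d k * (X - C (x k))))) := by
    rw [Finset.mul_sum, Finset.mul_sum, ← Finset.sum_add_distrib]
    apply Finset.sum_congr rfl
    intro k _
    ring
  rw [e1]
  unfold Px Zx
  rw [e2, e3]

/-- Powers of the large parameter. -/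
structure Big (Λ : ℝ) (s m : ℕ) (pA pb : ℝ) : Prop where
  hs : 1 ≤ s
  hm : 1 ≤ m
  hΛ : (1000 + 16 / pA + 16 / pb) * (s + 2 * m) ≤ Λ

theorem Big.n3 {Λ : ℝ} {s m : ℕ} {pA pb : ℝ} (h : Big Λ s m pA pb) : (3 : ℝ) ≤ s + 2 * m := by
  have h1 : (1 : ℝ) ≤ s := by exact_mod_cast h.hs
  have h2 : (1 : ℝ) ≤ m := by exact_mod_cast h.hm
  linarith

theorem Big.k {Λ : ℝ} {s m : ℕ} {pA pb : ℝ} (h : Big Λ s m pA pb) (hA : 0 < pA) (hb : 0 < pb) :
    1000 * ((s : ℝ) + 2 * m) ≤ Λ := by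
  have h3 := h.n3
  have h1 : 0 < 16 / pA := by positivity
  have h2 : 0 < 16 / pb := by positivity
  have := h.hΛ
  nlinarith [mul_nonneg h1.le (by linarith : (0 : ℝ) ≤ s + 2 * m),
    mul_nonneg h2.le (by linarith : (0 : ℝ) ≤ s + 2 * m)]

theorem Big.b {Λ : ℝ} {s m : ℕ} {pA pb : ℝ} (h : Big Λ s m pA pb) (hA : 0 < pA) (hb : 0 < pb) :
    16 ≤ Λ * pb := by
  have h3 := h.n3
  have h1 : 0 < 16 / pA := by positivity
  have h2 : 0 < 16 / pb := by positivity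
  have h4 : 16 / pb ≤ Λ := by
    have := h.hΛ
    nlinarith [mul_nonneg h1.le (by linarith : (0 : ℝ) ≤ s + 2 * m)]
  rwa [div_le_iff₀ hb] at h4

theorem Big.a {Λ : ℝ} {s m : ℕ} {pA pb : ℝ} (h : Big Λ s m pA pb) (hA : 0 < pA) (hb : 0 < pb) :
    16 ≤ Λ * pA := by
  have h3 := h.n3
  have h1 : 0 < 16 / pA := by positivity
  have h2 : 0 < 16 / pb := by positivity
  have h4 : 16 / pA ≤ Λ := by
    have := h.hΛ
    nlinarith [mul_nonneg h2.le (by linarith : (0 : ℝ) ≤ s + 2 * m)]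
  rwa [div_le_iff₀ hA] at h4

/-- The hypotheses of the deterministic tasks. -/
theorem hx_of {Λ : ℝ} {s m : ℕ} {pA pb : ℝ} (h : Big Λ s m pA pb) (hA : 0 < pA) (hb : 0 < pb)
    {x : Fin m → ℝ} {q : ℕ → ℝ[X]} (hF : FX m x s (Λ ^ 8)⁻¹ Λ q)
    (y : Fin s ⊕ (Fin m ⊕ Fin m) → ℝ) (hy : ∀ i, |y i| ≤ Λ) :
    ∃ ζ ζ1 ζ2 : ℝ → ℝ, HX m x (Λ ^ 40)⁻¹ (Λ ^ 8)⁻¹ Λ (Λ ^ 3) (Λ ^ 3)⁻¹ s (q s) (Ry q y)
      (fun k => y (Sum.inr (Sum.inl k))) (fun k => y (Sum.inr (Sum.inr k))) ζ ζ1 ζ2 ∧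
      ∀ k, ζ (x k) = ∑ j : Fin s, ((q j).eval (x k) / (q s).eval (x k)) * y (Sum.inl j) := by
  obtain ⟨ζ, ζ1, ζ2, hζ⟩ := hF.hC2 (fun j => y (Sum.inl j))
  have h3 := h.n3
  have hk := h.k hA hb
  have hΛ3000 : 3000 ≤ Λ := by linarith
  have hΛ0 : 0 < Λ := by linarith
  have hs1 : (1 : ℝ) ≤ s := by exact_mod_cast h.hs
  have hm1 : (1 : ℝ) ≤ m := by exact_mod_cast h.hm
  have hsΛ : (s : ℝ) ≤ Λ := by linarith
  have hmΛ : (m : ℝ) ≤ Λ := by linarith
  have hℓ0 : (0 : ℝ) < (Λ ^ 8)⁻¹ := by positivity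
  have hsq : √(∑ j : Fin s, y (Sum.inl j) ^ 2) ≤ Λ ^ 2 := by
    rw [Real.sqrt_le_left (by positivity)]
    calc ∑ j : Fin s, y (Sum.inl j) ^ 2 ≤ ∑ _j : Fin s, Λ ^ 2 := by
          apply Finset.sum_le_sum
          intro j _
          rw [← sq_abs]
          exact pow_le_pow_left₀ (abs_nonneg _) (hy _) 2
      _ = s * Λ ^ 2 := by simp
      _ ≤ Λ ^ 2 * Λ ^ 2 := mul_le_mul_of_nonneg_right (by nlinarith) (by positivity)
      _ = (Λ ^ 2) ^ 2 := by ring
  have hA3 : Λ * √(∑ j : Fin s, y (Sum.inl j) ^ 2) ≤ Λ ^ 3 := by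
    calc Λ * √(∑ j : Fin s, y (Sum.inl j) ^ 2) ≤ Λ * Λ ^ 2 :=
          mul_le_mul_of_nonneg_left hsq hΛ0.le
      _ = Λ ^ 3 := by ring
  have hxk : ∀ k, x k ∈ Icc (x k - (Λ ^ 8)⁻¹) (x k + (Λ ^ 8)⁻¹) :=
    fun k => ⟨by linarith, by linarith⟩
  refine ⟨ζ, ζ1, ζ2, ?_, ?_⟩
  · refine ⟨h.hm, hℓ0, ?_, by positivity, ?_, hF.hsep, hF.hdeg s le_rfl, ?_, hF.hQ0, ?_, ?_,
      fun k => hy _, fun k => hy _, by linarith, ?_, by positivity, ?_, ?_, ?_⟩
    · -- ℓ ≤ 1/1000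
      rw [inv_le_comm₀ (by positivity) (by norm_num)]
      calc ((1 : ℝ) / 1000)⁻¹ = 1000 := by norm_num
        _ ≤ Λ := by linarith
        _ = Λ ^ 1 := (pow_one _).symm
        _ ≤ Λ ^ 8 := pow_le_pow_right₀ (by linarith) (by norm_num)
    · -- d ≤ ℓ/4
      rw [inv_le_comm₀ (by positivity) (by positivity)]
      rw [inv_div, div_inv_eq_mul]
      calc 4 * Λ ^ 8 ≤ Λ * Λ ^ 8 := mul_le_mul_of_nonneg_right (by linarith) (by positivity)
        _ = Λ ^ 9 := by ring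
        _ ≤ Λ ^ 40 := pow_le_pow_right₀ (by linarith) (by norm_num)
    · -- degree of R
      unfold Ry
      apply natDegree_sum_le_of_forall_le
      intro j _
      exact (natDegree_C_mul_le _ _).trans (hF.hdeg j j.2.le)
    · intro k t ht
      have := (hζ k t ht).1
      unfold Ry
      rw [eval_finsetSum, ← this]
      simp
    · intro k t ht
      obtain ⟨_, b2, b3, b4, b5⟩ := hζ k t ht
      exact ⟨b2, b3, b4.trans hA3, b5.trans hA3⟩
    · exact one_le_pow₀ (by linarith)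
    · rw [inv_le_comm₀ (by positivity) (by norm_num)]
      calc ((1 : ℝ) / 1000)⁻¹ = 1000 := by norm_num
        _ ≤ Λ := by linarith
        _ = Λ ^ 1 := (pow_one _).symm
        _ ≤ Λ ^ 3 := pow_le_pow_right₀ (by linarith) (by norm_num)
    · -- ℓ A ≤ ε / 100
      have e1 : (Λ ^ 8)⁻¹ * Λ ^ 3 = (Λ ^ 5)⁻¹ := by field_simp
      rw [e1, ← inv_inv ((Λ ^ 3)⁻¹ / 100)]
      apply inv_anti₀ (by positivity)
      rw [inv_div, div_inv_eq_mul]
      calc 100 * Λ ^ 3 ≤ Λ * Λ ^ 3 := mul_le_mul_of_nonneg_right (by linarith) (by positivity)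
        _ = Λ ^ 4 := by ring
        _ ≤ Λ ^ 5 := pow_le_pow_right₀ (by linarith) (by norm_num)
    · -- d m G ≤ ε ℓ^3 / 100
      have e1 : (Λ ^ 3)⁻¹ * ((Λ ^ 8)⁻¹) ^ 3 / 100 = (100 * Λ ^ 27)⁻¹ := by
        field_simp
      calc (Λ ^ 40)⁻¹ * (m * Λ) ≤ (Λ ^ 40)⁻¹ * (Λ * Λ) := by
            apply mul_le_mul_of_nonneg_left _ (by positivity)
            exact mul_le_mul_of_nonneg_right hmΛ hΛ0.le
        _ = (Λ ^ 38)⁻¹ := by field_simp
        _ ≤ (100 * Λ ^ 27)⁻¹ := by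
            apply inv_anti₀ (by positivity)
            calc 100 * Λ ^ 27 ≤ Λ * Λ ^ 27 :=
                  mul_le_mul_of_nonneg_right (by linarith) (by positivity)
              _ = Λ ^ 28 := by ring
              _ ≤ Λ ^ 38 := pow_le_pow_right₀ (by linarith) (by norm_num)
        _ = _ := e1.symm
  · intro k
    have h1 := (hζ k (x k) (hxk k)).1
    have h2 := hF.hQ0 k (x k) (hxk k)
    have h4 : ζ (x k) = (∑ j : Fin s, y (Sum.inl j) * (q j).eval (x k)) / (q s).eval (x k) := by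
      rw [h1]; field_simp
    rw [h4, Finset.sum_div]
    apply Finset.sum_congr rfl
    intro j _
    ring

/-- The inner estimate: for a typical configuration. -/
theorem inner_tv (hO : TaskOut) (hCm : TaskCmp) {s m : ℕ} {pA pb B0 Λ : ℝ}
    (hC : CstV pA pb B0) (hP : Big Λ s m pA pb)
    {x : Fin m → ℝ} {q : ℕ → ℝ[X]} (hF : FX m x s (Λ ^ 8)⁻¹ Λ q)
    (k0 : Fin m) (y : Fin s ⊕ (Fin m ⊕ Fin m) → ℝ)
    (hy : y ∈ TV s m (fun k j => (q j).eval (x k) / (q s).eval (x k)) pA B0 Λ k0) (c1 c2 : ℝ) :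
    ENNReal.ofReal (pb / 2 * ((pA * m - pA * m / 8) ^ 2 / 8)) ≤
      ∫⁻ b, ENNReal.ofReal
        (((nr (rp (fr x (Λ ^ 40)⁻¹ s q (Λ ^ 40)⁻¹) (Sum.elim (fun _ : Unit => b) y)) : ℝ)
          - c1) ^ 2 +
        ((nr (rp (fr x (Λ ^ 40)⁻¹ s q (Λ ^ 50)⁻¹) (Sum.elim (fun _ : Unit => b) y)) : ℝ)
          - c2) ^ 2) ∂(gaussianReal 0 1) := by
  classical
  obtain ⟨hyG, hy0, hyA, hyB⟩ := hy
  have hpA := hC.hpA
  have hpb := hC.hpb
  obtain ⟨ζ, ζ1, ζ2, hH, hζ⟩ := hx_of hP hpA hpb hF y hyG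
  have h3 := hP.n3
  have hk := hP.k hpA hpb
  have hΛb := hP.b hpA hpb
  have hΛ3000 : 3000 ≤ Λ := by linarith
  have hΛ0 : 0 < Λ := by linarith
  have hΛ1 : 1 ≤ Λ := by linarith
  have hs1 : (1 : ℝ) ≤ s := by exact_mod_cast hP.hs
  have hm1 : (1 : ℝ) ≤ m := by exact_mod_cast hP.hm
  have hmΛ : (m : ℝ) ≤ Λ := by linarith
  set d : ℝ := (Λ ^ 40)⁻¹ with hd
  set τ2 : ℝ := (Λ ^ 50)⁻¹ with hτ2
  have hd0 : 0 < d := by positivity
  have hτ2pos : 0 < τ2 := by positivity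
  have hτ2d : τ2 ≤ d := inv_anti₀ (by positivity) (pow_le_pow_right₀ hΛ1 (by norm_num))
  have hτ2G : τ2 * Λ ≤ (Λ ^ 3)⁻¹ * d / 20 := by
    have e1 : τ2 * Λ = (Λ ^ 49)⁻¹ := by rw [hτ2]; field_simp
    have e2 : (Λ ^ 3)⁻¹ * d / 20 = (20 * Λ ^ 43)⁻¹ := by rw [hd]; field_simp
    rw [e1, e2]
    apply inv_anti₀ (by positivity)
    calc 20 * Λ ^ 43 ≤ Λ * Λ ^ 43 := mul_le_mul_of_nonneg_right (by linarith) (by positivity)
      _ = Λ ^ 44 := by ring
      _ ≤ Λ ^ 49 := pow_le_pow_right₀ hΛ1 (by norm_num)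
  set δ : ℝ := d * (m * (3 * Λ / (Λ ^ 8)⁻¹)) with hδ
  have hδ0 : 0 ≤ δ := by positivity
  have hδle : δ ≤ (Λ ^ 30)⁻¹ := by
    have e1 : δ = 3 * m * (Λ ^ 31)⁻¹ := by rw [hδ, hd]; field_simp
    have e2 : (Λ ^ 30)⁻¹ = Λ * (Λ ^ 31)⁻¹ := by field_simp
    rw [e1, e2]
    apply mul_le_mul_of_nonneg_right (by linarith) (by positivity)
  obtain ⟨F, hFc, hFe⟩ := hO m x d (Λ ^ 8)⁻¹ Λ (Λ ^ 3) (Λ ^ 3)⁻¹ s (q s) (Ry q y) _ _ ζ ζ1 ζ2 hH
    k0 hy0 d τ2 hd0 le_rfl hτ2pos hτ2d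
  set F' : Finset ℝ := Finset.univ.image (fun k => - ζ (x k)) with hF'
  set Bad : Set ℝ := {b : ℝ | ∃ f ∈ F, |b - f| ≤ δ} ∪ {b : ℝ | ∃ f ∈ F', |b - f| ≤ (Λ ^ 3)⁻¹}
    with hBad
  have hBm : ∀ (F : Finset ℝ) (r : ℝ), MeasurableSet {b : ℝ | ∃ f ∈ F, |b - f| ≤ r} := by
    intro F r
    have : {b : ℝ | ∃ f ∈ F, |b - f| ≤ r} = ⋃ f ∈ F, {b : ℝ | |b - f| ≤ r} := by
      ext b; simp
    rw [this]
    apply Finset.measurableSet_biUnion
    intro f _
    exact measurableSet_le (by fun_prop) measurable_const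
  have hBadm : MeasurableSet Bad := (hBm F δ).union (hBm F' _)
  have hinv : Λ⁻¹ ≤ pb / 16 := by
    rw [inv_le_comm₀ hΛ0 (by positivity), inv_div, div_le_iff₀ hpb]
    exact hΛb
  have hBadP : gaussianReal 0 1 Bad ≤ ENNReal.ofReal (pb / 2) := by
    refine (measure_union_le _ _).trans ?_
    have t1 : gaussianReal 0 1 {b : ℝ | ∃ f ∈ F, |b - f| ≤ δ} ≤ ENNReal.ofReal (pb / 4) := by
      refine (gam_finset F δ hδ0).trans (ENNReal.ofReal_le_ofReal ?_)
      have hc : (F.card : ℝ) ≤ Λ := by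
        have : (F.card : ℝ) ≤ ((18 * (s + 2 * m) + 12 * m + 16 : ℕ) : ℝ) := by exact_mod_cast hFc
        refine this.trans ?_
        push_cast
        linarith
      calc F.card * δ ≤ Λ * (Λ ^ 30)⁻¹ := mul_le_mul hc hδle hδ0 hΛ0.le
        _ = (Λ ^ 29)⁻¹ := by field_simp
        _ ≤ Λ⁻¹ := by
            apply inv_anti₀ hΛ0
            calc Λ = Λ ^ 1 := (pow_one _).symm
              _ ≤ Λ ^ 29 := pow_le_pow_right₀ hΛ1 (by norm_num)
        _ ≤ pb / 16 := hinv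
        _ ≤ pb / 4 := by linarith
    have t2 : gaussianReal 0 1 {b : ℝ | ∃ f ∈ F', |b - f| ≤ (Λ ^ 3)⁻¹} ≤
        ENNReal.ofReal (pb / 4) := by
      refine (gam_finset F' _ (by positivity)).trans (ENNReal.ofReal_le_ofReal ?_)
      have hc : (F'.card : ℝ) ≤ Λ := by
        have h1 : F'.card ≤ m := by
          refine Finset.card_image_le.trans ?_
          simp
        have : (F'.card : ℝ) ≤ m := by exact_mod_cast h1
        linarith
      calc F'.card * (Λ ^ 3)⁻¹ ≤ Λ * (Λ ^ 3)⁻¹ :=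
            mul_le_mul_of_nonneg_right hc (by positivity)
        _ = (Λ ^ 2)⁻¹ := by field_simp
        _ ≤ Λ⁻¹ := by
            apply inv_anti₀ hΛ0
            calc Λ = Λ ^ 1 := (pow_one _).symm
              _ ≤ Λ ^ 2 := pow_le_pow_right₀ hΛ1 (by norm_num)
        _ ≤ pb / 16 := hinv
        _ ≤ pb / 4 := by linarith
    refine (add_le_add t1 t2).trans (le_of_eq ?_)
    rw [← ENNReal.ofReal_add (by positivity) (by positivity)]
    congr 1; ring
  have hdiff : ∀ S : Set ℝ, ENNReal.ofReal pb ≤ gaussianReal 0 1 S →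
      ENNReal.ofReal (pb / 2) ≤ gaussianReal 0 1 (S \ Bad) := by
    intro S hS
    have h1 : gaussianReal 0 1 S ≤ gaussianReal 0 1 (S \ Bad) + gaussianReal 0 1 Bad := by
      refine (measure_mono ?_).trans (measure_union_le _ _)
      intro x hx
      by_cases h : x ∈ Bad
      · exact Or.inr h
      · exact Or.inl ⟨hx, h⟩
    have h2 : ENNReal.ofReal pb ≤ gaussianReal 0 1 (S \ Bad) + ENNReal.ofReal (pb / 2) :=
      hS.trans (h1.trans (add_le_add le_rfl hBadP))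
    obtain ⟨r, hr0, hr⟩ : ∃ r : ℝ, 0 ≤ r ∧ gaussianReal 0 1 (S \ Bad) = ENNReal.ofReal r :=
      ⟨_, ENNReal.toReal_nonneg, (ENNReal.ofReal_toReal (measure_ne_top _ _)).symm⟩
    rw [hr] at h2 ⊢
    rw [← ENNReal.ofReal_add hr0 (by positivity), ENNReal.ofReal_le_ofReal_iff (by positivity)] at h2
    apply ENNReal.ofReal_le_ofReal
    linarith
  have hcmp : ∀ b, b ∉ Bad → _ := fun b hb =>
    hCm m x d (Λ ^ 8)⁻¹ Λ (Λ ^ 3) (Λ ^ 3)⁻¹ s (q s) (Ry q y) _ _ ζ ζ1 ζ2 hH b τ2 hτ2pos hτ2d hτ2G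
      (by
        intro k
        by_contra hcon
        push Not at hcon
        apply hb
        right
        refine ⟨- ζ (x k), Finset.mem_image_of_mem _ (Finset.mem_univ k), ?_⟩
        rw [sub_neg_eq_add]
        exact hcon.le)
      (by
        apply hFe
        intro f hf
        by_contra hcon
        push Not at hcon
        exact hb (Or.inl ⟨f, hf, hcon⟩))
  have hB0 := hC.hB0
  apply inner_bound (S1 := Icc 1 (11 / 10) \ Bad) (S2 := Icc B0 (B0 + 1) \ Bad)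
    (measurableSet_Icc.diff hBadm) (measurableSet_Icc.diff hBadm) (hdiff _ hC.h1) (hdiff _ hC.h2)
  · nlinarith [mul_pos hpA (by linarith : (0 : ℝ) < m)]
  · intro b hb
    rw [rp_fr, rp_fr]
    have h1 := (hcmp b hb.2).1 (Finset.univ.filter (fun k => y ∈ VA s m
      (fun k j => (q j).eval (x k) / (q s).eval (x k)) k)) (by
        intro k hk
        rw [Finset.mem_filter] at hk
        obtain ⟨_, k1, k2, k3⟩ := hk
        rw [← hζ k] at k1
        rw [abs_le] at k1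
        exact ⟨by linarith [k1.1, hb.1.1], by linarith [k1.2, hb.1.2], k2, k3⟩)
    have h4 : (nr (Px x d (q s) (Ry q y) (fun k => y (Sum.inr (Sum.inl k)))
        (fun k => y (Sum.inr (Sum.inr k))) b d) : ℝ) +
      2 * ((Finset.univ.filter (fun k => y ∈ VA s m
      (fun k j => (q j).eval (x k) / (q s).eval (x k)) k)).card : ℝ) ≤
      nr (Px x d (q s) (Ry q y) (fun k => y (Sum.inr (Sum.inl k)))
        (fun k => y (Sum.inr (Sum.inr k))) b τ2) := by
      exact_mod_cast h1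
    linarith
  · intro b hb
    rw [rp_fr, rp_fr]
    have h1 := (hcmp b hb.2).2 (Finset.univ.filter (fun k => y ∈ VB s m
      (fun k j => (q j).eval (x k) / (q s).eval (x k)) B0 k)) (by
        intro k hk
        have hk' : y ∉ VB s m (fun k j => (q j).eval (x k) / (q s).eval (x k)) B0 k := by
          intro hc
          exact hk (Finset.mem_filter.mpr ⟨Finset.mem_univ _, hc⟩)
        unfold VB at hk'
        rw [mem_ofPred_eq, not_not] at hk'
        obtain ⟨k1, k2, k3⟩ := hk'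
        rw [← hζ k] at k1
        rw [abs_le] at k1
        have h5 : B0 / 2 ≤ b + ζ (x k) := by linarith [k1.1, hb.1.1]
        have h6 : B0 / 40 ≤ |b + ζ (x k)| / 20 := by
          have := le_abs_self (b + ζ (x k))
          linarith
        exact ⟨k2.trans h6, k3.trans h6⟩)
    have h4 : (nr (Px x d (q s) (Ry q y) (fun k => y (Sum.inr (Sum.inl k)))
        (fun k => y (Sum.inr (Sum.inr k))) b τ2) : ℝ) ≤
      nr (Px x d (q s) (Ry q y) (fun k => y (Sum.inr (Sum.inl k)))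
        (fun k => y (Sum.inr (Sum.inr k))) b d) +
      2 * ((Finset.univ.filter (fun k => y ∈ VB s m
      (fun k j => (q j).eval (x k) / (q s).eval (x k)) B0 k)).card : ℝ) := by
      exact_mod_cast h1
    linarith

/-- One of the two frames has large variance. -/
theorem taskVar (hO : TaskOut) (hCm : TaskCmp) : TaskVar := by
  classical
  obtain ⟨pA, pb, B0, hC⟩ := exists_cstV
  have hpA := hC.hpA
  have hpb := hC.hpb
  have ppA : 0 < 16 / pA := by positivity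
  have ppb : 0 < 16 / pb := by positivity
  refine ⟨pA ^ 3 * pb / 256, 1000 + 16 / pA + 16 / pb, by positivity, by linarith, ?_⟩
  intro m s x q Λ hm hs hΛ hF
  have hP : Big Λ s m pA pb := ⟨hs, hm, hΛ⟩
  have h3 := hP.n3
  have hk := hP.k hpA hpb
  have hΛa := hP.a hpA hpb
  have hΛ3000 : 3000 ≤ Λ := by linarith
  have hΛ0 : 0 < Λ := by linarith
  let k0 : Fin m := ⟨0, hm⟩
  set κ := Fin s ⊕ (Fin m ⊕ Fin m) with hκ
  set d : ℝ := (Λ ^ 40)⁻¹ with hd
  set τ2 : ℝ := (Λ ^ 50)⁻¹ with hτ2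
  set v : ℝ := pA ^ 3 * pb / 256 * m ^ 2 with hv
  by_contra hcon
  push Not at hcon
  have n1 := hcon d (Or.inl rfl)
  have n2 := hcon τ2 (Or.inr rfl)
  unfold VarGe at n1 n2
  push Not at n1 n2
  obtain ⟨c1, h1⟩ := n1
  obtain ⟨c2, h2⟩ := n2
  let F1 : (Unit ⊕ κ → ℝ) → ℝ≥0∞ := fun z =>
    ENNReal.ofReal (((nr (rp (fr x d s q d) z) : ℝ) - c1) ^ 2)
  let F2 : (Unit ⊕ κ → ℝ) → ℝ≥0∞ := fun z =>
    ENNReal.ofReal (((nr (rp (fr x d s q τ2) z) : ℝ) - c2) ^ 2)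
  have hmeasN : ∀ (τ c : ℝ), Measurable (fun z : Unit ⊕ κ → ℝ =>
      ENNReal.ofReal (((nr (rp (fr x d s q τ) z) : ℝ) - c) ^ 2)) := by
    intro τ c
    have h1 : Measurable (fun z : Unit ⊕ κ → ℝ => (nr (rp (fr x d s q τ) z) : ℝ)) :=
      (measurable_from_top (f := fun n : ℕ => (n : ℝ))).comp (measurable_nr _)
    exact ENNReal.measurable_ofReal.comp ((h1.sub_const c).pow_const 2)
  have hF1m : Measurable F1 := hmeasN d c1
  have hF2m : Measurable F2 := hmeasN τ2 c2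
  have hsum : ∫⁻ z, F1 z ∂(gpi (Unit ⊕ κ)) + ∫⁻ z, F2 z ∂(gpi (Unit ⊕ κ)) <
      ENNReal.ofReal v + ENNReal.ofReal v := ENNReal.add_lt_add h1 h2
  have hlow : ENNReal.ofReal v + ENNReal.ofReal v ≤
      ∫⁻ z, F1 z ∂(gpi (Unit ⊕ κ)) + ∫⁻ z, F2 z ∂(gpi (Unit ⊕ κ)) := by
    rw [← lintegral_add_left hF1m]
    have hem : Measurable (fun p : ℝ × (κ → ℝ) =>
        (Sum.elim (fun _ : Unit => p.1) p.2 : Unit ⊕ κ → ℝ)) := by
      apply measurable_pi_lambda
      rintro (i | i)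
      · exact measurable_fst
      · exact (measurable_pi_apply i).comp measurable_snd
    have hF12m : Measurable (fun z => F1 z + F2 z) := hF1m.add hF2m
    have hcm : Measurable (fun p : ℝ × (κ → ℝ) =>
        F1 (Sum.elim (fun _ : Unit => p.1) p.2) + F2 (Sum.elim (fun _ : Unit => p.1) p.2)) :=
      hF12m.comp hem
    rw [← map_e, lintegral_map hF12m hem, lintegral_prod_symm' _ hcm]
    set T := TV s m (fun k j => (q j).eval (x k) / (q s).eval (x k)) pA B0 Λ k0 with hT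
    have hTm := TV_meas s m (fun k j => (q j).eval (x k) / (q s).eval (x k)) pA B0 Λ k0
    have hv68 : ∀ k, ∑ j : Fin s, ((q j).eval (x k) / (q s).eval (x k)) ^ 2 ≤ 68 := by
      intro k
      have hℓ0 : (0 : ℝ) < (Λ ^ 8)⁻¹ := by positivity
      have hne := hF.hQ0 k (x k) ⟨by linarith, by linarith⟩
      have hpos : 0 < ((q s).eval (x k)) ^ 2 := by positivity
      simp_rw [div_pow]
      rw [← Finset.sum_div, div_le_iff₀ hpos]
      exact hF.hV k
    have hNG : ((s : ℝ) + 2 * m) * (1 / Λ ^ 2) ≤ pA / 8 := by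
      rw [mul_one_div, div_le_iff₀ (by positivity)]
      nlinarith
    have hTP := TV_prob hC hm (s := s) hv68 (by linarith : 1 ≤ Λ) hNG k0
    calc ENNReal.ofReal v + ENNReal.ofReal v
        = ENNReal.ofReal (pA / 4 * (pA ^ 2 * pb / 32 * m ^ 2)) := by
          rw [← ENNReal.ofReal_add (by positivity) (by positivity)]
          congr 1
          rw [hv]; ring
      _ ≤ ENNReal.ofReal (pb / 2 * ((pA * m - pA * m / 8) ^ 2 / 8)) * ENNReal.ofReal (pA / 4) := by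
          rw [← ENNReal.ofReal_mul (by positivity), mul_comm (pA / 4)]
          apply ENNReal.ofReal_le_ofReal
          apply mul_le_mul_of_nonneg_right _ (by positivity)
          have e : pb / 2 * ((pA * m - pA * m / 8) ^ 2 / 8) = 49 / 1024 * (pA ^ 2 * pb * m ^ 2) := by
            ring
          rw [e]
          have : 0 ≤ pA ^ 2 * pb * (m : ℝ) ^ 2 := by positivity
          linarith
      _ ≤ ENNReal.ofReal (pb / 2 * ((pA * m - pA * m / 8) ^ 2 / 8)) * gpi κ T :=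
          mul_le_mul_right hTP _
      _ = ∫⁻ _y in T, ENNReal.ofReal (pb / 2 * ((pA * m - pA * m / 8) ^ 2 / 8)) ∂(gpi κ) := by
          rw [setLIntegral_const]
      _ ≤ ∫⁻ y in T, ∫⁻ b, F1 (Sum.elim (fun _ : Unit => b) y) + F2 (Sum.elim (fun _ : Unit => b) y)
            ∂(gaussianReal 0 1) ∂(gpi κ) := by
          apply setLIntegral_mono' hTm
          intro y hy
          have h3 := inner_tv hO hCm hC hP hF k0 y hy c1 c2
          refine h3.trans (le_of_eq ?_)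
          apply lintegral_congr
          intro b
          rw [ENNReal.ofReal_add (sq_nonneg _) (sq_nonneg _)]
      _ ≤ _ := setLIntegral_le_lintegral _ _
  exact absurd hsum (not_lt.mpr hlow)

end Pool.Agent.H727R4.CLT.Var
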