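import Pool.Agent.H727R4.CLT.Stmts

set_option autoImplicit false

/-! # Task `Zero` of the project CLT (MP_f6b137_pr) -/

open Polynomial Set

namespace Pool.Agent.H727R4.CLT.Zero

open Pool.Agent.H727R4.CLT

lemma quad_pos (u d v a a' : ℝ) (hd : 0 < d) (hv1 : 94 / 100 ≤ v) (hv2 : v ≤ 116 / 100)
    (h1 : |a + 1| ≤ 1 / 10) (h2 : |a' - 2| ≤ 1 / 10) :
    0 < u * (u - d) * v + d * (a * (u - d) + a' * u) := by
  rw [abs_le] at h1 h2
  have e : u * (u - d) * v + d * (a * (u - d) + a' * u) =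
      v * u ^ 2 + (a + a' - v) * (d * u) + (-a) * d ^ 2 := by ring
  rw [e]
  set c := a + a' - v with hc
  have hc1 : |c| ≤ 4 / 10 := by rw [abs_le]; constructor <;> linarith
  have h3 : |c * (d * u)| ≤ 2 / 10 * (d ^ 2 + u ^ 2) := by
    rw [abs_mul]
    have h4 : |d * u| ≤ (d ^ 2 + u ^ 2) / 2 := by
      rw [abs_le]
      constructor <;> nlinarith [sq_nonneg (d + u), sq_nonneg (d - u)]
    calc |c| * |d * u| ≤ 4 / 10 * ((d ^ 2 + u ^ 2) / 2) :=
          mul_le_mul hc1 h4 (abs_nonneg _) (by norm_num)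
      _ = 2 / 10 * (d ^ 2 + u ^ 2) := by ring
  have h5 := (abs_le.mp h3).1
  have h6 : 94 / 100 * u ^ 2 ≤ v * u ^ 2 := mul_le_mul_of_nonneg_right hv1 (sq_nonneg u)
  have h7 : 9 / 10 * d ^ 2 ≤ (-a) * d ^ 2 :=
    mul_le_mul_of_nonneg_right (by linarith) (sq_nonneg d)
  have h8 : 0 < d ^ 2 := by positivity
  nlinarith [sq_nonneg u]

theorem taskZero : TaskZero := by
  intro m x d ℓ G A ε s Q R g g' ζ ζ1 ζ2 h b k hb1 hb2 hg1 hg2
  classical
  have hℓ := h.hℓ
  have hd0 := h.hd0
  have hd := h.hd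
  unfold zx
  rw [Finset.card_eq_zero, Finset.filter_eq_empty_iff]
  intro t ht htJ
  rw [Multiset.mem_toFinset] at ht
  have h0 : (Px x d Q R g g' b d).eval t = 0 := (mem_roots'.1 ht).2
  have htk : |t - x k| ≤ ℓ := by
    rw [abs_le]; constructor <;> linarith [htJ.1, htJ.2]
  -- distances to the other dipoles
  have hfar1 : ∀ l, l ≠ k → 3 * ℓ ≤ |t - x l| := by
    intro l hl
    have h1 := h.hsep l k hl
    have h2 : |x l - x k| ≤ |t - x l| + |t - x k| := by
      have := abs_sub_le (x l) t (x k)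
      rwa [abs_sub_comm (x l) t] at this
    linarith
  have hfar2 : ∀ l, l ≠ k → 2 * ℓ ≤ |t - x l - d| := by
    intro l hl
    have h1 := hfar1 l hl
    have h2 : |t - x l| ≤ |t - x l - d| + |d| := by
      have := abs_add_le (t - x l - d) d
      rwa [sub_add_cancel] at this
    rw [abs_of_pos hd0] at h2
    linarith
  have hne1 : ∀ l, l ≠ k → t - x l ≠ 0 := fun l hl h3 => by
    have := hfar1 l hl
    rw [h3, abs_zero] at this
    linarith
  have hne2 : ∀ l, l ≠ k → t - x l - d ≠ 0 := fun l hl h3 => by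
    have := hfar2 l hl
    rw [h3, abs_zero] at this
    linarith
  have hqq : ∀ l, (qq (x l) d).eval t = (t - x l) * (t - x l - d) := by
    intro l
    unfold qq
    simp only [eval_mul, eval_sub, eval_X, eval_C]
    ring
  have hW : ∀ l, (WW x d).eval t = (t - x l) * (t - x l - d) * (Wr x d l).eval t := by
    intro l
    have h1 : WW x d = qq (x l) d * Wr x d l := by
      unfold WW Wr
      exact (Finset.mul_prod_erase _ _ (Finset.mem_univ l)).symm
    rw [h1, eval_mul, hqq]
  have hWr : (Wr x d k).eval t ≠ 0 := by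
    unfold Wr
    rw [eval_prod, Finset.prod_ne_zero_iff]
    intro l hl
    have hlk : l ≠ k := (Finset.mem_erase.1 hl).1
    rw [hqq]
    exact mul_ne_zero (hne1 l hlk) (hne2 l hlk)
  have hWl : ∀ l, l ≠ k → (Wr x d l).eval t * (g l * (t - (x l + d)) + g' l * (t - x l)) =
      (Wr x d k).eval t * ((t - x k) * (t - x k - d) *
        (g l / (t - x l) + g' l / (t - x l - d))) := by
    intro l hl
    have h1 := hW l
    rw [hW k] at h1
    have h2 : (Wr x d l).eval t = (t - x k) * (t - x k - d) * (Wr x d k).eval t /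
        ((t - x l) * (t - x l - d)) := by
      rw [h1]
      field_simp [hne1 l hl, hne2 l hl]
    rw [h2]
    have h3 := hne1 l hl
    have h4 := hne2 l hl
    field_simp
    ring
  set E : Fin m → ℝ := fun l => g l / (t - x l) + g' l / (t - x l - d) with hE
  have hsum : ∑ l, (Wr x d l).eval t * (g l * (t - (x l + d)) + g' l * (t - x l)) =
      (Wr x d k).eval t * ((g k * (t - x k - d) + g' k * (t - x k)) +
        (t - x k) * (t - x k - d) * ∑ l ∈ Finset.univ.erase k, E l) := by
    rw [← Finset.add_sum_erase _ _ (Finset.mem_univ k)]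
    rw [Finset.sum_congr rfl (fun l hl => hWl l (Finset.mem_erase.1 hl).1)]
    rw [← Finset.mul_sum, ← Finset.mul_sum]
    ring
  have hEb : |∑ l ∈ Finset.univ.erase k, E l| ≤ m * G / ℓ := by
    have h1 : ∀ l ∈ Finset.univ.erase k, |E l| ≤ G / ℓ := by
      intro l hl
      have hlk : l ≠ k := (Finset.mem_erase.1 hl).1
      have h2 : |g l / (t - x l)| ≤ G / (3 * ℓ) := by
        rw [abs_div]
        exact div_le_div₀ (by linarith [h.hG]) (h.hg l) (by linarith) (hfar1 l hlk)
      have h3 : |g' l / (t - x l - d)| ≤ G / (2 * ℓ) := by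
        rw [abs_div]
        exact div_le_div₀ (by linarith [h.hG]) (h.hg' l) (by linarith) (hfar2 l hlk)
      have h4 : |E l| ≤ G / (3 * ℓ) + G / (2 * ℓ) := (abs_add_le _ _).trans (add_le_add h2 h3)
      refine h4.trans ?_
      have h5 : G / (3 * ℓ) + G / (2 * ℓ) = 5 / 6 * (G / ℓ) := by field_simp; ring
      rw [h5]
      have h6 : 0 ≤ G / ℓ := div_nonneg (by linarith [h.hG]) hℓ.le
      linarith
    calc |∑ l ∈ Finset.univ.erase k, E l| ≤ ∑ l ∈ Finset.univ.erase k, |E l| :=
          Finset.abs_sum_le_sum_abs _ _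
      _ ≤ ∑ _l ∈ Finset.univ.erase k, G / ℓ := Finset.sum_le_sum h1
      _ ≤ m * (G / ℓ) := by
          rw [Finset.sum_const, nsmul_eq_mul]
          refine mul_le_mul_of_nonneg_right ?_ (div_nonneg (by linarith [h.hG]) hℓ.le)
          have : (Finset.univ.erase k).card ≤ m := by
            refine (Finset.card_le_univ _).trans ?_
            simp
          exact_mod_cast this
      _ = m * G / ℓ := by ring
  have hζ : |ζ t - ζ (x k)| ≤ 1 / 1000 := by
    have hxk : x k ∈ Icc (x k - ℓ) (x k + ℓ) := ⟨by linarith, by linarith⟩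
    have h1 := (convex_Icc (x k - ℓ) (x k + ℓ)).norm_image_sub_le_of_norm_hasDerivWithin_le
      (f := ζ) (f' := ζ1) (C := A)
      (fun u hu => (h.hζ k u hu).1.hasDerivWithinAt) (fun u hu => (h.hζ k u hu).2.2.1) hxk htJ
    rw [Real.norm_eq_abs, Real.norm_eq_abs] at h1
    have hA := h.hA
    have h2 : A * |t - x k| ≤ ℓ * A := by
      rw [mul_comm]
      exact mul_le_mul_of_nonneg_right htk (by linarith)
    have h3 := h.hℓA
    have h4 := h.hε1
    linarith
  set v : ℝ := b + ζ t + d * ∑ l ∈ Finset.univ.erase k, E l with hv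
  have hdE : |d * ∑ l ∈ Finset.univ.erase k, E l| ≤ 1 / 1000 := by
    rw [abs_mul, abs_of_pos hd0]
    have h1 : d * |∑ l ∈ Finset.univ.erase k, E l| ≤ d * (m * G / ℓ) :=
      mul_le_mul_of_nonneg_left hEb hd0.le
    have h2 : d * (m * G / ℓ) = d * (m * G) / ℓ := by ring
    have h3 : d * (m * G) / ℓ ≤ ε * ℓ ^ 2 / 100 := by
      rw [div_le_iff₀ hℓ]
      refine h.hdG.trans (le_of_eq ?_)
      ring
    have h4 : ε * ℓ ^ 2 / 100 ≤ 1 / 1000 := by
      have h5 := h.hε1
      have h6 := h.hε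
      have h7 := h.hℓ1
      have h8 : ℓ ^ 2 ≤ 1 := by nlinarith
      nlinarith [mul_le_mul h5 h8 (sq_nonneg ℓ) (by norm_num : (0 : ℝ) ≤ 1 / 1000)]
    linarith
  have hv1 : 94 / 100 ≤ v := by
    have h1 := (abs_le.mp hζ).1
    have h2 := (abs_le.mp hdE).1
    rw [hv]
    linarith
  have hv2 : v ≤ 116 / 100 := by
    have h1 := (abs_le.mp hζ).2
    have h2 := (abs_le.mp hdE).2
    rw [hv]
    linarith
  have hpos := quad_pos (t - x k) d v (g k) (g' k) hd0 hv1 hv2 hg1 hg2
  have hev : (Px x d Q R g g' b d).eval t = Q.eval t * (Wr x d k).eval t *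
      ((t - x k) * (t - x k - d) * v + d * (g k * (t - x k - d) + g' k * (t - x k))) := by
    have h1 : (Px x d Q R g g' b d).eval t = b * ((WW x d).eval t * Q.eval t) +
        ((WW x d).eval t * R.eval t + d * (Q.eval t *
          ∑ l, (Wr x d l).eval t * (g l * (t - (x l + d)) + g' l * (t - x l)))) := by
      unfold Px Zx
      simp only [eval_add, eval_mul, eval_C, eval_finsetSum, eval_sub, eval_X]
    rw [h1, hsum, hW k, h.hRζ k t htJ, hv]
    ring
  rw [hev] at h0
  rcases mul_eq_zero.1 h0 with h1 | h1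
  · rcases mul_eq_zero.1 h1 with h2 | h2
    · exact h.hQ0 k t htJ h2
    · exact hWr h2
  · exact hpos.ne' h1

end Pool.Agent.H727R4.CLT.Zero
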