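import Pool.Agent.H727R4.CLT.Stmts

set_option autoImplicit false
open MeasureTheory ProbabilityTheory Filter Topology Set Polynomial
open scoped ENNReal NNReal
open Pool.Agent.Helper553.Orth

namespace Pool.Agent.H727R4.CLT

theorem taskSmear : TaskSmear := by
  intro f hf hf0 κ ι _ _ a ha w hw P T β hclose h0 hh0
  let G : ℝ → ℝ → ℝ := fun h x => f x + ∑ k, w k * bump (a k) h x
  have hGint : ∀ h, Integrable (G h) m01 := by
    intro h
    exact hf.add (integrable_finsetSum _ (fun k _ => (bump_integrable (a k) h).const_mul _))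
  have hval : ∀ h (p : ℝ[X]), ∫ x, G h x * p.eval x ∂m01 =
      ∫ x, f x * p.eval x ∂m01 + ∑ k, w k * ∫ x, bump (a k) h x * p.eval x ∂m01 := by
    intro h p
    have e1 : ∀ x, G h x * p.eval x = f x * p.eval x + ∑ k, w k * (bump (a k) h x * p.eval x) := by
      intro x
      simp only [G]
      rw [add_mul, Finset.sum_mul]
      congr 1
      apply Finset.sum_congr rfl
      intro k _
      ring
    simp_rw [e1]
    rw [integral_add (integrable_mul_poly hf p) (integrable_finsetSum _
      (fun k _ => (integrable_mul_poly (bump_integrable (a k) h) p).const_mul _)),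
      integral_finsetSum _ (fun k _ => (integrable_mul_poly (bump_integrable (a k) h) p).const_mul _)]
    congr 1
    apply Finset.sum_congr rfl
    intro k _
    rw [integral_const_mul]
  have hlim : ∀ i j, ∀ᶠ h in 𝓝[>] (0 : ℝ), |∫ x, G h x * (P i j).eval x ∂m01 - T i j| < β := by
    intro i j
    have ht : Tendsto (fun h => |∫ x, G h x * (P i j).eval x ∂m01 - T i j|) (𝓝[>] 0)
        (𝓝 |∫ x, f x * (P i j).eval x ∂m01 + ∑ k, w k * (P i j).eval (a k) - T i j|) := by
      simp_rw [hval]
      apply Tendsto.abs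
      apply Tendsto.sub_const
      apply Tendsto.const_add
      apply tendsto_finsetSum
      intro k _
      exact (bump_tendsto (ha k).1 (ha k).2 (P i j)).const_mul _
    exact ht.eventually (gt_mem_nhds (hclose i j))
  have hlim' : ∀ᶠ h in 𝓝[>] (0 : ℝ), ∀ i j, |∫ x, G h x * (P i j).eval x ∂m01 - T i j| < β := by
    rw [eventually_all]; intro i
    rw [eventually_all]; intro j
    exact hlim i j
  have hsmall : ∀ᶠ h in 𝓝[>] (0 : ℝ), ∀ k, a k + h ≤ 1 := by
    rw [eventually_all]; intro k
    have : ∀ᶠ h in 𝓝 (0 : ℝ), a k + h < 1 := by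
      have h1 : Tendsto (fun h : ℝ => a k + h) (𝓝 0) (𝓝 (a k + 0)) := tendsto_const_nhds.add tendsto_id
      rw [add_zero] at h1
      exact h1.eventually (gt_mem_nhds (ha k).2)
    exact (this.filter_mono nhdsWithin_le_nhds).mono (fun h hh => hh.le)
  have hpos : ∀ᶠ h in 𝓝[>] (0 : ℝ), 0 < h := eventually_mem_nhdsWithin
  have hlt : ∀ᶠ h in 𝓝[>] (0 : ℝ), h < h0 :=
    (gt_mem_nhds hh0 : ∀ᶠ h in 𝓝 (0 : ℝ), h < h0).filter_mono nhdsWithin_le_nhds
  obtain ⟨h, h1, h2, h3, h4⟩ := (hlim'.and (hsmall.and (hpos.and hlt))).exists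
  refine ⟨h, h3, h4, h2, hGint h, ?_, ?_, h1⟩
  · filter_upwards [hf0] with x hx
    exact add_nonneg hx (Finset.sum_nonneg (fun k _ => mul_nonneg (hw k) (bump_nonneg h3 x)))
  · have e1 : ∀ x, |(f x + ∑ k, w k * bump (a k) h x) - f x| = ∑ k, w k * bump (a k) h x := by
      intro x
      rw [add_sub_cancel_left, abs_of_nonneg]
      exact Finset.sum_nonneg (fun k _ => mul_nonneg (hw k) (bump_nonneg h3 x))
    simp_rw [e1]
    rw [integral_finsetSum _ (fun k _ => (bump_integrable (a k) h).const_mul _)]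
    apply le_of_eq
    apply Finset.sum_congr rfl
    intro k _
    rw [integral_const_mul, bump_integral (ha k).1 h3 (h2 k), mul_one]

end Pool.Agent.H727R4.CLT
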