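import Pool.Agent.H727R4.CLT.Lin

set_option autoImplicit false
open MeasureTheory ProbabilityTheory Filter Topology Set Polynomial
open scoped ENNReal NNReal
open Pool.Agent.Helper553.Orth

namespace Pool.Agent.H727R4.CLT

/-- The value of the smooth part at the dipole. -/
def zt {s m : ℕ} (v : Fin m → Fin s → ℝ) (k : Fin m) (y : Fin s ⊕ (Fin m ⊕ Fin m) → ℝ) : ℝ :=
  ∑ j, v k j * y (Sum.inl j)

def EAx {s m : ℕ} (v : Fin m → Fin s → ℝ) (k : Fin m) : Set (Fin s ⊕ (Fin m ⊕ Fin m) → ℝ) :=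
  {y | |zt v k y| ≤ 1 / 20 ∧ |y (Sum.inr (Sum.inl k)) + 1| ≤ 1 / 10 ∧
    |y (Sum.inr (Sum.inr k)) - 2| ≤ 1 / 10}

def EBx {s m : ℕ} (v : Fin m → Fin s → ℝ) (B0 : ℝ) (k : Fin m) :
    Set (Fin s ⊕ (Fin m ⊕ Fin m) → ℝ) :=
  {y | ¬ (|zt v k y| ≤ B0 / 2 ∧ |y (Sum.inr (Sum.inl k))| ≤ B0 / 40 ∧
    |y (Sum.inr (Sum.inr k))| ≤ B0 / 40)}

/-- Numerical constants. -/
structure CstX (pA pb B0 : ℝ) : Prop where
  hpA : 0 < pA
  hpb : 0 < pb
  hB0 : 1 ≤ B0
  hA : ENNReal.ofReal pA ≤ gaussianReal 0 1 {x : ℝ | |x| ≤ 1 / 200} *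
    (gaussianReal 0 1 {x : ℝ | |x + 1| ≤ 1 / 10} * gaussianReal 0 1 {x : ℝ | |x - 2| ≤ 1 / 10})
  hT : 1 / (B0 / 40) ^ 2 ≤ pA ^ 2 / 1024
  h1 : ENNReal.ofReal pb ≤ gaussianReal 0 1 (Icc 1 (11 / 10))
  h2 : ENNReal.ofReal pb ≤ gaussianReal 0 1 (Icc B0 (B0 + 1))

theorem exists_cstX : ∃ pA pb B0 : ℝ, CstX pA pb B0 := by
  have hS : {x : ℝ | |x + 1| ≤ 1 / 10} = Icc (-11 / 10) (-9 / 10) := by
    ext x; rw [mem_ofPred_eq, abs_le, mem_Icc]
    constructor <;> intro h <;> constructor <;> linarith [h.1, h.2]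
  have hT : {x : ℝ | |x - 2| ≤ 1 / 10} = Icc (19 / 10) (21 / 10) := by
    ext x; rw [mem_ofPred_eq, abs_le, mem_Icc]
    constructor <;> intro h <;> constructor <;> linarith [h.1, h.2]
  have hU : {x : ℝ | |x| ≤ 1 / 200} = Icc (-(1 / 200)) (1 / 200) := by
    ext x; rw [mem_ofPred_eq, abs_le, mem_Icc]
  have p1 : 0 < gaussianReal 0 1 (Icc (-11 / 10) (-9 / 10)) := gam_Icc_pos (by norm_num)
  have p2 : 0 < gaussianReal 0 1 (Icc (19 / 10) (21 / 10)) := gam_Icc_pos (by norm_num)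
  have p3 : 0 < gaussianReal 0 1 (Icc (-(1 / 200)) (1 / 200)) := gam_Icc_pos (by norm_num)
  set pA : ℝ := (gaussianReal 0 1 (Icc (-(1 / 200)) (1 / 200))).toReal *
    ((gaussianReal 0 1 (Icc (-11 / 10) (-9 / 10))).toReal *
    (gaussianReal 0 1 (Icc (19 / 10) (21 / 10))).toReal) with hpA
  have hpA0 : 0 < pA := mul_pos (ENNReal.toReal_pos p3.ne' (measure_ne_top _ _))
    (mul_pos (ENNReal.toReal_pos p1.ne' (measure_ne_top _ _))
    (ENNReal.toReal_pos p2.ne' (measure_ne_top _ _)))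
  obtain ⟨B0, hB0⟩ : ∃ B0 : ℝ, B0 = 1 + 1280 / pA := ⟨_, rfl⟩
  have hB01 : 1 ≤ B0 := by rw [hB0]; have : 0 < 1280 / pA := by positivity
                           linarith
  have q1 : 0 < gaussianReal 0 1 (Icc (1 : ℝ) (11 / 10)) := gam_Icc_pos (by norm_num)
  have q2 : 0 < gaussianReal 0 1 (Icc B0 (B0 + 1)) := gam_Icc_pos (by linarith)
  refine ⟨pA, min (gaussianReal 0 1 (Icc (1 : ℝ) (11 / 10))).toReal
    (gaussianReal 0 1 (Icc B0 (B0 + 1))).toReal, B0, hpA0, ?_, hB01, ?_, ?_, ?_, ?_⟩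
  · exact lt_min (ENNReal.toReal_pos q1.ne' (measure_ne_top _ _))
      (ENNReal.toReal_pos q2.ne' (measure_ne_top _ _))
  · rw [hS, hT, hU, hpA, ENNReal.ofReal_mul ENNReal.toReal_nonneg,
      ENNReal.ofReal_mul ENNReal.toReal_nonneg,
      ENNReal.ofReal_toReal (measure_ne_top _ _), ENNReal.ofReal_toReal (measure_ne_top _ _),
      ENNReal.ofReal_toReal (measure_ne_top _ _)]
  · rw [div_le_div_iff₀ (by positivity) (by norm_num)]
    have e1 : 32 ≤ pA * (B0 / 40) := by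
      rw [hB0]
      have : pA * ((1 + 1280 / pA) / 40) = pA / 40 + 32 := by field_simp; ring
      rw [this]; linarith
    nlinarith
  · calc ENNReal.ofReal _ ≤ ENNReal.ofReal (gaussianReal 0 1 (Icc (1 : ℝ) (11 / 10))).toReal :=
          ENNReal.ofReal_le_ofReal (min_le_left _ _)
      _ = _ := ENNReal.ofReal_toReal (measure_ne_top _ _)
  · calc ENNReal.ofReal _ ≤ ENNReal.ofReal (gaussianReal 0 1 (Icc B0 (B0 + 1))).toReal :=
          ENNReal.ofReal_le_ofReal (min_le_right _ _)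
      _ = _ := ENNReal.ofReal_toReal (measure_ne_top _ _)

variable {s m : ℕ}

theorem zt_meas (v : Fin m → Fin s → ℝ) (k : Fin m) : Measurable (zt v k) := by
  unfold zt; fun_prop

theorem EAx_meas (v : Fin m → Fin s → ℝ) (k : Fin m) : MeasurableSet (EAx v k) := by
  have h0 : MeasurableSet {y : Fin s ⊕ (Fin m ⊕ Fin m) → ℝ | |zt v k y| ≤ 1 / 20} :=
    measurableSet_le (by have := zt_meas v k; fun_prop) measurable_const
  have h1 : MeasurableSet {y : Fin s ⊕ (Fin m ⊕ Fin m) → ℝ |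
      |y (Sum.inr (Sum.inl k)) + 1| ≤ 1 / 10} := measurableSet_le (by fun_prop) measurable_const
  have h2 : MeasurableSet {y : Fin s ⊕ (Fin m ⊕ Fin m) → ℝ |
      |y (Sum.inr (Sum.inr k)) - 2| ≤ 1 / 10} := measurableSet_le (by fun_prop) measurable_const
  exact h0.inter (h1.inter h2)

theorem EBx_meas (v : Fin m → Fin s → ℝ) (B0 : ℝ) (k : Fin m) : MeasurableSet (EBx v B0 k) := by
  have h0 : MeasurableSet {y : Fin s ⊕ (Fin m ⊕ Fin m) → ℝ | |zt v k y| ≤ B0 / 2} :=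
    measurableSet_le (by have := zt_meas v k; fun_prop) measurable_const
  have h1 : MeasurableSet {y : Fin s ⊕ (Fin m ⊕ Fin m) → ℝ |
      |y (Sum.inr (Sum.inl k))| ≤ B0 / 40} := measurableSet_le (by fun_prop) measurable_const
  have h2 : MeasurableSet {y : Fin s ⊕ (Fin m ⊕ Fin m) → ℝ |
      |y (Sum.inr (Sum.inr k))| ≤ B0 / 40} := measurableSet_le (by fun_prop) measurable_const
  exact (h0.inter (h1.inter h2)).compl

theorem EAx_prob {pA pb B0 : ℝ} (hC : CstX pA pb B0) (v : Fin m → Fin s → ℝ)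
    (hv : ∀ k, ∑ j, v k j ^ 2 ≤ 68) (k : Fin m) :
    ENNReal.ofReal pA ≤ gpi (Fin s ⊕ (Fin m ⊕ Fin m)) (EAx v k) := by
  have hne : (Sum.inl k : Fin m ⊕ Fin m) ≠ Sum.inr k := by simp
  have h1 := gpi_pair hne {x : ℝ | |x + 1| ≤ 1 / 10} {x : ℝ | |x - 2| ≤ 1 / 10}
  have hS : MeasurableSet {u : Fin s → ℝ | |∑ j, v k j * u j| ≤ 1 / 20} :=
    measurableSet_le (by fun_prop) measurable_const
  have hT : MeasurableSet {u : Fin m ⊕ Fin m → ℝ | u (Sum.inl k) ∈ {x : ℝ | |x + 1| ≤ 1 / 10} ∧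
      u (Sum.inr k) ∈ {x : ℝ | |x - 2| ≤ 1 / 10}} := by
    have a1 : MeasurableSet {u : Fin m ⊕ Fin m → ℝ | |u (Sum.inl k) + 1| ≤ 1 / 10} :=
      measurableSet_le (by fun_prop) measurable_const
    have a2 : MeasurableSet {u : Fin m ⊕ Fin m → ℝ | |u (Sum.inr k) - 2| ≤ 1 / 10} :=
      measurableSet_le (by fun_prop) measurable_const
    exact a1.inter a2
  have h2 := gpi_prod _ _ hS hT
  have h3 : gpi (Fin s ⊕ (Fin m ⊕ Fin m)) (EAx v k) =
      gpi (Fin s) {u : Fin s → ℝ | |∑ j, v k j * u j| ≤ 1 / 20} *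
      gpi (Fin m ⊕ Fin m) {u | u (Sum.inl k) ∈ {x : ℝ | |x + 1| ≤ 1 / 10} ∧
      u (Sum.inr k) ∈ {x : ℝ | |x - 2| ≤ 1 / 10}} := by
    rw [← h2]; rfl
  rw [h3, h1]
  exact hC.hA.trans (mul_le_mul_left (gpi_lin_small (v k) (hv k)) _)

theorem EBx_prob {pA pb B0 : ℝ} (hC : CstX pA pb B0) (v : Fin m → Fin s → ℝ)
    (hv : ∀ k, ∑ j, v k j ^ 2 ≤ 68) (k : Fin m) :
    gpi (Fin s ⊕ (Fin m ⊕ Fin m)) (EBx v B0 k) ≤ ENNReal.ofReal (pA ^ 2 / 256) := by
  have hB0 := hC.hB0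
  have hN : 0 < B0 / 40 := by linarith
  have hmeas : MeasurableSet {x : ℝ | B0 / 40 < |x|} :=
    measurableSet_lt measurable_const (by fun_prop)
  have hle : ENNReal.ofReal (1 / (B0 / 40) ^ 2) ≤ ENNReal.ofReal (pA ^ 2 / 1024) :=
    ENNReal.ofReal_le_ofReal hC.hT
  have hz : gpi (Fin s ⊕ (Fin m ⊕ Fin m)) {y | B0 / 2 < |zt v k y|} ≤
      ENNReal.ofReal (pA ^ 2 / 1024) := by
    let c : Fin s ⊕ (Fin m ⊕ Fin m) → ℝ := Sum.elim (v k) (fun _ => 0)
    have hc : ∑ i, c i ^ 2 ≤ 68 := by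
      rw [Fintype.sum_sum_type]
      simp only [c, Sum.elim_inl, Sum.elim_inr]
      simpa using hv k
    refine le_trans (measure_mono ?_) ((gpi_lin_tail c hc hN).trans hle)
    intro y hy
    rw [mem_ofPred_eq] at hy ⊢
    have e : ∑ i, c i * y i = zt v k y := by
      rw [Fintype.sum_sum_type]
      simp only [c, Sum.elim_inl, Sum.elim_inr, zt, zero_mul, Finset.sum_const_zero, add_zero]
    rw [e]
    linarith
  have hsub : EBx v B0 k ⊆ {y | B0 / 2 < |zt v k y|} ∪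
      ({y | y (Sum.inr (Sum.inl k)) ∈ {x : ℝ | B0 / 40 < |x|}} ∪
        {y | y (Sum.inr (Sum.inr k)) ∈ {x : ℝ | B0 / 40 < |x|}}) := by
    intro y hy
    unfold EBx at hy
    rw [mem_ofPred_eq, not_and_or, not_and_or, not_le, not_le, not_le] at hy
    exact hy
  calc gpi (Fin s ⊕ (Fin m ⊕ Fin m)) (EBx v B0 k) ≤ _ := measure_mono hsub
    _ ≤ gpi (Fin s ⊕ (Fin m ⊕ Fin m)) {y | B0 / 2 < |zt v k y|} +
        (gpi (Fin s ⊕ (Fin m ⊕ Fin m)) {y | y (Sum.inr (Sum.inl k)) ∈ {x : ℝ | B0 / 40 < |x|}} +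
        gpi (Fin s ⊕ (Fin m ⊕ Fin m)) {y | y (Sum.inr (Sum.inr k)) ∈ {x : ℝ | B0 / 40 < |x|}}) :=
        (measure_union_le _ _).trans (add_le_add le_rfl (measure_union_le _ _))
    _ ≤ ENNReal.ofReal (pA ^ 2 / 1024) + (ENNReal.ofReal (pA ^ 2 / 1024) +
        ENNReal.ofReal (pA ^ 2 / 1024)) := by
        rw [gpi_eval _ _ hmeas, gpi_eval _ _ hmeas]
        exact add_le_add hz (add_le_add ((gam_tail hN).trans hle) ((gam_tail hN).trans hle))
    _ ≤ _ := by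
        rw [← ENNReal.ofReal_add (by positivity) (by positivity),
          ← ENNReal.ofReal_add (by positivity) (by positivity)]
        apply ENNReal.ofReal_le_ofReal
        have : 0 ≤ pA ^ 2 := sq_nonneg _
        linarith

open Classical in
/-- Typical configurations. -/
def TypX (v : Fin m → Fin s → ℝ) (pA B0 G : ℝ) (k0 : Fin m) :
    Set (Fin s ⊕ (Fin m ⊕ Fin m) → ℝ) :=
  {y | (∀ i, |y i| ≤ G) ∧ y (Sum.inr (Sum.inl k0)) ≠ 0 ∧
    pA * m / 2 ≤ ((Finset.univ.filter (fun k => y ∈ EAx v k)).card : ℝ) ∧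
    ((Finset.univ.filter (fun k => y ∈ EBx v B0 k)).card : ℝ) ≤ pA / 16 * m}

theorem typX_meas (v : Fin m → Fin s → ℝ) (pA B0 G : ℝ) (k0 : Fin m) :
    MeasurableSet (TypX v pA B0 G k0) := by
  classical
  unfold TypX
  apply MeasurableSet.inter
  · have : {y : Fin s ⊕ (Fin m ⊕ Fin m) → ℝ | ∀ i, |y i| ≤ G} = ⋂ i, {y | |y i| ≤ G} := by
      ext y; simp
    show MeasurableSet {y : Fin s ⊕ (Fin m ⊕ Fin m) → ℝ | ∀ i, |y i| ≤ G}
    rw [this]
    apply MeasurableSet.iInter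
    intro i
    apply measurableSet_le _ measurable_const
    fun_prop
  apply MeasurableSet.inter
  · show MeasurableSet {y : Fin s ⊕ (Fin m ⊕ Fin m) → ℝ | y (Sum.inr (Sum.inl k0)) ≠ 0}
    apply MeasurableSet.compl
    apply measurableSet_eq_fun _ measurable_const
    fun_prop
  apply MeasurableSet.inter
  · exact measurableSet_le measurable_const (count_measurable _ (EAx_meas v))
  · exact measurableSet_le (count_measurable _ (EBx_meas v B0)) measurable_const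

theorem typX_prob {pA pb B0 : ℝ} (hC : CstX pA pb B0) (v : Fin m → Fin s → ℝ)
    (hv : ∀ k, ∑ j, v k j ^ 2 ≤ 68) (hm : 1 ≤ m) {G : ℝ} (hG : 1 ≤ G)
    (hNG : (s + 2 * m) * (1 / G ^ 2) ≤ pA / 8) (k0 : Fin m) :
    ENNReal.ofReal (pA / 4) ≤ gpi (Fin s ⊕ (Fin m ⊕ Fin m)) (TypX v pA B0 G k0) := by
  classical
  set P := gpi (Fin s ⊕ (Fin m ⊕ Fin m)) with hP
  have hpA := hC.hpA
  have h1 : P {y | ∀ i, |y i| ≤ G}ᶜ ≤ ENNReal.ofReal (pA / 8) := by
    have hsub : {y : Fin s ⊕ (Fin m ⊕ Fin m) → ℝ | ∀ i, |y i| ≤ G}ᶜ ⊆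
        ⋃ i, {y | y i ∈ {x : ℝ | G < |x|}} := by
      intro y hy
      rw [mem_compl_iff, mem_ofPred_eq] at hy
      push Not at hy
      obtain ⟨i, hi⟩ := hy
      exact mem_iUnion.mpr ⟨i, hi⟩
    calc P {y | ∀ i, |y i| ≤ G}ᶜ ≤ P (⋃ i, {y | y i ∈ {x : ℝ | G < |x|}}) := measure_mono hsub
      _ ≤ ∑ i, P {y | y i ∈ {x : ℝ | G < |x|}} := measure_iUnion_fintype_le _ _
      _ ≤ ∑ _i : Fin s ⊕ (Fin m ⊕ Fin m), ENNReal.ofReal (1 / G ^ 2) := by
          apply Finset.sum_le_sum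
          intro i _
          rw [hP, gpi_eval i _ (measurableSet_lt measurable_const (by fun_prop))]
          exact gam_tail (by linarith)
      _ = ENNReal.ofReal ((s + 2 * m) * (1 / G ^ 2)) := by
          rw [Finset.sum_const, nsmul_eq_mul, Finset.card_univ, Fintype.card_sum, Fintype.card_sum,
            Fintype.card_fin, Fintype.card_fin, ENNReal.ofReal_mul (by positivity)]
          congr 1
          rw [← ENNReal.ofReal_natCast]
          congr 1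
          push_cast
          ring
      _ ≤ _ := ENNReal.ofReal_le_ofReal hNG
  have h2 : P {y | y (Sum.inr (Sum.inl k0)) ≠ 0}ᶜ = 0 := by
    have hset : {y : Fin s ⊕ (Fin m ⊕ Fin m) → ℝ | y (Sum.inr (Sum.inl k0)) ≠ 0}ᶜ =
        {y | y (Sum.inr (Sum.inl k0)) ∈ ({0} : Set ℝ)} := by
      ext y; simp
    rw [hset, hP, gpi_eval _ _ (measurableSet_singleton 0)]
    have := nullSingletonClass_gaussianReal (μ := 0) (v := 1) one_ne_zero
    exact measure_singleton 0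
  have h3 : ENNReal.ofReal (pA / 2) ≤ P {y | pA * m / 2 ≤
      ((Finset.univ.filter (fun k => y ∈ EAx v k)).card : ℝ)} :=
    count_ge hm P (EAx v) (EAx_meas v) hpA.le (EAx_prob hC v hv)
  have h4 : P {y | ((Finset.univ.filter (fun k => y ∈ EBx v B0 k)).card : ℝ) ≤ pA / 16 * m}ᶜ ≤
      ENNReal.ofReal (pA / 8) := by
    have := count_le hm P (EBx v B0) (EBx_meas v B0) (q := pA ^ 2 / 256) (θ := pA / 16)
      (by positivity) (by positivity) (EBx_prob hC v hv)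
    have e : {y | ((Finset.univ.filter (fun k => y ∈ EBx v B0 k)).card : ℝ) ≤ pA / 16 * m}ᶜ =
        {y | pA / 16 * m < ((Finset.univ.filter (fun k => y ∈ EBx v B0 k)).card : ℝ)} := by
      ext y; simp
    rw [e]
    refine this.trans (ENNReal.ofReal_le_ofReal ?_)
    have e2 : pA ^ 2 / 256 / (pA / 16) = pA / 16 := by field_simp; ring
    rw [e2]
    linarith
  have hcover : {y | pA * m / 2 ≤ ((Finset.univ.filter (fun k => y ∈ EAx v k)).card : ℝ)} ⊆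
      TypX v pA B0 G k0 ∪ ({y | ∀ i, |y i| ≤ G}ᶜ ∪ ({y | y (Sum.inr (Sum.inl k0)) ≠ 0}ᶜ ∪
        {y | ((Finset.univ.filter (fun k => y ∈ EBx v B0 k)).card : ℝ) ≤ pA / 16 * m}ᶜ)) := by
    intro y hy
    by_cases c1 : y ∈ {y : Fin s ⊕ (Fin m ⊕ Fin m) → ℝ | ∀ i, |y i| ≤ G}
    · by_cases c2 : y ∈ {y : Fin s ⊕ (Fin m ⊕ Fin m) → ℝ | y (Sum.inr (Sum.inl k0)) ≠ 0}
      · by_cases c3 : y ∈ {y | ((Finset.univ.filter (fun k => y ∈ EBx v B0 k)).card : ℝ) ≤
            pA / 16 * m}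
        · left; exact ⟨c1, c2, hy, c3⟩
        · right; right; right; exact c3
      · right; right; left; exact c2
    · right; left; exact c1
  have h5 : ENNReal.ofReal (pA / 2) ≤ P (TypX v pA B0 G k0) +
      (ENNReal.ofReal (pA / 8) + (0 + ENNReal.ofReal (pA / 8))) := by
    refine h3.trans ((measure_mono hcover).trans ((measure_union_le _ _).trans ?_))
    refine add_le_add le_rfl ((measure_union_le _ _).trans (add_le_add h1 ?_))
    refine (measure_union_le _ _).trans (add_le_add h2.le h4)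
  obtain ⟨q, hq0, hq⟩ : ∃ q : ℝ, 0 ≤ q ∧ P (TypX v pA B0 G k0) = ENNReal.ofReal q :=
    ⟨_, ENNReal.toReal_nonneg, (ENNReal.ofReal_toReal (measure_ne_top _ _)).symm⟩
  rw [hq] at h5 ⊢
  rw [zero_add, ← ENNReal.ofReal_add (by positivity) (by positivity),
    ← ENNReal.ofReal_add (by positivity) (by positivity),
    ENNReal.ofReal_le_ofReal_iff (by positivity)] at h5
  apply ENNReal.ofReal_le_ofReal
  linarith

end Pool.Agent.H727R4.CLT
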