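import Pool.Agent.H727R4.CLT.Stmts

set_option autoImplicit false
open MeasureTheory ProbabilityTheory Filter Topology Set Polynomial
open scoped ENNReal NNReal
open Pool.Agent.Helper553.Orth

namespace Pool.Agent.H727R4.CLT.Var

theorem gpi_split {ι ι' : Type} [Fintype ι] [Fintype ι'] (S : Set (ι → ℝ)) (T : Set (ι' → ℝ)) :
    gpi (ι ⊕ ι') {y | (fun i => y (Sum.inl i)) ∈ S ∧ (fun i => y (Sum.inr i)) ∈ T} =
      gpi ι S * gpi ι' T := by
  have h := measurePreserving_sumPiEquivProdPi (fun _ : ι ⊕ ι' => gaussianReal 0 1)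
  have h2 := h.measure_preimage_equiv (S ×ˢ T)
  rw [Measure.prod_prod] at h2
  exact h2

theorem gpi_lin_map {ι : Type} [Fintype ι] (v : ι → ℝ) :
    (gpi ι).map (fun y => ∑ j, v j * y j) =
      (gaussianReal 0 1).map (fun x => √(∑ j, v j ^ 2) * x) := by
  have h1 : (fun y : ι → ℝ => ∑ j, v j * y j) =
      (innerSL ℝ (WithLp.toLp 2 v : EuclideanSpace ℝ ι)) ∘ (WithLp.toLp 2) := by
    funext y
    simp [PiLp.inner_apply, mul_comm]
  have h2 : (gpi ι).map (WithLp.toLp 2) = stdGaussian (EuclideanSpace ℝ ι) :=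
    map_pi_eq_stdGaussian
  rw [h1, ← Measure.map_map (by fun_prop) (by fun_prop), h2, IsGaussian.map_eq_gaussianReal,
    integral_strongDual_stdGaussian, variance_dual_stdGaussian, gaussianReal_map_const_mul]
  congr 1
  · simp
  · rw [mul_one]
    apply NNReal.eq
    have h3 : ‖(innerSL ℝ (WithLp.toLp 2 v : EuclideanSpace ℝ ι))‖ ^ 2 = ∑ j, v j ^ 2 := by
      rw [innerSL_apply_norm, EuclideanSpace.real_norm_sq_eq]
    rw [h3, Real.coe_toNNReal _ (Finset.sum_nonneg (fun _ _ => sq_nonneg _))]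
    exact (Real.sq_sqrt (Finset.sum_nonneg (fun _ _ => sq_nonneg _))).symm

theorem gpi_lin {ι : Type} [Fintype ι] (v : ι → ℝ) (S : Set ℝ) (hS : MeasurableSet S) :
    gpi ι {y | ∑ j, v j * y j ∈ S} = gaussianReal 0 1 {x | √(∑ j, v j ^ 2) * x ∈ S} := by
  have h : (gpi ι).map (fun y => ∑ j, v j * y j) S =
      (gaussianReal 0 1).map (fun x => √(∑ j, v j ^ 2) * x) S := by rw [gpi_lin_map]
  rw [Measure.map_apply (by fun_prop) hS, Measure.map_apply (by fun_prop) hS] at h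
  exact h

theorem sqrt_le_nine {ι : Type} [Fintype ι] {v : ι → ℝ} (hv : ∑ j, v j ^ 2 ≤ 68) :
    √(∑ j, v j ^ 2) ≤ 9 := by
  rw [Real.sqrt_le_left (by norm_num)]
  linarith

theorem lin_small {ι : Type} [Fintype ι] {v : ι → ℝ} (hv : ∑ j, v j ^ 2 ≤ 68) :
    gaussianReal 0 1 (Icc (-(1 / 180 : ℝ)) (1 / 180)) ≤ gpi ι {y | |∑ j, v j * y j| ≤ 1 / 20} := by
  have h := gpi_lin v {x : ℝ | |x| ≤ 1 / 20} (measurableSet_le (by fun_prop) measurable_const)
  have h' : gpi ι {y | |∑ j, v j * y j| ≤ 1 / 20} =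
    gaussianReal 0 1 {x | √(∑ j, v j ^ 2) * x ∈ {x : ℝ | |x| ≤ 1 / 20}} := h
  rw [h']
  apply measure_mono
  intro x hx
  have h9 := sqrt_le_nine hv
  show |√(∑ j, v j ^ 2) * x| ≤ 1 / 20
  rw [abs_mul, abs_of_nonneg (Real.sqrt_nonneg _)]
  have hx' : |x| ≤ 1 / 180 := abs_le.mpr ⟨by linarith [hx.1], hx.2⟩
  calc √(∑ j, v j ^ 2) * |x| ≤ 9 * (1 / 180) :=
        mul_le_mul h9 hx' (abs_nonneg _) (by norm_num)
    _ = 1 / 20 := by norm_num

theorem lin_tail {ι : Type} [Fintype ι] {v : ι → ℝ} (hv : ∑ j, v j ^ 2 ≤ 68) {N : ℝ} (hN : 0 < N) :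
    gpi ι {y | N < |∑ j, v j * y j|} ≤ ENNReal.ofReal (81 / N ^ 2) := by
  have h := gpi_lin v {x : ℝ | N < |x|} (measurableSet_lt measurable_const (by fun_prop))
  have h' : gpi ι {y | N < |∑ j, v j * y j|} =
    gaussianReal 0 1 {x | √(∑ j, v j ^ 2) * x ∈ {x : ℝ | N < |x|}} := h
  rw [h']
  have h9 := sqrt_le_nine hv
  have hsub : {x : ℝ | √(∑ j, v j ^ 2) * x ∈ {x : ℝ | N < |x|}} ⊆ {x : ℝ | N / 9 < |x|} := by
    intro x hx
    have hx' : N < |√(∑ j, v j ^ 2) * x| := hx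
    rw [abs_mul, abs_of_nonneg (Real.sqrt_nonneg _)] at hx'
    show N / 9 < |x|
    have := mul_le_mul_of_nonneg_right h9 (abs_nonneg x)
    linarith
  refine (measure_mono hsub).trans ((gam_tail (by positivity)).trans (le_of_eq ?_))
  congr 1
  field_simp
  norm_num

theorem gpi_inl {ι ι' : Type} [Fintype ι] [Fintype ι'] (S : Set (ι → ℝ)) :
    gpi (ι ⊕ ι') {y | (fun i => y (Sum.inl i)) ∈ S} = gpi ι S := by
  have h := gpi_split (ι' := ι') S univ
  rw [measure_univ, mul_one] at h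
  rw [← h]
  congr 1
  ext y
  simp

end Pool.Agent.H727R4.CLT.Var
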