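import Pool.Agent.H727R4.CLT.VarG

set_option autoImplicit false
open MeasureTheory ProbabilityTheory Filter Topology Set Polynomial
open scoped ENNReal NNReal
open Pool.Agent.Helper553.Orth

namespace Pool.Agent.H727R4.CLT.Var

/-- Numerical constants. -/
structure CstV (pA pb B0 : ℝ) : Prop where
  hpA : 0 < pA
  hpb : 0 < pb
  hB0 : 2 ≤ B0
  hA : ENNReal.ofReal pA ≤ gaussianReal 0 1 (Icc (-(1 / 180 : ℝ)) (1 / 180)) *
    (gaussianReal 0 1 {x : ℝ | |x + 1| ≤ 1 / 10} * gaussianReal 0 1 {x : ℝ | |x - 2| ≤ 1 / 10})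
  hT : 3524 / B0 ^ 2 ≤ pA ^ 2 / 128
  h1 : ENNReal.ofReal pb ≤ gaussianReal 0 1 (Icc 1 (11 / 10))
  h2 : ENNReal.ofReal pb ≤ gaussianReal 0 1 (Icc B0 (B0 + 1))

theorem exists_cstV : ∃ pA pb B0 : ℝ, CstV pA pb B0 := by
  have hS : {x : ℝ | |x + 1| ≤ 1 / 10} = Icc (-11 / 10) (-9 / 10) := by
    ext x; rw [mem_ofPred_eq, abs_le, mem_Icc]
    constructor <;> intro h <;> constructor <;> linarith [h.1, h.2]
  have hT : {x : ℝ | |x - 2| ≤ 1 / 10} = Icc (19 / 10) (21 / 10) := by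
    ext x; rw [mem_ofPred_eq, abs_le, mem_Icc]
    constructor <;> intro h <;> constructor <;> linarith [h.1, h.2]
  have p0 : 0 < gaussianReal 0 1 (Icc (-(1 / 180 : ℝ)) (1 / 180)) := gam_Icc_pos (by norm_num)
  have p1 : 0 < gaussianReal 0 1 (Icc (-11 / 10) (-9 / 10)) := gam_Icc_pos (by norm_num)
  have p2 : 0 < gaussianReal 0 1 (Icc (19 / 10) (21 / 10)) := gam_Icc_pos (by norm_num)
  set pA : ℝ := (gaussianReal 0 1 (Icc (-(1 / 180 : ℝ)) (1 / 180))).toReal *
    ((gaussianReal 0 1 (Icc (-11 / 10) (-9 / 10))).toReal *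
    (gaussianReal 0 1 (Icc (19 / 10) (21 / 10))).toReal) with hpA
  have hpA0 : 0 < pA := mul_pos (ENNReal.toReal_pos p0.ne' (measure_ne_top _ _))
    (mul_pos (ENNReal.toReal_pos p1.ne' (measure_ne_top _ _))
    (ENNReal.toReal_pos p2.ne' (measure_ne_top _ _)))
  obtain ⟨B0, hB0⟩ : ∃ B0 : ℝ, B0 = 2 + 1000 / pA := ⟨_, rfl⟩
  have hpp : 0 < 1000 / pA := by positivity
  have hB01 : 2 ≤ B0 := by rw [hB0]; linarith
  have q1 : 0 < gaussianReal 0 1 (Icc (1 : ℝ) (11 / 10)) := gam_Icc_pos (by norm_num)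
  have q2 : 0 < gaussianReal 0 1 (Icc B0 (B0 + 1)) := gam_Icc_pos (by linarith)
  refine ⟨pA, min (gaussianReal 0 1 (Icc (1 : ℝ) (11 / 10))).toReal
    (gaussianReal 0 1 (Icc B0 (B0 + 1))).toReal, B0, hpA0, ?_, hB01, ?_, ?_, ?_, ?_⟩
  · exact lt_min (ENNReal.toReal_pos q1.ne' (measure_ne_top _ _))
      (ENNReal.toReal_pos q2.ne' (measure_ne_top _ _))
  · rw [hS, hT, hpA, ENNReal.ofReal_mul ENNReal.toReal_nonneg,
      ENNReal.ofReal_mul ENNReal.toReal_nonneg,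
      ENNReal.ofReal_toReal (measure_ne_top _ _), ENNReal.ofReal_toReal (measure_ne_top _ _),
      ENNReal.ofReal_toReal (measure_ne_top _ _)]
  · rw [div_le_div_iff₀ (by positivity) (by norm_num)]
    have e1 : 1000 ≤ pA * B0 := by
      rw [hB0]
      have : pA * (2 + 1000 / pA) = 2 * pA + 1000 := by field_simp
      rw [this]; linarith
    nlinarith
  · calc ENNReal.ofReal _ ≤ ENNReal.ofReal (gaussianReal 0 1 (Icc (1 : ℝ) (11 / 10))).toReal :=
          ENNReal.ofReal_le_ofReal (min_le_left _ _)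
      _ = _ := ENNReal.ofReal_toReal (measure_ne_top _ _)
  · calc ENNReal.ofReal _ ≤ ENNReal.ofReal (gaussianReal 0 1 (Icc B0 (B0 + 1))).toReal :=
          ENNReal.ofReal_le_ofReal (min_le_right _ _)
      _ = _ := ENNReal.ofReal_toReal (measure_ne_top _ _)

/-- Events for one dipole. -/
def VA (s m : ℕ) (v : Fin m → Fin s → ℝ) (k : Fin m) : Set (Fin s ⊕ (Fin m ⊕ Fin m) → ℝ) :=
  {y | |∑ j, v k j * y (Sum.inl j)| ≤ 1 / 20 ∧
    |y (Sum.inr (Sum.inl k)) + 1| ≤ 1 / 10 ∧ |y (Sum.inr (Sum.inr k)) - 2| ≤ 1 / 10}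
def VB (s m : ℕ) (v : Fin m → Fin s → ℝ) (B0 : ℝ) (k : Fin m) :
    Set (Fin s ⊕ (Fin m ⊕ Fin m) → ℝ) :=
  {y | ¬ (|∑ j, v k j * y (Sum.inl j)| ≤ B0 / 2 ∧
    |y (Sum.inr (Sum.inl k))| ≤ B0 / 40 ∧ |y (Sum.inr (Sum.inr k))| ≤ B0 / 40)}

open Classical in
/-- Typical configurations. -/
def TV (s m : ℕ) (v : Fin m → Fin s → ℝ) (pA B0 G : ℝ) (k0 : Fin m) :
    Set (Fin s ⊕ (Fin m ⊕ Fin m) → ℝ) :=
  {y | (∀ i, |y i| ≤ G) ∧ y (Sum.inr (Sum.inl k0)) ≠ 0 ∧
    pA * m / 2 ≤ ((Finset.univ.filter (fun k => y ∈ VA s m v k)).card : ℝ) ∧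
    ((Finset.univ.filter (fun k => y ∈ VB s m v B0 k)).card : ℝ) ≤ pA / 16 * m}

theorem VA_meas (s m : ℕ) (v : Fin m → Fin s → ℝ) (k : Fin m) : MeasurableSet (VA s m v k) := by
  have h0 : MeasurableSet {y : Fin s ⊕ (Fin m ⊕ Fin m) → ℝ |
      |∑ j, v k j * y (Sum.inl j)| ≤ 1 / 20} := measurableSet_le (by fun_prop) measurable_const
  have h1 : MeasurableSet {y : Fin s ⊕ (Fin m ⊕ Fin m) → ℝ |
      |y (Sum.inr (Sum.inl k)) + 1| ≤ 1 / 10} := measurableSet_le (by fun_prop) measurable_const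
  have h2 : MeasurableSet {y : Fin s ⊕ (Fin m ⊕ Fin m) → ℝ |
      |y (Sum.inr (Sum.inr k)) - 2| ≤ 1 / 10} := measurableSet_le (by fun_prop) measurable_const
  exact h0.inter (h1.inter h2)

theorem VB_meas (s m : ℕ) (v : Fin m → Fin s → ℝ) (B0 : ℝ) (k : Fin m) :
    MeasurableSet (VB s m v B0 k) := by
  have h0 : MeasurableSet {y : Fin s ⊕ (Fin m ⊕ Fin m) → ℝ |
      |∑ j, v k j * y (Sum.inl j)| ≤ B0 / 2} := measurableSet_le (by fun_prop) measurable_const
  have h1 : MeasurableSet {y : Fin s ⊕ (Fin m ⊕ Fin m) → ℝ |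
      |y (Sum.inr (Sum.inl k))| ≤ B0 / 40} := measurableSet_le (by fun_prop) measurable_const
  have h2 : MeasurableSet {y : Fin s ⊕ (Fin m ⊕ Fin m) → ℝ |
      |y (Sum.inr (Sum.inr k))| ≤ B0 / 40} := measurableSet_le (by fun_prop) measurable_const
  exact (h0.inter (h1.inter h2)).compl

theorem TV_meas (s m : ℕ) (v : Fin m → Fin s → ℝ) (pA B0 G : ℝ) (k0 : Fin m) :
    MeasurableSet (TV s m v pA B0 G k0) := by
  classical
  unfold TV
  apply MeasurableSet.inter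
  · have : {y : Fin s ⊕ (Fin m ⊕ Fin m) → ℝ | ∀ i, |y i| ≤ G} = ⋂ i, {y | |y i| ≤ G} := by
      ext y; simp
    show MeasurableSet {y : Fin s ⊕ (Fin m ⊕ Fin m) → ℝ | ∀ i, |y i| ≤ G}
    rw [this]
    apply MeasurableSet.iInter
    intro i
    apply measurableSet_le _ measurable_const
    fun_prop
  apply MeasurableSet.inter
  · show MeasurableSet {y : Fin s ⊕ (Fin m ⊕ Fin m) → ℝ | y (Sum.inr (Sum.inl k0)) ≠ 0}
    apply MeasurableSet.compl
    apply measurableSet_eq_fun _ measurable_const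
    fun_prop
  apply MeasurableSet.inter
  · exact measurableSet_le measurable_const (count_measurable _ (VA_meas s m v))
  · exact measurableSet_le (count_measurable _ (VB_meas s m v B0)) measurable_const

theorem TV_prob {pA pb B0 : ℝ} (hC : CstV pA pb B0) {s m : ℕ} (hm : 1 ≤ m)
    {v : Fin m → Fin s → ℝ} (hv : ∀ k, ∑ j, v k j ^ 2 ≤ 68) {G : ℝ} (hG : 1 ≤ G)
    (hNG : (s + 2 * m) * (1 / G ^ 2) ≤ pA / 8) (k0 : Fin m) :
    ENNReal.ofReal (pA / 4) ≤ gpi (Fin s ⊕ (Fin m ⊕ Fin m)) (TV s m v pA B0 G k0) := by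
  classical
  set P := gpi (Fin s ⊕ (Fin m ⊕ Fin m)) with hP
  have hpA := hC.hpA
  have hB0 := hC.hB0
  -- first event
  have h1 : P {y | ∀ i, |y i| ≤ G}ᶜ ≤ ENNReal.ofReal (pA / 8) := by
    have hsub : {y : Fin s ⊕ (Fin m ⊕ Fin m) → ℝ | ∀ i, |y i| ≤ G}ᶜ ⊆
        ⋃ i, {y | y i ∈ {x : ℝ | G < |x|}} := by
      intro y hy
      rw [mem_compl_iff, mem_ofPred_eq] at hy
      push Not at hy
      obtain ⟨i, hi⟩ := hy
      exact mem_iUnion.mpr ⟨i, hi⟩
    calc P {y | ∀ i, |y i| ≤ G}ᶜ ≤ P (⋃ i, {y | y i ∈ {x : ℝ | G < |x|}}) := measure_mono hsub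
      _ ≤ ∑ i, P {y | y i ∈ {x : ℝ | G < |x|}} := measure_iUnion_fintype_le _ _
      _ ≤ ∑ _i : Fin s ⊕ (Fin m ⊕ Fin m), ENNReal.ofReal (1 / G ^ 2) := by
          apply Finset.sum_le_sum
          intro i _
          rw [hP, gpi_eval i _ (measurableSet_lt measurable_const (by fun_prop))]
          exact gam_tail (by linarith)
      _ = ENNReal.ofReal ((s + 2 * m) * (1 / G ^ 2)) := by
          rw [Finset.sum_const, nsmul_eq_mul, Finset.card_univ, Fintype.card_sum, Fintype.card_sum,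
            Fintype.card_fin, Fintype.card_fin, ENNReal.ofReal_mul (by positivity)]
          congr 1
          rw [← ENNReal.ofReal_natCast]
          congr 1
          push_cast
          ring
      _ ≤ _ := ENNReal.ofReal_le_ofReal hNG
  -- second event
  have h2 : P {y | y (Sum.inr (Sum.inl k0)) ≠ 0}ᶜ = 0 := by
    have hset : {y : Fin s ⊕ (Fin m ⊕ Fin m) → ℝ | y (Sum.inr (Sum.inl k0)) ≠ 0}ᶜ =
        {y | y (Sum.inr (Sum.inl k0)) ∈ ({0} : Set ℝ)} := by
      ext y; simp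
    rw [hset, hP, gpi_eval _ _ (measurableSet_singleton 0)]
    have := nullSingletonClass_gaussianReal (μ := 0) (v := 1) one_ne_zero
    exact measure_singleton 0
  -- third event
  have h3 : ENNReal.ofReal (pA / 2) ≤ P {y | pA * m / 2 ≤
      ((Finset.univ.filter (fun k => y ∈ VA s m v k)).card : ℝ)} := by
    apply count_ge hm P (VA s m v) (VA_meas s m v) hpA.le
    intro k
    have hne : (Sum.inl k : Fin m ⊕ Fin m) ≠ Sum.inr k := by simp
    have e1 := gpi_pair hne {x : ℝ | |x + 1| ≤ 1 / 10} {x : ℝ | |x - 2| ≤ 1 / 10}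
    have e2 := gpi_split (ι := Fin s) (ι' := Fin m ⊕ Fin m)
      {z | |∑ j, v k j * z j| ≤ 1 / 20}
      {w | w (Sum.inl k) ∈ {x : ℝ | |x + 1| ≤ 1 / 10} ∧ w (Sum.inr k) ∈ {x : ℝ | |x - 2| ≤ 1 / 10}}
    have e3 : P (VA s m v k) = gpi (Fin s) {z | |∑ j, v k j * z j| ≤ 1 / 20} *
        (gaussianReal 0 1 {x : ℝ | |x + 1| ≤ 1 / 10} *
          gaussianReal 0 1 {x : ℝ | |x - 2| ≤ 1 / 10}) := by
      rw [← e1, ← e2]
      rfl
    rw [e3]
    exact hC.hA.trans (mul_le_mul_left (lin_small (hv k)) _)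
  -- fourth event
  have h4 : P {y | ((Finset.univ.filter (fun k => y ∈ VB s m v B0 k)).card : ℝ) ≤ pA / 16 * m}ᶜ ≤
      ENNReal.ofReal (pA / 8) := by
    have hq : ∀ k, P (VB s m v B0 k) ≤ ENNReal.ofReal (pA ^ 2 / 128) := by
      intro k
      have hsub : VB s m v B0 k ⊆ {y | (fun j => y (Sum.inl j)) ∈
            {z : Fin s → ℝ | B0 / 2 < |∑ j, v k j * z j|}} ∪
          ({y | y (Sum.inr (Sum.inl k)) ∈ {x : ℝ | B0 / 40 < |x|}} ∪
          {y | y (Sum.inr (Sum.inr k)) ∈ {x : ℝ | B0 / 40 < |x|}}) := by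
        intro y hy
        unfold VB at hy
        rw [mem_ofPred_eq, not_and_or, not_and_or, not_le, not_le, not_le] at hy
        exact hy
      have hmeas : MeasurableSet {x : ℝ | B0 / 40 < |x|} :=
        measurableSet_lt measurable_const (by fun_prop)
      refine (measure_mono hsub).trans ((measure_union_le _ _).trans
        ((add_le_add le_rfl (measure_union_le _ _)).trans ?_))
      rw [hP, gpi_inl, gpi_eval _ _ hmeas, gpi_eval _ _ hmeas]
      have t1 : gpi (Fin s) {z : Fin s → ℝ | B0 / 2 < |∑ j, v k j * z j|} ≤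
          ENNReal.ofReal (324 / B0 ^ 2) := by
        refine (lin_tail (hv k) (by positivity : (0 : ℝ) < B0 / 2)).trans (le_of_eq ?_)
        congr 1
        field_simp
        norm_num
      have t2 : gaussianReal 0 1 {x : ℝ | B0 / 40 < |x|} ≤ ENNReal.ofReal (1600 / B0 ^ 2) := by
        refine (gam_tail (by positivity : (0 : ℝ) < B0 / 40)).trans (le_of_eq ?_)
        congr 1
        field_simp
        norm_num
      refine (add_le_add t1 (add_le_add t2 t2)).trans ?_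
      rw [← ENNReal.ofReal_add (by positivity) (by positivity),
        ← ENNReal.ofReal_add (by positivity) (by positivity)]
      apply ENNReal.ofReal_le_ofReal
      refine le_trans (le_of_eq ?_) hC.hT
      ring
    have := count_le hm P (VB s m v B0) (VB_meas s m v B0) (q := pA ^ 2 / 128) (θ := pA / 16)
      (by positivity) (by positivity) hq
    have e : {y | ((Finset.univ.filter (fun k => y ∈ VB s m v B0 k)).card : ℝ) ≤
        pA / 16 * m}ᶜ =
        {y | pA / 16 * m < ((Finset.univ.filter (fun k => y ∈ VB s m v B0 k)).card : ℝ)} := by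
      ext y; simp
    rw [e]
    refine this.trans (le_of_eq ?_)
    congr 1
    field_simp
    ring
  have hcover : {y | pA * m / 2 ≤ ((Finset.univ.filter (fun k => y ∈ VA s m v k)).card : ℝ)} ⊆
      TV s m v pA B0 G k0 ∪ ({y | ∀ i, |y i| ≤ G}ᶜ ∪ ({y | y (Sum.inr (Sum.inl k0)) ≠ 0}ᶜ ∪
        {y | ((Finset.univ.filter (fun k => y ∈ VB s m v B0 k)).card : ℝ) ≤
          pA / 16 * m}ᶜ)) := by
    intro y hy
    by_cases c1 : y ∈ {y : Fin s ⊕ (Fin m ⊕ Fin m) → ℝ | ∀ i, |y i| ≤ G}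
    · by_cases c2 : y ∈ {y : Fin s ⊕ (Fin m ⊕ Fin m) → ℝ | y (Sum.inr (Sum.inl k0)) ≠ 0}
      · by_cases c3 : y ∈ {y | ((Finset.univ.filter (fun k => y ∈ VB s m v B0 k)).card : ℝ) ≤
            pA / 16 * m}
        · left; exact ⟨c1, c2, hy, c3⟩
        · right; right; right; exact c3
      · right; right; left; exact c2
    · right; left; exact c1
  have h5 : ENNReal.ofReal (pA / 2) ≤ P (TV s m v pA B0 G k0) +
      (ENNReal.ofReal (pA / 8) + (0 + ENNReal.ofReal (pA / 8))) := by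
    refine h3.trans ((measure_mono hcover).trans ((measure_union_le _ _).trans ?_))
    refine add_le_add le_rfl ((measure_union_le _ _).trans (add_le_add h1 ?_))
    refine (measure_union_le _ _).trans (add_le_add h2.le h4)
  obtain ⟨q, hq0, hq⟩ : ∃ q : ℝ, 0 ≤ q ∧ P (TV s m v pA B0 G k0) = ENNReal.ofReal q :=
    ⟨_, ENNReal.toReal_nonneg, (ENNReal.ofReal_toReal (measure_ne_top _ _)).symm⟩
  rw [hq] at h5 ⊢
  rw [zero_add, ← ENNReal.ofReal_add (by positivity) (by positivity),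
    ← ENNReal.ofReal_add (by positivity) (by positivity),
    ENNReal.ofReal_le_ofReal_iff (by positivity)] at h5
  apply ENNReal.ofReal_le_ofReal
  linarith

end Pool.Agent.H727R4.CLT.Var
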