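import Pool.Agent.H727R4.CLT.TypX

set_option autoImplicit false
open MeasureTheory ProbabilityTheory Filter Topology Set Polynomial
open scoped ENNReal NNReal
open Pool.Agent.Helper553.Orth

namespace Pool.Agent.H727R4.CLT

variable {s m : ℕ}

/-- The polynomial R. -/
noncomputable def Rp (s : ℕ) {m : ℕ} (q : ℕ → ℝ[X]) (y : Fin s ⊕ (Fin m ⊕ Fin m) → ℝ) : ℝ[X] :=
  ∑ j : Fin s, C (y (Sum.inl j)) * q j

theorem rp_fr (x : Fin m → ℝ) (d : ℝ) (q : ℕ → ℝ[X]) (τ b : ℝ)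
    (y : Fin s ⊕ (Fin m ⊕ Fin m) → ℝ) :
    rp (fr x d s q τ) (Sum.elim (fun _ : Unit => b) y) =
      Px x d (q s) (Rp s q y) (fun k => y (Sum.inr (Sum.inl k))) (fun k => y (Sum.inr (Sum.inr k)))
        b τ := by
  have e1 : rp (fr x d s q τ) (Sum.elim (fun _ : Unit => b) y) =
      C b * (WW x d * q s) + (∑ j : Fin s, C (y (Sum.inl j)) * (WW x d * q j) +
        (∑ k : Fin m, C (y (Sum.inr (Sum.inl k))) *
            (C τ * (q s * (Wr x d k * (X - C (x k + d))))) +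
          ∑ k : Fin m, C (y (Sum.inr (Sum.inr k))) *
            (C τ * (q s * (Wr x d k * (X - C (x k))))))) := by
    unfold rp
    rw [Fintype.sum_sum_type, Fintype.sum_sum_type, Fintype.sum_sum_type, Fintype.sum_unique]
    rfl
  have e2 : WW x d * Rp s q y = ∑ j : Fin s, C (y (Sum.inl j)) * (WW x d * q j) := by
    unfold Rp
    rw [Finset.mul_sum]
    apply Finset.sum_congr rfl
    intro j _
    ring
  have e3 : C τ * (q s * ∑ k, Wr x d k * (C (y (Sum.inr (Sum.inl k))) * (X - C (x k + d)) +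
      C (y (Sum.inr (Sum.inr k))) * (X - C (x k)))) =
      ∑ k : Fin m, C (y (Sum.inr (Sum.inl k))) *
            (C τ * (q s * (Wr x d k * (X - C (x k + d))))) +
          ∑ k : Fin m, C (y (Sum.inr (Sum.inr k))) *
            (C τ * (q s * (Wr x d k * (X - C (x k))))) := by
    rw [Finset.mul_sum, Finset.mul_sum, ← Finset.sum_add_distrib]
    apply Finset.sum_congr rfl
    intro k _
    ring
  rw [e1]
  unfold Px Zx
  rw [e2, e3]

/-- Numerical requirements. -/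
structure NumX (pA pb : ℝ) (s m : ℕ) (Λ : ℝ) : Prop where
  hΛ : 1000 ≤ Λ
  hn : 1000 * ((s : ℝ) + 2 * m) ≤ Λ
  hA : 1 / Λ ≤ pA / 8
  hb : 1 / Λ ≤ pb / 4

theorem hx_of {pA pb Λ : ℝ} (hN : NumX pA pb s m Λ) (hm : 1 ≤ m) {x : Fin m → ℝ} {q : ℕ → ℝ[X]}
    (hF : FX m x s (Λ ^ 8)⁻¹ Λ q) (y : Fin s ⊕ (Fin m ⊕ Fin m) → ℝ) (hy : ∀ i, |y i| ≤ Λ) :
    ∃ ζ ζ1 ζ2 : ℝ → ℝ, HX m x (Λ ^ 40)⁻¹ (Λ ^ 8)⁻¹ Λ (Λ ^ 3) (Λ ^ 3)⁻¹ s (q s) (Rp s q y)
      (fun k => y (Sum.inr (Sum.inl k))) (fun k => y (Sum.inr (Sum.inr k))) ζ ζ1 ζ2 := by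
  have hΛ := hN.hΛ
  have hn := hN.hn
  have hΛ0 : 0 < Λ := by linarith
  have hΛ1 : 1 ≤ Λ := by linarith
  have hmR : (1 : ℝ) ≤ m := by exact_mod_cast hm
  have hsR : (0 : ℝ) ≤ s := Nat.cast_nonneg s
  obtain ⟨ζ, ζ1, ζ2, hζ⟩ := hF.hC2 (fun j => y (Sum.inl j))
  have hsq : √(∑ j : Fin s, y (Sum.inl j) ^ 2) ≤ Λ ^ 2 := by
    rw [Real.sqrt_le_left (by positivity)]
    calc ∑ j : Fin s, y (Sum.inl j) ^ 2 ≤ ∑ _j : Fin s, Λ ^ 2 := by
          apply Finset.sum_le_sum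
          intro j _
          rw [← sq_abs]
          exact pow_le_pow_left₀ (abs_nonneg _) (hy _) 2
      _ = s * Λ ^ 2 := by rw [Finset.sum_const, nsmul_eq_mul, Finset.card_univ, Fintype.card_fin]
      _ ≤ Λ ^ 2 * Λ ^ 2 := by
          apply mul_le_mul_of_nonneg_right _ (by positivity)
          calc (s : ℝ) ≤ Λ := by linarith
            _ ≤ Λ ^ 2 := le_self_pow₀ hΛ1 (by norm_num)
      _ = (Λ ^ 2) ^ 2 := by ring
  have hbd : Λ * √(∑ j : Fin s, y (Sum.inl j) ^ 2) ≤ Λ ^ 3 := by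
    calc Λ * √(∑ j : Fin s, y (Sum.inl j) ^ 2) ≤ Λ * Λ ^ 2 := mul_le_mul_of_nonneg_left hsq hΛ0.le
      _ = Λ ^ 3 := by ring
  have hpow : ∀ k : ℕ, 1 ≤ k → Λ ≤ Λ ^ k := fun k hk => le_self_pow₀ hΛ1 (by omega)
  refine ⟨ζ, ζ1, ζ2, hm, by positivity, ?_, by positivity, ?_, hF.hsep, hF.hdeg s le_rfl, ?_,
    hF.hQ0, ?_, ?_, fun k => hy _, fun k => hy _, hΛ1, ?_, by positivity, ?_, ?_, ?_⟩
  · rw [one_div]
    exact inv_anti₀ (by norm_num) (hΛ.trans (hpow 8 (by norm_num)))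
  · have e : Λ ^ 40 = Λ ^ 8 * Λ ^ 32 := by rw [← pow_add]
    rw [e, mul_inv, div_eq_mul_inv]
    apply mul_le_mul_of_nonneg_left _ (by positivity)
    exact inv_anti₀ (by norm_num) (by have := hpow 32 (by norm_num); linarith)
  · unfold Rp
    apply natDegree_sum_le_of_forall_le
    intro j _
    exact (natDegree_C_mul_le _ _).trans (hF.hdeg j j.2.le)
  · intro k t ht
    rw [← (hζ k t ht).1]
    unfold Rp
    rw [eval_finsetSum]
    apply Finset.sum_congr rfl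
    intro j _
    rw [eval_mul, eval_C]
  · intro k t ht
    obtain ⟨_, h2, h3, h4, h5⟩ := hζ k t ht
    exact ⟨h2, h3, h4.trans hbd, h5.trans hbd⟩
  · exact one_le_pow₀ hΛ1
  · rw [one_div]
    exact inv_anti₀ (by norm_num) (hΛ.trans (hpow 3 (by norm_num)))
  · have e : (Λ ^ 8)⁻¹ * Λ ^ 3 = (Λ ^ 3)⁻¹ * (Λ ^ 2)⁻¹ := by
      field_simp
    rw [e, div_eq_mul_inv]
    apply mul_le_mul_of_nonneg_left _ (by positivity)
    apply inv_anti₀ (by norm_num)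
    nlinarith
  · have e : (Λ ^ 3)⁻¹ * ((Λ ^ 8)⁻¹) ^ 3 / 100 = (Λ ^ 40)⁻¹ * (Λ ^ 13 / 100) := by
      have e1 : Λ ^ 40 = Λ ^ 3 * (Λ ^ 8) ^ 3 * Λ ^ 13 := by ring
      rw [e1]
      field_simp
    rw [e]
    apply mul_le_mul_of_nonneg_left _ (by positivity)
    have e2 : (m : ℝ) ≤ Λ / 2000 := by linarith
    have e3 : Λ ^ 13 = Λ * (Λ * Λ ^ 11) := by ring
    have e4 : 1 ≤ Λ ^ 11 := one_le_pow₀ hΛ1
    have e5 : (m : ℝ) * Λ ≤ Λ / 2000 * Λ := mul_le_mul_of_nonneg_right e2 hΛ0.le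
    have e6 : Λ * Λ ≤ Λ * (Λ * Λ ^ 11) := by
      apply mul_le_mul_of_nonneg_left _ hΛ0.le
      nlinarith
    rw [e3]
    nlinarith

theorem inner_typX (hO : TaskOut) (hCm : TaskCmp) {pA pb B0 Λ : ℝ} (hC : CstX pA pb B0)
    (hN : NumX pA pb s m Λ) (hm : 1 ≤ m) {x : Fin m → ℝ} {q : ℕ → ℝ[X]}
    (hF : FX m x s (Λ ^ 8)⁻¹ Λ q) (k0 : Fin m) (y : Fin s ⊕ (Fin m ⊕ Fin m) → ℝ)
    (hy : y ∈ TypX (fun (k : Fin m) (j : Fin s) => (q j).eval (x k) / (q s).eval (x k)) pA B0 Λ k0) (c1 c2 : ℝ) :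
    ENNReal.ofReal (pb / 2 * ((pA * m - pA * m / 8) ^ 2 / 8)) ≤
      ∫⁻ b, ENNReal.ofReal
        (((nr (rp (fr x (Λ ^ 40)⁻¹ s q (Λ ^ 40)⁻¹) (Sum.elim (fun _ : Unit => b) y)) : ℝ) - c1) ^ 2 +
        ((nr (rp (fr x (Λ ^ 40)⁻¹ s q (Λ ^ 50)⁻¹) (Sum.elim (fun _ : Unit => b) y)) : ℝ)
          - c2) ^ 2) ∂(gaussianReal 0 1) := by
  classical
  obtain ⟨hyG, hy0, hyA, hyB⟩ := hy
  obtain ⟨ζ, ζ1, ζ2, hH⟩ := hx_of hN hm hF y hyG
  have hΛ := hN.hΛ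
  have hn := hN.hn
  have hΛ0 : 0 < Λ := by linarith
  have hΛ1 : 1 ≤ Λ := by linarith
  have hmR : (1 : ℝ) ≤ m := by exact_mod_cast hm
  have hsR : (0 : ℝ) ≤ s := Nat.cast_nonneg s
  have hpA := hC.hpA
  have hpb := hC.hpb
  have hB0 := hC.hB0
  obtain ⟨v, hv⟩ : ∃ v : Fin m → Fin s → ℝ, v = fun (k : Fin m) (j : Fin s) => (q j).eval (x k) / (q s).eval (x k) :=
    ⟨_, rfl⟩
  rw [← hv] at hyA hyB
  have hℓ0 : 0 < (Λ ^ 8)⁻¹ := by positivity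
  have hζv : ∀ k, ζ (x k) = zt v k y := by
    intro k
    have hk : x k ∈ Icc (x k - (Λ ^ 8)⁻¹) (x k + (Λ ^ 8)⁻¹) := ⟨by linarith, by linarith⟩
    have h1 := hH.hRζ k (x k) hk
    have h2 := hH.hQ0 k (x k) hk
    unfold zt
    have e1 : ζ (x k) = (Rp s q y).eval (x k) / (q s).eval (x k) := by
      rw [h1]; field_simp
    rw [e1, hv]
    unfold Rp
    rw [eval_finsetSum, Finset.sum_div]
    apply Finset.sum_congr rfl
    intro j _
    rw [eval_mul, eval_C]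
    ring
  have hd50 : (Λ ^ 50)⁻¹ ≤ (Λ ^ 40)⁻¹ :=
    inv_anti₀ (by positivity) (pow_le_pow_right₀ hΛ1 (by norm_num))
  obtain ⟨F, hFc, hFe⟩ := hO m x _ _ _ _ _ s _ _ _ _ ζ ζ1 ζ2 hH k0 hy0 (Λ ^ 40)⁻¹ (Λ ^ 50)⁻¹
    (by positivity) le_rfl (by positivity) hd50
  obtain ⟨δ, hδ⟩ : ∃ δ : ℝ, δ = (Λ ^ 40)⁻¹ * (m * (3 * Λ / (Λ ^ 8)⁻¹)) := ⟨_, rfl⟩
  rw [← hδ] at hFe
  have hδ0 : 0 ≤ δ := by rw [hδ]; positivity
  obtain ⟨ε, hε⟩ : ∃ ε : ℝ, ε = (Λ ^ 3)⁻¹ := ⟨_, rfl⟩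
  have hε0 : 0 ≤ ε := by rw [hε]; positivity
  let F' : Finset ℝ := Finset.univ.image (fun k : Fin m => -ζ (x k))
  have hF'c : (F'.card : ℝ) ≤ m := by
    have : F'.card ≤ m := Finset.card_image_le.trans (by rw [Finset.card_univ, Fintype.card_fin])
    exact_mod_cast this
  set Bad1 : Set ℝ := {b : ℝ | ∃ f ∈ F, |b - f| ≤ δ} with hBad1
  set Bad2 : Set ℝ := {b : ℝ | ∃ f ∈ F', |b - f| ≤ ε} with hBad2
  have hBm : ∀ (F : Finset ℝ) (δ : ℝ), MeasurableSet {b : ℝ | ∃ f ∈ F, |b - f| ≤ δ} := by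
    intro F δ
    have : {b : ℝ | ∃ f ∈ F, |b - f| ≤ δ} = ⋃ f ∈ F, {b : ℝ | |b - f| ≤ δ} := by
      ext b; simp
    rw [this]
    apply Finset.measurableSet_biUnion
    intro f _
    exact measurableSet_le (by fun_prop) measurable_const
  have hBadm : MeasurableSet (Bad1 ∪ Bad2) := (hBm F δ).union (hBm F' ε)
  have hBad1P : gaussianReal 0 1 Bad1 ≤ ENNReal.ofReal (pb / 4) := by
    refine (gam_finset F δ hδ0).trans (ENNReal.ofReal_le_ofReal ?_)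
    refine le_trans ?_ hN.hb
    have e1 : (F.card : ℝ) ≤ Λ := by
      have h1 : (F.card : ℝ) ≤ ((18 * (s + 2 * m) + 12 * m + 16 : ℕ) : ℝ) := by exact_mod_cast hFc
      push_cast at h1
      linarith
    have e2 : δ ≤ Λ * (Λ ^ 31)⁻¹ := by
      rw [hδ, div_inv_eq_mul]
      have e3 : (Λ ^ 40)⁻¹ * (m * (3 * Λ * Λ ^ 8)) = (3 * m) * (Λ ^ 31)⁻¹ := by
        have e4 : Λ ^ 40 = Λ ^ 31 * (Λ * Λ ^ 8) := by ring
        rw [e4]
        field_simp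
      rw [e3]
      exact mul_le_mul_of_nonneg_right (by linarith) (by positivity)
    calc (F.card : ℝ) * δ ≤ Λ * (Λ * (Λ ^ 31)⁻¹) := mul_le_mul e1 e2 hδ0 hΛ0.le
      _ = (Λ ^ 29)⁻¹ := by
          have e5 : Λ ^ 31 = Λ * (Λ * Λ ^ 29) := by ring
          rw [e5]
          field_simp
      _ ≤ Λ⁻¹ := inv_anti₀ hΛ0 (le_self_pow₀ hΛ1 (by norm_num))
      _ = 1 / Λ := (one_div _).symm
  have hBad2P : gaussianReal 0 1 Bad2 ≤ ENNReal.ofReal (pb / 4) := by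
    refine (gam_finset F' ε hε0).trans (ENNReal.ofReal_le_ofReal ?_)
    refine le_trans ?_ hN.hb
    have e1 : (F'.card : ℝ) ≤ Λ := by linarith
    calc (F'.card : ℝ) * ε ≤ Λ * (Λ ^ 3)⁻¹ := by
          rw [← hε]; exact mul_le_mul_of_nonneg_right e1 hε0
      _ = (Λ ^ 2)⁻¹ := by
          have e5 : Λ ^ 3 = Λ * Λ ^ 2 := by ring
          rw [e5]
          field_simp
      _ ≤ Λ⁻¹ := inv_anti₀ hΛ0 (le_self_pow₀ hΛ1 (by norm_num))
      _ = 1 / Λ := (one_div _).symm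
  have hBadP : gaussianReal 0 1 (Bad1 ∪ Bad2) ≤ ENNReal.ofReal (pb / 2) := by
    refine (measure_union_le _ _).trans ((add_le_add hBad1P hBad2P).trans (le_of_eq ?_))
    rw [← ENNReal.ofReal_add (by positivity) (by positivity)]
    congr 1; ring
  have hdiff : ∀ S : Set ℝ, ENNReal.ofReal pb ≤ gaussianReal 0 1 S →
      ENNReal.ofReal (pb / 2) ≤ gaussianReal 0 1 (S \ (Bad1 ∪ Bad2)) := by
    intro S hS
    have h1 : gaussianReal 0 1 S ≤ gaussianReal 0 1 (S \ (Bad1 ∪ Bad2)) +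
        gaussianReal 0 1 (Bad1 ∪ Bad2) := by
      refine (measure_mono ?_).trans (measure_union_le _ _)
      intro x hx
      by_cases h : x ∈ Bad1 ∪ Bad2
      · exact Or.inr h
      · exact Or.inl ⟨hx, h⟩
    have h2 : ENNReal.ofReal pb ≤ gaussianReal 0 1 (S \ (Bad1 ∪ Bad2)) +
        ENNReal.ofReal (pb / 2) := hS.trans (h1.trans (add_le_add le_rfl hBadP))
    obtain ⟨p, hp0, hp⟩ : ∃ p : ℝ, 0 ≤ p ∧
        gaussianReal 0 1 (S \ (Bad1 ∪ Bad2)) = ENNReal.ofReal p :=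
      ⟨_, ENNReal.toReal_nonneg, (ENNReal.ofReal_toReal (measure_ne_top _ _)).symm⟩
    rw [hp] at h2 ⊢
    rw [← ENNReal.ofReal_add hp0 (by positivity), ENNReal.ofReal_le_ofReal_iff (by positivity)] at h2
    apply ENNReal.ofReal_le_ofReal
    linarith
  have hτG : (Λ ^ 50)⁻¹ * Λ ≤ (Λ ^ 3)⁻¹ * (Λ ^ 40)⁻¹ / 20 := by
    have e : (Λ ^ 3)⁻¹ * (Λ ^ 40)⁻¹ / 20 = (Λ ^ 50)⁻¹ * (Λ ^ 7 / 20) := by
      have e1 : Λ ^ 50 = Λ ^ 3 * Λ ^ 40 * Λ ^ 7 := by ring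
      rw [e1]
      field_simp
    rw [e]
    apply mul_le_mul_of_nonneg_left _ (by positivity)
    have e2 : Λ ^ 7 = Λ * Λ ^ 6 := by ring
    have e3 : Λ ≤ Λ ^ 6 := le_self_pow₀ hΛ1 (by norm_num)
    rw [e2]
    nlinarith
  have hgood : ∀ b, b ∉ Bad1 ∪ Bad2 → (∀ k, (Λ ^ 3)⁻¹ ≤ |b + ζ (x k)|) ∧
      nrx x (Λ ^ 8)⁻¹ (Px x (Λ ^ 40)⁻¹ (q s) (Rp s q y) (fun k => y (Sum.inr (Sum.inl k)))
        (fun k => y (Sum.inr (Sum.inr k))) b (Λ ^ 40)⁻¹) =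
      nrx x (Λ ^ 8)⁻¹ (Px x (Λ ^ 40)⁻¹ (q s) (Rp s q y) (fun k => y (Sum.inr (Sum.inl k)))
        (fun k => y (Sum.inr (Sum.inr k))) b (Λ ^ 50)⁻¹) := by
    intro b hb
    rw [mem_union, not_or] at hb
    constructor
    · intro k
      by_contra hcon
      push Not at hcon
      apply hb.2
      refine ⟨-ζ (x k), Finset.mem_image_of_mem _ (Finset.mem_univ k), ?_⟩
      rw [sub_neg_eq_add, hε]
      exact hcon.le
    · apply hFe
      intro f hf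
      by_contra hcon
      push Not at hcon
      exact hb.1 ⟨f, hf, hcon⟩
  apply inner_bound (S1 := Icc 1 (11 / 10) \ (Bad1 ∪ Bad2)) (S2 := Icc B0 (B0 + 1) \ (Bad1 ∪ Bad2))
    (measurableSet_Icc.diff hBadm) (measurableSet_Icc.diff hBadm) (hdiff _ hC.h1) (hdiff _ hC.h2)
  · nlinarith [mul_pos hpA (by linarith : (0 : ℝ) < m)]
  · intro b hb
    rw [rp_fr, rp_fr]
    obtain ⟨g1, g2⟩ := hgood b hb.2
    have h1 := (hCm m x _ _ _ _ _ s _ _ _ _ ζ ζ1 ζ2 hH b (Λ ^ 50)⁻¹ (by positivity) hd50 hτG g1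
      g2).1 (Finset.univ.filter (fun k => y ∈ EAx v k)) (by
        intro k hk
        have hk' : y ∈ EAx v k := (Finset.mem_filter.mp hk).2
        obtain ⟨a1, a2, a3⟩ := hk'
        rw [← hζv k, abs_le] at a1
        exact ⟨by linarith [hb.1.1], by linarith [hb.1.2], a2, a3⟩)
    have h3 : (nr (Px x (Λ ^ 40)⁻¹ (q s) (Rp s q y) (fun k => y (Sum.inr (Sum.inl k)))
        (fun k => y (Sum.inr (Sum.inr k))) b (Λ ^ 40)⁻¹) : ℝ) +
      2 * ((Finset.univ.filter (fun k => y ∈ EAx v k)).card : ℝ) ≤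
      nr (Px x (Λ ^ 40)⁻¹ (q s) (Rp s q y) (fun k => y (Sum.inr (Sum.inl k)))
        (fun k => y (Sum.inr (Sum.inr k))) b (Λ ^ 50)⁻¹) := by
      exact_mod_cast h1
    linarith
  · intro b hb
    rw [rp_fr, rp_fr]
    obtain ⟨g1, g2⟩ := hgood b hb.2
    have h1 := (hCm m x _ _ _ _ _ s _ _ _ _ ζ ζ1 ζ2 hH b (Λ ^ 50)⁻¹ (by positivity) hd50 hτG g1
      g2).2 (Finset.univ.filter (fun k => y ∈ EBx v B0 k)) (by
        intro k hk
        have hk' : y ∉ EBx v B0 k := fun h => hk (Finset.mem_filter.mpr ⟨Finset.mem_univ _, h⟩)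
        unfold EBx at hk'
        rw [mem_ofPred_eq, not_not] at hk'
        obtain ⟨a1, a2, a3⟩ := hk'
        rw [← hζv k, abs_le] at a1
        have e1 : B0 / 2 ≤ |b + ζ (x k)| := by
          rw [abs_of_nonneg (by linarith [hb.1.1])]
          linarith [hb.1.1]
        exact ⟨by linarith, by linarith⟩)
    have h3 : (nr (Px x (Λ ^ 40)⁻¹ (q s) (Rp s q y) (fun k => y (Sum.inr (Sum.inl k)))
        (fun k => y (Sum.inr (Sum.inr k))) b (Λ ^ 50)⁻¹) : ℝ) ≤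
      nr (Px x (Λ ^ 40)⁻¹ (q s) (Rp s q y) (fun k => y (Sum.inr (Sum.inl k)))
        (fun k => y (Sum.inr (Sum.inr k))) b (Λ ^ 40)⁻¹) +
        2 * ((Finset.univ.filter (fun k => y ∈ EBx v B0 k)).card : ℝ) := by
      exact_mod_cast h1
    linarith

/-- One of the two frames has large variance. -/
theorem var_altX (hO : TaskOut) (hCm : TaskCmp) {pA pb B0 Λ : ℝ} (hC : CstX pA pb B0)
    (hN : NumX pA pb s m Λ) (hm : 1 ≤ m) {x : Fin m → ℝ} {q : ℕ → ℝ[X]}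
    (hF : FX m x s (Λ ^ 8)⁻¹ Λ q) :
    ∃ τ : ℝ, (τ = (Λ ^ 40)⁻¹ ∨ τ = (Λ ^ 50)⁻¹) ∧
      VarGe (fr x (Λ ^ 40)⁻¹ s q τ) (pA ^ 3 * pb / 256 * m ^ 2) := by
  classical
  have hΛ := hN.hΛ
  have hΛ0 : 0 < Λ := by linarith
  let k0 : Fin m := ⟨0, hm⟩
  set κ := Fin s ⊕ (Fin m ⊕ Fin m) with hκ
  set v : ℝ := pA ^ 3 * pb / 256 * m ^ 2 with hv
  have hpA := hC.hpA
  have hpb := hC.hpb
  have hv68 : ∀ k, ∑ j : Fin s, ((q j).eval (x k) / (q s).eval (x k)) ^ 2 ≤ 68 := by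
    intro k
    have hℓ0 : 0 < (Λ ^ 8)⁻¹ := by positivity
    have h0 := hF.hQ0 k (x k) ⟨by linarith, by linarith⟩
    have h1 := hF.hV k
    simp_rw [div_pow]
    rw [← Finset.sum_div, div_le_iff₀ (by positivity)]
    exact h1
  by_contra hcon
  push Not at hcon
  have n1 := hcon (Λ ^ 40)⁻¹ (Or.inl rfl)
  have n2 := hcon (Λ ^ 50)⁻¹ (Or.inr rfl)
  unfold VarGe at n1 n2
  push Not at n1 n2
  obtain ⟨c1, h1⟩ := n1
  obtain ⟨c2, h2⟩ := n2
  let F1 : (Unit ⊕ κ → ℝ) → ℝ≥0∞ := fun z =>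
    ENNReal.ofReal (((nr (rp (fr x (Λ ^ 40)⁻¹ s q (Λ ^ 40)⁻¹) z) : ℝ) - c1) ^ 2)
  let F2 : (Unit ⊕ κ → ℝ) → ℝ≥0∞ := fun z =>
    ENNReal.ofReal (((nr (rp (fr x (Λ ^ 40)⁻¹ s q (Λ ^ 50)⁻¹) z) : ℝ) - c2) ^ 2)
  have hmeasN : ∀ (τ c : ℝ), Measurable (fun z : Unit ⊕ κ → ℝ =>
      ENNReal.ofReal (((nr (rp (fr x (Λ ^ 40)⁻¹ s q τ) z) : ℝ) - c) ^ 2)) := by
    intro τ c
    have h1 : Measurable (fun z : Unit ⊕ κ → ℝ => (nr (rp (fr x (Λ ^ 40)⁻¹ s q τ) z) : ℝ)) :=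
      (measurable_from_top (f := fun n : ℕ => (n : ℝ))).comp (measurable_nr _)
    exact ENNReal.measurable_ofReal.comp ((h1.sub_const c).pow_const 2)
  have hF1m : Measurable F1 := hmeasN _ c1
  have hF2m : Measurable F2 := hmeasN _ c2
  have hsum : ∫⁻ z, F1 z ∂(gpi (Unit ⊕ κ)) + ∫⁻ z, F2 z ∂(gpi (Unit ⊕ κ)) <
      ENNReal.ofReal v + ENNReal.ofReal v := ENNReal.add_lt_add h1 h2
  have hlow : ENNReal.ofReal v + ENNReal.ofReal v ≤
      ∫⁻ z, F1 z ∂(gpi (Unit ⊕ κ)) + ∫⁻ z, F2 z ∂(gpi (Unit ⊕ κ)) := by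
    rw [← lintegral_add_left hF1m]
    have hem : Measurable (fun p : ℝ × (κ → ℝ) =>
        (Sum.elim (fun _ : Unit => p.1) p.2 : Unit ⊕ κ → ℝ)) := by
      apply measurable_pi_lambda
      rintro (i | i)
      · exact measurable_fst
      · exact (measurable_pi_apply i).comp measurable_snd
    have hF12m : Measurable (fun z => F1 z + F2 z) := hF1m.add hF2m
    have hcm : Measurable (fun p : ℝ × (κ → ℝ) =>
        F1 (Sum.elim (fun _ : Unit => p.1) p.2) + F2 (Sum.elim (fun _ : Unit => p.1) p.2)) :=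
      hF12m.comp hem
    rw [← map_e, lintegral_map hF12m hem, lintegral_prod_symm' _ hcm]
    set T := TypX (fun (k : Fin m) (j : Fin s) => (q j).eval (x k) / (q s).eval (x k)) pA B0 Λ k0
      with hT
    have hTm := typX_meas (fun (k : Fin m) (j : Fin s) => (q j).eval (x k) / (q s).eval (x k))
      pA B0 Λ k0
    have hTP := typX_prob hC (fun (k : Fin m) (j : Fin s) => (q j).eval (x k) / (q s).eval (x k))
      hv68 hm (by linarith : (1 : ℝ) ≤ Λ) (by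
        have h1 := hN.hn
        have h2 := hN.hA
        refine le_trans ?_ h2
        rw [mul_one_div, div_le_div_iff₀ (by positivity) hΛ0]
        nlinarith) k0
    calc ENNReal.ofReal v + ENNReal.ofReal v
        = ENNReal.ofReal (pA / 4 * (pA ^ 2 * pb / 32 * m ^ 2)) := by
          rw [← ENNReal.ofReal_add (by positivity) (by positivity)]
          congr 1
          rw [hv]; ring
      _ ≤ ENNReal.ofReal (pb / 2 * ((pA * m - pA * m / 8) ^ 2 / 8)) * ENNReal.ofReal (pA / 4) := by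
          rw [← ENNReal.ofReal_mul (by positivity), mul_comm (pA / 4)]
          apply ENNReal.ofReal_le_ofReal
          apply mul_le_mul_of_nonneg_right _ (by positivity)
          have e : pb / 2 * ((pA * m - pA * m / 8) ^ 2 / 8) = 49 / 1024 * (pA ^ 2 * pb * m ^ 2) := by
            ring
          rw [e]
          have : 0 ≤ pA ^ 2 * pb * (m : ℝ) ^ 2 := by positivity
          linarith
      _ ≤ ENNReal.ofReal (pb / 2 * ((pA * m - pA * m / 8) ^ 2 / 8)) * gpi κ T :=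
          mul_le_mul_right hTP _
      _ = ∫⁻ _y in T, ENNReal.ofReal (pb / 2 * ((pA * m - pA * m / 8) ^ 2 / 8)) ∂(gpi κ) := by
          rw [setLIntegral_const]
      _ ≤ ∫⁻ y in T, ∫⁻ b, F1 (Sum.elim (fun _ : Unit => b) y) + F2 (Sum.elim (fun _ : Unit => b) y)
            ∂(gaussianReal 0 1) ∂(gpi κ) := by
          apply setLIntegral_mono' hTm
          intro y hy
          have h3 := inner_typX hO hCm hC hN hm hF k0 y hy c1 c2
          refine h3.trans (le_of_eq ?_)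
          apply lintegral_congr
          intro b
          rw [ENNReal.ofReal_add (sq_nonneg _) (sq_nonneg _)]
      _ ≤ _ := setLIntegral_le_lintegral _ _
  exact absurd hsum (not_lt.mpr hlow)

theorem taskVarX (hO : TaskOut) (hCm : TaskCmp) : TaskVar := by
  obtain ⟨pA, pb, B0, hC⟩ := exists_cstX
  have hpA := hC.hpA
  have hpb := hC.hpb
  refine ⟨pA ^ 3 * pb / 256, 1000 + 8 / pA + 4 / pb, by positivity, ?_, ?_⟩
  · have h1 : 0 < 8 / pA := by positivity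
    have h2 : 0 < 4 / pb := by positivity
    linarith
  · intro m s x q Λ hm hs hΛ hF
    have h1 : 0 < 8 / pA := by positivity
    have h2 : 0 < 4 / pb := by positivity
    have hmR : (1 : ℝ) ≤ m := by exact_mod_cast hm
    have hsR : (1 : ℝ) ≤ s := by exact_mod_cast hs
    have hn1 : (1 : ℝ) ≤ (s : ℝ) + 2 * m := by linarith
    have h3 : 1000 + 8 / pA + 4 / pb ≤ Λ := by
      refine le_trans ?_ hΛ
      nlinarith
    have h4 : 1000 * ((s : ℝ) + 2 * m) ≤ Λ := by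
      refine le_trans ?_ hΛ
      nlinarith
    have hΛ0 : 0 < Λ := by linarith
    have hN : NumX pA pb s m Λ := by
      refine ⟨by linarith, h4, ?_, ?_⟩
      · rw [div_le_div_iff₀ hΛ0 (by norm_num)]
        have h5 : 8 / pA ≤ Λ := by linarith
        rw [div_le_iff₀ hpA] at h5
        linarith
      · rw [div_le_div_iff₀ hΛ0 (by norm_num)]
        have h5 : 4 / pb ≤ Λ := by linarith
        rw [div_le_iff₀ hpb] at h5
        linarith
    exact var_altX hO hCm hC hN hm hF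

end Pool.Agent.H727R4.CLT
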